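import Pool.Agent.P.MP_5af56b_co.Kl.Defs

namespace Pool.Agent.P.MP_5af56b_co.Kl

open Finset

/-- runs -/
structure SB1 : Prop where
  app : ∀ {A B : List Lt} {x z : St} {E : List (ℕ × ℕ)}, Run (A ++ B) x z E ↔
    ∃ y E1 E2, Run A x y E1 ∧ Run B y z E2 ∧ E = E1 ++ E2
  okl : ∀ {W x z E}, Run W x z E → x.Ok
  okr : ∀ {W x z E}, Run W x z E → z.Ok
  wn : ∀ {W x z E}, Run W x z E → z.n = x.n + dn W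
  wc : ∀ {W x z E}, Run W x z E → z.c = (x.c + dc W) % 2
  len : ∀ {W x z E}, Run W x z E → E.length = cr W
  val : ∀ {W x z E}, Run W x z E → Val x.n W
  ext : ∀ {x y : St}, x.Ok → y.Ok → x.n = y.n → x.c = y.c →
    (∀ j, 0 ≤ j → j ≤ x.n → x.b j = y.b j) → x = y
  per : ∀ {x : St}, x.Ok → ∀ {i j : ℤ}, x.n ∣ i - j → x.b i = x.b j
  map2 : ∀ (φ ψ : ℕ → ℕ) {W x z E}, Run W x z E → Run W (x.mp2 φ ψ) (z.mp2 φ ψ) (mp φ E)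
  ofF : ∀ {n c : ℤ} (f : ℤ → ℕ), 0 ≤ n → n % 2 = 0 → (c = 0 ∨ c = 1) → f n = f 0 →
    (St.ofF n c f).Ok ∧ ∀ j, 0 ≤ j → j ≤ n → (St.ofF n c f).b j = f j
  ex_s : ∀ {x : St}, x.Ok → 2 ≤ x.n → ∀ (i : ℤ) (v : ℕ), ∃ y : St, y.Ok ∧ y.n = x.n ∧ y.c = x.c ∧
    y.b i = v ∧ ∀ j, ¬ x.n ∣ j - i → y.b j = x.b j
  ex_t : ∀ {x : St}, x.Ok → 2 ≤ x.n → ∀ k : ℤ, ∃ y : St, y.Ok ∧ Stp (.t k) x y []
  ex_u : ∀ {x : St}, x.Ok → ∀ (i : ℤ) (v : ℕ), 0 ≤ i → i ≤ x.n →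
    ∃ y : St, y.Ok ∧ Stp (.u i) x y [] ∧ y.b (i + 1) = v
  ex_d : ∀ {x : St}, x.Ok → ∀ i : ℤ, 0 ≤ i → i + 2 ≤ x.n → x.b i = x.b (i + 2) →
    ∃ y : St, y.Ok ∧ Stp (.d i) x y []
  ex_cl : ∀ {n c : ℤ} {W : List Lt}, 0 ≤ n → n % 2 = 0 → (c = 0 ∨ c = 1) → Val n W → dn W = 0 →
    dc W % 2 = 0 → ∃ E, Cl n c W E
  cr_app : ∀ A B : List Lt, cr (A ++ B) = cr A + cr B
  nt_app : ∀ A B : List Lt, nt (A ++ B) = nt A + nt B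
  dn_app : ∀ A B : List Lt, dn (A ++ B) = dn A + dn B
  dc_app : ∀ A B : List Lt, dc (A ++ B) = dc A + dc B
  dn_even : ∀ A : List Lt, dn A % 2 = 0
  val_app : ∀ (n : ℤ) (A B : List Lt), Val n (A ++ B) ↔ Val n A ∧ Val (n + dn A) B
  val_nn : ∀ {n : ℤ} {A : List Lt}, 0 ≤ n → Val n A → 0 ≤ n + dn A
  pl_app : ∀ (n : ℤ) (A B : List Lt), Pl n (A ++ B) ↔ Pl n A ∧ Pl (n + dn A) B
  br_dn : ∀ {A : List Lt}, IsBr A → dn A = 0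
  br_app : ∀ {A B : List Lt}, IsBr (A ++ B) ↔ IsBr A ∧ IsBr B
  br_val : ∀ {n : ℤ} {A : List Lt}, 2 ≤ n → IsBr A → Val n A
  z_dn : ∀ (n : ℤ) (ks : List ℕ), dn (Z n ks) = 0
  z_dc : ∀ (n : ℤ) (ks : List ℕ), dc (Z n ks) = wind ks
  z_nt : ∀ (n : ℤ) (ks : List ℕ), nt (Z n ks) = wind ks
  z_pl : ∀ {n : ℤ} (ks : List ℕ), 0 ≤ n → Pl n (Z n ks)
  z_app : ∀ (n : ℤ) (ks ls : List ℕ), Z n (ks ++ ls) = Z n ks ++ Z n ls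
  pk_br : ∀ (n : ℤ) (k : ℕ), IsBr (Pk n k)

/-- free labellings and the calculus of relations -/
structure SB2 : Prop where
  ex_free : ∀ {n c W E}, Cl n c W E → ∃ E', Free n c W E'
  uniq : ∀ {n c W E E'}, Free n c W E → Free n c W E' → Eqv (gr E) (gr E')
  rot : ∀ {A B : List Lt} {x y : St} {E1 E2}, Run A x y E1 → Run B y x E2 →
    Free x.n x.c (A ++ B) (E1 ++ E2) → Free y.n y.c (B ++ A) (E2 ++ E1)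
  locC : ∀ {n c : ℤ} {D D' : List Lt} (Θ : List (ℕ × ℕ) → List (ℕ × ℕ)),
    (∀ x y E, x.n = n → x.c = c → Run D x y E → Run D' x y (Θ E)) →
    (∀ x y E', x.n = n → x.c = c → Run D' x y E' → ∃ E, Run D x y E ∧ Θ E = E') →
    (∀ φ E, Θ (mp φ E) = mp φ (Θ E)) →
    (∀ X x y E Y, x.n = n → x.c = c → Run D x y E → Run X y x Y → Free n c (D ++ X) (E ++ Y) →
      Eqv (gr (E ++ Y)) (gr (Θ E ++ Y))) → RelC Eqv n c D D'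
  same : ∀ {n : ℤ} {D D' : List Lt}, dn D = dn D' → cr D = cr D' →
    (∀ x y E, x.n = n → (Run D x y E ↔ Run D' x y E)) → Eqw n D D'
  relC_symm : ∀ {n c D D'}, RelC Eqv n c D D' → RelC Eqv n c D' D
  relC_trans : ∀ {n c D D' D''}, RelC Eqv n c D D' → RelC Eqv n c D' D'' → RelC Eqv n c D D''
  relC_ctx : ∀ {R : SG → SG → Prop} {n c : ℤ} {D D' : List Lt} (A C : List Lt), (c = 0 ∨ c = 1) →
    RelC R (n + dn A) ((c + dc A) % 2) D D' → RelC R n c (A ++ D ++ C) (A ++ D' ++ C)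
  ctx : ∀ {R : SG → SG → Prop} {n : ℤ} {D D' : List Lt} (A C : List Lt),
    Rel R (n + dn A) D D' → Rel R n (A ++ D ++ C) (A ++ D' ++ C)
  vac : ∀ {R : SG → SG → Prop} {n : ℤ} {D D' : List Lt}, dn D = dn D' →
    ¬ Val n D → ¬ Val n D' → Rel R n D D'
  rel_trans : ∀ {n D D' D''}, Rel Eqv n D D' → Rel Eqv n D' D'' → Rel Eqv n D D''
  refl : ∀ n D, Eqw n D D
  symm : ∀ {n D D'}, Eqw n D D' → Eqw n D' D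
  trans : ∀ {n D D' D''}, Eqw n D D' → Eqw n D' D'' → Eqw n D D''
  ectx : ∀ {n : ℤ} {D D' : List Lt} (A C : List Lt),
    Eqw (n + dn A) D D' → Eqw n (A ++ D ++ C) (A ++ D' ++ C)
  mn_of : ∀ {n D D'}, Rel Eqv n D D' → Mnw n D D'
  mrefl : ∀ n D, Mnw n D D
  mtrans : ∀ {n D D' D''}, Mnw n D D' → Mnw n D' D'' → Mnw n D D''
  mctx : ∀ {n : ℤ} {D D' : List Lt} (A C : List Lt),
    Mnw (n + dn A) D D' → Mnw n (A ++ D ++ C) (A ++ D' ++ C)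
  rctx : ∀ {n : ℤ} {D : List Lt} (A C : List Lt), Rdc (n + dn A) D → Rdc n (A ++ D ++ C)
  rdc_of : ∀ {n D D'}, Eqw n D D' → Rdc n D' → Rdc n D
  good_of : ∀ {n D D'}, Rel Eqv n D D' → Good n D' → Good n D
  good_rdc : ∀ {n W}, Rdc n W → (∀ W', cr W' < cr W → Good n W') → Good n W
  bad_of : ∀ {n D D'}, Mnw n D D' → BadW n D' → BadW n D
  rd_of : ∀ {n D D'}, Mnw n D D' → RdW n D → RdW n D'
  good_rot : ∀ {n : ℤ} {A B : List Lt}, Good (n + dn A) (B ++ A) → Good n (A ++ B)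
  bad_rot : ∀ {n : ℤ} {A B : List Lt}, BadW (n + dn A) (B ++ A) → BadW n (A ++ B)
  good_bad : ∀ {n W}, BadW n W → Good n W
  good_rd : ∀ {n W}, RdW n W → Good n W

/-- the mirror -/
structure SB3 : Prop where
  mir_app : ∀ A B : List Lt, mir (A ++ B) = mir B ++ mir A
  mir_mir : ∀ A : List Lt, mir (mir A) = A
  cr_mir : ∀ A : List Lt, cr (mir A) = cr A
  dn_mir : ∀ A : List Lt, dn (mir A) = - dn A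
  br_mir : ∀ {A : List Lt}, IsBr A → IsBr (mir A)
  rel : ∀ {R : SG → SG → Prop} {n D D'}, Rel R n D D' → Rel R (n + dn D) (mir D) (mir D')
  eqw : ∀ {n D D'}, Eqw n D D' → Eqw (n + dn D) (mir D) (mir D')
  mnw : ∀ {n D D'}, Mnw n D D' → Mnw (n + dn D) (mir D) (mir D')
  rdc : ∀ {n D}, Rdc n D → Rdc (n + dn D) (mir D)

/-- isotopies, first part -/
structure SC1 : Prop where
  t1 : ∀ n a b : ℤ, Eqw n [.t a, .t b] [.t (a + b)]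
  t2 : ∀ {n : ℤ} (x : ℤ), 2 ≤ n → Eqw n [.t (n * x)] []
  t3 : ∀ n k i : ℤ, Eqw n [.t k, .s i] [.s (i - k), .t k]
  t4 : ∀ {n i j : ℤ}, n ∣ i - j → Eqw n [.s i] [.s j]
  s1 : ∀ {n i j : ℤ}, ¬ n ∣ i - j → ¬ n ∣ i - j - 1 → ¬ n ∣ i - j + 1 →
    Eqw n [.s i, .s j] [.s j, .s i]
  c0 : ∀ {n i : ℤ}, 2 ≤ n → 0 ≤ i → i ≤ n → Eqw n [.u i] [.t (-i), .u 0, .t i]
  c1 : ∀ {n i : ℤ}, 1 ≤ i → i + 1 ≤ n → Eqw n [.s i, .u 0] [.u 0, .s (i + 2)]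
  c2 : ∀ {n : ℤ}, 2 ≤ n → Eqw n [.u 0, .s 0] [.t 1, .u 0, .s 2, .t (-1)]

/-- isotopies, second part -/
structure SC1b : Prop where
  c4a : ∀ {n : ℤ}, 0 ≤ n → Eqw n [.u 0, .d 0] []
  c4b : ∀ {n : ℤ}, 2 ≤ n → Eqw n [.u 0, .t 1, .d 0] [.t 1]
  c4c : ∀ {n : ℤ}, 2 ≤ n → Eqw n [.u 0, .t (-1), .d 0] [.t (-1)]
  c4d : ∀ {n s : ℤ}, 2 ≤ s → s ≤ n → Eqw n [.u 0, .t s, .d 0] [.d (n - s), .u 0, .t (s - 2)]
  c5 : ∀ {n : ℤ}, 4 ≤ n → Eqw n [.d 0, .t 2, .d 0] [.t 2, .d 0, .d 0]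

/-- moves -/
structure SC2 : Prop where
  s2 : ∀ {n : ℤ} (i : ℤ), 4 ≤ n → Eqw n [.s i, .s (i + 1), .s i] [.s (i + 1), .s i, .s (i + 1)]
  s3 : ∀ n i : ℤ, Rel Eqv n [.s i, .s i] [.s i]
  c3 : ∀ n : ℤ, Rel Eqv n [.u 0, .s 1] [.u 0]

/-- smoothings -/
structure SC3 : Prop where
  sm : ∀ {n c i : ℤ} {X : List Lt} {a b : ℕ} {E : List (ℕ × ℕ)}, Free n c (.s i :: X) ((a, b) :: E) →
    (Free n c X E ∧ Free n c (ee i ++ X) (mp (ren a b) E)) ∨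
    (Free n c X (mp (ren a b) E) ∧ Free n c (ee i ++ X) E)
  mn1 : ∀ {n : ℤ} (i : ℤ), 2 ≤ n → Mnw n [.s i] []
  mn2 : ∀ {n : ℤ} (i : ℤ), 2 ≤ n → Mnw n [.s i] (ee i)
  mn3 : ∀ {n : ℤ}, 2 ≤ n → Mnw n [.s 1] [.d 0, .u 0]

/-- minors of closed words -/
def SJ : Prop := (∀ n W, Good n W) → ∀ n c W E, Free n c W E → ∀ G, SMinor G (gr E) → GoodG G

/-- affine permutations -/
structure SP : Prop where
  sw_sw : ∀ {n : ℤ} (i j : ℤ), 2 ≤ n → sw n i (sw n i j) = j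
  sw_ap : ∀ {n : ℤ} (i : ℤ), 2 ≤ n → AP n (sw n i)
  sw_congr : ∀ {n i i' : ℤ}, n ∣ i - i' → sw n i = sw n i'
  sw_lt : ∀ {n : ℤ} (i : ℤ) {a b : ℤ}, 2 ≤ n → a < b →
    sw n i a < sw n i b ∨ (b = a + 1 ∧ n ∣ b - i)
  tr_ap : ∀ {n a b : ℤ}, 0 < n → ¬ n ∣ a - b → AP n (tr n a b)
  pw_app : ∀ (n : ℤ) (A B : List Lt) (j : ℤ), pw n (A ++ B) j = pw n B (pw n A j)
  pw_ap : ∀ {n : ℤ} (U : List Lt), 2 ≤ n → AP n (pw n U)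
  pw_mir : ∀ {n : ℤ} (U : List Lt) (j : ℤ), 2 ≤ n → pw n (mir U) (pw n U j) = j
  pw_mir' : ∀ {n : ℤ} (U : List Lt) (j : ℤ), 2 ≤ n → pw n U (pw n (mir U) j) = j
  mul : ∀ {n : ℤ} {w : ℤ → ℤ}, AP n w → ∀ j k, w (j + n * k) = w j + n * k
  dvd : ∀ {n : ℤ} {w : ℤ → ℤ}, AP n w → ∀ i j, n ∣ w i - w j ↔ n ∣ i - j
  ext : ∀ {n : ℤ} {w w' : ℤ → ℤ}, 0 < n → AP n w → AP n w' →
    (∀ j, 0 ≤ j → j < n → w j = w' j) → w = w'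
  comp : ∀ {n : ℤ} {w w' : ℤ → ℤ}, AP n w → AP n w' → AP n (fun j => w (w' j))
  inv : ∀ {n : ℤ} {w : ℤ → ℤ}, AP n w → ∃ v, AP n v ∧ (∀ j, v (w j) = j) ∧ ∀ j, w (v j) = j
  shift : ∀ n k : ℤ, AP n (fun j => j + k)
  cut_ap : ∀ {n : ℤ} {w : ℤ → ℤ} (a b : ℤ), AP n w → AP n (cut w a b)
  mono : ∀ {n : ℤ} {w : ℤ → ℤ}, AP n w → (∀ i, w (i - 1) < w i) → ∀ j, w j = j + w 0
  sumper : ∀ {n : ℤ} {u : ℤ → ℤ} (f : ℤ → ℤ), 0 < n → AP n u → (∀ j, f (j + n) = f j) →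
    ∑ i ∈ Ico 0 n, f (u i) = ∑ i ∈ Ico 0 n, f i
  dg_sum : ∀ {n : ℤ} {w : ℤ → ℤ}, 0 < n → AP n w → n * dg n w = ∑ i ∈ Ico 0 n, (w i - i)
  dg_pw : ∀ {n : ℤ} (U : List Lt), 2 ≤ n → dg n (pw n U) = dc U
  dg_cut : ∀ {n : ℤ} {w : ℤ → ℤ} (a b : ℤ), 0 < n → AP n w → dg n (cut w a b) = dg n w + a - b
  rr_succ : ∀ {n : ℤ} {w : ℤ → ℤ} (a b : ℤ), 0 < n → AP n w →
    rr n w (a + 1) b = rr n w a b + if b ≤ w a then 1 else 0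
  rr_zero : ∀ {n : ℤ} {w : ℤ → ℤ} (a b : ℤ), 0 < n → AP n w →
    (rr n w a b = 0 ↔ ∀ k, k < a → w k < b)
  rr_nn : ∀ (n : ℤ) (w : ℤ → ℤ) (a b : ℤ), 0 ≤ rr n w a b
  tc_cut : ∀ {n : ℤ} {w : ℤ → ℤ} (a b : ℤ), 0 < n → AP n w →
    tc n (cut w a b) = 2 * rr n w a b - (dg n w + a - b)
  tc_ge : ∀ (n : ℤ) (w : ℤ → ℤ), |dg n w| ≤ tc n w
  lip : ∀ {n : ℤ} {w : ℤ → ℤ} (a b b' : ℤ), 0 < n → AP n w →
    tc n (cut w a b') - |b - b'| ≤ tc n (cut w a b)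

/-- braid words -/
structure SD1 : Prop where
  d1 : ∀ {n : ℤ} {U : List Lt}, 2 ≤ n → n % 2 = 0 → IsBr U → Rdc n U ∨ RedW n U
  d2 : ∀ {n i : ℤ} {U : List Lt}, 2 ≤ n → n % 2 = 0 → IsBr U → RedW n U →
    pw n U i < pw n U (i - 1) →
    ∃ U1, IsBr U1 ∧ RedW n (.s i :: U1) ∧ pw n (.s i :: U1) = pw n U ∧ Eqw n U (.s i :: U1)
  d3 : ∀ {n i : ℤ} {U : List Lt}, 2 ≤ n → n % 2 = 0 → IsBr U → pw n U i < pw n U (i - 1) →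
    Rdc n U ∨ ∃ U1, IsBr U1 ∧ pw n (.s i :: U1) = pw n U ∧ Eqw n U (.s i :: U1)
  d3' : ∀ {n i a b : ℤ} {U : List Lt}, 2 ≤ n → n % 2 = 0 → IsBr U → a < b → pw n U a = i →
    pw n U b = i - 1 → Rdc n U ∨ ∃ U1, IsBr U1 ∧ pw n (U1 ++ [.s i]) = pw n U ∧ Eqw n U (U1 ++ [.s i])
  d4 : ∀ {n : ℤ} {U V : List Lt}, 2 ≤ n → n % 2 = 0 → IsBr U → IsBr V → RedW n U → RedW n V →
    pw n U = pw n V → Eqw n U V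
  d4' : ∀ {n : ℤ} {U V : List Lt}, 2 ≤ n → n % 2 = 0 → IsBr U → IsBr V → RedW n V →
    pw n U = pw n V → Rdc n U ∨ Eqw n U V
  nft : ∀ {n : ℤ} {U : List Lt}, 2 ≤ n → IsBr U →
    ∃ (l : List ℤ) (s : ℤ), Eqw n U (l.map Lt.s ++ [.t s])

structure SD2 : Prop where
  d5 : ∀ {n : ℤ} {U : List Lt}, 2 ≤ n → n % 2 = 0 → IsBr U →
    ∃ U0, IsBr U0 ∧ RedW n U0 ∧ pw n U0 = pw n U ∧ Mnw n U U0 ∧ cr U0 ≤ cr U ∧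
      (cr U0 = cr U → RedW n U)
  d5b : ∀ {n i : ℤ} {U : List Lt}, 2 ≤ n → n % 2 = 0 → IsBr U → pw n U i < pw n U (i - 1) →
    ∃ U1, IsBr U1 ∧ pw n (.s i :: U1) = pw n U ∧ Mnw n U (.s i :: U1)
  d5t : ∀ {n i a b : ℤ} {U : List Lt}, 2 ≤ n → n % 2 = 0 → IsBr U → a < b → pw n U a = i →
    pw n U b = i - 1 → ∃ U1, IsBr U1 ∧ pw n (U1 ++ [.s i]) = pw n U ∧ Mnw n U (U1 ++ [.s i])
  d6 : ∀ {n : ℤ} {U V : List Lt}, 2 ≤ n → n % 2 = 0 → IsBr U → IsBr V → RedW n V →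
    pw n U = pw n V → cr U ≤ cr V → Eqw n U V
  se : ∀ {n a b : ℤ} {U : List Lt}, 2 ≤ n → IsBr U → a < b → pw n U b < pw n U a →
    ∃ U', IsBr U' ∧ cr U' < cr U ∧ Mnw n U U' ∧ pw n U' = fun j => pw n U (tr n a b j)
  br_t : ∀ {n : ℤ} {U : List Lt}, 2 ≤ n → IsBr U → Mnw n U [.t (dc U)]

/-- rank criterion -/
def SRC : Prop := ∀ {n : ℤ} {U : List Lt} {g : ℤ → ℤ}, 2 ≤ n → IsBr U → RedW n U → AP n g →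
  dg n g = dg n (pw n U) → (∀ a b, rr n g a b ≤ rr n (pw n U) a b) →
  ∃ U', IsBr U' ∧ RedW n U' ∧ pw n U' = g ∧ Mnw n U U'

/-- a cup followed by a braid -/
structure SE0 : Prop where
  r1 : ∀ {n : ℤ} {U : List Lt}, 0 ≤ n → n % 2 = 0 → IsBr U → pw (n + 2) U 1 < pw (n + 2) U 0 →
    Rdc n (.u 0 :: U)
  dcr : ∀ {n : ℤ} {U : List Lt}, 2 ≤ n → n % 2 = 0 → IsBr U → pw (n + 2) U 2 < pw (n + 2) U 0 →
    pw (n + 2) U 2 < pw (n + 2) U 1 → Rdc n (.u 0 :: U)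
  dcl : ∀ {n : ℤ} {U : List Lt}, 2 ≤ n → n % 2 = 0 → IsBr U → pw (n + 2) U 0 < pw (n + 2) U (-1) →
    pw (n + 2) U 1 < pw (n + 2) U (-1) → Rdc n (.u 0 :: U)
  dcr' : ∀ {n p q r : ℤ} {U : List Lt}, 4 ≤ n → n % 2 = 0 → IsBr U → pw n U p = 0 → pw n U q = 1 →
    pw n U r = 2 → r < p → r < q → Rdc n (U ++ [.d 0])
  c0' : ∀ {n i : ℤ}, 4 ≤ n → 0 ≤ i → i + 2 ≤ n → Eqw n [.d i] [.t (-i), .d 0, .t i]
  c1' : ∀ {n i : ℤ}, 1 ≤ i → i + 3 ≤ n → Eqw n [.s (i + 2), .d 0] [.d 0, .s i]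
  c2' : ∀ {n : ℤ}, 4 ≤ n → Eqw n [.s 0, .d 0] [.t 1, .s 2, .d 0, .t (-1)]
  c2'' : ∀ {n : ℤ}, 4 ≤ n → Eqw n [.s 2, .d 0] [.t (-1), .s 0, .d 0, .t 1]
  r1' : ∀ {n : ℤ}, 2 ≤ n → Rdc n [.s 1, .d 0]
  pk_pw : ∀ {n : ℤ} (k : ℕ), 0 ≤ n → pw (n + 2) (Pk n k) = rho n k
  pk_red : ∀ {n : ℤ} (k : ℕ), 0 ≤ n → RedW (n + 2) (Pk n k)

/-- what a cup, a braid and a cap simplify to -/
def Out (n : ℤ) (D : List Lt) : Prop :=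
  Rdc n D ∨ (∃ V, IsBr V ∧ Eqw n D V) ∨
    (∃ V V' k, IsBr V ∧ IsBr V' ∧ Eqw n D (V ++ Hw n k ++ V')) ∨
    (2 ≤ n ∧ ∃ V V' V'', IsBr V ∧ IsBr V' ∧ IsBr V'' ∧
      Eqw n D (V ++ .d 0 :: (V' ++ .u 0 :: V'')))

/-- normal form after a cup: the strands other than the right leg keep their order -/
def NFp (n : ℤ) (w : ℤ → ℤ) : Prop :=
  w 0 < w 1 ∧ ∀ p q, ¬ (n + 2) ∣ p - 1 → ¬ (n + 2) ∣ q - 1 → p < q → w p < w q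

structure SE1 : Prop where
  nf : ∀ {n : ℤ} {U : List Lt}, 0 ≤ n → n % 2 = 0 → IsBr U → Rdc n (.u 0 :: U) ∨
    ∃ V U', IsBr V ∧ IsBr U' ∧ cr U' ≤ cr U ∧ NFp n (pw (n + 2) U') ∧
      Eqw n (.u 0 :: U) (V ++ .u 0 :: U')
  out_ctx : ∀ {n : ℤ} {D D' V V' : List Lt}, IsBr V → IsBr V' → dn D' = 0 →
    Eqw n D (V ++ D' ++ V') → Out n D' → Out n D
  base : ∀ {n : ℤ} (s : ℤ), 0 ≤ n → n % 2 = 0 → Out n [.u 0, .t s, .d 0]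

def SE2 : Prop := ∀ {n : ℤ} {U : List Lt}, 0 ≤ n → n % 2 = 0 → IsBr U → Out n (.u 0 :: (U ++ [.d 0]))

structure SE3 : Prop where
  cm : ∀ {n : ℤ} (k : ℕ) {V : List Lt}, 0 ≤ n → n % 2 = 0 → IsBr V →
    Eqw n (V ++ Hw n k) (Hw n k ++ V)
  cmz : ∀ {n : ℤ} (ks : List ℕ) {V : List Lt}, 0 ≤ n → n % 2 = 0 → IsBr V →
    Eqw n (V ++ Z n ks) (Z n ks ++ V)
  hd : ∀ {n : ℤ} (k : ℕ), 2 ≤ n → n % 2 = 0 → Rdc n (Hw n k ++ [.d 0])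
  uh : ∀ {n : ℤ} (k : ℕ), 0 ≤ n → n % 2 = 0 → Rdc n (.u 0 :: Hw (n + 2) k)

/-- reducible, or equivalent to caps, horizontal curves, cups -/
def NFm (n : ℤ) (D : List Lt) : Prop :=
  Rdc n D ∨ ∃ A ks C, DownW A ∧ UpW C ∧ 0 ≤ n + dn A ∧ Eqw n D (A ++ Z (n + dn A) ks ++ C)

/-- global normal form -/
structure SE4 : Prop where
  nf : ∀ {n : ℤ} {W : List Lt}, 0 ≤ n → n % 2 = 0 → Plain W → Val n W → NFm n W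
  up : ∀ {C : List Lt}, UpW C → 0 ≤ dn C ∧ (dn C = 0 → IsBr C)
  down : ∀ {C : List Lt}, DownW C → dn C ≤ 0 ∧ (dn C = 0 → IsBr C)

structure SH : Prop where
  h_t : ∀ {n : ℤ}, 2 ≤ n → Mnw n (Hw n 0) [.t 1]
  h_half : ∀ {n e : ℤ}, 2 ≤ n → n % 2 = 0 → (e = 0 ∨ e = 1) → Mnw n (Hw n 0) (half n e ++ [.t 1])
  z_split : ∀ {n : ℤ} (ks : List ℕ), 0 ≤ n → Mnw n (Z n ks) (Z n (List.replicate (wind ks) 0))
  z_max : ∀ {n : ℤ} (ks : List ℕ), 0 ≤ n → Mnw n (ZM n (wind ks)) (Z n ks)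
  z4 : ∀ {n : ℤ} {B : List Lt} (ks : List ℕ), 2 ≤ n → n % 2 = 0 → IsBr B → 4 ≤ wind ks →
    ∃ s, Mnw n (B ++ Z n ks) (.t s :: Z n [0, 0, 0, 0])

structure SI : Prop where
  tw : ∀ {n : ℤ} {W : List Lt}, n ≤ 2 → Bnd 4 n W → RdW n W
  low : ∀ {n : ℤ} {B : List Lt} (ks : List ℕ), n ≤ 2 → IsBr B → RdW n (B ++ Z n ks ++ [.r])

/-- finite tables -/
structure ST : Prop where
  t0 : BadW 6 (tgt 6 6 0)
  t1 : ∀ n : ℤ, n = 6 ∨ n = 8 → BadW n (tgt n 5 1)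
  t2 : ∀ n : ℤ, n = 6 ∨ n = 8 → BadW n (tgt n 4 2)
  t3 : ∀ n : ℤ, n = 6 ∨ n = 8 → BadW n (tgt n 3 3)
  t4 : ∀ n : ℤ, n = 4 ∨ n = 6 ∨ n = 8 → BadW n (tgt n 0 4)
  tx : BadW 8 (.x :: Z 8 [0, 0])
  m2 : ∀ c l s ks E, l ∈ S4 → wind ks ≤ 3 → Free 4 c (w4 c l ++ .t s :: (Z 4 ks ++ [.r])) E →
    GoodG (gr E)

/-- reflections and crosscaps commute with the other letters -/
structure SN : Prop where
  ex_r : ∀ {x : St}, x.Ok → ∃ y : St, y.Ok ∧ Stp .r x y []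
  tr : ∀ n k : ℤ, Eqw n [.t k, .r] [.r, .t (-k)]
  rd : ∀ n i : ℤ, Eqw n [.r, .d i] [.d (n - 2 - i), .r]
  rx : Eqw 8 [.r, .x] [.x]
  tx : ∀ k : ℤ, Eqw 8 [.t (2 * k), .x] [.x]
  txt : ∀ k : ℤ, Eqw 8 [.x] [.t k, .x, .t (-k)]
  nrm : ∀ (n : ℤ) {W : List Lt}, Lt.x ∉ W →
    ∃ W0, Plain W0 ∧ (Eqw n W W0 ∨ Eqw n W (W0 ++ [.r]))

/-- plain words live on the torus -/
def STr : Prop := ∀ (n : ℤ) (W : List Lt), Plain W → Good n W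

/-- disjoint unions -/
def SDU : Prop := ∀ {A B : List Lt}, dc A % 2 = 0 → Good 8 (.x :: A) → Good 8 (.x :: B) →
  Good 8 (.x :: (A ++ .x :: B))

/-- four live labels -/
def SW8 : Prop := ∀ {W : List Lt}, Bnd 8 8 W → RdW 8 (.x :: W)

/-- the label occurs in the edge list -/
def occ (E : List (ℕ × ℕ)) (v : ℕ) : Prop := ∃ w, (v, w) ∈ E ∨ (w, v) ∈ E

/-- a graph on the terminals `0, 1, 2, 3` and the inner vertex `4`; the flags say that the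
terminals `0, 2` (or `1, 3`) are still the same vertex -/
structure TG where
  sa : Bool
  sb : Bool
  E : List (ℕ × ℕ)

/-- `G` is equivalent to the state `σ` on the terminals `a` together with the edges `Y` -/
def Sem (σ : TG) (a : ℕ → ℕ) (Y : List (ℕ × ℕ)) (G : SG) : Prop :=
  (σ.sa = true → a 2 = a 0) ∧ (σ.sb = true → a 3 = a 1) ∧ ∃ z, (∀ j, j < 4 → z ≠ a j) ∧ ¬ occ Y z ∧
    Eqv G (gr (mp (fun j => if j < 4 then a j else z) σ.E ++ Y))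

/-- the flag of terminal `i` -/
def TG.fl (σ : TG) (i : ℕ) : Bool := if i % 2 = 0 then σ.sa else σ.sb

/-- the finite automaton of four-terminal graphs -/
def SAutA : Prop := ∃ AS : List TG, (⟨true, true, []⟩ : TG) ∈ AS ∧
  (∀ σ ∈ AS, ∀ i a Y G, i < 4 → Sem σ a ((a i, a ((i + 1) % 4)) :: Y) G →
    ∃ σ' ∈ AS, σ'.sa = σ.sa ∧ σ'.sb = σ.sb ∧ Sem σ' a Y G) ∧
  (∀ σ ∈ AS, ∀ i a v Y G, i < 4 → Sem σ a ((a i, v) :: Y) G →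
    (σ.fl i = false → ¬ occ Y (a i) ∧ a i ≠ v ∧ ∀ j, j < 4 → j ≠ i → a j ≠ a i) →
    ∃ σ' ∈ AS, σ'.fl i = false ∧ σ'.fl (i + 1) = σ.fl (i + 1) ∧
      Sem σ' (Function.update a i v) Y G) ∧
  ∀ σ ∈ AS, ∀ (a : ℕ → ℕ) (p q : ℕ) (Y : List (ℕ × ℕ)) (G : SG) (φ : ℕ → ℕ), Sem σ a Y G →
    (∀ e, e ∈ Y → ∃ j, j < 4 ∧ (e = (a j, p) ∨ e = (p, a j) ∨ e = (a j, q) ∨ e = (q, a j))) →
    (∀ j, j < 4 → ((a j, p) ∈ Y ∨ (p, a j) ∈ Y) ∧ ((a j, q) ∈ Y ∨ (q, a j) ∈ Y)) →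
    φ (a 0) = 0 → φ (a 1) = 1 → φ (a 2) = (if σ.sa then 0 else 2) →
    φ (a 3) = (if σ.sb then 1 else 3) → φ p = 6 → φ q = 7 → GoodG G

def SAut : Prop := ∀ {B : List Lt}, IsBr B → Good 8 (.x :: (B ++ Hw 8 0))

/-- words with a crosscap letter -/
def SXM : Prop := ∀ N : ℕ, (∀ n' W', cr W' < N → Good n' W') →
  ∀ (n : ℤ) (W : List Lt), cr W ≤ N → Lt.x ∈ W → Good n W

/-- the half twist placed around the fixed point of the reflection -/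
def gw (q : ℕ) (e : ℤ) : List Lt := .t ((q + e) / 2) :: (w0 q ++ [.t (e - (q + e) / 2)])

def SKa : Prop := ∀ {n e : ℤ} {q : ℕ} {w : ℤ → ℤ}, 2 ≤ n → (q : ℤ) ≤ n → (e = 0 ∨ e = 1) →
  (q + e) % 2 = 0 → AP n w → dg n w = e → (∀ b, (q : ℤ) ≤ tc n (cut w (-b) b)) →
  IsBr (w0 q) ∧ dc (w0 q) = 0 ∧ RedW n (gw q e) ∧ ∀ a b, rr n (pw n (gw q e)) a b ≤ rr n w a b

structure SKb : Prop where
  big : ∀ {n : ℤ} {B : List Lt} (ks : List ℕ), 2 ≤ n → n % 2 = 0 → IsBr B → 4 ≤ wind ks →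
    BadW n (tgt n 0 4) → BadW n (B ++ Z n ks ++ [.r])
  one : ∀ {n : ℤ} {B : List Lt} (ks : List ℕ), 6 ≤ n → n % 2 = 0 → IsBr B → wind ks ≤ 3 →
    (∀ b, 6 ≤ tc n (cut (pw n B) (-b) b) + wind ks) → BadW n (tgt n (6 - wind ks) (wind ks)) →
    BadW n (B ++ Z n ks ++ [.r])

/-- two mirror pairs of strands can be removed -/
def SKS : Prop := ∀ {n : ℤ} (q N : ℕ), (q : ℤ) ≤ n → 2 ≤ n → n % 2 = 0 → 1 ≤ N →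
  BadW n (tgt n q N) → BadW (n + 4) (tgt (n + 4) q N)

def SKW : Prop := ∀ {n : ℤ}, 6 ≤ n → BadW 6 (tgt 6 6 0) → BadW n (tgt n 6 0)

/-- two short one-sided cuts can be uncrossed -/
def SUn : Prop := ∀ {n K : ℤ} {w : ℤ → ℤ}, 0 < n → AP n w → (∃ b, tc n (cut w (-b) b) ≤ K) →
  (∃ b, tc n (cut w (n - b) b) ≤ K) → ∃ b0 b1, b0 ≤ b1 ∧ b1 ≤ b0 + n ∧
    tc n (cut w (-b0) b0) ≤ K ∧ tc n (cut w (n - b1) b1) ≤ K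

/-- braids with two tight seams -/
def SG1 : Prop := ∀ {n m0 m1 : ℤ} {U : List Lt}, 2 ≤ n → n % 2 = 0 → IsBr U → 0 ≤ m0 → m0 ≤ n →
  0 ≤ m1 → m1 ≤ n → Rdc n U ∨ ∃ V, Eqw n U (fg V) ∧ V2 V n m0 n m1 ∧
    (nt (fg V) : ℤ) = tc n (pw n U) ∧ (nm V : ℤ) = tc n (cut (pw n U) m0 m1)

structure SV : Prop where
  app : ∀ {A B : List L2} {n m n' m' n'' m'' : ℤ}, V2 A n m n' m' → V2 B n' m' n'' m'' →
    V2 (A ++ B) n m n'' m''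
  fg_app : ∀ A B : List L2, fg (A ++ B) = fg A ++ fg B
  nm_app : ∀ A B : List L2, nm (A ++ B) = nm A + nm B
  z : ∀ {n m : ℤ} (ks : List ℕ), 0 ≤ m → m ≤ n →
    ∃ V, fg V = Z n ks ∧ V2 V n m n m ∧ nm V = wind ks
  par : ∀ {V : List L2} {n m n' m' : ℤ}, V2 V n m n' m' →
    ((nt (fg V) : ℤ) - dc (fg V)) % 2 = 0 ∧ (m' - m - dc (fg V) - nm V) % 2 = 0
  pad : ∀ {n m : ℤ} (a b : ℕ), 2 ≤ n → 0 ≤ m → m ≤ n →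
    ∃ V, V2 V n m n m ∧ Eqw n (fg V) [] ∧ nt (fg V) = 2 * a ∧ nm V = 2 * b

def STa : Prop := ∀ {m0 m1 : ℕ} {c : ℤ} {V : List L2} {E : List (ℕ × ℕ)},
  V2 V (m0 + m1) m0 (m0 + m1) m1 → nt (fg V) = 4 → nm V = 4 →
  Cl (m0 + m1) c (fg V ++ [.r]) E → Cl 8 c (rotK m0 m1 V) (swE (bsK V m0 c) E)

def STb : Prop := ∀ {m0 m1 : ℕ} {c : ℤ} {V : List L2} {E' : List (ℕ × ℕ)}, (m0 + m1) % 2 = 0 →
  V2 V (m0 + m1) m0 (m0 + m1) m1 → nt (fg V) = 4 → nm V = 4 → Cl 8 c (rotK m0 m1 V) E' →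
  ∃ E, Cl (m0 + m1) c (fg V ++ [.r]) E ∧ E' = swE (bsK V m0 c) E

def STc : Prop := ∀ {m0 m1 : ℕ} {V : List L2}, V2 V (m0 + m1) m0 (m0 + m1) m1 → nt (fg V) = 4 →
  nm V = 4 → (∀ W, cr W ≤ cr (fg V) → Good 8 (.x :: W)) → Good (m0 + m1) (fg V ++ [.r])

def SM2 : Prop := ∀ {B : List Lt} (ks : List ℕ), IsBr B →
  (∀ W', cr W' < cr B + cr (Z 4 ks) → Good 4 W') → Good 4 (B ++ Z 4 ks ++ [.r])

def SKM : Prop := ∀ (N : ℕ) {n : ℤ} {B : List Lt} (ks : List ℕ), 6 ≤ n → n % 2 = 0 → IsBr B →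
  (∀ n' W', cr W' < N → Good n' W') → (∀ W', cr W' ≤ N → Good 8 (.x :: W')) →
  cr B + cr (Z n ks) ≤ N → Good n (B ++ Z n ks ++ [.r])

def SAll : Prop := ∀ n W, Good n W

def SGs : Prop := ∀ {m : ℕ} {E : List (ℕ × ℕ)}, 2 ≤ m →
  Free (2 * m) 0 (grid (2 * m) (2 * m) ++ [.r]) E → SMinor (gr (kgE m)) (gr E)

end Pool.Agent.P.MP_5af56b_co.Kl
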