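import Pool.Agent.P.MP_5af56b_co.Lift2
import Pool.Agent.P.MP_5af56b_co.Kl.Stmt

namespace Pool.Agent.P.MP_5af56b_co.Kl

open Pool.Agent.P.MP_5af56b_co.Tor (PetersenFamily k55m)

theorem r_low (b1 : SB1) (b2 : SB2) {n : ℤ} (hn : n ≤ 2) : Eqw n [.r] [] := by
  refine b2.same rfl rfl fun x y E hx => ⟨?_, ?_⟩
  · rintro ⟨ox, z, e, E', ⟨h1, h2, h3, rfl⟩, ⟨oz, rfl, rfl⟩, rfl⟩
    refine ⟨ox, b1.ext oz ox h1 h2 fun j j0 j1 => ?_, rfl⟩
    have := ox.1
    have := ox.2.1
    rw [h3]
    by_cases h : x.n = 0
    · rw [ox.2.2.2.2 h, ox.2.2.2.2 h j]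
    · exact b1.per ox ⟨-j, by rw [show x.n = 2 by omega]; ring⟩
  · rintro ⟨ox, rfl, rfl⟩
    refine ⟨ox, y, [], [], ⟨rfl, rfl, fun j => ?_, rfl⟩, ⟨ox, rfl, rfl⟩, rfl⟩
    have := ox.1
    have := ox.2.1
    by_cases h : y.n = 0
    · rw [ox.2.2.2.2 h, ox.2.2.2.2 h (-j)]
    · exact b1.per ox ⟨j, by rw [show y.n = 2 by omega]; ring⟩

theorem pAll (b1 : SB1) (b2 : SB2) (e3 : SE3) (e4 : SE4) (nn : SN) (tr' : STr) (xm : SXM)
    (m2 : SM2) (km : SKM) : SAll := by
  have key : ∀ (N : ℕ) (n : ℤ) (W : List Lt), cr W ≤ N → Good n W := by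
    intro N
    induction N using Nat.strong_induction_on with
    | h N ih =>
      have H1 : ∀ n' W', cr W' < N → Good n' W' := fun n' W' h => ih _ h n' W' le_rfl
      have HX := xm N H1
      have H2 : ∀ (m : ℕ) (n : ℤ), n < m → ∀ W, cr W ≤ N → Good n W := by
        intro m
        induction m with
        | zero =>
          rintro n hn W - c E ⟨⟨b, hb⟩, -⟩
          have : 0 ≤ n := (b1.okl hb).1
          omega
        | succ m ihm =>
          intro n hn W hW
          by_cases hx : Lt.x ∈ W
          · exact HX n W hW hx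
          obtain ⟨W0, hp, h | h⟩ := nn.nrm n hx
          · exact b2.good_of h.2 (tr' n W0 hp)
          refine b2.good_of h.2 ?_
          have hc : cr W0 ≤ N := by
            have := h.1
            rw [b1.cr_app] at this
            omega
          intro c E hF
          obtain ⟨b, hr⟩ := hF.1
          have h0 : 0 ≤ n := (b1.okl hr).1
          have he : n % 2 = 0 := (b1.okl hr).2.1
          have hd : dn W0 = 0 := by
            have : n = n + dn (W0 ++ [.r]) := b1.wn hr
            rw [b1.dn_app] at this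
            simp only [dn, dl] at this
            omega
          have hv : Val n W0 := ((b1.val_app n W0 [.r]).1 (b1.val hr)).1
          refine (?_ : Good n (W0 ++ [.r])) c E hF
          by_cases h2 : n ≤ 2
          · have g1 := b2.ectx (n := n) W0 [] (by rw [hd, add_zero]; exact r_low b1 b2 h2)
            simp only [List.append_nil] at g1
            exact b2.good_of g1.2 (tr' n W0 hp)
          rcases e4.nf h0 he hp hv with g | ⟨A, ks, C, hA, hC, g0, g⟩
          · have g1 := b2.rctx (n := n) [] [.r] (by simpa [dn] using g)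
            refine b2.good_rdc (by simpa using g1) fun W' hW' => H1 n W' ?_
            rw [b1.cr_app] at hW'
            simp only [cr] at hW'
            omega
          have g1 := b2.ectx (n := n) [] [.r] (by simpa [dn] using g)
          rw [List.nil_append, List.nil_append] at g1
          refine b2.good_of g1.2 ?_
          have e1 : dn A + dn C = 0 := by
            have := g.2.1
            rw [b1.dn_app, b1.dn_app, b1.z_dn] at this
            omega
          have e2 : cr A + cr (Z (n + dn A) ks) + cr C ≤ N := by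
            have := g.1
            rw [b1.cr_app, b1.cr_app] at this
            omega
          rcases (e4.down hA).1.eq_or_lt with hA0 | hA0
          swap
          · rw [List.append_assoc, List.append_assoc]
            refine b2.good_rot (ihm _ (by omega) _ ?_)
            simp only [b1.cr_app, cr]
            omega
          have hAb := (e4.down hA).2 hA0
          have hCb := (e4.up hC).2 (by omega)
          rw [hA0, add_zero] at e2 ⊢
          have g2 := b2.ectx (n := n) A [.r]
            (by rw [hA0, add_zero]; exact b2.symm (e3.cmz ks h0 he hCb))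
          rw [← List.append_assoc A C] at g2
          refine b2.good_of g2.2 ?_
          have hB : IsBr (A ++ C) := b1.br_app.2 ⟨hAb, hCb⟩
          have hle : cr (A ++ C) + cr (Z n ks) ≤ N := by
            rw [b1.cr_app]
            omega
          by_cases h4 : n = 4
          · subst h4
            exact m2 ks hB fun W' h => H1 4 W' (h.trans_le hle)
          exact km N ks (by omega) he hB H1
            (fun W' h => HX 8 _ (by simpa [cr] using h) List.mem_cons_self) hle
      exact fun n W hW => H2 (n.toNat + 1) n (by omega) W hW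
  exact fun n W => key _ n W le_rfl

theorem grid_s (n : ℤ) (K : ℕ) : ∀ g ∈ grid n K, ∃ i, g = Lt.s i := by
  intro g hg
  simp only [grid, half, List.mem_flatten, List.mem_map] at hg
  obtain ⟨_, ⟨j, _, rfl⟩, hg⟩ := hg
  obtain ⟨i, _, rfl⟩ := List.mem_map.1 hg
  exact ⟨_, rfl⟩

theorem dc_s : ∀ W : List Lt, (∀ g ∈ W, ∃ i, g = Lt.s i) → dc W = 0
  | [], _ => rfl
  | g :: W, h => by
    obtain ⟨i, rfl⟩ := h g List.mem_cons_self
    exact dc_s W fun g hg => h g (List.mem_cons_of_mem _ hg)

theorem pRes (a1 : SA1) (a2 : SA2) (b1 : SB1) (b2 : SB2) (j : SJ) (gs : SGs) (fin : SFin)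
    (fam : SFam) (all : SAll) (G : MG) (hK : Kleinian G) (hM : MinNonRed G) :
    ∃ H, (PetersenFamily H ∨ H = k55m) ∧ Iso G H := by
  obtain ⟨m, hm, hG⟩ := hK
  have h : SMinor (si G) (gr (kgE m)) :=
    (a1.ext fun _ _ => ofList_E : si (klein m) = gr (kgE m)) ▸ fin.sm hG
  have hb : IsBr (grid (2 * m) (2 * m)) := fun g hg => (grid_s _ _ g hg).imp fun _ => Or.inl
  obtain ⟨E, hE⟩ := b1.ex_cl (n := 2 * m) (c := 0) (W := grid (2 * m) (2 * m) ++ [.r]) (by omega)
    (by omega) (Or.inl rfl) ((b1.val_app _ _ [.r]).2 ⟨b1.br_val (by omega) hb, trivial⟩)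
    (by rw [b1.dn_app, b1.br_dn hb]; rfl) (by rw [b1.dc_app, dc_s _ (grid_s _ _)]; rfl)
  obtain ⟨E', hE'⟩ := b2.ex_free hE
  rcases j all _ _ _ _ hE' _ (a1.trans h (gs (by omega) hE')) with ⟨k, hk⟩ | ⟨L, hL, hm'⟩
  · exact absurd (reducible_of_red k G hM.1 hk) hM.2.1
  · refine ⟨_, (fam.mem L hL).1, by_contra fun hI =>
      hM.2.2 _ (fin.ms (fam.mem L hL).2.1 hm') hI ⟨(fam.mem L hL).2.2, ?_⟩⟩
    exact fun hR => a2.notRd (fin.rd hR) (fam.bad _ (fam.mem L hL).1)

end Pool.Agent.P.MP_5af56b_co.Kl
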