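import Pool.Agent.P.MP_5af56b_co.Kl.Stmt

namespace Pool.Agent.P.MP_5af56b_co.Kl

namespace Autaux

/-- runs on four vertex labels: a rail (`true`) or a rung (`false`) -/
def AR : List (Bool × ℕ) → (ℕ → ℕ) → (ℕ → ℕ) → List (ℕ × ℕ) → Prop
  | [], a, b, E => b = a ∧ E = []
  | (true, i) :: L, a, b, E => ∃ v E', E = (a i, v) :: E' ∧ AR L (Function.update a i v) b E'
  | (false, i) :: L, a, b, E => ∃ E', E = (a i, a ((i + 1) % 4)) :: E' ∧ AR L a b E'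

/-- the edges of the closing part -/
def KK (c : ℤ) (a : ℕ → ℕ) (p q : ℕ) : List (ℕ × ℕ) :=
  if c = 0 then [(a 0, p), (p, a 1), (a 1, q), (q, a 2), (a 2, p), (p, a 3), (a 3, q), (q, a 0)]
  else [(q, a 0), (a 0, p), (p, a 1), (a 1, q), (q, a 2), (a 2, p), (p, a 3), (a 3, q)]

theorem KK_all (c : ℤ) (a : ℕ → ℕ) (p q : ℕ) (j : ℕ) (hj : j < 4) :
    ((a j, p) ∈ KK c a p q ∨ (p, a j) ∈ KK c a p q) ∧
      ((a j, q) ∈ KK c a p q ∨ (q, a j) ∈ KK c a p q) := by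
  unfold KK
  split_ifs <;> interval_cases j <;> simp

theorem KK_mem (c : ℤ) (a : ℕ → ℕ) (p q : ℕ) (e : ℕ × ℕ) (he : e ∈ KK c a p q) :
    ∃ j, j < 4 ∧ (e = (a j, p) ∨ e = (p, a j) ∨ e = (a j, q) ∨ e = (q, a j)) := by
  unfold KK at he
  split_ifs at he <;> simp only [List.mem_cons, List.not_mem_nil, or_false] at he <;>
    rcases he with h | h | h | h | h | h | h | h <;>
    first
      | exact ⟨_, by norm_num, Or.inl h⟩
      | exact ⟨_, by norm_num, Or.inr (Or.inl h)⟩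
      | exact ⟨_, by norm_num, Or.inr (Or.inr (Or.inl h))⟩
      | exact ⟨_, by norm_num, Or.inr (Or.inr (Or.inr h))⟩

theorem KK_map {c : ℤ} {a a' : ℕ → ℕ} {p q p' q' : ℕ} {φ : ℕ → ℕ}
    (h : KK c a' p' q' = mp φ (KK c a p q)) :
    φ (a 0) = a' 0 ∧ φ (a 1) = a' 1 ∧ φ (a 2) = a' 2 ∧ φ (a 3) = a' 3 ∧ φ p = p' ∧ φ q = q' := by
  unfold KK mp at h
  split_ifs at h <;>
    simp only [List.map_cons, List.map_nil, Prod.map, List.cons.injEq, Prod.mk.injEq] at h <;>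
    omega

theorem occ_cons {e : ℕ × ℕ} {Y : List (ℕ × ℕ)} {v : ℕ} (h : occ Y v) : occ (e :: Y) v := by
  obtain ⟨w, h | h⟩ := h
  · exact ⟨w, Or.inl (List.mem_cons_of_mem _ h)⟩
  · exact ⟨w, Or.inr (List.mem_cons_of_mem _ h)⟩

theorem occ_all (c : ℤ) (p q : ℕ) : ∀ (L : List (Bool × ℕ)) (a b : ℕ → ℕ) (E : List (ℕ × ℕ)),
    AR L a b E → ∀ j, j < 4 → occ (E ++ KK c b p q) (a j)
  | [], a, b, E, h, j, hj => by
    obtain ⟨rfl, rfl⟩ := h
    exact ⟨p, by simpa using (KK_all c b p q j hj).1⟩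
  | (true, i) :: L, a, b, E, h, j, hj => by
    obtain ⟨v, E', rfl, h⟩ := h
    by_cases hji : j = i
    · subst hji
      exact ⟨v, Or.inl (by simp)⟩
    · have := occ_all c p q L _ b E' h j hj
      rw [Function.update_of_ne hji] at this
      exact occ_cons this
  | (false, i) :: L, a, b, E, h, j, hj => by
    obtain ⟨E', rfl, h⟩ := h
    exact occ_cons (occ_all c p q L _ b E' h j hj)

theorem fix_occ {φ : ℕ → ℕ} {Y : List (ℕ × ℕ)} (h : Y = mp φ Y) {v : ℕ} (hv : occ Y v) :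
    φ v = v := by
  have h2 : ∀ e ∈ Y, Prod.map φ φ e = e := by
    have h3 : Y.map (Prod.map φ φ) = Y.map id := by rw [List.map_id]; exact h.symm
    exact fun e he => List.map_inj_left.1 h3 e he
  obtain ⟨w, h | h⟩ := hv
  · exact congrArg Prod.fst (h2 _ h)
  · exact congrArg Prod.snd (h2 _ h)

/-- the labels respect the flags -/
def Rs (σ : TG) (a : ℕ → ℕ) : Prop := (σ.sa = true → a 2 = a 0) ∧ (σ.sb = true → a 3 = a 1)

/-- freeness of the part that is not yet read -/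
def Fr (c : ℤ) (σ : TG) (L : List (Bool × ℕ)) (Y : List (ℕ × ℕ)) : Prop :=
  ∀ a' b' E' p' q', Rs σ a' → AR L a' b' E' → ∃ φ, E' ++ KK c b' p' q' = mp φ Y

theorem rs_upd {σ : TG} {a : ℕ → ℕ} {i : ℕ} (hi : i < 4) (hf : σ.fl i = false) (h : Rs σ a)
    (z : ℕ) : Rs σ (Function.update a i z) := by
  obtain ⟨h1, h2⟩ := h
  unfold TG.fl at hf
  constructor <;> intro hs <;> interval_cases i <;> simp_all

theorem rs_back {σ σ' : TG} {a : ℕ → ℕ} {i : ℕ} (hi : i < 4) (hf : σ'.fl (i + 1) = σ.fl (i + 1))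
    (h : Rs σ' a) : Rs σ (Function.update a i (a ((i + 2) % 4))) := by
  obtain ⟨h1, h2⟩ := h
  unfold TG.fl at hf
  constructor <;> intro hs <;> interval_cases i <;> simp_all

theorem main (aa : SAutA) (c : ℤ) (p q : ℕ) (L : List (Bool × ℕ)) (hL : ∀ g ∈ L, g.2 < 4)
    (a b : ℕ → ℕ) (E : List (ℕ × ℕ)) (G : SG) (hr : AR L a b E)
    (hs : Sem ⟨true, true, []⟩ a (E ++ KK c b p q) G)
    (hf : Fr c ⟨true, true, []⟩ L (E ++ KK c b p q)) : GoodG G := by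
  obtain ⟨AS, h0, hrung, hrail, hend⟩ := aa
  generalize (⟨true, true, []⟩ : TG) = σ at h0 hs hf
  induction L generalizing σ a E with
  | nil =>
    obtain ⟨rfl, rfl⟩ := hr
    obtain ⟨φ, hφ⟩ := hf (fun j => if j = 0 then 0 else if j = 1 then 1 else
      if j = 2 then (if σ.sa then 0 else 2) else if σ.sb then 1 else 3) _ [] 6 7
      ⟨fun h => by simp [h], fun h => by simp [h]⟩ ⟨rfl, rfl⟩
    rw [List.nil_append] at hs
    rw [List.nil_append, List.nil_append] at hφ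
    obtain ⟨e0, e1, e2, e3, e4, e5⟩ := KK_map hφ
    exact hend σ h0 b p q _ G φ hs (KK_mem c b p q) (KK_all c b p q) (by simpa using e0)
      (by simpa using e1) (by simpa using e2) (by simpa using e3) e4 e5
  | cons g L ih =>
    obtain ⟨t, i⟩ := g
    have hi : i < 4 := hL (t, i) (by simp)
    have hL' : ∀ g ∈ L, g.2 < 4 := fun g hg => hL g (List.mem_cons_of_mem _ hg)
    cases t with
    | false =>
      obtain ⟨E', rfl, hr'⟩ := hr
      obtain ⟨σ', h1, h2, h3, h4⟩ := hrung σ h0 i a _ G hi hs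
      refine ih hL' a E' hr' σ' h1 h4 ?_
      intro a' b' E2 p' q' hrs hr2
      obtain ⟨φ, hφ⟩ := hf a' b' _ p' q' ⟨fun h => hrs.1 (h2 ▸ h), fun h => hrs.2 (h3 ▸ h)⟩
        ⟨E2, rfl, hr2⟩
      exact ⟨φ, (List.cons.inj hφ).2⟩
    | true =>
      obtain ⟨v, E', rfl, hr'⟩ := hr
      obtain ⟨σ', h1, h2, h3, h4⟩ := hrail σ h0 i a v _ G hi hs (by
        intro hfl
        obtain ⟨φ, hφ⟩ := hf (Function.update a i (a i + 1)) b _ p q
          (rs_upd hi hfl ⟨hs.1, hs.2.1⟩ _) ⟨v, E', rfl, by rwa [Function.update_idem]⟩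
        obtain ⟨k1, k2⟩ := List.cons.inj hφ
        simp only [Function.update_self, Prod.map, Prod.mk.injEq] at k1
        have k3 : ¬ occ (E' ++ KK c b p q) (a i) := fun h => by
          have := fix_occ k2 h
          omega
        refine ⟨k3, fun h => ?_, fun j hj hji h => k3 ?_⟩
        · rw [← h] at k1
          omega
        · have := occ_all c p q L _ b E' hr' j hj
          rwa [Function.update_of_ne hji, h] at this)
      refine ih hL' _ E' hr' σ' h1 h4 ?_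
      intro a' b' E2 p' q' hrs hr2
      obtain ⟨φ, hφ⟩ := hf _ b' _ p' q' (rs_back hi h3 hrs)
        ⟨a' i, E2, rfl, by rwa [Function.update_idem, Function.update_eq_self]⟩
      exact ⟨φ, (List.cons.inj hφ).2⟩

/-! ## From words to runs on four labels -/

def ab (c i : ℤ) : Bool × ℕ :=
  if (i + c) % 2 = 0 then (true, ((i - c) / 2 % 4).toNat)
  else (false, ((i - 1 - c) / 2 % 4).toNat)

def Lb (c : ℤ) (y : St) (a : ℕ → ℕ) : Prop := ∀ j : ℕ, j < 4 → a j = y.b (c + 2 * j)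

theorem ab_lt (c i : ℤ) : (ab c i).2 < 4 := by
  unfold ab
  split_ifs <;> simp only <;> omega

theorem step_ev (b1 : SB1) {c i : ℤ} {y y1 : St} {e : List (ℕ × ℕ)} {a : ℕ → ℕ} (hy : y.Ok)
    (hy1 : y1.Ok) (hn : y.n = 8) (hc : y.c = c) (hs : Stp (.s i) y y1 e) (ha : Lb c y a)
    (hi : (i + c) % 2 = 0) :
    e = [(a ((i - c) / 2 % 4).toNat, y1.b i)] ∧
      Lb c y1 (Function.update a ((i - c) / 2 % 4).toNat (y1.b i)) := by
  obtain ⟨-, h1, -, h3, h4⟩ := hs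
  constructor
  · rw [h4, hc, if_pos hi, ha _ (by omega)]
    congr 2
    exact b1.per hy (by rw [hn]; omega)
  · intro j hj
    by_cases hjk : j = ((i - c) / 2 % 4).toNat
    · rw [hjk, Function.update_self]
      exact b1.per hy1 (by rw [h1, hn]; omega)
    · rw [Function.update_of_ne hjk, ha j hj, h3 _ (by rw [hn]; omega)]

theorem step_od (b1 : SB1) {c i : ℤ} {y y1 : St} {e : List (ℕ × ℕ)} {a : ℕ → ℕ} (hy : y.Ok)
    (hn : y.n = 8) (hc : y.c = c) (hs : Stp (.s i) y y1 e) (ha : Lb c y a)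
    (hi : ¬ (i + c) % 2 = 0) :
    e = [(a ((i - 1 - c) / 2 % 4).toNat, a ((((i - 1 - c) / 2 % 4).toNat + 1) % 4))] ∧
      Lb c y1 a := by
  obtain ⟨-, h1, -, h3, h4⟩ := hs
  constructor
  · rw [h4, hc, if_neg hi, ha _ (by omega), ha _ (by omega)]
    congr 2
    · exact b1.per hy (by rw [hn]; omega)
    · exact b1.per hy (by rw [hn]; omega)
  · intro j hj
    rw [ha j hj, h3 _ (by rw [hn]; omega)]

theorem toAR (b1 : SB1) (c : ℤ) : ∀ (l : List ℤ) (y z : St) (E : List (ℕ × ℕ)) (a : ℕ → ℕ),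
    y.n = 8 → y.c = c → Run (l.map Lt.s) y z E → Lb c y a →
    ∃ b, AR (l.map (ab c)) a b E ∧ Lb c z b ∧ z.n = 8 ∧ z.c = c
  | [], y, z, E, a, hn, hc, hr, ha => by
    obtain ⟨-, rfl, rfl⟩ := hr
    exact ⟨a, ⟨rfl, rfl⟩, ha, hn, hc⟩
  | i :: l, y, z, E, a, hn, hc, hr, ha => by
    obtain ⟨hy, y1, e, E', hs, hr', rfl⟩ := hr
    have hn1 : y1.n = 8 := hs.2.1.trans hn
    have hc1 : y1.c = c := hs.2.2.1.trans hc
    by_cases hi : (i + c) % 2 = 0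
    · obtain ⟨rfl, h2⟩ := step_ev b1 hy (b1.okl hr') hn hc hs ha hi
      obtain ⟨b, h3, h4⟩ := toAR b1 c l y1 z E' _ hn1 hc1 hr' h2
      refine ⟨b, ?_, h4⟩
      rw [List.map_cons, ab, if_pos hi]
      exact ⟨_, E', rfl, h3⟩
    · obtain ⟨rfl, h2⟩ := step_od b1 hy hn hc hs ha hi
      obtain ⟨b, h3, h4⟩ := toAR b1 c l y1 z E' _ hn1 hc1 hr' h2
      refine ⟨b, ?_, h4⟩
      rw [List.map_cons, ab, if_neg hi]
      exact ⟨E', rfl, h3⟩

theorem ofAR (b1 : SB1) (c : ℤ) : ∀ (l : List ℤ) (y : St) (E : List (ℕ × ℕ)) (a b : ℕ → ℕ),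
    y.Ok → y.n = 8 → y.c = c → AR (l.map (ab c)) a b E → Lb c y a →
    ∃ z, Run (l.map Lt.s) y z E ∧ Lb c z b ∧ z.n = 8 ∧ z.c = c
  | [], y, E, a, b, hy, hn, hc, hr, ha => by
    obtain ⟨rfl, rfl⟩ := hr
    exact ⟨y, ⟨hy, rfl, rfl⟩, ha, hn, hc⟩
  | i :: l, y, E, a, b, hy, hn, hc, hr, ha => by
    rw [List.map_cons, ab] at hr
    by_cases hi : (i + c) % 2 = 0
    · rw [if_pos hi] at hr
      obtain ⟨v, E', rfl, hr'⟩ := hr
      obtain ⟨y1, k1, k2, k3, k4, k5⟩ := b1.ex_s hy (by omega) i v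
      have hs : Stp (.s i) y y1 _ := ⟨by omega, k2, k3, k5, rfl⟩
      obtain ⟨h1, h2⟩ := step_ev b1 hy k1 hn hc hs ha hi
      rw [h1] at hs
      rw [k4] at hs h2
      obtain ⟨z, h3, h4⟩ := ofAR b1 c l y1 E' _ b k1 (k2.trans hn) (k3.trans hc) hr' h2
      exact ⟨z, ⟨hy, y1, _, E', hs, h3, rfl⟩, h4⟩
    · rw [if_neg hi] at hr
      obtain ⟨E', rfl, hr'⟩ := hr
      obtain ⟨y1, k1, k2, k3, -, k5⟩ := b1.ex_s hy (by omega) i 0
      have hs : Stp (.s i) y y1 _ := ⟨by omega, k2, k3, k5, rfl⟩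
      obtain ⟨h1, h2⟩ := step_od b1 hy hn hc hs ha hi
      rw [h1] at hs
      obtain ⟨z, h3, h4⟩ := ofAR b1 c l y1 E' _ b k1 (k2.trans hn) (k3.trans hc) hr' h2
      exact ⟨z, ⟨hy, y1, _, E', hs, h3, rfl⟩, h4⟩

/-! ## The closing part -/

def asc (m : ℕ) : List Lt := (List.range m).map fun j : ℕ => Lt.s ((j : ℤ) + 2)

theorem asc_succ (m : ℕ) : asc (m + 1) = asc m ++ [.s ((m : ℤ) + 2)] := by
  simp [asc, List.range_succ]

def FF : List Lt := .u 0 :: (asc 8 ++ [.t 1, .d 0, .t 1])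

theorem FF_eq : Hw 8 0 ++ [.t 1] = FF := rfl

theorem asc_run (b1 : SB1) : ∀ (m : ℕ) (x z : St) (E : List (ℕ × ℕ)), m ≤ 8 → x.n = 10 →
    Run (asc m) x z E → z.n = 10 ∧ z.c = x.c ∧ (∀ j, (m : ℤ) + 2 ≤ j → j ≤ 11 → z.b j = x.b j) ∧
      E = (List.range m).map fun j : ℕ => if ((j : ℤ) + 2 + x.c) % 2 = 0 then
        (x.b (j + 2), z.b (j + 2)) else (z.b (j + 1), x.b (j + 3))
  | 0, x, z, E, _, hn, hr => by
    obtain ⟨-, rfl, rfl⟩ := hr
    exact ⟨hn, rfl, fun _ _ _ => rfl, rfl⟩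
  | m + 1, x, z, E, hm, hn, hr => by
    rw [asc_succ] at hr
    obtain ⟨y, E1, E2, h1, ⟨-, z', e, E3, ⟨-, s1, s2, s3, rfl⟩, ⟨-, rfl, rfl⟩, rfl⟩, rfl⟩ :=
      b1.app.1 hr
    obtain ⟨k1, k2, k3, k4⟩ := asc_run b1 m x y E1 (by omega) hn h1
    rw [k1] at s1 s3
    refine ⟨s1, s2.trans k2, fun j hj hj' => ?_, ?_⟩
    · rw [s3 j (by omega), k3 j (by omega) hj']
    · rw [List.range_succ, List.map_append, k4, List.append_nil, List.map_singleton]
      congr 1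
      · refine List.map_congr_left fun j hj => ?_
        have := List.mem_range.1 hj
        rw [s3 (j + 2) (by omega), s3 (j + 1) (by omega)]
      · rw [k2, k3 (m + 2) le_rfl (by omega), s3 (m + 1) (by omega),
          k3 (m + 2 + 1) (by omega) (by omega)]
        congr 4
        ring

theorem asc_ex (b1 : SB1) (f : ℤ → ℕ) : ∀ (m : ℕ) (x : St), m ≤ 8 → x.Ok → x.n = 10 →
    ∃ z E, Run (asc m) x z E ∧ ∀ j, 2 ≤ j → j < (m : ℤ) + 2 → z.b j = f j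
  | 0, x, _, hx, _ => ⟨x, [], ⟨hx, rfl, rfl⟩, fun j h1 h2 => by omega⟩
  | m + 1, x, hm, hx, hn => by
    obtain ⟨y, E, h1, h2⟩ := asc_ex b1 f m x (by omega) hx hn
    have k1 := (asc_run b1 m x y E (by omega) hn h1).1
    obtain ⟨z, s1, s2, s3, s4, s5⟩ := b1.ex_s (b1.okr h1) (by omega) ((m : ℤ) + 2) (f (m + 2))
    refine ⟨z, _, by
      rw [asc_succ]
      exact b1.app.2 ⟨y, E, _, h1, ⟨b1.okr h1, z, _, [], ⟨by omega, s2, s3, s5, rfl⟩,
        ⟨s1, rfl, rfl⟩, rfl⟩, rfl⟩, fun j hj hj' => ?_⟩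
    by_cases hjm : j = m + 2
    · rw [hjm, s4]
    · rw [s5 j (by rw [k1]; omega), h2 j hj (by omega)]

theorem tail_run {z x : St} {E : List (ℕ × ℕ)} (hn : z.n = 10)
    (hr : Run [.t 1, .d 0, .t 1] z x E) :
    x.n = 8 ∧ x.c = ((z.c + 1) % 2 + 1) % 2 ∧ E = [] ∧ ∀ j, 1 ≤ j → j ≤ 9 → x.b j = z.b j := by
  obtain ⟨-, w1, _, _, ⟨-, a1, a2, a3, rfl⟩, ⟨-, w2, _, _, ⟨-, -, d1, d2, -, d3, rfl⟩,
    ⟨-, w3, _, _, ⟨-, t1, t2, t3, rfl⟩, ⟨-, rfl, rfl⟩, rfl⟩, rfl⟩, rfl⟩ := hr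
  refine ⟨by omega, by rw [t2, d2, a2], rfl, fun j h1 h2 => ?_⟩
  have e1 := t3 (j - 1)
  have e2 := d3 (j - 1) (by omega) (by omega)
  have e3 := a3 j
  rw [sub_add_cancel] at e1
  rw [show j - 1 + 2 = j + 1 by ring] at e2
  rw [e1, e2, e3]

theorem FF_run (b1 : SB1) {c : ℤ} {y x : St} {E : List (ℕ × ℕ)} {a : ℕ → ℕ} (hn : y.n = 8)
    (hc : y.c = c) (ha : Lb c y a) (hx : ∀ j, x.b (j + 4) = x.b j) (hr : Run FF y x E) :
    E = KK c a (x.b (c + 2)) (x.b (c + 4)) := by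
  obtain ⟨hy, y1, _, _, ⟨-, -, u1, u2, -, u3, rfl⟩, hr', rfl⟩ := hr
  obtain ⟨z, E1, E2, h1, h2, rfl⟩ := b1.app.1 hr'
  obtain ⟨k1, -, -, k4⟩ := asc_run b1 8 y1 z E1 le_rfl (by omega) h1
  obtain ⟨-, -, rfl, l4⟩ := tail_run k1 h2
  have hE : E1 = (List.range 8).map fun j : ℕ => if ((j : ℤ) + 2 + c) % 2 = 0 then
      (y.b j, x.b (j + 2)) else (x.b (j + 1), y.b (j + 1)) := by
    rw [k4]
    refine List.map_congr_left fun j hj => ?_
    have := List.mem_range.1 hj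
    rw [u2, hc, u3 j (by omega) (by omega), l4 (j + 2) (by omega) (by omega),
      l4 (j + 1) (by omega) (by omega), ← u3 (j + 1) (by omega) (by omega),
      show (j : ℤ) + 1 + 2 = j + 3 by ring]
  have a0 := ha 0 (by norm_num)
  have a1 := ha 1 (by norm_num)
  have a2 := ha 2 (by norm_num)
  have a3 := ha 3 (by norm_num)
  have y8 := hy.2.2.2.1 0
  have x1 := hx 1
  have x2 := hx 2
  have x3 := hx 3
  have x4 := hx 4
  have x5 := hx 5
  rw [hn] at y8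
  rw [hE]
  rcases hy.2.2.1 with h | h <;> rw [hc] at h <;> subst h <;>
    norm_num at a0 a1 a2 a3 y8 x1 x2 x3 x4 x5 <;>
    norm_num [KK, List.range_succ, a0, a1, a2, a3, y8, x1, x2, x3, x4, x5]

theorem FF_ex (b1 : SB1) {y x : St} (hy : y.Ok) (hx : x.Ok) (hn : y.n = 8) (hn' : x.n = 8)
    (hc : x.c = y.c) : ∃ E, Run FF y x E := by
  obtain ⟨y1, p1, p2, p3⟩ := b1.ex_u hy 0 (x.b 1) le_rfl (by omega)
  have n1 : y1.n = 10 := by have := p2.2.2.1; omega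
  obtain ⟨z, E, h1, h2⟩ := asc_ex b1 x.b 8 y1 le_rfl p1 n1
  obtain ⟨k1, k2, k3, -⟩ := asc_run b1 8 y1 z E le_rfl n1 h1
  have hz := b1.okr h1
  have z1 : z.b 1 = x.b 1 := by
    rw [← p3, b1.per hz (j := 11) (by rw [k1]; norm_num), k3 11 (by norm_num) le_rfl]
    exact b1.per p1 (by rw [n1]; norm_num)
  obtain ⟨w1, q1, q2⟩ := b1.ex_t hz (by omega) 1
  have m1 : w1.n = 10 := q2.2.1.trans k1
  obtain ⟨w2, r1, r2⟩ := b1.ex_d q1 0 le_rfl (by omega) (by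
    have e1 := q2.2.2.2.1 (-1)
    have e2 := q2.2.2.2.1 1
    norm_num at e1 e2 ⊢
    rw [e1, e2, z1, b1.per hz (j := 9) (by rw [k1]; norm_num), h2 9 (by norm_num) (by norm_num)]
    exact b1.per hx (by rw [hn']; norm_num))
  have m2 : w2.n = 8 := by have := r2.2.2.1; omega
  obtain ⟨w3, t1, t2⟩ := b1.ex_t r1 (by omega) 1
  have ht : Run [.t 1, .d 0, .t 1] z w3 [] :=
    ⟨hz, w1, [], [], q2, ⟨q1, w2, [], [], r2, ⟨r1, w3, [], [], t2, ⟨t1, rfl, rfl⟩, rfl⟩, rfl⟩, rfl⟩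
  obtain ⟨l1, l2, -, l4⟩ := tail_run k1 ht
  have hb : ∀ j, 1 ≤ j → j ≤ 9 → w3.b j = x.b j := fun j j1 j2 => by
    rw [l4 j j1 j2]
    by_cases hj : j = 1
    · rw [hj, z1]
    · exact h2 j (by omega) (by omega)
  have : w3 = x := b1.ext t1 hx (l1.trans hn'.symm) (by
    have := p2.2.2.2.1
    have := hy.2.2.1
    omega) (fun j j1 j2 => by
    by_cases hj : j = 0
    · rw [hj, b1.per t1 (j := 8) (by rw [l1]; norm_num), hb 8 (by norm_num) (by norm_num)]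
      exact b1.per hx (by rw [hn']; norm_num)
    · exact hb j (by omega) (by omega))
  subst this
  exact ⟨_, hy, y1, [], _, p2, b1.app.2 ⟨z, E, [], h1, ht, rfl⟩, rfl⟩

/-- a state of period four -/
def per4 (c : ℤ) (u v : ℕ) : St := ⟨8, c, fun j => if (j - c) % 4 = 0 then u else v⟩

theorem per4_per (c : ℤ) (u v : ℕ) (j : ℤ) : (per4 c u v).b (j + 4) = (per4 c u v).b j := by
  simp only [per4]
  rw [show (j + 4 - c) % 4 = (j - c) % 4 by omega]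

theorem per4_ok {c : ℤ} (hc : c = 0 ∨ c = 1) (u v : ℕ) : (per4 c u v).Ok := by
  refine ⟨by simp [per4], by simp [per4], hc, fun j => ?_, fun h => by simp [per4] at h⟩
  simp only [per4]
  rw [show (j + 8 - c) % 4 = (j - c) % 4 by omega]

theorem core (b1 : SB1) (aa : SAutA) (l : List ℤ) : Good 8 (.x :: (l.map Lt.s ++ FF)) := by
  rintro c E ⟨⟨b, hx, y0, _, _, ⟨-, n0, c0, px, py, rfl⟩, hr, rfl⟩, hfree⟩
  have hc : c = 0 ∨ c = 1 := hx.2.2.1
  obtain ⟨y, E1, E2, h1, h2, rfl⟩ := b1.app.1 hr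
  obtain ⟨a, k1, k2, k3, k4⟩ := toAR b1 c l y0 y E1 (fun j => y0.b (c + 2 * j)) n0 c0 h1
    (fun _ _ => rfl)
  have hE := FF_run b1 k3 k4 k2 px h2
  subst hE
  refine main aa c (b (c + 2)) (b (c + 4)) (l.map (ab c)) (fun g hg => ?_) _ a E1 _ k1
    ⟨fun _ => ?_, fun _ => ?_, ?_⟩ ?_
  · obtain ⟨i, -, rfl⟩ := List.mem_map.1 hg
    exact ab_lt c i
  · exact (congrArg y0.b (by push_cast; ring)).trans (py (c + 2 * (0 : ℕ)))
  · exact (congrArg y0.b (by push_cast; ring)).trans (py (c + 2 * (1 : ℕ)))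
  · generalize E1 ++ KK c a _ _ = Y
    obtain ⟨z, hz⟩ := Infinite.exists_notMem_finset (Y.map Prod.fst ++ Y.map Prod.snd ++
      (List.range 4).map fun j : ℕ => y0.b (c + 2 * j)).toFinset
    simp only [List.mem_toFinset, List.mem_append, List.mem_map, List.mem_range, not_or,
      not_exists, not_and] at hz
    refine ⟨z, fun j hj h => hz.2 j hj h.symm, ?_, ⟨Iff.rfl, Iff.rfl⟩⟩
    rintro ⟨w, h | h⟩
    · exact hz.1.1 _ h rfl
    · exact hz.1.2 _ h rfl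
  · intro a' b' E' p' q' hrs hr'
    obtain ⟨z, m1, m2, m3, m4⟩ := ofAR b1 c l (per4 c (a' 0) (a' 1)) E' a' b' (per4_ok hc _ _)
      rfl rfl hr' (fun j hj => by
        have r1 := hrs.1 rfl
        have r2 := hrs.2 rfl
        interval_cases j <;> simp [per4, r1, r2])
    obtain ⟨E3, m5⟩ := FF_ex b1 (b1.okr m1) (per4_ok hc q' p') m3 rfl m4.symm
    have m6 := FF_run b1 m3 m4 m2 (per4_per c q' p') m5
    have e1 : (per4 c q' p').b (c + 2) = p' := by simp [per4]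
    have e2 : (per4 c q' p').b (c + 4) = q' := by simp [per4]
    rw [e1, e2] at m6
    subst m6
    exact hfree _ ⟨_, per4_ok hc q' p', per4 c (a' 0) (a' 1), [], _,
      ⟨rfl, rfl, rfl, per4_per c q' p', per4_per c _ _, rfl⟩, b1.app.2 ⟨z, _, _, m1, m5, rfl⟩, rfl⟩

theorem dn_s (l : List ℤ) : dn (l.map Lt.s) = 0 := by
  induction l with
  | nil => rfl
  | cons i l ih => simp [dn, dl, ih]

theorem dc_s (l : List ℤ) : dc (l.map Lt.s) = 0 := by
  induction l with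
  | nil => rfl
  | cons i l ih => simpa [dc] using ih

end Autaux

open Autaux in
theorem pAut (a1 : SA1) (b1 : SB1) (b2 : SB2) (c1 : SC1) (d1 : SD1) (e3 : SE3) (nn : SN)
    (aa : SAutA) : SAut := by
  intro B hB
  obtain ⟨l, s, hU⟩ := d1.nft (n := 8) (by norm_num) hB
  have hx : dn [Lt.x] = 0 := rfl
  have hA : dn (Lt.x :: l.map Lt.s) = 0 := by simp [dn, dl, dn_s]
  have q1 := b2.ectx (n := 8) [.x] (Hw 8 0) (by rw [hx, add_zero]; exact hU)
  have q2 := b2.ectx (n := 8) (.x :: l.map Lt.s) [] (by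
    rw [hA, add_zero]
    exact e3.cm (n := 8) 0 (V := [.t s]) (by norm_num) (by norm_num)
      (fun g hg => ⟨s, Or.inr (List.mem_singleton.1 hg)⟩))
  refine b2.good_of q1.2 ?_
  have e1 : [Lt.x] ++ (l.map Lt.s ++ [Lt.t s]) ++ Hw 8 0 =
      Lt.x :: l.map Lt.s ++ ([Lt.t s] ++ Hw 8 0) ++ [] := by simp
  rw [e1]
  refine b2.good_of q2.2 ?_
  rcases Int.emod_two_eq_zero_or_one s with hs | hs
  · rintro c E ⟨⟨b, hr⟩, -⟩
    have h1 := b1.wc hr
    have h2 := (b1.okl hr).2.2.1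
    have h3 : dc (Hw 8 0) = 1 := rfl
    have h4 : dc (Lt.x :: l.map Lt.s) = 0 := dc_s l
    have h5 : dc [Lt.t s] = s := by simp [dc]
    have h6 : dc [] = 0 := rfl
    rw [b1.dc_app, b1.dc_app, b1.dc_app, h3, h4, h5, h6] at h1
    simp only at h1 h2
    omega
  · obtain ⟨k, rfl⟩ : ∃ k, s = 1 + 2 * k := ⟨s / 2, by omega⟩
    have q3 := b2.ectx (n := 8) (.x :: l.map Lt.s ++ Hw 8 0) []
      (b2.symm (c1.t1 _ 1 (2 * k)))
    have e2 : Lt.x :: l.map Lt.s ++ (Hw 8 0 ++ [Lt.t (1 + 2 * k)]) ++ [] =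
        Lt.x :: l.map Lt.s ++ Hw 8 0 ++ [Lt.t (1 + 2 * k)] ++ [] := by simp
    rw [e2]
    refine b2.good_of q3.2 ?_
    have e3' : Lt.x :: l.map Lt.s ++ Hw 8 0 ++ [Lt.t 1, Lt.t (2 * k)] ++ [] =
        (Lt.x :: (l.map Lt.s ++ FF)) ++ [Lt.t (2 * k)] := by simp [← FF_eq]
    rw [e3']
    refine b2.good_rot ?_
    have hd : dn (Lt.x :: (l.map Lt.s ++ FF)) = 0 := by
      have h1 : dn FF = 0 := rfl
      rw [← List.cons_append, b1.dn_app, hA, h1, add_zero]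
    rw [hd, add_zero]
    have q4 := b2.ectx (n := 8) [] (l.map Lt.s ++ FF) (nn.tx k)
    exact b2.good_of q4.2 (core b1 aa l)

end Pool.Agent.P.MP_5af56b_co.Kl
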