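import Pool.Agent.P.MP_5af56b_co.Kl.Chk

namespace Pool.Agent.P.MP_5af56b_co.Kl

namespace AutAaux

abbrev EL : Type := List (ℕ × ℕ)
abbrev Mv : Type := Bool × ℕ × ℕ × ℕ × ℕ
abbrev Ce : Type := ℕ × ℕ × List Mv

abbrev ad (E : EL) (x y : ℕ) : Prop := (x, y) ∈ E ∨ (y, x) ∈ E
abbrev sq (E F : EL) : Prop :=
  (∀ p ∈ E, p.1 = p.2 ∨ ad F p.1 p.2) ∧ ∀ p ∈ F, p.1 = p.2 ∨ ad E p.1 p.2
abbrev t3 (a b c x : ℕ) : Prop := x = a ∨ x = b ∨ x = c
abbrev dg3 (v a b c : ℕ) (E : EL) : Prop :=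
  4 ≤ v ∧ (a ≠ v ∧ b ≠ v ∧ c ≠ v) ∧ (ad E v a ∧ ad E v b ∧ ad E v c) ∧
    ∀ p ∈ E, (p.1 = v → p.2 = v ∨ t3 a b c p.2) ∧ (p.2 = v → p.1 = v ∨ t3 a b c p.1)

def elL (v a b c : ℕ) (E : EL) : EL :=
  (a, b) :: (b, c) :: (a, c) :: E.filter fun p => decide (p.1 ≠ v ∧ p.2 ≠ v)
def dyL (v a b c : ℕ) (E : EL) : EL :=
  (v, a) :: (v, b) :: (v, c) :: E.filter fun p => decide (¬(t3 a b c p.1 ∧ t3 a b c p.2))

def ch : List Mv → EL → EL → Bool
  | [], E, F => decide (sq E F)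
  | (true, v, a, b, c) :: l, E, F => decide (dg3 v a b c E) && ch l (elL v a b c E) F
  | (false, v, a, b, c) :: l, E, F => decide (dg3 v a b c (dyL v a b c E)) &&
      decide (sq (elL v a b c (dyL v a b c E)) E) && ch l (dyL v a b c E) F

/-- the inner labels go to new and different labels -/
def Adm (ψ : ℕ → ℕ) (Y : EL) : Prop := ∀ v, 4 ≤ v → ¬ occ Y (ψ v) ∧ ∀ p, ψ p = ψ v → p = v

theorem ad_symm {E : EL} {x y : ℕ} (h : ad E x y) : ad E y x := Or.symm h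

theorem grA (ψ : ℕ → ℕ) (E Y : EL) (x y : ℕ) : (gr (mp ψ E ++ Y)).A x y ↔
    x ≠ y ∧ ((∃ p q, ad E p q ∧ ψ p = x ∧ ψ q = y) ∨ ad Y x y) := by
  have h : ∀ x y, (x, y) ∈ mp ψ E ↔ ∃ p q, (p, q) ∈ E ∧ ψ p = x ∧ ψ q = y := fun x y => by
    simp [mp, Prod.ext_iff]
  change x ≠ y ∧ ((x, y) ∈ mp ψ E ++ Y ∨ (y, x) ∈ mp ψ E ++ Y) ↔ _
  rw [List.mem_append, List.mem_append, h, h]
  refine and_congr_right fun _ => ⟨?_, ?_⟩
  · rintro ((⟨p, q, h1, h2⟩ | h1) | (⟨p, q, h1, h2⟩ | h1))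
    · exact Or.inl ⟨p, q, Or.inl h1, h2⟩
    · exact Or.inr (Or.inl h1)
    · exact Or.inl ⟨q, p, Or.inr h1, h2.symm⟩
    · exact Or.inr (Or.inr h1)
  · rintro (⟨p, q, h1 | h1, h2⟩ | h1 | h1)
    · exact Or.inl (Or.inl ⟨p, q, h1, h2⟩)
    · exact Or.inr (Or.inl ⟨q, p, h1, h2.symm⟩)
    · exact Or.inl (Or.inr h1)
    · exact Or.inr (Or.inr h1)

theorem sq_half {E F : EL} (h : ∀ p ∈ E, p.1 = p.2 ∨ ad F p.1 p.2) (ψ : ℕ → ℕ) (Y : EL) (x y : ℕ)
    (hx : (gr (mp ψ E ++ Y)).A x y) : (gr (mp ψ F ++ Y)).A x y := by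
  rw [grA] at hx ⊢
  obtain ⟨h1, ⟨p, q, h2, rfl, rfl⟩ | h2⟩ := hx
  · have hpq : p ≠ q := fun e => h1 (by rw [e])
    refine ⟨h1, Or.inl ⟨p, q, ?_, rfl, rfl⟩⟩
    rcases h2 with h2 | h2
    · exact (h _ h2).resolve_left hpq
    · exact ad_symm ((h _ h2).resolve_left hpq.symm)
  · exact ⟨h1, Or.inr h2⟩

theorem sq_ok (a1 : SA1) {E F : EL} (h : sq E F) (ψ : ℕ → ℕ) (Y : EL) :
    gr (mp ψ E ++ Y) = gr (mp ψ F ++ Y) :=
  a1.ext fun x y => ⟨sq_half h.1 ψ Y x y, sq_half h.2 ψ Y x y⟩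

theorem ad_elL {v a b c p q : ℕ} {E : EL} (h : dg3 v a b c E) (hpq : p ≠ q) :
    ad (elL v a b c E) p q ↔ p ≠ v ∧ q ≠ v ∧ (ad E p q ∨ (ad E v p ∧ ad E v q)) := by
  obtain ⟨-, ⟨n1, n2, n3⟩, ⟨m1, m2, m3⟩, h⟩ := h
  have k : ∀ x, x ≠ v → (ad E v x ↔ t3 a b c x) := fun x hx =>
    ⟨fun e => e.elim (fun e => ((h _ e).1 rfl).resolve_left hx)
      fun e => ((h _ e).2 rfl).resolve_left hx, by rintro (rfl | rfl | rfl) <;> assumption⟩
  have e : ad (elL v a b c E) p q ↔ (t3 a b c p ∧ t3 a b c q) ∨ (p ≠ v ∧ q ≠ v ∧ ad E p q) := by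
    simp only [ad, elL, t3, List.mem_cons, Prod.mk.injEq, List.mem_filter, decide_eq_true_eq]
    by_cases e1 : (p, q) ∈ E <;> by_cases e2 : (q, p) ∈ E <;> simp only [e1, e2, true_and,
      false_and, or_false, or_true, and_true, and_false, or_self] <;> omega
  rw [e]
  constructor
  · rintro (⟨h1, h2⟩ | ⟨h1, h2, h3⟩)
    · have hp : p ≠ v := by unfold t3 at h1; omega
      have hq : q ≠ v := by unfold t3 at h2; omega
      exact ⟨hp, hq, Or.inr ⟨(k p hp).2 h1, (k q hq).2 h2⟩⟩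
    · exact ⟨h1, h2, Or.inl h3⟩
  · rintro ⟨h1, h2, h3 | h3⟩
    · exact Or.inr ⟨h1, h2, h3⟩
    · exact Or.inl ⟨(k p h1).1 h3.1, (k q h2).1 h3.2⟩

theorem el_ok (a1 : SA1) (a2 : SA2) {ψ : ℕ → ℕ} {Y E : EL} (hψ : Adm ψ Y) {v a b c : ℕ}
    (h : dg3 v a b c E) : Eqv (gr (mp ψ E ++ Y)) (gr (mp ψ (elL v a b c E) ++ Y)) := by
  obtain ⟨o1, o2⟩ := hψ v h.1
  have nb : ∀ x, (gr (mp ψ E ++ Y)).A (ψ v) x ↔ ∃ q, q ≠ v ∧ ad E v q ∧ ψ q = x := fun x => by
    rw [grA]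
    constructor
    · rintro ⟨h1, ⟨p, q, h2, h3, rfl⟩ | h2⟩
      · obtain rfl := o2 p h3
        exact ⟨q, fun e => h1 (by rw [e]), h2, rfl⟩
      · exact absurd ⟨x, h2⟩ o1
    · rintro ⟨q, h1, h2, rfl⟩
      exact ⟨fun e => h1 (o2 q e.symm), Or.inl ⟨v, q, h2, rfl, rfl⟩⟩
  have e : (gr (mp ψ E ++ Y)).elim (ψ v) = gr (mp ψ (elL v a b c E) ++ Y) := by
    refine a1.ext fun x y => ?_
    change x ≠ y ∧ x ≠ ψ v ∧ y ≠ ψ v ∧ ((gr (mp ψ E ++ Y)).A x y ∨
      ((gr (mp ψ E ++ Y)).A (ψ v) x ∧ (gr (mp ψ E ++ Y)).A (ψ v) y)) ↔ _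
    rw [nb, nb, grA, grA]
    refine and_congr_right fun hxy => ⟨?_, ?_⟩
    · rintro ⟨h1, h2, ⟨-, ⟨p, q, h3, rfl, rfl⟩ | h3⟩ | ⟨⟨p, k1, k2, rfl⟩, q, k3, k4, rfl⟩⟩
      · exact Or.inl ⟨p, q, (ad_elL h fun e => hxy (by rw [e])).2
          ⟨fun e => h1 (by rw [e]), fun e => h2 (by rw [e]), Or.inl h3⟩, rfl, rfl⟩
      · exact Or.inr h3
      · exact Or.inl ⟨p, q, (ad_elL h fun e => hxy (by rw [e])).2 ⟨k1, k3, Or.inr ⟨k2, k4⟩⟩,
          rfl, rfl⟩
    · rintro (⟨p, q, h3, rfl, rfl⟩ | h3)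
      · obtain ⟨k1, k2, k3⟩ := (ad_elL h fun e => hxy (by rw [e])).1 h3
        refine ⟨fun e => k1 (o2 p e), fun e => k2 (o2 q e), ?_⟩
        rcases k3 with k3 | k3
        · exact Or.inl ⟨hxy, Or.inl ⟨p, q, k3, rfl, rfl⟩⟩
        · exact Or.inr ⟨⟨p, k1, k3.1, rfl⟩, q, k2, k3.2, rfl⟩
      · exact ⟨fun e => o1 ⟨y, e ▸ h3⟩, fun e => o1 ⟨x, e ▸ ad_symm h3⟩, Or.inl ⟨hxy, Or.inr h3⟩⟩
  rw [← e]
  refine a2.elim (a := ψ a) (b := ψ b) (c := ψ c) fun x hx => ?_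
  obtain ⟨q, h1, h2, rfl⟩ := (nb x).1 hx
  have h3 : t3 a b c q := h2.elim (fun e => ((h.2.2.2 _ e).1 rfl).resolve_left h1)
    fun e => ((h.2.2.2 _ e).2 rfl).resolve_left h1
  rcases h3 with rfl | rfl | rfl
  exacts [Or.inl rfl, Or.inr (Or.inl rfl), Or.inr (Or.inr rfl)]

theorem etr {G H K : SG} (h : Eqv G H) (k : Eqv H K) : Eqv G K := ⟨h.1.trans k.1, h.2.trans k.2⟩

theorem ch_ok (a1 : SA1) (a2 : SA2) {ψ : ℕ → ℕ} {Y : EL} (hψ : Adm ψ Y) (l : List Mv) :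
    ∀ E F : EL, ch l E F = true → Eqv (gr (mp ψ E ++ Y)) (gr (mp ψ F ++ Y)) := by
  induction l with
  | nil =>
    intro E F h
    rw [sq_ok a1 (of_decide_eq_true h)]
    exact ⟨Iff.rfl, Iff.rfl⟩
  | cons m l ih =>
    obtain ⟨t, v, a, b, c⟩ := m
    intro E F h
    cases t
    · simp only [ch, Bool.and_eq_true] at h
      have h1 := el_ok a1 a2 hψ (of_decide_eq_true h.1.1)
      rw [sq_ok a1 (of_decide_eq_true h.1.2)] at h1
      exact etr ⟨h1.1.symm, h1.2.symm⟩ (ih _ _ h.2)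
    · simp only [ch, Bool.and_eq_true] at h
      exact etr (el_ok a1 a2 hψ (of_decide_eq_true h.1)) (ih _ _ h.2)

theorem bd (Y : EL) : ∃ N, ∀ x, occ Y x → x < N := by
  induction Y with
  | nil => exact ⟨0, by simp [occ]⟩
  | cons p Y ih =>
    obtain ⟨N, hN⟩ := ih
    refine ⟨N + p.1 + p.2 + 1, ?_⟩
    rintro x ⟨w, h | h⟩ <;> rcases List.mem_cons.1 h with rfl | h
    · simp only; omega
    · have := hN x ⟨w, Or.inl h⟩; omega
    · simp only; omega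
    · have := hN x ⟨w, Or.inr h⟩; omega

theorem le4 (a : ℕ → ℕ) {j : ℕ} (hj : j < 4) : a j ≤ a 0 + a 1 + a 2 + a 3 := by
  interval_cases j <;> omega

theorem fresh (a : ℕ → ℕ) (z : ℕ) (Y : EL) :
    ∃ w, (∀ j, j < 4 → w ≠ a j) ∧ ¬ occ Y w ∧ w ≠ z := by
  obtain ⟨N, hN⟩ := bd Y
  refine ⟨N + (a 0 + a 1 + a 2 + a 3) + z + 1, fun j hj => ?_, fun h => ?_, by omega⟩
  · have := le4 a hj; omega
  · have := hN _ h; omega

theorem adm_ex {a : ℕ → ℕ} {z w : ℕ} {Y : EL} (z1 : ∀ j, j < 4 → z ≠ a j) (z2 : ¬ occ Y z)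
    (w1 : ∀ j, j < 4 → w ≠ a j) (w2 : ¬ occ Y w) (wz : w ≠ z) :
    ∃ ψ, Adm ψ Y ∧ (∀ j, j < 4 → ψ j = a j) ∧ ψ 4 = z ∧ ψ 5 = w := by
  obtain ⟨N, hN⟩ := bd Y
  refine ⟨fun j => if j < 4 then a j else if j = 4 then z else if j = 5 then w else
    N + (a 0 + a 1 + a 2 + a 3) + z + w + j, fun v hv => ⟨?_, fun p => ?_⟩,
    fun j hj => if_pos hj, by simp, by simp⟩
  · simp only [if_neg (show ¬ v < 4 by omega)]
    split_ifs
    · exact z2
    · exact w2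
    · intro h
      have := hN _ h; omega
  · simp only [if_neg (show ¬ v < 4 by omega)]
    by_cases hp : p < 4
    · have h1 := z1 p hp
      have h2 := w1 p hp
      have h3 := le4 a hp
      rw [if_pos hp]
      split_ifs <;> omega
    · rw [if_neg hp]
      split_ifs <;> omega

def AS : List TG :=
  [⟨true, true, []⟩,
   ⟨false, true, [(0, 2)]⟩,
   ⟨true, false, [(1, 3)]⟩,
   ⟨true, true, [(0, 1)]⟩,
   ⟨false, false, [(0, 2), (1, 3)]⟩,
   ⟨false, true, [(0, 1), (0, 2)]⟩,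
   ⟨false, true, [(0, 2), (1, 2)]⟩,
   ⟨true, false, [(0, 1), (1, 3)]⟩,
   ⟨true, false, [(0, 3), (1, 3)]⟩,
   ⟨false, false, [(0, 1), (0, 2), (1, 3)]⟩,
   ⟨false, false, [(0, 2), (1, 2), (1, 3)]⟩,
   ⟨false, false, [(0, 2), (1, 3), (2, 3)]⟩,
   ⟨false, false, [(0, 2), (0, 3), (1, 3)]⟩,
   ⟨false, true, [(0, 1), (0, 2), (1, 2)]⟩,
   ⟨true, false, [(0, 1), (0, 3), (1, 3)]⟩,
   ⟨false, false, [(0, 1), (0, 2), (1, 2), (1, 3)]⟩,
   ⟨false, false, [(0, 1), (0, 2), (0, 3), (1, 3)]⟩,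
   ⟨false, false, [(0, 1), (0, 2), (1, 3), (2, 3)]⟩,
   ⟨false, false, [(0, 2), (1, 2), (1, 3), (2, 3)]⟩,
   ⟨false, false, [(0, 2), (0, 3), (1, 2), (1, 3)]⟩,
   ⟨false, false, [(0, 2), (0, 3), (1, 3), (2, 3)]⟩,
   ⟨false, false, [(0, 2), (0, 4), (1, 4), (2, 4), (3, 4)]⟩,
   ⟨false, false, [(0, 1), (0, 2), (1, 2), (1, 3), (2, 3)]⟩,
   ⟨false, false, [(0, 1), (0, 2), (0, 3), (1, 2), (1, 3)]⟩,
   ⟨false, false, [(0, 1), (0, 2), (0, 3), (1, 3), (2, 3)]⟩,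
   ⟨false, false, [(0, 2), (0, 3), (1, 2), (1, 3), (2, 3)]⟩,
   ⟨false, false, [(0, 1), (0, 2), (0, 4), (1, 4), (2, 4), (3, 4)]⟩,
   ⟨false, false, [(0, 2), (0, 3), (0, 4), (1, 4), (2, 4), (3, 4)]⟩,
   ⟨false, false, [(0, 1), (0, 2), (0, 3), (1, 2), (1, 3), (2, 3)]⟩,
   ⟨false, false, [(0, 1), (0, 2), (0, 3), (0, 4), (1, 4), (2, 4), (3, 4)]⟩]

def CT : List (List Ce × List Ce × ℕ) :=
  [([(3, 4, []),
     (3, 4, []),
     (3, 4, []),
     (3, 4, [])],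
    [(1, 4, []),
     (2, 4, []),
     (1, 4, []),
     (2, 4, [])],
    17193601848882945338638342),
   ([(5, 4, []),
     (6, 4, []),
     (6, 4, []),
     (5, 4, [])],
    [(1, 4, [(true, 5, 0, 2, 2)]),
     (4, 4, []),
     (1, 4, [(true, 5, 0, 2, 2)]),
     (4, 4, [])],
    576921544073426288697383985348616),
   ([(7, 4, []),
     (7, 4, []),
     (8, 4, []),
     (8, 4, [])],
    [(4, 4, []),
     (2, 4, [(true, 5, 1, 3, 3)]),
     (4, 4, []),
     (2, 4, [(true, 5, 1, 3, 3)])],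
    576921544073435582948336301244424),
   ([(3, 4, []),
     (3, 4, []),
     (3, 4, []),
     (3, 4, [])],
    [(6, 4, []),
     (8, 4, []),
     (5, 4, []),
     (7, 4, [])],
    17193601848882947449946118),
   ([(9, 4, []),
     (10, 4, []),
     (11, 4, []),
     (12, 4, [])],
    [(4, 4, [(true, 5, 0, 2, 2)]),
     (4, 4, [(true, 5, 1, 3, 3)]),
     (4, 4, [(true, 5, 0, 2, 2)]),
     (4, 4, [(true, 5, 1, 3, 3)])],
    19358274719947094896127784249256741699594),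
   ([(5, 4, []),
     (13, 4, []),
     (13, 4, []),
     (5, 4, [])],
    [(13, 4, [(true, 5, 0, 1, 2)]),
     (12, 4, []),
     (5, 4, [(true, 5, 0, 2, 2)]),
     (9, 4, [])],
    649555912727783919092223858767481999371800698892),
   ([(13, 4, []),
     (6, 4, []),
     (6, 4, []),
     (13, 4, [])],
    [(6, 4, [(true, 5, 0, 2, 2)]),
     (11, 4, []),
     (13, 4, [(true, 5, 0, 1, 2)]),
     (10, 4, [])],
    576921544073426359558709372256264),
   ([(7, 4, []),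
     (7, 4, []),
     (14, 4, []),
     (14, 4, [])],
    [(10, 4, []),
     (14, 4, [(true, 5, 0, 1, 3)]),
     (9, 4, []),
     (7, 4, [(true, 5, 1, 3, 3)])],
    576921544073435582948338412552200),
   ([(14, 4, []),
     (14, 4, []),
     (8, 4, []),
     (8, 4, [])],
    [(11, 4, []),
     (8, 4, [(true, 5, 1, 3, 3)]),
     (12, 4, []),
     (14, 4, [(true, 5, 0, 1, 3)])],
    576921544073435582948338413600776),
   ([(9, 4, []),
     (15, 4, []),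
     (17, 4, []),
     (16, 4, [])],
    [(15, 4, [(true, 5, 0, 1, 2)]),
     (16, 4, [(true, 5, 0, 1, 3)]),
     (9, 4, [(true, 5, 0, 2, 2)]),
     (9, 4, [(true, 5, 1, 3, 3)])],
    21795479703822708473692576101406814857251744186145734670),
   ([(15, 4, []),
     (10, 4, []),
     (18, 4, []),
     (19, 4, [])],
    [(10, 4, [(true, 5, 0, 2, 2)]),
     (18, 4, [(true, 5, 1, 2, 3)]),
     (15, 4, [(true, 5, 0, 1, 2)]),
     (10, 4, [(true, 5, 1, 3, 3)])],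
    24539528568123897281519091012092591740120760964607786089269313519222802),
   ([(17, 4, []),
     (18, 4, []),
     (11, 4, []),
     (20, 4, [])],
    [(11, 4, [(true, 5, 0, 2, 2)]),
     (11, 4, [(true, 5, 1, 3, 3)]),
     (20, 4, [(true, 5, 0, 2, 3)]),
     (18, 4, [(true, 5, 1, 2, 3)])],
    19358274719947097274429604184481812447242),
   ([(16, 4, []),
     (19, 4, []),
     (20, 4, []),
     (12, 4, [])],
    [(20, 4, [(true, 5, 0, 2, 3)]),
     (12, 4, [(true, 5, 1, 3, 3)]),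
     (12, 4, [(true, 5, 0, 2, 2)]),
     (16, 4, [(true, 5, 0, 1, 3)])],
    21795479703822708473692333980142246823299801822376525838),
   ([(13, 4, []),
     (13, 4, []),
     (13, 4, []),
     (13, 4, [])],
    [(13, 4, [(true, 5, 0, 1, 2)]),
     (20, 4, []),
     (13, 4, [(true, 5, 0, 1, 2)]),
     (15, 4, [])],
    649555912727783919092233378468015654217845858316),
   ([(14, 4, []),
     (14, 4, []),
     (14, 4, []),
     (14, 4, [])],
    [(18, 4, []),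
     (14, 4, [(true, 5, 0, 1, 3)]),
     (16, 4, []),
     (14, 4, [(true, 5, 0, 1, 3)])],
    649555912727783919092233378468015654217845850124),
   ([(15, 4, []),
     (15, 4, []),
     (22, 4, []),
     (23, 4, [])],
    [(15, 4, [(true, 5, 0, 1, 2)]),
     (21, 5, []),
     (15, 4, [(true, 5, 0, 1, 2)]),
     (15, 4, [(true, 5, 1, 3, 3)])],
    31107548118700538505540251466566928398293369885175497944833350811323675229013436395269908591617802266),
   ([(16, 4, []),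
     (23, 4, []),
     (24, 4, []),
     (16, 4, [])],
    [(21, 4, [(false, 4, 1, 3, 5), (true, 5, 0, 2, 4)]),
     (16, 4, [(true, 5, 0, 1, 3)]),
     (16, 4, [(true, 5, 0, 2, 2)]),
     (16, 4, [(true, 5, 0, 1, 3)])],
    31107548118700538505555195911353673385553645962559967304073041315537914793867081778999715380152795162),
   ([(17, 4, []),
     (22, 4, []),
     (17, 4, []),
     (24, 4, [])],
    [(22, 4, [(true, 5, 0, 1, 2)]),
     (24, 4, [(true, 5, 0, 1, 3)]),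
     (24, 4, [(true, 5, 0, 2, 3)]),
     (22, 4, [(true, 5, 1, 2, 3)])],
    27629052928813047978411528681300589292349952652614301303753713907839805940846731231254),
   ([(22, 4, []),
     (18, 4, []),
     (18, 4, []),
     (25, 4, [])],
    [(18, 4, [(true, 5, 0, 2, 2)]),
     (18, 4, [(true, 5, 1, 2, 3)]),
     (21, 4, [(false, 4, 1, 3, 5), (true, 5, 0, 2, 4)]),
     (18, 4, [(true, 5, 1, 2, 3)])],
    27629052928812606265789562418123382287623172922309911357688084442844786149558557081622),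
   ([(23, 4, []),
     (19, 4, []),
     (25, 4, []),
     (19, 4, [])],
    [(25, 4, [(true, 5, 0, 2, 3)]),
     (25, 4, [(true, 5, 1, 2, 3)]),
     (23, 4, [(true, 5, 0, 1, 2)]),
     (23, 4, [(true, 5, 0, 1, 3)])],
    31107548118700538505540258703572505730555583858362060987827572499814496399128957994783250627489202202),
   ([(24, 4, []),
     (25, 4, []),
     (20, 4, []),
     (20, 4, [])],
    [(20, 4, [(true, 5, 0, 2, 3)]),
     (20, 4, [(true, 5, 1, 3, 3)]),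
     (20, 4, [(true, 5, 0, 2, 3)]),
     (21, 5, [])],
    21795479703822708473692573546298649330090600300896354318),
   ([(26, 4, []),
     (27, 5, [(false, 5, 1, 2, 4), (true, 4, 0, 3, 5)]),
     (26, 5, [(false, 5, 2, 3, 4), (true, 4, 0, 1, 5)]),
     (27, 4, [])],
    [(21, 4, [(true, 5, 0, 2, 4)]),
     (21, 4, [(true, 5, 1, 4, 4)]),
     (21, 4, [(true, 5, 0, 2, 4)]),
     (21, 4, [(true, 5, 3, 4, 4)])],
    731334941629299211536341333034868630680102653764952982475005968),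
   ([(22, 4, []),
     (22, 4, []),
     (22, 4, []),
     (28, 4, [])],
    [(22, 4, [(true, 5, 0, 1, 2)]),
     (26, 4, [(false, 4, 2, 3, 5), (true, 5, 0, 1, 4)]),
     (26, 4, [(false, 4, 1, 3, 5), (true, 5, 0, 2, 4)]),
     (22, 4, [(true, 5, 1, 2, 3)])],
    35023985528947379771525892001001697593699770624695236854440575759467080395721157825971527217538040792331586088501278),
   ([(23, 4, []),
     (23, 4, []),
     (28, 4, []),
     (23, 4, [])],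
    [(27, 5, [(false, 4, 1, 2, 5), (true, 5, 0, 3, 4), (false, 5, 1, 3, 4), (true, 4, 0, 2, 5)]),
     (27, 5, []),
     (23, 4, [(true, 5, 0, 1, 2)]),
     (23, 4, [(true, 5, 0, 1, 3)])],
    35023985528947379771509080311260321016056072262608630073229816511630389665599855251061783321241071580579219087851550),
   ([(24, 4, []),
     (28, 4, []),
     (24, 4, []),
     (24, 4, [])],
    [(26, 5, [(false, 4, 1, 3, 5), (true, 5, 0, 2, 4), (false, 5, 2, 3, 4), (true, 4, 0, 1, 5)]),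
     (24, 4, [(true, 5, 0, 1, 3)]),
     (24, 4, [(true, 5, 0, 2, 3)]),
     (26, 5, [])],
    35023985528947379771509080311260321016056072262608630073229804395337335579713709786555923588216170752491872364036126),
   ([(28, 4, []),
     (25, 4, []),
     (25, 4, []),
     (25, 4, [])],
    [(25, 4, [(true, 5, 0, 2, 3)]),
     (25, 4, [(true, 5, 1, 2, 3)]),
     (27, 4, [(false, 4, 1, 3, 5), (true, 5, 0, 2, 4)]),
     (27, 4, [(false, 4, 1, 2, 5), (true, 5, 0, 3, 4)])],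
    31107548118700538505540258703572505730555583858362060987827583346314942004042480889848862515100942362),
   ([(26, 4, []),
     (29, 5, [(false, 5, 1, 2, 4), (true, 4, 0, 3, 5)]),
     (26, 5, [(false, 5, 2, 3, 4), (true, 4, 0, 1, 5)]),
     (29, 4, [])],
    [(26, 4, [(false, 6, 1, 4, 5), (true, 4, 2, 3, 6), (true, 5, 0, 2, 6), (false, 4, 2, 3, 6), (true, 6, 0, 1, 4)]),
     (26, 4, [(true, 5, 0, 1, 4)]),
     (26, 4, [(true, 5, 0, 2, 4)]),
     (26, 4, [(true, 5, 3, 4, 4)])],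
    1323168762867300706836685968448241833174367916152646351957124483970865830863086791528829177698758450902021608853910926513461414282991263780),
   ([(29, 4, []),
     (27, 5, [(false, 5, 1, 2, 4), (true, 4, 0, 3, 5)]),
     (29, 5, [(false, 5, 2, 3, 4), (true, 4, 0, 1, 5)]),
     (27, 4, [])],
    [(27, 4, [(false, 6, 2, 4, 5), (true, 4, 1, 3, 6), (true, 5, 0, 3, 6), (false, 4, 1, 3, 6), (true, 6, 0, 2, 4)]),
     (27, 4, [(true, 5, 1, 4, 4)]),
     (27, 4, [(true, 5, 0, 2, 4)]),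
     (27, 4, [(true, 5, 0, 3, 4)])],
    1175209940800048886121276699280382677954933838360009030702674542718908871055046511975698325214001417171354076179348355817504),
   ([(28, 4, []),
     (28, 4, []),
     (28, 4, []),
     (28, 4, [])],
    [(29, 4, [(false, 4, 1, 2, 5), (true, 5, 0, 3, 4), (false, 5, 1, 3, 4), (true, 4, 0, 2, 5), (false, 4, 2, 3, 5), (true, 5, 0, 1, 4)]),
     (29, 4, [(false, 4, 2, 3, 5), (true, 5, 0, 1, 4)]),
     (29, 4, [(false, 4, 1, 3, 5), (true, 5, 0, 2, 4)]),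
     (29, 4, [(false, 4, 1, 2, 5), (true, 5, 0, 3, 4)])],
    35023966593786970173252252472517058685598134150650234677869308519210228453130233590928386232451048430305309564633118),
   ([(29, 4, []),
     (29, 5, [(false, 5, 1, 2, 4), (true, 4, 0, 3, 5)]),
     (29, 5, [(false, 5, 2, 3, 4), (true, 4, 0, 1, 5)]),
     (29, 4, [])],
    [(29, 4, [(false, 6, 1, 4, 5), (true, 4, 2, 3, 6), (false, 4, 2, 3, 5), (true, 5, 0, 4, 6), (false, 5, 2, 4, 6), (true, 4, 0, 3, 5), (false, 4, 3, 5, 6), (true, 5, 0, 2, 4), (true, 6, 0, 1, 4)]),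
     (29, 4, [(true, 5, 0, 1, 4)]),
     (29, 4, [(true, 5, 0, 2, 4)]),
     (29, 4, [(true, 5, 0, 3, 4)])],
    1873899289149514135054059521)]

def T (σ : TG) (x : ℕ) : ℕ :=
  if x = 2 ∧ σ.sa = true then 0 else if x = 3 ∧ σ.sb = true then 1 else x

def KK (σ : TG) : EL :=
  [(0, 6), (0, 7), (1, 6), (1, 7), (T σ 2, 6), (T σ 2, 7), (T σ 3, 6), (T σ 3, 7)]

def s0 : TG := ⟨true, true, []⟩

def tr1 (c : Ce) (E : EL) (sa sb : Bool) : Bool :=
  decide (c.1 < 30 ∧ 4 ≤ c.2.1 ∧ (AS.getD c.1 s0).sa = sa ∧ (AS.getD c.1 s0).sb = sb) &&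
    ch c.2.2 E (mp (fun j => if j < 4 then j else c.2.1) (AS.getD c.1 s0).E)

def rl (σ : TG) (i : ℕ) : ℕ := if σ.fl i = true then (i + 2) % 4 else 5

def okI (σ : TG) (c : List Ce × List Ce × ℕ) (i : ℕ) : Bool :=
  tr1 (c.1.getD i (0, 0, [])) ((T σ i, T σ ((i + 1) % 4)) :: σ.E) σ.sa σ.sb &&
    tr1 (c.2.1.getD i (0, 0, [])) ((rl σ i, i) :: mp (ren (rl σ i) i) σ.E)
      (σ.sa && decide (i % 2 = 1)) (σ.sb && decide (i % 2 = 0))

def okS (σ : TG) (c : List Ce × List Ce × ℕ) : Bool :=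
  decide (∀ p ∈ σ.E, (p.1 ≤ 4 ∧ T σ p.1 = p.1) ∧ p.2 ≤ 4 ∧ T σ p.2 = p.2) &&
    (okI σ c 0 && okI σ c 1 && okI σ c 2 && okI σ c 3) &&
    bif Nat.beq (c.2.2 % 2) 1 then badCk (c.2.2 / 2) (σ.E ++ KK σ)
      else rdCk (c.2.2 / 2) (σ.E ++ KK σ)

theorem all_ok : ∀ k < 30, okS (AS.getD k s0) (CT.getD k ([], [], 0)) = true := by
  decide +kernel

theorem len : AS.length = 30 := rfl

theorem getD_mem {k : ℕ} (hk : k < 30) : AS.getD k s0 ∈ AS := by
  rw [List.getD_eq_getElem _ _ (len ▸ hk)]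
  exact List.getElem_mem _

theorem mem_ok {σ : TG} (h : σ ∈ AS) : ∃ c,
    (∀ p ∈ σ.E, (p.1 ≤ 4 ∧ T σ p.1 = p.1) ∧ p.2 ≤ 4 ∧ T σ p.2 = p.2) ∧
    (∀ i, i < 4 → okI σ c i = true) ∧
    (badCk (c.2.2 / 2) (σ.E ++ KK σ) = true ∨ rdCk (c.2.2 / 2) (σ.E ++ KK σ) = true) := by
  obtain ⟨k, hk, rfl⟩ := List.getElem_of_mem h
  have h1 := all_ok k (len ▸ hk)
  rw [List.getD_eq_getElem _ _ hk] at h1
  generalize AS[k] = σ at h1
  generalize CT.getD k ([], [], 0) = c at h1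
  simp only [okS, Bool.and_eq_true] at h1
  obtain ⟨⟨h1, ⟨⟨h2, h3⟩, h4⟩, h5⟩, h6⟩ := h1
  refine ⟨c, of_decide_eq_true h1, fun i hi => by interval_cases i <;> assumption, ?_⟩
  cases e : Nat.beq (c.2.2 % 2) 1 <;> rw [e] at h6
  exacts [Or.inr h6, Or.inl h6]

theorem mp_mp (φ ψ : ℕ → ℕ) (E : EL) : mp φ (mp ψ E) = mp (fun j => φ (ψ j)) E := by
  simp only [mp, List.map_map]
  rfl

theorem mp_congr {φ ψ : ℕ → ℕ} {E : EL} (h : ∀ p ∈ E, φ p.1 = ψ p.1 ∧ φ p.2 = ψ p.2) :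
    mp φ E = mp ψ E :=
  List.map_congr_left fun p hp => Prod.ext (h p hp).1 (h p hp).2

theorem tr_ok (a1 : SA1) (a2 : SA2) {ψ a : ℕ → ℕ} {Y E : EL} (hψ : Adm ψ Y) {c : Ce}
    {sa sb : Bool} (h : tr1 c E sa sb = true) (ha : ∀ j, j < 4 → ψ j = a j)
    (h2 : sa = true → a 2 = a 0) (h3 : sb = true → a 3 = a 1) {G : SG}
    (hG : Eqv G (gr (mp ψ E ++ Y))) : ∃ σ' ∈ AS, σ'.sa = sa ∧ σ'.sb = sb ∧ Sem σ' a Y G := by
  rw [tr1, Bool.and_eq_true, decide_eq_true_eq] at h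
  obtain ⟨⟨k1, k2, k3, k4⟩, k5⟩ := h
  have e := etr hG (ch_ok a1 a2 hψ _ _ _ k5)
  refine ⟨_, getD_mem k1, k3, k4, fun x => h2 (k3 ▸ x), fun x => h3 (k4 ▸ x), ψ c.2.1,
    fun j hj e => ?_, (hψ _ k2).1, ?_⟩
  · have := (hψ _ k2).2 j (by rw [ha j hj, e])
    omega
  · rw [mp_mp] at e
    convert e using 5 with j
    split_ifs with hj
    exacts [(ha j hj).symm, rfl]

theorem gr_mid (a1 : SA1) (e : ℕ × ℕ) (E Y : EL) : gr (E ++ e :: Y) = gr (e :: E ++ Y) :=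
  a1.ext fun x y => by
    simp only [gr, List.mem_append, List.mem_cons, List.cons_append]
    tauto

theorem occ_tail {e : ℕ × ℕ} {Y : EL} {z : ℕ} (h : ¬ occ (e :: Y) z) : ¬ occ Y z :=
  fun ⟨w, hw⟩ => h ⟨w, hw.imp (List.mem_cons_of_mem _) (List.mem_cons_of_mem _)⟩

theorem T_eq {σ : TG} {a : ℕ → ℕ} (h2 : σ.sa = true → a 2 = a 0) (h3 : σ.sb = true → a 3 = a 1)
    (j : ℕ) : a (T σ j) = a j := by
  unfold T
  split_ifs with k1 k2
  · rw [k1.1, h2 k1.2]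
  · rw [k2.1, h3 k2.2]
  · rfl

theorem T_lt (σ : TG) {j : ℕ} (hj : j < 4) : T σ j < 4 := by
  unfold T
  split_ifs <;> omega

end AutAaux

open AutAaux in
theorem pAutA (a1 : SA1) (a2 : SA2) (g : SCg) : SAutA := by
  refine ⟨AS, List.mem_cons_self, ?_, ?_, ?_⟩
  · rintro σ hσ i a Y G hi ⟨h2, h3, z, z1, z2, hG⟩
    obtain ⟨c, hl, hc, -⟩ := mem_ok hσ
    obtain ⟨w, w1, w2, w3⟩ := fresh a z Y
    obtain ⟨ψ, hψ, p1, p2, -⟩ := adm_ex z1 (occ_tail z2) w1 w2 w3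
    have hc := hc i hi
    rw [okI, Bool.and_eq_true] at hc
    refine tr_ok a1 a2 hψ hc.1 p1 h2 h3 ?_
    have hi' : (i + 1) % 4 < 4 := by omega
    have key : ∀ x, x ≤ 4 → (if x < 4 then a x else z) = ψ x := fun x hx => by
      split_ifs with k
      · exact (p1 x k).symm
      · rw [show x = 4 by omega, p2]
    rw [gr_mid a1, mp_congr (ψ := ψ) fun p hp => ⟨key _ (hl p hp).1.1, key _ (hl p hp).2.1⟩,
      ← T_eq h2 h3 i, ← T_eq h2 h3 ((i + 1) % 4), ← p1 _ (T_lt σ hi), ← p1 _ (T_lt σ hi')] at hG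
    exact hG
  · rintro σ hσ i a v Y G hi ⟨h2, h3, z, z1, z2, hG⟩ hf
    obtain ⟨c, hl, hc, -⟩ := mem_ok hσ
    have zv : z ≠ v := fun e => z2 ⟨a i, Or.inr (e ▸ List.mem_cons_self)⟩
    have z1' : ∀ j, j < 4 → z ≠ Function.update a i v j := fun j hj => by
      rw [Function.update_apply]
      split_ifs
      exacts [zv, z1 j hj]
    have hex : ∃ ψ, Adm ψ Y ∧ (∀ j, j < 4 → ψ j = Function.update a i v j) ∧ ψ 4 = z ∧
        ψ (rl σ i) = a i := by
      by_cases e : σ.fl i = true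
      · obtain ⟨w, w1, w2, w3⟩ := fresh (Function.update a i v) z Y
        obtain ⟨ψ, hψ, p1, p2, -⟩ := adm_ex z1' (occ_tail z2) w1 w2 w3
        refine ⟨ψ, hψ, p1, p2, ?_⟩
        rw [rl, if_pos e, p1 _ (by omega), Function.update_of_ne (by omega)]
        unfold TG.fl at e
        interval_cases i
        exacts [h2 e, h3 e, (h2 e).symm, (h3 e).symm]
      · obtain ⟨f1, f2, f3⟩ := hf (by simpa using e)
        obtain ⟨ψ, hψ, p1, p2, p3⟩ := adm_ex (w := a i) z1' (occ_tail z2) (fun j hj => by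
          rw [Function.update_apply]
          split_ifs with k
          exacts [f2, (f3 j hj k).symm]) f1 (z1 i hi).symm
        exact ⟨ψ, hψ, p1, p2, by rw [rl, if_neg e, p3]⟩
    obtain ⟨ψ, hψ, p1, p2, p3⟩ := hex
    have hc := hc i hi
    rw [okI, Bool.and_eq_true] at hc
    have key : ∀ x, x ≤ 4 → (if x < 4 then a x else z) = ψ (ren (rl σ i) i x) := fun x hx => by
      unfold ren
      split_ifs with k1 k2 k3
      · rw [p3, k2]
      · rw [p1 x k1, Function.update_of_ne k2]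
      · omega
      · rw [show x = 4 by omega, p2]
    have pv : ψ i = v := by rw [p1 i hi, Function.update_self]
    rw [gr_mid a1, mp_congr (ψ := fun x => ψ (ren (rl σ i) i x))
      (fun p hp => ⟨key _ (hl p hp).1.1, key _ (hl p hp).2.1⟩), ← mp_mp, ← p3, ← pv] at hG
    obtain ⟨σ', m, k1, k2, k3⟩ := tr_ok a1 a2 hψ hc.2 p1 (fun e => by
      simp only [Bool.and_eq_true, decide_eq_true_eq] at e
      rw [Function.update_of_ne (by omega), Function.update_of_ne (by omega), h2 e.1]) (fun e => by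
      simp only [Bool.and_eq_true, decide_eq_true_eq] at e
      rw [Function.update_of_ne (by omega), Function.update_of_ne (by omega), h3 e.1]) hG
    refine ⟨σ', m, ?_, ?_, k3⟩ <;> unfold TG.fl <;> rw [k1, k2] <;> interval_cases i <;> simp
  · rintro σ hσ a p q Y G φ ⟨h2, h3, z, z1, z2, hG⟩ y1 y2 f0 f1 f2 f3 f6 f7
    obtain ⟨c, hl, -, hc⟩ := mem_ok hσ
    let χ : ℕ → ℕ := fun j => if j < 4 then a j else if j = 6 then p else if j = 7 then q else z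
    have zp : z ≠ p := fun e => z2 ⟨a 0, e ▸ (y2 0 (by omega)).1.symm⟩
    have zq : z ≠ q := fun e => z2 ⟨a 0, e ▸ (y2 0 (by omega)).2.symm⟩
    have fT : ∀ j, j < 4 → φ (a j) = T σ j := fun j hj => by
      interval_cases j <;> simp [T, f0, f1, f2, f3]
    have cT : ∀ j, j < 4 → χ (T σ j) = a j := fun j hj => by
      simp only [χ, if_pos (T_lt σ hj), T_eq h2 h3]
    have mK : ∀ e, e ∈ KK σ ↔ ∃ j, j < 4 ∧ (e = (T σ j, 6) ∨ e = (T σ j, 7)) := fun e => by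
      constructor
      · intro he
        simp only [KK, List.mem_cons, List.not_mem_nil, or_false] at he
        rcases he with h | h | h | h | h | h | h | h
        exacts [⟨0, by omega, Or.inl h⟩, ⟨0, by omega, Or.inr h⟩, ⟨1, by omega, Or.inl h⟩,
          ⟨1, by omega, Or.inr h⟩, ⟨2, by omega, Or.inl h⟩, ⟨2, by omega, Or.inr h⟩,
          ⟨3, by omega, Or.inl h⟩, ⟨3, by omega, Or.inr h⟩]
      · rintro ⟨j, hj, rfl | rfl⟩ <;> interval_cases j <;> simp [KK, T]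
    have mK' : ∀ x y, (x, y) ∈ mp χ (KK σ) ↔ ∃ j, j < 4 ∧ x = a j ∧ (y = p ∨ y = q) := by
      intro x y
      simp only [mp, List.mem_map, mK]
      constructor
      · rintro ⟨e, ⟨j, hj, rfl | rfl⟩, he⟩ <;> simp only [Prod.map, Prod.mk.injEq, cT j hj] at he
        exacts [⟨j, hj, he.1.symm, Or.inl he.2.symm⟩, ⟨j, hj, he.1.symm, Or.inr he.2.symm⟩]
      · rintro ⟨j, hj, rfl, rfl | rfl⟩
        · exact ⟨_, ⟨j, hj, Or.inl rfl⟩, Prod.ext (cT j hj) rfl⟩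
        · exact ⟨_, ⟨j, hj, Or.inr rfl⟩, Prod.ext (cT j hj) rfl⟩
    have hY : ∀ x y, ad Y x y ↔ ad (mp χ (KK σ)) x y := fun x y => by
      have k : ∀ x y, (x, y) ∈ Y → ad (mp χ (KK σ)) x y := fun x y h => by
        obtain ⟨j, hj, e | e | e | e⟩ := y1 _ h <;> rw [Prod.mk.injEq] at e
        exacts [Or.inl ((mK' _ _).2 ⟨j, hj, e.1, Or.inl e.2⟩),
          Or.inr ((mK' _ _).2 ⟨j, hj, e.2, Or.inl e.1⟩),
          Or.inl ((mK' _ _).2 ⟨j, hj, e.1, Or.inr e.2⟩),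
          Or.inr ((mK' _ _).2 ⟨j, hj, e.2, Or.inr e.1⟩)]
      have k' : ∀ x y, (x, y) ∈ mp χ (KK σ) → ad Y x y := fun x y h => by
        obtain ⟨j, hj, rfl, rfl | rfl⟩ := (mK' _ _).1 h
        exacts [(y2 j hj).1, (y2 j hj).2]
      exact ⟨fun h => h.elim (k x y) fun h => ad_symm (k y x h),
        fun h => h.elim (k' x y) fun h => ad_symm (k' y x h)⟩
    have key : ∀ x, x ≤ 4 → (if x < 4 then a x else z) = χ x := fun x hx => by
      simp only [χ]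
      split_ifs <;> first | rfl | omega
    have e1 : gr (mp (fun j => if j < 4 then a j else z) σ.E ++ Y) = gr (mp χ (σ.E ++ KK σ)) := by
      rw [mp_congr (ψ := χ) fun p hp => ⟨key _ (hl p hp).1.1, key _ (hl p hp).2.1⟩,
        show mp χ (σ.E ++ KK σ) = mp χ σ.E ++ mp χ (KK σ) from List.map_append]
      refine a1.ext fun x y => ?_
      have := hY x y
      simp only [gr, List.mem_append, ad] at this ⊢
      tauto
    have inv : ∀ x, (x ≤ 4 ∧ T σ x = x) ∨ x = 6 ∨ x = 7 → Function.update φ z 4 (χ x) = x := by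
      rintro x (⟨k1, k2⟩ | rfl | rfl)
      · by_cases k : x < 4
        · simp only [χ, if_pos k]
          rw [Function.update_of_ne (z1 x k).symm, fT x k, k2]
        · rw [show x = 4 by omega]
          exact Function.update_self ..
      · exact (Function.update_of_ne zp.symm _ _).trans f6
      · exact (Function.update_of_ne zq.symm _ _).trans f7
    have TT : ∀ j, j < 4 → T σ j ≤ 4 ∧ T σ (T σ j) = T σ j := fun j hj => by
      refine ⟨(T_lt σ hj).le, ?_⟩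
      obtain ⟨sa, sb, E⟩ := σ
      cases sa <;> cases sb <;> interval_cases j <;> rfl
    have e2 : σ.E ++ KK σ = mp (Function.update φ z 4) (mp χ (σ.E ++ KK σ)) := by
      rw [mp_mp, mp_congr (ψ := id) fun e he => ?_]
      · simp [mp]
      · rcases List.mem_append.1 he with he | he
        · exact ⟨inv _ (Or.inl (hl e he).1), inv _ (Or.inl (hl e he).2)⟩
        · obtain ⟨j, hj, rfl | rfl⟩ := (mK e).1 he
          · exact ⟨inv _ (Or.inl (TT j hj)), inv _ (Or.inr (Or.inl rfl))⟩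
          · exact ⟨inv _ (Or.inl (TT j hj)), inv _ (Or.inr (Or.inr rfl))⟩
    have e3 := etr (e1 ▸ hG) (a1.iso e2 rfl)
    rcases hc with hc | hc
    · exact Or.inr (e3.2.2 (g.bad _ _ hc))
    · exact Or.inl (e3.1.2 (g.rd _ _ hc))

end Pool.Agent.P.MP_5af56b_co.Kl
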