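import Pool.Agent.P.MP_5af56b_co.Kl.Stmt

namespace Pool.Agent.P.MP_5af56b_co.Kl

namespace B1aux

theorem okl {W : List Lt} {x z : St} {E : List (ℕ × ℕ)} (h : Run W x z E) : x.Ok := by
  cases W with
  | nil => exact h.1
  | cons g W => exact h.1

theorem okr {W : List Lt} : ∀ {x z : St} {E : List (ℕ × ℕ)}, Run W x z E → z.Ok := by
  induction W with
  | nil => intro x z E h; obtain ⟨h1, rfl, -⟩ := h; exact h1
  | cons g W ih => intro x z E h; obtain ⟨-, y, e, E', -, h2, -⟩ := h; exact ih h2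

theorem app {A B : List Lt} : ∀ {x z : St} {E : List (ℕ × ℕ)}, Run (A ++ B) x z E ↔
    ∃ y E1 E2, Run A x y E1 ∧ Run B y z E2 ∧ E = E1 ++ E2 := by
  induction A with
  | nil =>
    intro x z E
    constructor
    · intro h
      exact ⟨x, [], E, ⟨okl h, rfl, rfl⟩, h, rfl⟩
    · rintro ⟨y, E1, E2, ⟨-, rfl, rfl⟩, h, rfl⟩
      exact h
  | cons g A ih =>
    intro x z E
    constructor
    · rintro ⟨hx, y, e, E', hs, h2, rfl⟩
      obtain ⟨y', E1, E2, h3, h4, rfl⟩ := ih.1 h2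
      exact ⟨y', e ++ E1, E2, ⟨hx, y, e, E1, hs, h3, rfl⟩, h4, (List.append_assoc _ _ _).symm⟩
    · rintro ⟨y', E1, E2, ⟨hx, y, e, E1', hs, h3, rfl⟩, h4, rfl⟩
      exact ⟨hx, y, e, E1' ++ E2, hs, ih.2 ⟨y', E1', E2, h3, h4, rfl⟩, List.append_assoc _ _ _⟩

theorem wn {W : List Lt} : ∀ {x z : St} {E : List (ℕ × ℕ)}, Run W x z E → z.n = x.n + dn W := by
  induction W with
  | nil => intro x z E h; obtain ⟨-, rfl, -⟩ := h; simp [dn]
  | cons g W ih =>
    intro x z E h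
    obtain ⟨-, y, e, E', hs, h2, -⟩ := h
    have h3 := ih h2
    cases g with
    | s i => have := hs.2.1; simp only [dn, dl]; omega
    | t k => have := hs.2.1; simp only [dn, dl]; omega
    | u i => have := hs.2.2.1; simp only [dn, dl]; omega
    | d i => have := hs.2.2.1; simp only [dn, dl]; omega
    | r => have := hs.1; simp only [dn, dl]; omega
    | x => have := hs.1; have := hs.2.1; simp only [dn, dl]; omega

theorem wc {W : List Lt} :
    ∀ {x z : St} {E : List (ℕ × ℕ)}, Run W x z E → z.c = (x.c + dc W) % 2 := by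
  induction W with
  | nil =>
    intro x z E h
    obtain ⟨h1, rfl, -⟩ := h
    have := h1.2.2.1
    simp only [dc]; omega
  | cons g W ih =>
    intro x z E h
    obtain ⟨-, y, e, E', hs, h2, -⟩ := h
    have h3 := ih h2
    cases g with
    | s i => have := hs.2.2.1; simp only [dc]; omega
    | t k => have := hs.2.2.1; simp only [dc]; omega
    | u i => have := hs.2.2.2.1; simp only [dc]; omega
    | d i => have := hs.2.2.2.1; simp only [dc]; omega
    | r => have := hs.2.1; simp only [dc]; omega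
    | x => have := hs.2.2.1; simp only [dc]; omega

theorem len {W : List Lt} :
    ∀ {x z : St} {E : List (ℕ × ℕ)}, Run W x z E → E.length = cr W := by
  induction W with
  | nil => intro x z E h; obtain ⟨-, -, rfl⟩ := h; rfl
  | cons g W ih =>
    intro x z E h
    obtain ⟨-, y, e, E', hs, h2, rfl⟩ := h
    have h3 := ih h2
    cases g with
    | s i => obtain ⟨-, -, -, -, rfl⟩ := hs; simp [cr, h3]
    | t k => obtain ⟨-, -, -, -, rfl⟩ := hs; simp [cr, h3]
    | u i => obtain ⟨-, -, -, -, -, -, rfl⟩ := hs; simp [cr, h3]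
    | d i => obtain ⟨-, -, -, -, -, -, rfl⟩ := hs; simp [cr, h3]
    | r => obtain ⟨-, -, -, rfl⟩ := hs; simp [cr, h3]
    | x => obtain ⟨-, -, -, -, -, rfl⟩ := hs; simp [cr, h3]

theorem val {W : List Lt} : ∀ {x z : St} {E : List (ℕ × ℕ)}, Run W x z E → Val x.n W := by
  induction W with
  | nil => intro x z E _; trivial
  | cons g W ih =>
    intro x z E h
    obtain ⟨-, y, e, E', hs, h2, -⟩ := h
    have h3 := ih h2
    cases g with
    | s i => exact ⟨hs.1, hs.2.1 ▸ h3⟩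
    | t k => exact ⟨hs.1, hs.2.1 ▸ h3⟩
    | u i => exact ⟨hs.1, hs.2.1, hs.2.2.1 ▸ h3⟩
    | d i =>
      obtain ⟨a1, a2, a3, -⟩ := hs
      refine ⟨a1, by omega, ?_⟩
      have : x.n - 2 = y.n := by omega
      rw [this]; exact h3
    | r => exact (hs.1 ▸ h3 : Val x.n W)
    | x => exact ⟨hs.1, (hs.2.1.trans hs.1.symm) ▸ h3⟩

theorem per {x : St} (hx : x.Ok) {i j : ℤ} (h : x.n ∣ i - j) : x.b i = x.b j := by
  obtain ⟨k, hk⟩ := h
  have hp : Function.Periodic x.b x.n := hx.2.2.2.1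
  have := hp.int_mul k j
  have e : i = j + (k : ℤ) * x.n := by rw [mul_comm]; omega
  rw [e]; simpa using this

theorem ext {x y : St} (hx : x.Ok) (hy : y.Ok) (hn : x.n = y.n) (hc : x.c = y.c)
    (h : ∀ j, 0 ≤ j → j ≤ x.n → x.b j = y.b j) : x = y := by
  have hb : x.b = y.b := by
    funext j
    by_cases h0 : x.n = 0
    · rw [hx.2.2.2.2 h0 j, hy.2.2.2.2 (hn ▸ h0) j]
      exact h 0 le_rfl hx.1
    · have hpos : 0 < x.n := lt_of_le_of_ne hx.1 (Ne.symm h0)
      have hd : x.n ∣ j - j % x.n := Int.dvd_self_sub_emod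
      have hd' : y.n ∣ j - j % x.n := by rw [← hn]; exact hd
      rw [per hx hd, per hy hd']
      exact h _ (Int.emod_nonneg _ h0) (Int.emod_lt_of_pos _ hpos).le
  cases x; cases y
  simp only at hn hc hb
  subst hn hc hb
  rfl

theorem mp2_ok (φ ψ : ℕ → ℕ) {x : St} (hx : x.Ok) : (x.mp2 φ ψ).Ok := by
  obtain ⟨h1, h2, h3, h4, h5⟩ := hx
  refine ⟨h1, h2, h3, fun j => ?_, fun h0 j => ?_⟩
  · simp only [St.mp2]
    rw [h4 j]
    by_cases h0 : x.n = 0
    · simp only [h0, if_true]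
    · simp only [h0, if_false]
      have : (j + x.n + x.c) % 2 = (j + x.c) % 2 := by omega
      rw [this]
  · have h0' : x.n = 0 := h0
    simp only [St.mp2, h0', if_true]
    rw [h5 h0' j]

/-- transport of one label -/
theorem mp2_eq (φ ψ : ℕ → ℕ) {x y : St} {i j : ℤ} (hb : y.b j = x.b i)
    (hp : ((if y.n = 0 then 0 else j) + y.c) % 2 = ((if x.n = 0 then 0 else i) + x.c) % 2) :
    (y.mp2 φ ψ).b j = (x.mp2 φ ψ).b i := by
  simp only [St.mp2]
  rw [hp, hb]

theorem mp2_v (φ ψ : ℕ → ℕ) {x : St} {i : ℤ} (h0 : x.n ≠ 0) (hp : (i + x.c) % 2 = 0) :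
    (x.mp2 φ ψ).b i = φ (x.b i) := by
  simp only [St.mp2, h0, if_false, hp, if_true]

theorem mp2_stp (φ ψ : ℕ → ℕ) {g : Lt} {x y : St} {e : List (ℕ × ℕ)} (h : Stp g x y e) :
    Stp g (x.mp2 φ ψ) (y.mp2 φ ψ) (mp φ e) := by
  cases g with
  | s i =>
    obtain ⟨a1, a2, a3, a4, rfl⟩ := h
    refine ⟨a1, a2, a3, fun j hj => mp2_eq φ ψ (a4 j hj) (by rw [a2, a3]), ?_⟩
    have hx0 : x.n ≠ 0 := by omega
    have hy0 : y.n ≠ 0 := by omega
    have hc : (x.mp2 φ ψ).c = x.c := rfl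
    rw [hc]
    by_cases hp : (i + x.c) % 2 = 0
    · rw [if_pos hp, if_pos hp, mp2_v φ ψ hx0 hp, mp2_v φ ψ hy0 (by rw [a3]; exact hp)]
      rfl
    · rw [if_neg hp, if_neg hp, mp2_v φ ψ hx0 (by omega), mp2_v φ ψ hx0 (by omega)]
      rfl
  | t k =>
    obtain ⟨a1, a2, a3, a4, rfl⟩ := h
    refine ⟨a1, a2, a3, fun j => mp2_eq φ ψ (a4 j) ?_, rfl⟩
    rw [if_neg (by omega), if_neg (by omega)]
    omega
  | u i =>
    obtain ⟨a1, a2, a3, a4, a5, a6, rfl⟩ := h
    refine ⟨a1, a2, a3, a4, fun j h1 h2 => mp2_eq φ ψ (a5 j h1 h2) ?_,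
      fun j h1 h2 => mp2_eq φ ψ (a6 j h1 h2) ?_, rfl⟩
    · split_ifs <;> omega
    · have h2' : j ≤ x.n := h2
      split_ifs <;> omega
  | d i =>
    obtain ⟨a1, a2, a3, a4, a5, a6, rfl⟩ := h
    refine ⟨a1, a2, a3, a4, fun j h1 h2 => mp2_eq φ ψ (a5 j h1 h2) ?_,
      fun j h1 h2 => mp2_eq φ ψ (a6 j h1 h2) ?_, rfl⟩
    · split_ifs <;> omega
    · have h2' : j ≤ y.n := h2
      split_ifs <;> omega
  | r =>
    obtain ⟨a1, a2, a3, rfl⟩ := h
    refine ⟨a1, a2, fun j => mp2_eq φ ψ (a3 j) ?_, rfl⟩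
    split_ifs <;> omega
  | x =>
    obtain ⟨a1, a2, a3, a4, a5, rfl⟩ := h
    refine ⟨a1, a2, a3, fun j => mp2_eq φ ψ (a4 j) ?_, fun j => mp2_eq φ ψ (a5 j) ?_, rfl⟩
    · split_ifs <;> omega
    · split_ifs <;> omega

theorem map2 (φ ψ : ℕ → ℕ) {W : List Lt} : ∀ {x z : St} {E : List (ℕ × ℕ)}, Run W x z E →
    Run W (x.mp2 φ ψ) (z.mp2 φ ψ) (mp φ E) := by
  induction W with
  | nil => intro x z E h; obtain ⟨h1, rfl, rfl⟩ := h; exact ⟨mp2_ok φ ψ h1, rfl, rfl⟩
  | cons g W ih =>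
    intro x z E h
    obtain ⟨h1, y, e, E', hs, h2, rfl⟩ := h
    exact ⟨mp2_ok φ ψ h1, y.mp2 φ ψ, mp φ e, mp φ E', mp2_stp φ ψ hs, ih h2, List.map_append⟩

theorem ofF {n c : ℤ} (f : ℤ → ℕ) (h1 : 0 ≤ n) (h2 : n % 2 = 0) (h3 : c = 0 ∨ c = 1)
    (h4 : f n = f 0) :
    (St.ofF n c f).Ok ∧ ∀ j, 0 ≤ j → j ≤ n → (St.ofF n c f).b j = f j := by
  refine ⟨⟨h1, h2, h3, fun j => ?_, fun h0 j => ?_⟩, fun j j1 j2 => ?_⟩
  · simp only [St.ofF, Int.add_emod_right]
  · have h0' : n = 0 := h0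
    simp only [St.ofF, h0', if_true]
  · simp only [St.ofF]
    by_cases h0 : n = 0
    · have : j = 0 := by omega
      rw [if_pos h0, this]
    · rw [if_neg h0]
      rcases lt_or_eq_of_le j2 with h | h
      · rw [Int.emod_eq_of_lt j1 h]
      · rw [h, Int.emod_self, h4]

theorem ex_s {x : St} (hx : x.Ok) (h2 : 2 ≤ x.n) (i : ℤ) (v : ℕ) :
    ∃ y : St, y.Ok ∧ y.n = x.n ∧ y.c = x.c ∧ y.b i = v ∧ ∀ j, ¬ x.n ∣ j - i → y.b j = x.b j := by
  refine ⟨⟨x.n, x.c, fun j => if x.n ∣ j - i then v else x.b j⟩,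
    ⟨hx.1, hx.2.1, hx.2.2.1, fun j => ?_, fun h0 => ?_⟩, rfl, rfl, by simp, fun j hj => if_neg hj⟩
  · have e : j + x.n - i = j - i + x.n := by ring
    simp only [e, dvd_add_self_right, hx.2.2.2.1 j]
  · have h0' : x.n = 0 := h0
    omega

theorem ex_t {x : St} (hx : x.Ok) (h2 : 2 ≤ x.n) (k : ℤ) : ∃ y : St, y.Ok ∧ Stp (.t k) x y [] := by
  refine ⟨⟨x.n, (x.c + k) % 2, fun j => x.b (j - k)⟩,
    ⟨hx.1, hx.2.1, by simp only; omega, fun j => ?_, fun h0 => ?_⟩, h2, rfl, rfl,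
    fun j => by simp, rfl⟩
  · have e : j + x.n - k = j - k + x.n := by ring
    simp only [e, hx.2.2.2.1]
  · have h0' : x.n = 0 := h0
    omega

theorem ex_u {x : St} (hx : x.Ok) (i : ℤ) (v : ℕ) (h1 : 0 ≤ i) (h2 : i ≤ x.n) :
    ∃ y : St, y.Ok ∧ Stp (.u i) x y [] ∧ y.b (i + 1) = v := by
  have hn := hx.1
  have he := hx.2.1
  obtain ⟨o1, o2⟩ := ofF (n := x.n + 2) (c := x.c)
    (fun j => if j ≤ i then x.b j else if j = i + 1 then v else x.b (j - 2)) (by omega) (by omega)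
    hx.2.2.1 (by
      rw [if_neg (by omega), if_neg (by omega), if_pos h1]
      exact per hx ⟨1, by ring⟩)
  refine ⟨_, o1, ⟨h1, h2, rfl, rfl, fun j j1 j2 => ?_, fun j j1 j2 => ?_, rfl⟩, ?_⟩
  · rw [o2 j j1 (by omega), if_pos j2]
  · rw [o2 (j + 2) (by omega) (by omega), if_neg (by omega), if_neg (by omega)]
    simp
  · rw [o2 (i + 1) (by omega) (by omega), if_neg (by omega), if_pos rfl]

theorem ex_d {x : St} (hx : x.Ok) (i : ℤ) (h1 : 0 ≤ i) (h2 : i + 2 ≤ x.n)
    (hb : x.b i = x.b (i + 2)) : ∃ y : St, y.Ok ∧ Stp (.d i) x y [] := by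
  have hn := hx.1
  have he := hx.2.1
  obtain ⟨o1, o2⟩ := ofF (n := x.n - 2) (c := x.c)
    (fun j => if j ≤ i then x.b j else x.b (j + 2)) (by omega) (by omega)
    hx.2.2.1 (by
      rw [if_pos h1]
      by_cases h : x.n - 2 ≤ i
      · have e : x.n - 2 = i := by omega
        rw [if_pos h, e, hb]
        exact per hx ⟨1, by omega⟩
      · rw [if_neg h]
        exact per hx ⟨1, by ring⟩)
  refine ⟨_, o1, h1, ?_, ?_, rfl, fun j j1 j2 => ?_, fun j j1 j2 => ?_, rfl⟩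
  · show i ≤ x.n - 2
    omega
  · show x.n = x.n - 2 + 2
    omega
  · rw [o2 j j1 (by omega), if_pos j2]
  · have j2' : j ≤ x.n - 2 := j2
    rw [o2 j (by omega) j2']
    by_cases h : j ≤ i
    · have e : j = i := by omega
      rw [if_pos h, e, hb]
    · rw [if_neg h]

theorem ok0 {n c : ℤ} (h1 : 0 ≤ n) (h2 : n % 2 = 0) (h3 : c = 0 ∨ c = 1) :
    (⟨n, c, fun _ => 0⟩ : St).Ok :=
  ⟨h1, h2, h3, fun _ => rfl, fun _ _ => rfl⟩

theorem ex_run {W : List Lt} : ∀ {n c : ℤ}, 0 ≤ n → n % 2 = 0 → (c = 0 ∨ c = 1) → Val n W →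
    ∀ n' c' : ℤ, n' = n + dn W → c' = (c + dc W) % 2 →
    ∃ E, Run W ⟨n, c, fun _ => 0⟩ ⟨n', c', fun _ => 0⟩ E := by
  induction W with
  | nil =>
    intro n c h1 h2 h3 _ n' c' e1 e2
    simp only [dn, dc] at e1 e2
    have a1 : n' = n := by omega
    have a2 : c' = c := by omega
    subst a1 a2
    exact ⟨[], ok0 h1 h2 h3, rfl, rfl⟩
  | cons g W ih =>
    intro n c h1 h2 h3 hv n' c' e1 e2
    cases g with
    | s i =>
      simp only [dn, dc, dl] at e1 e2
      obtain ⟨E, hE⟩ := ih h1 h2 h3 hv.2 n' c' (by omega) e2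
      exact ⟨_, ok0 h1 h2 h3, _, _, E, ⟨hv.1, rfl, rfl, fun _ _ => rfl, rfl⟩, hE, rfl⟩
    | t k =>
      simp only [dn, dc, dl] at e1 e2
      obtain ⟨E, hE⟩ := ih (c := (c + k) % 2) h1 h2 (by omega) hv.2 n' c' (by omega) (by omega)
      exact ⟨_, ok0 h1 h2 h3, ⟨n, (c + k) % 2, fun _ => 0⟩, _, E,
        ⟨hv.1, rfl, rfl, fun _ => rfl, rfl⟩, hE, rfl⟩
    | u i =>
      simp only [dn, dc, dl] at e1 e2
      obtain ⟨E, hE⟩ := ih (n := n + 2) (by omega) (by omega) h3 hv.2.2 n' c' (by omega) e2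
      exact ⟨_, ok0 h1 h2 h3, ⟨n + 2, c, fun _ => 0⟩, _, E,
        ⟨hv.1, hv.2.1, rfl, rfl, fun _ _ _ => rfl, fun _ _ _ => rfl, rfl⟩, hE, rfl⟩
    | d i =>
      simp only [dn, dc, dl] at e1 e2
      obtain ⟨v1, v2, v3⟩ := hv
      obtain ⟨E, hE⟩ := ih (n := n - 2) (by omega) (by omega) h3 v3 n' c' (by omega) e2
      refine ⟨_, ok0 h1 h2 h3, ⟨n - 2, c, fun _ => 0⟩, _, E,
        ⟨v1, ?_, ?_, rfl, fun _ _ _ => rfl, fun _ _ _ => rfl, rfl⟩, hE, rfl⟩
      · show i ≤ n - 2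
        omega
      · show n = n - 2 + 2
        omega
    | r =>
      simp only [dn, dc, dl] at e1 e2
      obtain ⟨E, hE⟩ := ih h1 h2 h3 hv n' c' (by omega) e2
      exact ⟨_, ok0 h1 h2 h3, _, _, E, ⟨rfl, rfl, fun _ => rfl, rfl⟩, hE, rfl⟩
    | x =>
      simp only [dn, dc, dl] at e1 e2
      obtain ⟨E, hE⟩ := ih h1 h2 h3 hv.2 n' c' (by omega) e2
      exact ⟨_, ok0 h1 h2 h3, _, _, E, ⟨hv.1, hv.1, rfl, fun _ => rfl, fun _ => rfl, rfl⟩, hE, rfl⟩

theorem cr_app (A B : List Lt) : cr (A ++ B) = cr A + cr B := by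
  induction A with
  | nil => simp [cr]
  | cons g A ih => cases g <;> simp only [List.cons_append, cr, ih] <;> omega

theorem nt_app (A B : List Lt) : nt (A ++ B) = nt A + nt B := by
  induction A with
  | nil => simp [nt]
  | cons g A ih => cases g <;> simp only [List.cons_append, nt, ih] <;> omega

theorem dn_app (A B : List Lt) : dn (A ++ B) = dn A + dn B := by
  induction A with
  | nil => simp [dn]
  | cons g A ih => simp only [List.cons_append, dn, ih]; omega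

theorem dc_app (A B : List Lt) : dc (A ++ B) = dc A + dc B := by
  induction A with
  | nil => simp [dc]
  | cons g A ih => cases g <;> simp only [List.cons_append, dc, ih] <;> omega

theorem dn_even (A : List Lt) : dn A % 2 = 0 := by
  induction A with
  | nil => simp [dn]
  | cons g A ih => cases g <;> simp only [dn, dl] <;> omega

theorem val_app (A B : List Lt) : ∀ n : ℤ, Val n (A ++ B) ↔ Val n A ∧ Val (n + dn A) B := by
  induction A with
  | nil => intro n; simp [Val, dn]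
  | cons g A ih =>
    intro n
    cases g with
    | s i => simp only [List.cons_append, Val, ih, dn, dl, zero_add, and_assoc]
    | t k => simp only [List.cons_append, Val, ih, dn, dl, zero_add, and_assoc]
    | u i => simp only [List.cons_append, Val, ih, dn, dl, add_assoc, and_assoc]
    | d i =>
      have e : n - 2 + dn A = n + (-2 + dn A) := by ring
      simp only [List.cons_append, Val, ih, dn, dl, e, and_assoc]
    | r => simp only [List.cons_append, Val, ih, dn, dl, zero_add]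
    | x => simp only [List.cons_append, Val, ih, dn, dl, zero_add, and_assoc]

theorem val_nn {A : List Lt} : ∀ {n : ℤ}, 0 ≤ n → Val n A → 0 ≤ n + dn A := by
  induction A with
  | nil => intro n h _; simpa [dn] using h
  | cons g A ih =>
    intro n h hv
    cases g with
    | s i => have := ih h hv.2; simp only [dn, dl]; omega
    | t k => have := ih h hv.2; simp only [dn, dl]; omega
    | u i => have := ih (by omega) hv.2.2; simp only [dn, dl]; omega
    | d i =>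
      obtain ⟨v1, v2, v3⟩ := hv
      have := ih (by omega) v3
      simp only [dn, dl]; omega
    | r => have := ih h hv; simp only [dn, dl]; omega
    | x => have := ih h hv.2; simp only [dn, dl]; omega

theorem pl_app (A B : List Lt) : ∀ n : ℤ, Pl n (A ++ B) ↔ Pl n A ∧ Pl (n + dn A) B := by
  induction A with
  | nil => intro n; simp [Pl, dn]
  | cons g A ih =>
    intro n
    cases g with
    | s i => simp only [List.cons_append, Pl, ih, dn, dl, zero_add, and_assoc]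
    | t k => simp only [List.cons_append, Pl, ih, dn, dl, zero_add, and_assoc]
    | u i => simp only [List.cons_append, Pl, ih, dn, dl, add_assoc, and_assoc]
    | d i =>
      have e : n - 2 + dn A = n + (-2 + dn A) := by ring
      simp only [List.cons_append, Pl, ih, dn, dl, e, and_assoc]
    | r => simp only [List.cons_append, Pl, false_and]
    | x => simp only [List.cons_append, Pl, false_and]

theorem br_dn {A : List Lt} (h : IsBr A) : dn A = 0 := by
  induction A with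
  | nil => rfl
  | cons g A ih =>
    have h2 := ih fun g' hg => h g' (List.mem_cons_of_mem _ hg)
    obtain ⟨i, rfl | rfl⟩ := h g List.mem_cons_self <;> simp [dn, dl, h2]

theorem br_app {A B : List Lt} : IsBr (A ++ B) ↔ IsBr A ∧ IsBr B := by
  simp only [IsBr, List.mem_append, or_imp, forall_and]

theorem br_val {n : ℤ} {A : List Lt} (hn : 2 ≤ n) (h : IsBr A) : Val n A := by
  induction A with
  | nil => trivial
  | cons g A ih =>
    have h2 := ih fun g' hg => h g' (List.mem_cons_of_mem _ hg)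
    obtain ⟨i, rfl | rfl⟩ := h g List.mem_cons_self <;> exact ⟨hn, h2⟩

theorem p1_br (n : ℤ) : IsBr (P1 n) := by
  intro g hg
  simp only [P1, List.mem_append, List.mem_map, List.mem_singleton] at hg
  rcases hg with ⟨j, -, rfl⟩ | rfl
  · exact ⟨_, Or.inl rfl⟩
  · exact ⟨_, Or.inr rfl⟩

theorem pk_br (n : ℤ) (k : ℕ) : IsBr (Pk n k) := by
  induction k with
  | zero => exact p1_br n
  | succ k ih =>
    refine br_app.2 ⟨p1_br n, fun g hg => ?_⟩
    rcases List.mem_cons.1 hg with rfl | hg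
    · exact ⟨_, Or.inl rfl⟩
    · exact ih g hg

theorem ss_dc (f : ℕ → ℤ) (l : List ℕ) : dc (l.map fun j => Lt.s (f j)) = 0 := by
  induction l with
  | nil => rfl
  | cons a l ih => exact ih

theorem ss_nt (f : ℕ → ℤ) (l : List ℕ) : nt (l.map fun j => Lt.s (f j)) = 0 := by
  induction l with
  | nil => rfl
  | cons a l ih => exact ih

theorem ss_dn (f : ℕ → ℤ) (l : List ℕ) : dn (l.map fun j => Lt.s (f j)) = 0 := by
  refine br_dn fun g hg => ?_
  obtain ⟨j, -, rfl⟩ := List.mem_map.1 hg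
  exact ⟨_, Or.inl rfl⟩

theorem ss_pl {n : ℤ} (f : ℕ → ℤ) (l : List ℕ) (h : ∀ j ∈ l, 1 ≤ f j ∧ f j + 1 ≤ n) :
    Pl n (l.map fun j => Lt.s (f j)) := by
  induction l with
  | nil => trivial
  | cons a l ih =>
    have := h a List.mem_cons_self
    exact ⟨this.1, this.2, ih fun j hj => h j (List.mem_cons_of_mem _ hj)⟩

theorem p1_dc (n : ℤ) : dc (P1 n) = 1 := by
  rw [P1, dc_app, ss_dc]; simp [dc]

theorem p1_nt (n : ℤ) : nt (P1 n) = 1 := by
  rw [P1, nt_app, ss_nt]; simp [nt]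

theorem p1_pl {n : ℤ} (hn : 0 ≤ n) : Pl (n + 2) (P1 n) := by
  rw [P1, pl_app, ss_dn]
  refine ⟨ss_pl _ _ fun j hj => ?_, Or.inl rfl, by omega, trivial⟩
  have := List.mem_range.1 hj
  omega

theorem pk_dc (n : ℤ) (k : ℕ) : dc (Pk n k) = k + 1 := by
  induction k with
  | zero => simpa [Pk] using p1_dc n
  | succ k ih => simp only [Pk, dc_app, p1_dc, dc, ih]; push_cast; ring

theorem pk_nt (n : ℤ) (k : ℕ) : nt (Pk n k) = k + 1 := by
  induction k with
  | zero => simpa [Pk] using p1_nt n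
  | succ k ih => simp only [Pk, nt_app, p1_nt, nt, ih]; omega

theorem pk_pl {n : ℤ} (hn : 0 ≤ n) (k : ℕ) : Pl (n + 2) (Pk n k) := by
  induction k with
  | zero => exact p1_pl hn
  | succ k ih =>
    rw [Pk, pl_app, br_dn (p1_br n), add_zero]
    exact ⟨p1_pl hn, le_rfl, by omega, ih⟩

theorem hw_dn (n : ℤ) (k : ℕ) : dn (Hw n k) = 0 := by
  simp [Hw, dn, dl, dn_app, br_dn (pk_br n k)]

theorem hw_dc (n : ℤ) (k : ℕ) : dc (Hw n k) = k + 1 := by
  simp [Hw, dc, dc_app, pk_dc]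

theorem hw_nt (n : ℤ) (k : ℕ) : nt (Hw n k) = k + 1 := by
  simp [Hw, nt, nt_app, pk_nt]

theorem hw_pl {n : ℤ} (hn : 0 ≤ n) (k : ℕ) : Pl n (Hw n k) := by
  refine ⟨le_rfl, hn, ?_⟩
  rw [pl_app, br_dn (pk_br n k), add_zero]
  exact ⟨pk_pl hn k, le_rfl, by omega, trivial⟩

theorem z_cons (n : ℤ) (k : ℕ) (ks : List ℕ) : Z n (k :: ks) = Hw n k ++ Z n ks := by
  simp [Z]

theorem wind_cons (k : ℕ) (ks : List ℕ) : wind (k :: ks) = k + 1 + wind ks := by
  simp [wind]

theorem z_dn (n : ℤ) (ks : List ℕ) : dn (Z n ks) = 0 := by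
  induction ks with
  | nil => rfl
  | cons k ks ih => rw [z_cons, dn_app, hw_dn, ih]; rfl

theorem z_dc (n : ℤ) (ks : List ℕ) : dc (Z n ks) = wind ks := by
  induction ks with
  | nil => rfl
  | cons k ks ih => rw [z_cons, dc_app, hw_dc, ih, wind_cons]; push_cast; ring

theorem z_nt (n : ℤ) (ks : List ℕ) : nt (Z n ks) = wind ks := by
  induction ks with
  | nil => rfl
  | cons k ks ih => rw [z_cons, nt_app, hw_nt, ih, wind_cons]

theorem z_pl {n : ℤ} (ks : List ℕ) (hn : 0 ≤ n) : Pl n (Z n ks) := by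
  induction ks with
  | nil => trivial
  | cons k ks ih =>
    rw [z_cons, pl_app, hw_dn, add_zero]
    exact ⟨hw_pl hn k, ih⟩

end B1aux

theorem pB1 : SB1 where
  app := B1aux.app
  okl := B1aux.okl
  okr := B1aux.okr
  wn := B1aux.wn
  wc := B1aux.wc
  len := B1aux.len
  val := B1aux.val
  ext := B1aux.ext
  per := fun hx _ _ h => B1aux.per hx h
  map2 := fun φ ψ _ _ _ _ h => B1aux.map2 φ ψ h
  ofF := B1aux.ofF
  ex_s := B1aux.ex_s
  ex_t := B1aux.ex_t
  ex_u := B1aux.ex_u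
  ex_d := B1aux.ex_d
  ex_cl := fun {n c _} h1 h2 h3 hv hd hc => by
    obtain ⟨E, hE⟩ := B1aux.ex_run h1 h2 h3 hv n c (by rw [hd, add_zero]) (by omega)
    exact ⟨E, _, hE⟩
  cr_app := B1aux.cr_app
  nt_app := B1aux.nt_app
  dn_app := B1aux.dn_app
  dc_app := B1aux.dc_app
  dn_even := B1aux.dn_even
  val_app := fun n A B => B1aux.val_app A B n
  val_nn := B1aux.val_nn
  pl_app := fun n A B => B1aux.pl_app A B n
  br_dn := B1aux.br_dn
  br_app := B1aux.br_app
  br_val := B1aux.br_val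
  z_dn := B1aux.z_dn
  z_dc := B1aux.z_dc
  z_nt := B1aux.z_nt
  z_pl := B1aux.z_pl
  z_app := fun n ks ls => by simp [Z]
  pk_br := B1aux.pk_br

end Pool.Agent.P.MP_5af56b_co.Kl
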