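import Pool.Agent.P.MP_5af56b_co.Kl.Stmt

namespace Pool.Agent.P.MP_5af56b_co.Kl

namespace B3aux

theorem flp_flp (g : Lt) : flp (flp g) = g := by
  cases g <;> simp [flp]

theorem mir_app (A B : List Lt) : mir (A ++ B) = mir B ++ mir A := by
  simp [mir]

theorem mir_cons (g : Lt) (W : List Lt) : mir (g :: W) = mir W ++ [flp g] := by
  simp [mir]

theorem mir_mir (A : List Lt) : mir (mir A) = A := by
  simp only [mir, List.map_reverse, List.reverse_reverse, List.map_map]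
  exact List.map_id'' flp_flp A

theorem cr_mir (b1 : SB1) (A : List Lt) : cr (mir A) = cr A := by
  induction A with
  | nil => rfl
  | cons g W ih =>
    rw [mir_cons, b1.cr_app, ih]
    cases g <;> simp [flp, cr]

theorem dn_mir (b1 : SB1) (A : List Lt) : dn (mir A) = - dn A := by
  induction A with
  | nil => rfl
  | cons g W ih =>
    rw [mir_cons, b1.dn_app, ih]
    cases g <;> simp [flp, dn, dl]

theorem br_mir {A : List Lt} (h : IsBr A) : IsBr (mir A) := by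
  intro g hg
  simp only [mir, List.mem_reverse, List.mem_map] at hg
  obtain ⟨g', hg', rfl⟩ := hg
  obtain ⟨i, rfl | rfl⟩ := h g' hg'
  · exact ⟨i, Or.inl rfl⟩
  · exact ⟨-i, Or.inr rfl⟩

/-- the edges of one letter read downwards -/
def hd : Lt → ℤ → List (ℕ × ℕ) → List (ℕ × ℕ)
  | .s i, c, e => if (i + c) % 2 = 0 then e.map Prod.swap else e
  | _, _, e => e

/-- the colour after one letter -/
def nc : Lt → ℤ → ℤ
  | .t k, c => (c + k) % 2
  | _, c => c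

theorem stp_c {g : Lt} {x y : St} {e : List (ℕ × ℕ)} (h : Stp g x y e) : y.c = nc g x.c := by
  cases g
  · exact h.2.2.1
  · exact h.2.2.1
  · exact h.2.2.2.1
  · exact h.2.2.2.1
  · exact h.2.1
  · exact h.2.2.1

theorem stp_len {g : Lt} {x y : St} {e : List (ℕ × ℕ)} (h : Stp g x y e) : e.length = cr [g] := by
  cases g
  · rw [h.2.2.2.2]; rfl
  · rw [h.2.2.2.2]; rfl
  · rw [h.2.2.2.2.2.2]; rfl
  · rw [h.2.2.2.2.2.2]; rfl
  · rw [h.2.2.2]; rfl
  · rw [h.2.2.2.2.2]; rfl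

theorem stp_flp {g : Lt} {x y : St} {e : List (ℕ × ℕ)} (hx : x.Ok) (h : Stp g x y e) :
    Stp (flp g) y x (hd g x.c e) := by
  cases g with
  | s i =>
    obtain ⟨h1, h2, h3, h4, h5⟩ := h
    refine ⟨by omega, h2.symm, h3.symm, fun j hj => (h4 j (h2 ▸ hj)).symm, ?_⟩
    have n1 : ¬ x.n ∣ (i - 1) - i := fun hd => by
      have := Int.le_of_dvd (by norm_num) ((Int.dvd_neg).2 hd |>.trans (show -(i - 1 - i) ∣ 1 from
        ⟨1, by ring⟩))
      omega
    have n2 : ¬ x.n ∣ (i + 1) - i := fun hd => by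
      have := Int.le_of_dvd (by norm_num) (hd.trans (show (i + 1 - i) ∣ 1 from ⟨1, by ring⟩))
      omega
    rw [h5, h3, h4 _ n1, h4 _ n2]
    by_cases hc : (i + x.c) % 2 = 0 <;> simp [hd, hc]
  | t k =>
    obtain ⟨h1, h2, h3, h4, h5⟩ := h
    have := hx.2.2.1
    refine ⟨by omega, h2.symm, by omega, fun j => ?_, h5⟩
    rw [← h4 (j + -k), show j + -k + k = j by ring]
  | u i =>
    obtain ⟨h1, h2, h3, h4, h5, h6, h7⟩ := h
    exact ⟨h1, h2, h3, h4.symm, fun j a b => (h5 j a b).symm, fun j a b => (h6 j a b).symm, h7⟩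
  | d i =>
    obtain ⟨h1, h2, h3, h4, h5, h6, h7⟩ := h
    exact ⟨h1, h2, h3, h4.symm, fun j a b => (h5 j a b).symm, fun j a b => (h6 j a b).symm, h7⟩
  | r =>
    obtain ⟨h1, h2, h3, h4⟩ := h
    exact ⟨h1.symm, h2.symm, fun j => by rw [h3, neg_neg], h4⟩
  | x =>
    obtain ⟨h1, h2, h3, h4, h5, h6⟩ := h
    exact ⟨h2, h1, h3.symm, h5, h4, h6⟩

theorem hd_hd {g : Lt} {x y : St} {e : List (ℕ × ℕ)} (h : Stp (flp g) y x e) :
    hd g x.c (hd (flp g) y.c e) = e := by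
  cases g with
  | s i =>
    have h3 : x.c = y.c := h.2.2.1
    by_cases hc : (i + y.c) % 2 = 0 <;> simp [hd, flp, h3, hc]
  | t k => rfl
  | u i => rfl
  | d i => rfl
  | r => rfl
  | x => rfl

theorem hd_mp (g : Lt) (c : ℤ) (φ : ℕ → ℕ) (e : List (ℕ × ℕ)) :
    hd g c (mp φ e) = mp φ (hd g c e) := by
  cases g with
  | s i =>
    by_cases hc : (i + c) % 2 = 0
    · simp only [hd, hc, if_true, mp, List.map_map]
      rfl
    · simp only [hd, hc, if_false]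
  | t k => rfl
  | u i => rfl
  | d i => rfl
  | r => rfl
  | x => rfl

/-- the same undirected edges -/
def Sm (E E' : List (ℕ × ℕ)) : Prop :=
  ∀ a b : ℕ, ((a, b) ∈ E ∨ (b, a) ∈ E) ↔ ((a, b) ∈ E' ∨ (b, a) ∈ E')

theorem sm_hd (g : Lt) (c : ℤ) (e : List (ℕ × ℕ)) : Sm (hd g c e) e := by
  intro a b
  cases g with
  | s i =>
    by_cases hc : (i + c) % 2 = 0
    · simp only [hd, hc, if_true, List.mem_map, Prod.exists, Prod.swap_prod_mk, Prod.mk.injEq]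
      constructor
      · rintro (⟨p, q, h, rfl, rfl⟩ | ⟨p, q, h, rfl, rfl⟩)
        · exact Or.inr h
        · exact Or.inl h
      · rintro (h | h)
        · exact Or.inr ⟨_, _, h, rfl, rfl⟩
        · exact Or.inl ⟨_, _, h, rfl, rfl⟩
    · simp only [hd, hc, if_false]
  | t k => rfl
  | u i => rfl
  | d i => rfl
  | r => rfl
  | x => rfl

theorem gr_sm (a1 : SA1) {E E' : List (ℕ × ℕ)} (h : Sm E E') : gr E = gr E' :=
  a1.ext fun x y => and_congr_right fun _ => h x y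

theorem gr_comm (a1 : SA1) (E E' : List (ℕ × ℕ)) : gr (E ++ E') = gr (E' ++ E) :=
  gr_sm a1 fun a b => by
    simp only [List.mem_append]
    tauto

theorem ex_theta (b1 : SB1) (W : List Lt) : ∀ c : ℤ, ∃ Θ : List (ℕ × ℕ) → List (ℕ × ℕ),
    (∀ x y E, x.c = c → Run W x y E → Run (mir W) y x (Θ E) ∧ Sm (Θ E) E) ∧
    (∀ x y E', x.c = c → Run (mir W) y x E' → ∃ E, Run W x y E ∧ Θ E = E') ∧
    ∀ φ E, Θ (mp φ E) = mp φ (Θ E) := by
  induction W with
  | nil =>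
    intro c
    refine ⟨id, ?_, ?_, fun _ _ => rfl⟩
    · rintro x y E - ⟨h1, rfl, rfl⟩
      exact ⟨⟨h1, rfl, rfl⟩, fun _ _ => Iff.rfl⟩
    · rintro x y E - ⟨h1, rfl, rfl⟩
      exact ⟨[], ⟨h1, rfl, rfl⟩, rfl⟩
  | cons g W ih =>
    intro c
    obtain ⟨Θ, t1, t2, t3⟩ := ih (nc g c)
    refine ⟨fun E => Θ (E.drop (cr [g])) ++ hd g c (E.take (cr [g])), ?_, ?_, ?_⟩
    · rintro x z E rfl ⟨hx, y, e, E', hs, hr, rfl⟩
      obtain ⟨r1, r2⟩ := t1 y z E' (stp_c hs) hr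
      simp only [← stp_len hs, List.drop_left, List.take_left]
      refine ⟨?_, fun a b => ?_⟩
      · rw [mir_cons]
        exact b1.app.2 ⟨y, _, _, r1,
          ⟨b1.okl hr, x, _, [], stp_flp hx hs, ⟨hx, rfl, rfl⟩, (List.append_nil _).symm⟩, rfl⟩
      · have q1 := r2 a b
        have q2 := sm_hd g x.c e a b
        simp only [List.mem_append]
        tauto
    · rintro x z E' rfl hr
      rw [mir_cons] at hr
      obtain ⟨y, E1, E2, r1, ⟨hy, x', e, E3, hs, ⟨hx, rfl, rfl⟩, rfl⟩, rfl⟩ := b1.app.1 hr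
      have hs' := stp_flp hy hs
      rw [flp_flp] at hs'
      obtain ⟨E, r2, rfl⟩ := t2 y z E1 (stp_c hs') r1
      refine ⟨_, ⟨hx, y, _, E, hs', r2, rfl⟩, ?_⟩
      simp only [← stp_len hs', List.drop_left, List.take_left, hd_hd hs, List.append_nil]
    · intro φ E
      have e1 : (mp φ E).drop (cr [g]) = mp φ (E.drop (cr [g])) := by simp [mp, List.map_drop]
      have e2 : (mp φ E).take (cr [g]) = mp φ (E.take (cr [g])) := by simp [mp, List.map_take]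
      simp only [e1, e2, t3, hd_mp]
      simp [mp]

theorem free_mir (a1 : SA1) (b1 : SB1) {n c : ℤ} {W : List Lt} {E : List (ℕ × ℕ)}
    (h : Free n c W E) : ∃ E', Free n c (mir W) E' ∧ gr E' = gr E := by
  obtain ⟨Θ, t1, t2, t3⟩ := ex_theta b1 W c
  obtain ⟨⟨b, hb⟩, hf⟩ := h
  obtain ⟨r1, r2⟩ := t1 _ _ _ rfl hb
  refine ⟨Θ E, ⟨⟨b, r1⟩, ?_⟩, gr_sm a1 r2⟩
  rintro E' ⟨b', hb'⟩
  obtain ⟨E1, r3, rfl⟩ := t2 _ _ _ rfl hb'
  obtain ⟨φ, rfl⟩ := hf E1 ⟨b', r3⟩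
  exact ⟨φ, t3 φ E⟩

theorem half (a1 : SA1) (b1 : SB1) (b2 : SB2) {R : SG → SG → Prop} {n : ℤ} {D D' : List Lt}
    (hd : dn D = dn D')
    (h : ∀ c X E, Free n c (D ++ X) E → ∃ E', Free n c (D' ++ X) E' ∧ R (gr E) (gr E'))
    (c : ℤ) (X : List Lt) (E : List (ℕ × ℕ)) (hE : Free (n + dn D) c (mir D ++ X) E) :
    ∃ E', Free (n + dn D) c (mir D' ++ X) E' ∧ R (gr E) (gr E') := by
  obtain ⟨E1, f1, g1⟩ := free_mir a1 b1 hE
  rw [mir_app, mir_mir] at f1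
  obtain ⟨b, hb⟩ := f1.1
  obtain ⟨y, Ea, Eb, ra, rb, rfl⟩ := b1.app.1 hb
  have f2 := b2.rot ra rb f1
  have hyn : y.n = n := by
    have := b1.wn rb
    simp only at this
    omega
  rw [hyn] at f2
  obtain ⟨E2, f3, hR⟩ := h _ _ _ f2
  obtain ⟨b', hb'⟩ := f3.1
  obtain ⟨x', Ec, Ed, rc, rd, rfl⟩ := b1.app.1 hb'
  have f4 := b2.rot rc rd f3
  have hxn : x'.n = n + dn D := by
    have := b1.wn rc
    simp only at this
    omega
  have hxc : x'.c = c := by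
    have e1 := b1.wc ra
    have e2 := b1.wc rd
    have e3 := (b1.okl ra).2.2.1
    have e4 := (b1.okl rd).2.2.1
    simp only at e1 e2 e3
    omega
  rw [hxn, hxc] at f4
  obtain ⟨E3, f5, g5⟩ := free_mir a1 b1 f4
  rw [mir_app, mir_mir] at f5
  refine ⟨E3, f5, ?_⟩
  rw [g5, ← g1, gr_comm a1 Ea, gr_comm a1 Ed]
  exact hR

theorem rel (a1 : SA1) (b1 : SB1) (b2 : SB2) {R : SG → SG → Prop} {n : ℤ} {D D' : List Lt}
    (h : Rel R n D D') : Rel R (n + dn D) (mir D) (mir D') := by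
  refine ⟨by rw [dn_mir b1, dn_mir b1, h.1], fun c X => ⟨?_, ?_⟩⟩
  · exact half a1 b1 b2 h.1 (fun c X => (h.2 c X).1) c X
  · rw [h.1]
    exact half a1 b1 b2 (R := fun G H => R H G) h.1.symm (fun c X => (h.2 c X).2) c X

end B3aux

theorem pB3 (a1 : SA1) (b1 : SB1) (b2 : SB2) : SB3 where
  mir_app := B3aux.mir_app
  mir_mir := B3aux.mir_mir
  cr_mir := B3aux.cr_mir b1
  dn_mir := B3aux.dn_mir b1
  br_mir := B3aux.br_mir
  rel := B3aux.rel a1 b1 b2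
  eqw h := ⟨by rw [B3aux.cr_mir b1, B3aux.cr_mir b1, h.1], B3aux.rel a1 b1 b2 h.2⟩
  mnw h := B3aux.rel a1 b1 b2 h
  rdc := fun ⟨D', h1, h2⟩ =>
    ⟨mir D', by rwa [B3aux.cr_mir b1, B3aux.cr_mir b1], B3aux.rel a1 b1 b2 h2⟩

end Pool.Agent.P.MP_5af56b_co.Kl
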