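import Pool.Agent.P.MP_5af56b_co.Tor.Base

namespace Pool.Agent.P.MP_5af56b_co.Kl

/-- The Klein bottle grid: `n` cycles of length `n`, vertex `(i, j)` has the label `i * n + j`;
`(i, j)` is joined to `(i + 1, j)`, and `(n - 1, j)` to `(0, -j)`. -/
def klein (n : ℕ) : MG :=
  ofList ((List.range n).flatMap fun i => (List.range n).flatMap fun j =>
    [(i * n + j, i * n + (j + 1) % n),
     (i * n + j, if i + 1 < n then (i + 1) * n + j else (n - j) % n)])

/-- Minors of Klein bottle grids. -/
def Kleinian (G : MG) : Prop := ∃ n, 3 ≤ n ∧ IsMinor G (klein n)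

end Pool.Agent.P.MP_5af56b_co.Kl
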