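import Pool.Agent.P.MP_5af56b_co.Kl.Stmt

namespace Pool.Agent.P.MP_5af56b_co.Kl

open Relation

namespace C3aux

/-- two states that differ at most at the gap `i` -/
def Loc (i : ℤ) (x y : St) : Prop :=
  x.Ok ∧ y.Ok ∧ 2 ≤ x.n ∧ y.n = x.n ∧ y.c = x.c ∧ ∀ j, ¬ x.n ∣ j - i → y.b j = x.b j

theorem ee_fwd (b1 : SB1) {i : ℤ} {x y : St} {E : List (ℕ × ℕ)} (h : Run (ee i) x y E) :
    Loc i x y ∧ E = [] ∧ x.b (i - 1) = x.b (i + 1) := by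
  have hy := b1.okr h
  obtain ⟨hx, x1, e1, E1, s1, ⟨h1, x2, e2, E2, s2, ⟨h2, x3, e3, E3, s3, ⟨h3, x4, e4, E4, s4,
    ⟨h4, rfl, rfl⟩, rfl⟩, rfl⟩, rfl⟩, rfl⟩ := h
  obtain ⟨a1, a2, a3, a4, rfl⟩ := s1
  obtain ⟨-, b2, b3, b4, b5, b6, rfl⟩ := s2
  obtain ⟨-, -, c3, c4, c5, c6, rfl⟩ := s3
  obtain ⟨d1, d2, d3, d4, rfl⟩ := s4
  have hc := hx.2.2.1
  have e0 : x1.b 0 = x1.b 2 := by
    rw [← b5 0 le_rfl le_rfl, b6 0 le_rfl b2]; rfl
  refine ⟨⟨hx, hy, a1, by omega, by omega, fun j hj => ?_⟩, rfl, ?_⟩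
  · have hn : 0 < x.n := by omega
    have k0 := Int.emod_nonneg (j - i + 1) hn.ne'
    have k1 := Int.emod_lt_of_pos (j - i + 1) hn
    have k2 := Int.emod_add_mul_ediv (j - i + 1) x.n
    set k := (j - i + 1) % x.n with hk
    set q := (j - i + 1) / x.n with hq
    have k3 : k ≠ 1 := fun e => hj ⟨q, by rw [e] at k2; linarith⟩
    have e1 : y.b j = x3.b k := by
      rw [← d4 k]
      refine b1.per hy ⟨q, ?_⟩
      rw [d2, c3, ← b3, a2]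
      linarith
    have e2 : x1.b k = x.b j := by
      have := a4 (k - (1 - i))
      rw [sub_add_cancel] at this
      rw [this]
      refine b1.per hx ⟨-q, ?_⟩
      linarith
    rw [e1, ← e2]
    by_cases hk0 : k = 0
    · rw [hk0, c5 0 le_rfl le_rfl, b5 0 le_rfl le_rfl]
    · have := c6 (k - 2) (by omega) (by omega)
      rw [sub_add_cancel] at this
      rw [this, b6 (k - 2) (by omega) (by omega), sub_add_cancel]
  · have u1 := a4 (i - 1)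
    have u2 := a4 (i + 1)
    rw [show i - 1 + (1 - i) = 0 by ring] at u1
    rw [show i + 1 + (1 - i) = 2 by ring] at u2
    rw [← u1, ← u2, e0]

theorem ee_bwd (b1 : SB1) {i : ℤ} {x y : St} (h : Loc i x y) (e : x.b (i - 1) = x.b (i + 1)) :
    Run (ee i) x y [] := by
  obtain ⟨hx, hy, h2, hn, hc, hb⟩ := h
  obtain ⟨x1, h1, s1⟩ := b1.ex_t hx h2 (1 - i)
  have u1 := s1.2.2.2.1 (i - 1)
  have u2 := s1.2.2.2.1 (i + 1)
  rw [show i - 1 + (1 - i) = 0 by ring] at u1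
  rw [show i + 1 + (1 - i) = 2 by ring] at u2
  have n1 := s1.2.1
  obtain ⟨x2, k2, s2⟩ := b1.ex_d h1 0 le_rfl (by omega) (by rw [u1, zero_add, u2, e])
  obtain ⟨x3, k3, s3, v3⟩ := b1.ex_u k2 0 (y.b i) le_rfl k2.1
  have n2 := s2.2.2.1
  have n3 := s3.2.2.1
  obtain ⟨x4, k4, s4⟩ := b1.ex_t k3 (by omega) (i - 1)
  have R : Run (ee i) x x4 [] :=
    ⟨hx, x1, [], [], s1, ⟨h1, x2, [], [], s2, ⟨k2, x3, [], [], s3, ⟨k3, x4, [], [], s4,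
      ⟨k4, rfl, rfl⟩, rfl⟩, rfl⟩, rfl⟩, rfl⟩
  obtain ⟨⟨-, -, -, m1, m2, m3⟩, -, -⟩ := ee_fwd b1 R
  have v4 : x4.b i = y.b i := by
    have := s4.2.2.2.1 1
    rw [show (1 : ℤ) + (i - 1) = i by ring] at this
    rw [this, ← v3, zero_add]
  have : x4 = y := by
    refine b1.ext k4 hy (m1.trans hn.symm) (m2.trans hc.symm) fun j _ _ => ?_
    by_cases hj : x.n ∣ j - i
    · rw [b1.per k4 (m1 ▸ hj), b1.per hy (hn ▸ hj), v4]
    · rw [m3 j hj, hb j hj]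
  exact this ▸ R

theorem s_cons {i : ℤ} {x y z : St} {X : List Lt} {E : List (ℕ × ℕ)} (h : Loc i x y)
    (R : Run X y z E) : Run (.s i :: X) x z
      ((if (i + x.c) % 2 = 0 then (x.b i, y.b i) else (x.b (i - 1), x.b (i + 1))) :: E) :=
  ⟨h.1, y, _, E, ⟨h.2.2.1, h.2.2.2.1, h.2.2.2.2.1, h.2.2.2.2.2, rfl⟩, R, rfl⟩

theorem s_inv (b1 : SB1) {i : ℤ} {x z : St} {X : List Lt} {E : List (ℕ × ℕ)}
    (h : Run (.s i :: X) x z E) : ∃ y E', Loc i x y ∧ Run X y z E' ∧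
      E = (if (i + x.c) % 2 = 0 then (x.b i, y.b i) else (x.b (i - 1), x.b (i + 1))) :: E' := by
  obtain ⟨hx, y, e, E', ⟨a1, a2, a3, a4, rfl⟩, R, rfl⟩ := h
  exact ⟨y, E', ⟨hx, b1.okl R, a1, a2, a3, a4⟩, R, rfl⟩

theorem mp_id (E : List (ℕ × ℕ)) : mp id E = E := by simp [mp]

theorem mp_ren {φ : ℕ → ℕ} {a b : ℕ} (h : φ a = φ b) (E : List (ℕ × ℕ)) :
    mp φ (mp (ren a b) E) = mp φ E := by
  have e : ∀ x, φ (ren a b x) = φ x := fun x => by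
    unfold ren
    split_ifs with hx
    · rw [hx, h]
    · rfl
  simp only [mp, List.map_map]
  refine List.map_congr_left fun p _ => ?_
  simp [Prod.map, e]

theorem ren_l (a b : ℕ) : ren a b a = a := by
  unfold ren
  split_ifs <;> rfl

theorem ren_r (a b : ℕ) : ren a b b = a := if_pos rfl

theorem mp2_b {x : St} (h : 2 ≤ x.n) (φ ψ : ℕ → ℕ) (j : ℤ) :
    (x.mp2 φ ψ).b j = if (j + x.c) % 2 = 0 then φ (x.b j) else ψ (x.b j) := by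
  have : x.n ≠ 0 := by omega
  simp [St.mp2, this]

theorem loc_mp2 (b1 : SB1) {i : ℤ} {x y : St} (h : Loc i x y) (φ ψ : ℕ → ℕ) :
    Loc i (x.mp2 φ ψ) (y.mp2 φ ψ) := by
  obtain ⟨hx, hy, h2, hn, hc, hb⟩ := h
  have r1 : Run [] x x [] := ⟨hx, rfl, rfl⟩
  have r2 : Run [] y y [] := ⟨hy, rfl, rfl⟩
  refine ⟨b1.okl (b1.map2 φ ψ r1), b1.okl (b1.map2 φ ψ r2), h2, hn, hc, fun j hj => ?_⟩
  rw [mp2_b h2, mp2_b (hn ▸ h2), hc, hb j hj]

theorem loc_eq (b1 : SB1) {i : ℤ} {x y : St} (h : Loc i x y) (e : y.b i = x.b i) : y = x := by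
  obtain ⟨hx, hy, h2, hn, hc, hb⟩ := h
  refine b1.ext hy hx hn hc fun j _ _ => ?_
  by_cases hj : x.n ∣ j - i
  · rw [b1.per hx hj, b1.per hy (hn ▸ hj), e]
  · exact hb j hj

theorem uni1 (b1 : SB1) {n c i : ℤ} {X : List Lt} {a b : ℕ} {E E' : List (ℕ × ℕ)}
    (h : Free n c (.s i :: X) ((a, b) :: E)) (h' : Cl n c X E') :
    ∃ φ, E' = mp φ E ∧ ((i + c) % 2 = 0 → φ a = φ b) := by
  obtain ⟨β, R⟩ := h.1
  obtain ⟨y, E0, L, -, -⟩ := s_inv b1 R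
  obtain ⟨β', R'⟩ := h'
  have k := b1.okl R'
  have L' : Loc i ⟨n, c, β'⟩ ⟨n, c, β'⟩ := ⟨k, k, L.2.2.1, rfl, rfl, fun _ _ => rfl⟩
  obtain ⟨φ, hφ⟩ := h.2 _ ⟨β', s_cons L' R'⟩
  simp only [mp, List.map_cons, List.cons.injEq] at hφ
  refine ⟨φ, hφ.2, fun hp => ?_⟩
  have := hφ.1
  rw [if_pos hp] at this
  simp only [Prod.map, Prod.mk.injEq] at this
  rw [← this.1, ← this.2]

theorem uni2 (b1 : SB1) {n c i : ℤ} {X : List Lt} {a b : ℕ} {E E' : List (ℕ × ℕ)}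
    (h : Free n c (.s i :: X) ((a, b) :: E)) (h' : Cl n c (ee i ++ X) E') :
    ∃ φ, E' = mp φ E ∧ (¬ (i + c) % 2 = 0 → φ a = φ b) := by
  obtain ⟨β', R'⟩ := h'
  obtain ⟨y, E1, E2, R1, R2, rfl⟩ := b1.app.1 R'
  obtain ⟨L', rfl, e⟩ := ee_fwd b1 R1
  obtain ⟨φ, hφ⟩ := h.2 _ ⟨β', s_cons L' R2⟩
  simp only [mp, List.map_cons, List.cons.injEq] at hφ
  refine ⟨φ, hφ.2, fun hp => ?_⟩
  have := hφ.1
  rw [if_neg hp] at this
  simp only [Prod.map, Prod.mk.injEq] at this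
  rw [← this.1, ← this.2]
  exact e

theorem sm (b1 : SB1) {n c i : ℤ} {X : List Lt} {a b : ℕ} {E : List (ℕ × ℕ)}
    (h : Free n c (.s i :: X) ((a, b) :: E)) :
    (Free n c X E ∧ Free n c (ee i ++ X) (mp (ren a b) E)) ∨
    (Free n c X (mp (ren a b) E) ∧ Free n c (ee i ++ X) E) := by
  obtain ⟨β, R⟩ := h.1
  obtain ⟨y, E0, L, R0, e⟩ := s_inv b1 R
  obtain ⟨e1, rfl⟩ := List.cons.inj e
  have h2 : 2 ≤ (⟨n, c, β⟩ : St).n := L.2.2.1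
  have h2y : 2 ≤ y.n := L.2.2.2.1 ▸ h2
  have hc : y.c = c := L.2.2.2.2.1
  by_cases hp : (i + c) % 2 = 0
  · rw [if_pos hp] at e1
    obtain ⟨ea, eb⟩ := Prod.mk.inj e1
    refine Or.inr ⟨⟨?_, fun E' h' => ?_⟩, ⟨?_, fun E' h' => ?_⟩⟩
    · have R1 := b1.map2 (ren a b) id R0
      have : y.mp2 (ren a b) id = St.mp2 (ren a b) id ⟨n, c, β⟩ := by
        refine loc_eq b1 (loc_mp2 b1 L _ _) ?_
        rw [mp2_b h2, mp2_b h2y, hc, if_pos hp, if_pos hp, ← ea, ← eb, ren_l, ren_r]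
      rw [this] at R1
      exact ⟨_, R1⟩
    · obtain ⟨φ, h1, h3⟩ := uni1 b1 h h'
      exact ⟨φ, by rw [mp_ren (h3 hp), h1]⟩
    · have R1 := b1.map2 id (fun _ => 0) R0
      rw [mp_id] at R1
      have R2 := ee_bwd b1 (loc_mp2 b1 L id (fun _ => 0)) (by
        rw [mp2_b h2, mp2_b h2, if_neg (by simp only; omega), if_neg (by simp only; omega)])
      exact ⟨_, b1.app.2 ⟨_, [], E, R2, R1, rfl⟩⟩
    · obtain ⟨φ, h1, -⟩ := uni2 b1 h h'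
      exact ⟨φ, h1⟩
  · rw [if_neg hp] at e1
    obtain ⟨ea, eb⟩ := Prod.mk.inj e1
    refine Or.inl ⟨⟨?_, fun E' h' => ?_⟩, ⟨?_, fun E' h' => ?_⟩⟩
    · have R1 := b1.map2 id (fun _ => 0) R0
      rw [mp_id] at R1
      have : y.mp2 id (fun _ => 0) = St.mp2 id (fun _ => 0) ⟨n, c, β⟩ := by
        refine loc_eq b1 (loc_mp2 b1 L _ _) ?_
        rw [mp2_b h2, mp2_b h2y, hc, if_neg hp, if_neg hp]
      rw [this] at R1
      exact ⟨_, R1⟩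
    · obtain ⟨φ, h1, -⟩ := uni1 b1 h h'
      exact ⟨φ, h1⟩
    · have R1 := b1.map2 (ren a b) id R0
      have R2 := ee_bwd b1 (loc_mp2 b1 L (ren a b) id) (by
        rw [mp2_b h2, mp2_b h2, if_pos (by simp only; omega), if_pos (by simp only; omega),
          ← ea, ← eb, ren_l, ren_r])
      exact ⟨_, b1.app.2 ⟨_, [], _, R2, R1, rfl⟩⟩
    · obtain ⟨φ, h1, h3⟩ := uni2 b1 h h'
      exact ⟨φ, by rw [mp_ren (h3 hp), h1]⟩

theorem sub_cons (p : ℕ × ℕ) (E : List (ℕ × ℕ)) : SMinor (gr E) (gr (p :: E)) :=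
  sminor_of_sub fun _ _ h =>
    ⟨h.1, h.2.imp (List.mem_cons_of_mem p) (List.mem_cons_of_mem p)⟩

theorem both (a1 : SA1) (b1 : SB1) {n c i : ℤ} {X : List Lt} {E : List (ℕ × ℕ)}
    (h : Free n c (.s i :: X) E) : (∃ E', Free n c X E' ∧ Mn (gr E) (gr E')) ∧
      ∃ E', Free n c (ee i ++ X) E' ∧ Mn (gr E) (gr E') := by
  obtain ⟨β, R⟩ := h.1
  obtain ⟨y, E0, -, -, e⟩ := s_inv b1 R
  generalize (if (i + (⟨n, c, β⟩ : St).c) % 2 = 0 then ((⟨n, c, β⟩ : St).b i, y.b i)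
    else ((⟨n, c, β⟩ : St).b (i - 1), (⟨n, c, β⟩ : St).b (i + 1))) = p at e
  obtain ⟨a, b⟩ := p
  subst e
  rcases sm b1 h with ⟨h1, h2⟩ | ⟨h1, h2⟩
  · exact ⟨⟨_, h1, a1.mn (sub_cons _ _)⟩, ⟨_, h2, a1.mn (a1.con a b E0)⟩⟩
  · exact ⟨⟨_, h1, a1.mn (a1.con a b E0)⟩, ⟨_, h2, a1.mn (sub_cons _ _)⟩⟩

theorem mn_eqv {G G' G'' : SG} (h : Mn G G') (e : Eqv G' G'') : Mn G G'' :=
  ⟨fun r => e.1.1 (h.1 r), fun r => h.2 (e.2.2 r)⟩

theorem mn1 (a1 : SA1) (b1 : SB1) (b2 : SB2) {n : ℤ} (i : ℤ) (hn : 2 ≤ n) :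
    Mnw n [.s i] [] := by
  refine ⟨by simp [dn, dl], fun c X => ⟨fun E h => (both a1 b1 h).1, fun E' h' => ?_⟩⟩
  obtain ⟨β, R⟩ := h'.1
  have k := b1.okl R
  have L : Loc i ⟨n, c, β⟩ ⟨n, c, β⟩ := ⟨k, k, hn, rfl, rfl, fun _ _ => rfl⟩
  obtain ⟨E, hE⟩ := b2.ex_free ⟨β, s_cons L R⟩
  obtain ⟨E'', h1, h2⟩ := (both a1 b1 hE).1
  exact ⟨E, hE, mn_eqv h2 (b2.uniq h1 h')⟩

theorem mn2 (a1 : SA1) (b1 : SB1) (b2 : SB2) {n : ℤ} (i : ℤ) : Mnw n [.s i] (ee i) := by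
  refine ⟨by simp [dn, dl, ee], fun c X => ⟨fun E h => (both a1 b1 h).2, fun E' h' => ?_⟩⟩
  obtain ⟨β, R⟩ := h'.1
  obtain ⟨y, E1, E2, R1, R2, -⟩ := b1.app.1 R
  obtain ⟨L, -, -⟩ := ee_fwd b1 R1
  obtain ⟨E, hE⟩ := b2.ex_free ⟨β, s_cons L R2⟩
  obtain ⟨E'', h1, h2⟩ := (both a1 b1 hE).2
  exact ⟨E, hE, mn_eqv h2 (b2.uniq h1 h')⟩

theorem mn3 (a1 : SA1) (b1 : SB1) (b2 : SB2) (c1 : SC1) {n : ℤ} (hn : 2 ≤ n) :
    Mnw n [.s 1] [.d 0, .u 0] := by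
  have e1 : Eqw n [.t 0, .d 0, .u 0, .t 0] [.d 0, .u 0, .t 0] := by
    have := b2.ectx (n := n) [] [.d 0, .u 0, .t 0] (c1.t2 0 (by simpa [dn] using hn))
    simpa using this
  have e2 : Eqw n [.d 0, .u 0, .t 0] [.d 0, .u 0] := by
    have := b2.ectx (n := n) [.d 0, .u 0] [] (c1.t2 0 (by simpa [dn, dl] using hn))
    simpa using this
  have e3 := mn2 a1 b1 b2 (n := n) 1
  simp only [ee, sub_self] at e3
  exact b2.mtrans e3 (b2.mn_of (b2.trans e1 e2).2)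

theorem split {a b : ℕ} : ∀ {W : List Lt} {x z : St} {E : List (ℕ × ℕ)}, Run W x z E →
    (a, b) ∈ E → ∃ A i B y E1 E2, W = A ++ .s i :: B ∧ Run A x y E1 ∧
      Run (.s i :: B) y z ((a, b) :: E2) ∧ E = E1 ++ (a, b) :: E2
  | [], _, _, _, h, m => by
    rw [h.2.2] at m
    exact absurd m (by simp)
  | g :: W, x, z, E, h, m => by
    obtain ⟨hx, y, e, E', s, R, rfl⟩ := h
    rcases List.mem_append.1 m with m | m
    · cases g with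
      | s i =>
        have e1 := s.2.2.2.2
        rw [e1, List.mem_singleton] at m
        rw [← m] at e1
        subst e1
        exact ⟨[], i, W, x, [], E', rfl, ⟨hx, rfl, rfl⟩, ⟨hx, y, _, E', s, R, rfl⟩, rfl⟩
      | t k => rw [s.2.2.2.2] at m; exact absurd m (by simp)
      | u k => rw [s.2.2.2.2.2.2] at m; exact absurd m (by simp)
      | d k => rw [s.2.2.2.2.2.2] at m; exact absurd m (by simp)
      | r => rw [s.2.2.2] at m; exact absurd m (by simp)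
      | x => rw [s.2.2.2.2.2] at m; exact absurd m (by simp)
    · obtain ⟨A, i, B, y', E1, E2, rfl, R1, R2, rfl⟩ := split R m
      exact ⟨g :: A, i, B, y', e ++ E1, E2, rfl, ⟨hx, y, e, E1, s, R1, rfl⟩, R2, by simp⟩

theorem front (b1 : SB1) (b2 : SB2) (c3 : SC3) {n c : ℤ} {W : List Lt} {E : List (ℕ × ℕ)}
    {a b : ℕ} (h : Free n c W E) (m : (a, b) ∈ E) : ∃ n' c' E0, (∀ p ∈ E, p = (a, b) ∨ p ∈ E0) ∧
      (∃ W1, cr W1 < cr W ∧ Free n' c' W1 E0) ∧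
      ∃ W2, cr W2 < cr W ∧ Free n' c' W2 (mp (ren a b) E0) := by
  obtain ⟨β, R⟩ := h.1
  obtain ⟨A, i, B, y, E1, E2, rfl, R1, R2, rfl⟩ := split R m
  have F := b2.rot R1 R2 h
  have k1 : cr (B ++ A) < cr (A ++ .s i :: B) := by
    rw [b1.cr_app, b1.cr_app]
    simp only [cr]
    omega
  have k2 : cr (ee i ++ (B ++ A)) < cr (A ++ .s i :: B) := by
    simpa [ee, cr] using k1
  refine ⟨y.n, y.c, E2 ++ E1, fun p hp => ?_, ?_⟩
  · simp only [List.mem_append, List.mem_cons] at hp ⊢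
    tauto
  · rcases c3.sm (X := B ++ A) (E := E2 ++ E1) F with ⟨h1, h2⟩ | ⟨h1, h2⟩
    · exact ⟨⟨_, k1, h1⟩, ⟨_, k2, h2⟩⟩
    · exact ⟨⟨_, k2, h2⟩, ⟨_, k1, h1⟩⟩

theorem jj (a1 : SA1) (b1 : SB1) (b2 : SB2) (c3 : SC3) (hg : ∀ n W, Good n W) (N : ℕ) :
    ∀ n c W E, cr W < N → Free n c W E → ∀ G, SMinor G (gr E) → GoodG G := by
  classical
  induction N with
  | zero => exact fun _ _ _ _ h => absurd h (Nat.not_lt_zero _)
  | succ N ih =>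
    rintro n c W E hN h G ⟨U, f, M⟩
    by_cases hb : ∃ u v, FR (gr E) U f u v
    · obtain ⟨a, b, hab, m⟩ : ∃ a b, FR (gr E) U f a b ∧ (a, b) ∈ E := by
        obtain ⟨u, v, huv⟩ := hb
        rcases huv.2.2.2.2 with m | m
        · exact ⟨u, v, huv, m⟩
        · exact ⟨v, u, huv.symm, m⟩
      obtain ⟨n', c', E0, h0, -, W2, k2, F2⟩ := front b1 b2 c3 h m
      refine ih n' c' W2 _ (by omega) F2 G
        (a1.trans (sminor_con M hab.2.2.2.1 hab.1 hab.2.2.1) (sminor_of_sub ?_))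
      rintro x y ⟨hxy, p, q, ⟨-, hA⟩, rfl, rfl⟩
      refine ⟨hxy, ?_⟩
      rcases hA with hA | hA
      · rcases h0 _ hA with e | e
        · obtain ⟨rfl, rfl⟩ := Prod.mk.inj e
          exact absurd ((ren_l _ _).trans (ren_r _ _).symm) hxy
        · exact Or.inl (List.mem_map_of_mem (f := Prod.map (ren a b) (ren a b)) e)
      · rcases h0 _ hA with e | e
        · obtain ⟨rfl, rfl⟩ := Prod.mk.inj e
          exact absurd ((ren_r _ _).trans (ren_l _ _).symm) hxy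
        · exact Or.inr (List.mem_map_of_mem (f := Prod.map (ren a b) (ren a b)) e)
    have hinj : ∀ u ∈ U, ∀ v ∈ U, f u = f v → u = v := by
      intro u hu v hv e
      rcases (M.conn u hu v hv e).cases_head with h | ⟨t, ht, -⟩
      · exact h
      · exact absurd ⟨u, t, ht⟩ hb
    by_cases ha : ∃ a b, (a, b) ∈ E ∧ ¬ (a ∈ U ∧ b ∈ U ∧ G.A (f a) (f b))
    · obtain ⟨a, b, m, hab⟩ := ha
      obtain ⟨n', c', E0, h0, ⟨W1, k1, F1⟩, -⟩ := front b1 b2 c3 h m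
      refine ih n' c' W1 _ (by omega) F1 G ⟨U, f, ⟨fun u hu v hv e => ?_, fun x y hxy => ?_⟩⟩
      · rw [hinj u hu v hv e]
      · obtain ⟨u, hu, v, hv, rfl, rfl, huv, hA⟩ := M.edge x y hxy
        refine ⟨u, hu, v, hv, rfl, rfl, huv, ?_⟩
        rcases hA with hA | hA
        · rcases h0 _ hA with e | e
          · obtain ⟨rfl, rfl⟩ := Prod.mk.inj e
            exact absurd ⟨hu, hv, hxy⟩ hab
          · exact Or.inl e
        · rcases h0 _ hA with e | e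
          · obtain ⟨rfl, rfl⟩ := Prod.mk.inj e
            exact absurd ⟨hv, hu, G.symm _ _ hxy⟩ hab
          · exact Or.inr e
    push Not at ha
    set g : ℕ → ℕ := fun x => if hx : ∃ u ∈ U, f u = x then hx.choose else 0 with hgd
    have g1 : ∀ u ∈ U, g (f u) = u := by
      intro u hu
      have hx : ∃ u' ∈ U, f u' = f u := ⟨u, hu, rfl⟩
      have : g (f u) = hx.choose := dif_pos hx
      rw [this]
      exact hinj _ hx.choose_spec.1 u hu hx.choose_spec.2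
    have back : SMinor (gr E) G := by
      refine ⟨f '' U, g, ⟨?_, ?_⟩⟩
      · rintro _ ⟨u, hu, rfl⟩ _ ⟨v, hv, rfl⟩ e
        rw [g1 u hu, g1 v hv] at e
        rw [e]
      · rintro p q ⟨-, hA | hA⟩
        · obtain ⟨h1, h2, h3⟩ := ha p q hA
          exact ⟨f p, ⟨p, h1, rfl⟩, f q, ⟨q, h2, rfl⟩, g1 p h1, g1 q h2, h3⟩
        · obtain ⟨h1, h2, h3⟩ := ha q p hA
          exact ⟨f p, ⟨p, h2, rfl⟩, f q, ⟨q, h1, rfl⟩, g1 p h2, g1 q h1, G.symm _ _ h3⟩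
    have ev := a1.eqv ⟨U, f, M⟩ back
    exact (hg n W c E h).imp ev.1.1 ev.2.1

end C3aux

theorem pC3 (a1 : SA1) (b1 : SB1) (b2 : SB2) (c1 : SC1) : SC3 where
  sm := fun h => C3aux.sm b1 h
  mn1 := fun i hn => C3aux.mn1 a1 b1 b2 i hn
  mn2 := fun i _ => C3aux.mn2 a1 b1 b2 i
  mn3 := fun hn => C3aux.mn3 a1 b1 b2 c1 hn

theorem pJ (a1 : SA1) (b1 : SB1) (b2 : SB2) (c3 : SC3) : SJ :=
  fun hg n c W E h => C3aux.jj a1 b1 b2 c3 hg (cr W + 1) n c W E (Nat.lt_succ_self _) h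

end Pool.Agent.P.MP_5af56b_co.Kl
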