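import Pool.Agent.P.MP_5af56b_co.Tor.Chk
import Pool.Agent.P.MP_5af56b_co.Kl.Stmt

namespace Pool.Agent.P.MP_5af56b_co.Kl

export Pool.Agent.P.MP_5af56b_co.Tor (ES ES.ren ES.no rnm rnE stepS stepT stepU stepD cls es0
  badCk rdCk)

/-! ## Evaluation of a closed word (from the last letter to the first) -/

def stepR (S : ES) : ES := ⟨S.n, S.c, S.cur.reverse, S.top, S.nx, S.E, S.ok⟩

/-- identify the labels of the gaps `k` and `k + 4` for `k < j` -/
def idn : ℕ → ES → ES
  | 0, S => S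
  | j + 1, S => idn j (S.ren (S.cur.getD j 0) (S.cur.getD (j + 4) 0))

def stepX (S : ES) : ES :=
  ⟨8, S.c, [S.nx, S.nx + 1, S.nx + 2, S.nx + 3, S.nx, S.nx + 1, S.nx + 2, S.nx + 3, S.nx],
    (idn 4 S).top, S.nx + 4, (idn 4 S).E, S.ok && Nat.beq S.n 8⟩

def evs : Lt → ES → ES
  | .s i, S => stepS (i % (S.n : ℤ)).toNat S
  | .t k, S => stepT (k % (S.n : ℤ)).toNat S
  | .u (.ofNat i), S => stepU i S
  | .d (.ofNat i), S => stepD i S
  | .r, S => stepR S
  | .x, S => stepX S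
  | _, S => S.no

def evb (S : ES) : List Lt → ES
  | [] => S
  | g :: W => evs g (evb S W)

def evOK (n c : ℕ) (W : List Lt) : Bool :=
  (evb (es0 n c) W).ok && Nat.beq (evb (es0 n c) W).n n && Nat.beq (evb (es0 n c) W).c c &&
    Nat.beq (n % 2) 0 && Nat.ble c 1

def evE (n c : ℕ) (W : List Lt) : List (ℕ × ℕ) := (cls (n + 1) (evb (es0 n c) W)).E

def SEv : Prop := ∀ (n c : ℕ) (W : List Lt), evOK n c W = true → Free n c W (evE n c W)

def badW (n : ℕ) (W : List Lt) (C0 C1 : ℕ) : Bool :=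
  evOK n 0 W && evOK n 1 W && badCk C0 (evE n 0 W) && badCk C1 (evE n 1 W)
/-- odd certificates prove `Bad`, even ones prove `Rd` -/
def goodC (n c : ℕ) (W : List Lt) (C : ℕ) : Bool :=
  evOK n c W && bif Nat.beq (C % 2) 1 then badCk (C / 2) (evE n c W) else rdCk (C / 2) (evE n c W)

/-- soundness of the two graph checkers -/
structure SCg : Prop where
  bad : ∀ C E, badCk C E = true → Bad (gr E)
  rd : ∀ C E, rdCk C E = true → Rd (gr E)

structure SCk : Prop where
  badw : ∀ (n : ℕ) W C0 C1, badW n W C0 C1 = true → BadW n W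
  good : ∀ (n c : ℕ) W C, goodC n c W C = true → ∀ E, Free n c W E → GoodG (gr E)

theorem pCk (b2 : SB2) (ev : SEv) (g : SCg) : SCk where
  badw n W C0 C1 h c E hE := by
    simp only [badW, Bool.and_eq_true] at h
    have hc : c = 0 ∨ c = 1 := by
      obtain ⟨⟨b, hb⟩, -⟩ := hE
      cases W with
      | nil => exact hb.1.2.2.1
      | cons g W => exact hb.1.2.2.1
    rcases hc with rfl | rfl
    · exact (b2.uniq (ev n 0 W h.1.1.1) hE).2.1 (g.bad _ _ h.1.2)
    · exact (b2.uniq (ev n 1 W h.1.1.2) hE).2.1 (g.bad _ _ h.2)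
  good n c W C h E hE := by
    rw [goodC, Bool.and_eq_true] at h
    have u := b2.uniq (ev n c W h.1) hE
    have h2 := h.2
    cases e : Nat.beq (C % 2) 1 <;> rw [e] at h2
    · exact Or.inl (u.1.1 (g.rd _ _ h2))
    · exact Or.inr (u.2.1 (g.bad _ _ h2))

end Pool.Agent.P.MP_5af56b_co.Kl
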