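import Pool.Agent.P.MP_5af56b_co.Kl.Stmt

namespace Pool.Agent.P.MP_5af56b_co.Kl

namespace D2aux

theorem br_cons {g : Lt} {U : List Lt} (h : IsBr (g :: U)) :
    (∃ i, g = .s i ∨ g = .t i) ∧ IsBr U :=
  ⟨h g (List.mem_cons_self ..), fun x hx => h x (List.mem_cons_of_mem _ hx)⟩

theorem br_s (i : ℤ) {U : List Lt} (h : IsBr U) : IsBr (.s i :: U) := by
  intro x hx
  rcases List.mem_cons.1 hx with rfl | hx
  · exact ⟨i, Or.inl rfl⟩
  · exact h x hx

theorem br_t (k : ℤ) {U : List Lt} (h : IsBr U) : IsBr (.t k :: U) := by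
  intro x hx
  rcases List.mem_cons.1 hx with rfl | hx
  · exact ⟨k, Or.inr rfl⟩
  · exact h x hx

theorem br_nil : IsBr [] := fun _ hx => absurd hx List.not_mem_nil

theorem mn_s (b2 : SB2) {n : ℤ} (i : ℤ) {U V : List Lt} (h : Mnw n U V) :
    Mnw n (.s i :: U) (.s i :: V) := by
  have h1 : Mnw (n + dn [Lt.s i]) U V := by simpa [dn, dl] using h
  simpa using b2.mctx [.s i] [] h1

theorem mn_t (b2 : SB2) {n : ℤ} (k : ℤ) {U V : List Lt} (h : Mnw n U V) :
    Mnw n (.t k :: U) (.t k :: V) := by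
  have h1 : Mnw (n + dn [Lt.t k]) U V := by simpa [dn, dl] using h
  simpa using b2.mctx [.t k] [] h1

theorem mn_del (b2 : SB2) (c3 : SC3) {n : ℤ} (hn : 2 ≤ n) (i : ℤ) (U : List Lt) :
    Mnw n (.s i :: U) U := by
  have h1 : Mnw (n + dn []) [Lt.s i] [] := by simpa [dn] using c3.mn1 i hn
  simpa using b2.mctx [] U h1

theorem tr_conj (p : SP) {n : ℤ} {w : ℤ → ℤ} (hw : AP n w) (a b j : ℤ) :
    tr n (w a) (w b) (w j) = w (tr n a b j) := by
  unfold tr
  by_cases h1 : n ∣ j - a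
  · rw [if_pos ((p.dvd hw j a).2 h1), if_pos h1]
    obtain ⟨k, hk⟩ := h1
    have e1 : j = a + n * k := by omega
    have e2 : j - a + b = b + n * k := by omega
    rw [e2, p.mul hw b k]
    have := p.mul hw a k
    rw [← e1] at this
    omega
  · rw [if_neg (fun h => h1 ((p.dvd hw j a).1 h)), if_neg h1]
    by_cases h2 : n ∣ j - b
    · rw [if_pos ((p.dvd hw j b).2 h2), if_pos h2]
      obtain ⟨k, hk⟩ := h2
      have e1 : j = b + n * k := by omega
      have e2 : j - b + a = a + n * k := by omega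
      rw [e2, p.mul hw a k]
      have := p.mul hw b k
      rw [← e1] at this
      omega
    · rw [if_neg (fun h => h2 ((p.dvd hw j b).1 h)), if_neg h2]

theorem tr_sw {n i a : ℤ} (hn : 2 ≤ n) (h : n ∣ a + 1 - i) (j : ℤ) :
    tr n a (a + 1) j = sw n i j := by
  have e1 : n ∣ j - a ↔ n ∣ j - i + 1 := by
    constructor
    · intro h1
      have := dvd_add h1 h
      rwa [show j - a + (a + 1 - i) = j - i + 1 by ring] at this
    · intro h1
      have := dvd_sub h1 h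
      rwa [show j - i + 1 - (a + 1 - i) = j - a by ring] at this
  have e2 : n ∣ j - (a + 1) ↔ n ∣ j - i := by
    constructor
    · intro h1
      have := dvd_add h1 h
      rwa [show j - (a + 1) + (a + 1 - i) = j - i by ring] at this
    · intro h1
      have := dvd_sub h1 h
      rwa [show j - i - (a + 1 - i) = j - (a + 1) by ring] at this
  unfold tr sw
  by_cases h1 : n ∣ j - i
  · have h2 : ¬ n ∣ j - i + 1 := by
      intro h2
      have h3 := dvd_sub h2 h1
      rw [show j - i + 1 - (j - i) = 1 by ring] at h3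
      have := Int.le_of_dvd one_pos h3
      omega
    rw [if_neg (fun h3 => h2 (e1.1 h3)), if_pos (e2.2 h1), if_pos h1]
    ring
  · rw [if_neg h1]
    by_cases h2 : n ∣ j - i + 1
    · rw [if_pos (e1.2 h2), if_pos h2]
      ring
    · rw [if_neg (fun h3 => h2 (e1.1 h3)), if_neg (fun h3 => h1 (e2.1 h3)), if_neg h2]

theorem se (b2 : SB2) (c3 : SC3) (p : SP) {n : ℤ} (hn : 2 ≤ n) :
    ∀ (U : List Lt) (a b : ℤ), IsBr U → a < b → pw n U b < pw n U a →
      ∃ U', IsBr U' ∧ cr U' < cr U ∧ Mnw n U U' ∧ pw n U' = fun j => pw n U (tr n a b j) := by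
  intro U
  induction U with
  | nil =>
    intro a b _ hab h
    simp only [pw] at h
    omega
  | cons g U ih =>
    intro a b hU hab h
    obtain ⟨⟨i, rfl | rfl⟩, hU1⟩ := br_cons hU
    · simp only [pw] at h
      rcases p.sw_lt i hn hab with h1 | ⟨rfl, h2⟩
      · obtain ⟨U', hb, hc, hm, hp⟩ := ih _ _ hU1 h1 h
        refine ⟨.s i :: U', br_s i hb, by simpa [cr] using hc, mn_s b2 i hm, ?_⟩
        funext j
        simp only [pw, hp]
        rw [tr_conj p (p.sw_ap i hn)]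
      · refine ⟨U, hU1, by simp [cr], mn_del b2 c3 hn i U, ?_⟩
        funext j
        simp only [pw]
        rw [tr_sw hn h2, p.sw_sw i j hn]
    · simp only [pw] at h
      obtain ⟨U', hb, hc, hm, hp⟩ := ih (a + i) (b + i) hU1 (by omega) h
      refine ⟨.t i :: U', br_t i hb, by simpa [cr] using hc, mn_t b2 i hm, ?_⟩
      funext j
      simp only [pw, hp]
      exact congrArg _ (tr_conj p (p.shift n i) a b j)

theorem d5 (b2 : SB2) (c3 : SC3) (p : SP) (d1 : SD1) {n : ℤ} (hn : 2 ≤ n) (he : n % 2 = 0) :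
    ∀ U : List Lt, IsBr U → ∃ U0, IsBr U0 ∧ RedW n U0 ∧ pw n U0 = pw n U ∧ Mnw n U U0 ∧
      cr U0 ≤ cr U ∧ (cr U0 = cr U → RedW n U) := by
  intro U
  induction U with
  | nil => exact fun h => ⟨[], h, trivial, rfl, b2.mrefl _ _, le_rfl, fun _ => trivial⟩
  | cons g U ih =>
    intro hU
    obtain ⟨⟨i, rfl | rfl⟩, hU1⟩ := br_cons hU
    · obtain ⟨U0, hb, hr, hp, hm, hc, hq⟩ := ih hU1
      by_cases h : pw n U0 (i - 1) < pw n U0 i
      · refine ⟨.s i :: U0, br_s i hb, ⟨h, hr⟩, ?_, mn_s b2 i hm, by simpa [cr] using hc, ?_⟩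
        · funext j
          simp only [pw, hp]
        · intro h1
          exact ⟨hp ▸ h, hq (by simpa [cr] using h1)⟩
      · have h1 : pw n U0 i < pw n U0 (i - 1) := by
          refine lt_of_le_of_ne (not_lt.1 h) fun h2 => ?_
          have := (p.pw_ap U0 hn).1.1 h2
          omega
        obtain ⟨U1, hb1, hr1, hp1, he1⟩ := d1.d2 hn he hb hr h1
        have hc1 : cr U0 = cr U1 + 1 := he1.1
        refine ⟨U1, hb1, hr1.2, ?_, ?_, ?_, ?_⟩
        · funext j
          have := congrFun hp1 (sw n i j)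
          simp only [pw] at this ⊢
          rw [p.sw_sw i j hn] at this
          rw [this, hp]
        · exact b2.mtrans (mn_del b2 c3 hn i U)
            (b2.mtrans hm (b2.mtrans (b2.mn_of he1.2) (mn_del b2 c3 hn i U1)))
        · simp only [cr]
          omega
        · intro h2
          simp only [cr] at h2
          omega
    · obtain ⟨U0, hb, hr, hp, hm, hc, hq⟩ := ih hU1
      refine ⟨.t i :: U0, br_t i hb, hr, ?_, mn_t b2 i hm, hc, hq⟩
      funext j
      simp only [pw, hp]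

theorem d5b (b2 : SB2) (c3 : SC3) (p : SP) (d1 : SD1) {n i : ℤ} {U : List Lt} (hn : 2 ≤ n)
    (he : n % 2 = 0) (hU : IsBr U) (h : pw n U i < pw n U (i - 1)) :
    ∃ U1, IsBr U1 ∧ pw n (.s i :: U1) = pw n U ∧ Mnw n U (.s i :: U1) := by
  obtain ⟨U0, hb, hr, hp, hm, -, -⟩ := d5 b2 c3 p d1 hn he U hU
  obtain ⟨U1, hb1, -, hp1, he1⟩ := d1.d2 hn he hb hr (hp ▸ h)
  exact ⟨U1, hb1, hp1.trans hp, b2.mtrans hm (b2.mn_of he1.2)⟩

theorem d5t (b1 : SB1) (b2 : SB2) (b3 : SB3) (c3 : SC3) (p : SP) (d1 : SD1) {n i a b : ℤ}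
    {U : List Lt} (hn : 2 ≤ n) (he : n % 2 = 0) (hU : IsBr U) (hab : a < b)
    (ha : pw n U a = i) (hb : pw n U b = i - 1) :
    ∃ U1, IsBr U1 ∧ pw n (U1 ++ [.s i]) = pw n U ∧ Mnw n U (U1 ++ [.s i]) := by
  have h1 : pw n (mir U) i < pw n (mir U) (i - 1) := by
    rw [← hb, ← ha, p.pw_mir U a hn, p.pw_mir U b hn]
    exact hab
  obtain ⟨V, hV, hp, hm⟩ := d5b b2 c3 p d1 hn he (b3.br_mir hU) h1
  have e : mir (.s i :: V) = mir V ++ [.s i] := by simp [mir, flp]
  refine ⟨mir V, b3.br_mir hV, ?_, ?_⟩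
  · funext j
    have h2 := p.pw_mir (.s i :: V) (pw n U j) hn
    rw [hp, p.pw_mir U j hn, e] at h2
    exact h2
  · have h2 := b3.mnw hm
    rw [b1.br_dn (b3.br_mir hU), add_zero, b3.mir_mir, e] at h2
    exact h2

theorem brt (b2 : SB2) (c1 : SC1) (c3 : SC3) {n : ℤ} (hn : 2 ≤ n) :
    ∀ U : List Lt, IsBr U → Mnw n U [.t (dc U)] := by
  intro U
  induction U with
  | nil =>
    intro _
    have := b2.mn_of (b2.symm (c1.t2 0 hn)).2
    simpa [dc] using this
  | cons g U ih =>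
    intro hU
    obtain ⟨⟨i, rfl | rfl⟩, hU1⟩ := br_cons hU
    · exact b2.mtrans (mn_del b2 c3 hn i U) (ih hU1)
    · exact b2.mtrans (mn_t b2 i (ih hU1)) (b2.mn_of (c1.t1 n i (dc U)).2)

end D2aux

theorem pD2 (b1 : SB1) (b2 : SB2) (b3 : SB3) (c1 : SC1) (c3 : SC3) (p : SP) (d1 : SD1) : SD2 where
  d5 := fun hn he hU => D2aux.d5 b2 c3 p d1 hn he _ hU
  d5b := fun hn he hU h => D2aux.d5b b2 c3 p d1 hn he hU h
  d5t := fun hn he hU hab ha hb => D2aux.d5t b1 b2 b3 c3 p d1 hn he hU hab ha hb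
  d6 := by
    intro n U V hn he hU hV hr hp hc
    obtain ⟨U0, hb, hr0, hp0, -, hc0, hq⟩ := D2aux.d5 b2 c3 p d1 hn he U hU
    have h1 : cr U0 = cr V := (d1.d4 hn he hb hV hr0 hr (hp0.trans hp)).1
    exact d1.d4 hn he hU hV (hq (by omega)) hr hp
  se := fun hn hU hab h => D2aux.se b2 c3 p hn _ _ _ hU hab h
  br_t := fun hn hU => D2aux.brt b2 c1 c3 hn _ hU

end Pool.Agent.P.MP_5af56b_co.Kl
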