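import Pool.Agent.P.MP_5af56b_co.Kl.Stmt

namespace Pool.Agent.P.MP_5af56b_co.Kl

namespace DUaux

/-- a graph on doubled labels together with a second graph -/
def un (G K : SG) (hK : ∀ x y, K.A x y → x % 2 = 1) : SG where
  A x y := (∃ p q, G.A p q ∧ x = 2 * p ∧ y = 2 * q) ∨ K.A x y
  symm := by
    rintro x y (⟨p, q, h, h1, h2⟩ | h)
    · exact Or.inl ⟨q, p, G.symm _ _ h, h2, h1⟩
    · exact Or.inr (K.symm _ _ h)
  irr := by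
    rintro x (⟨p, q, h, h1, h2⟩ | h)
    · have e : p = q := by omega
      exact G.irr q (e ▸ h)
    · have := hK _ _ h
      exact K.irr x h
  bdd := by
    obtain ⟨N, hN⟩ := G.bdd
    obtain ⟨M, hM⟩ := K.bdd
    refine ⟨2 * N + M, ?_⟩
    rintro x y (⟨p, q, h, h1, -⟩ | h)
    · have := hN _ _ h; omega
    · have := hM _ _ h; omega

theorem rd_un {K : SG} (hK : ∀ x y, K.A x y → x % 2 = 1) (rK : Rd K) {n : ℕ} {G : SG}
    (h : Red n G) : Rd (un G K hK) := by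
  induction h with
  | nil n G h =>
    refine rK.minor (sminor_of_sub ?_)
    rintro x y (⟨p, q, h0, -⟩ | h0)
    · exact absurd h0 (h p q)
    · exact h0
  | elim n G G' v a b c h1 h2 h3 _ ih =>
    obtain ⟨m, hm⟩ := ih
    have nb : ∀ x, (un G K hK).A (2 * v) x → ∃ q, G.A v q ∧ x = 2 * q := by
      rintro x (⟨p, q, h0, e1, e2⟩ | h0)
      · have e : p = v := by omega
        exact ⟨q, e ▸ h0, e2⟩
      · have := hK _ _ h0; omega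
    refine ⟨m + 1, Red.elim m _ _ (2 * v) (2 * a) (2 * b) (2 * c) ?_ ?_ ?_ hm⟩
    · intro x hx
      obtain ⟨q, hq, rfl⟩ := nb x hx
      have := h1 q hq
      unfold T3 at *
      omega
    · rintro x y (⟨p, q, h0, rfl, rfl⟩ | h0) hx hy
      · exact Or.inl ⟨p, q, h2 p q h0 (by omega) (by omega), rfl, rfl⟩
      · exact Or.inr h0
    · intro x y hx hy hxy
      obtain ⟨p, hp, rfl⟩ := nb x hx
      obtain ⟨q, hq, rfl⟩ := nb y hy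
      exact Or.inl ⟨p, q, h3 p q hp hq (by omega), rfl, rfl⟩
  | dy n G G' a b c w h1 h2 h3 _ ih =>
    obtain ⟨m, hm⟩ := ih
    refine ⟨m + 1, Red.dy m _ _ (2 * a) (2 * b) (2 * c) (2 * w) ?_ ?_ ?_ hm⟩
    · rintro x (⟨p, q, h0, e1, e2⟩ | h0)
      · have e : p = w := by omega
        exact h1 q (e ▸ h0)
      · have := hK _ _ h0; omega
    · rintro x y (⟨p, q, h0, rfl, rfl⟩ | h0) hT
      · refine Or.inl ⟨p, q, h2 p q h0 fun h => hT ?_, rfl, rfl⟩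
        unfold T3 at *
        omega
      · exact Or.inr h0
    · rintro x (rfl | rfl | rfl)
      · exact Or.inl ⟨w, a, h3 a (Or.inl rfl), rfl, rfl⟩
      · exact Or.inl ⟨w, b, h3 b (Or.inr (Or.inl rfl)), rfl, rfl⟩
      · exact Or.inl ⟨w, c, h3 c (Or.inr (Or.inr rfl)), rfl, rfl⟩

theorem mem_mp {φ : ℕ → ℕ} {E : List (ℕ × ℕ)} {x y : ℕ} (h : (x, y) ∈ mp φ E) :
    ∃ p q, (p, q) ∈ E ∧ x = φ p ∧ y = φ q := by
  obtain ⟨⟨p, q⟩, h1, h2⟩ := List.mem_map.1 h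
  exact ⟨p, q, h1, (congrArg Prod.fst h2).symm, (congrArg Prod.snd h2).symm⟩

theorem mp_app (φ : ℕ → ℕ) (E E' : List (ℕ × ℕ)) : mp φ (E ++ E') = mp φ E ++ mp φ E' :=
  List.map_append

theorem mp_inv {φ ψ : ℕ → ℕ} (h : ∀ x, ψ (φ x) = x) (E : List (ℕ × ℕ)) : E = mp ψ (mp φ E) := by
  induction E with
  | nil => rfl
  | cons e E ih =>
    change e :: E = (ψ (φ e.1), ψ (φ e.2)) :: mp ψ (mp φ E)
    rw [h, h, ← ih]

theorem rd_app (a1 : SA1) {E1 E2 : List (ℕ × ℕ)} (h1 : Rd (gr E1)) (h2 : Rd (gr E2)) :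
    Rd (gr (mp (fun x => 2 * x) E1 ++ mp (fun x => 2 * x + 1) E2)) := by
  have hK : ∀ x y, (gr (mp (fun x => 2 * x + 1) E2)).A x y → x % 2 = 1 := by
    rintro x y ⟨-, h | h⟩ <;> obtain ⟨p, q, -, e1, e2⟩ := mem_mp h <;> omega
  have rK : Rd (gr (mp (fun x => 2 * x + 1) E2)) :=
    (a1.iso (ψ := fun x => x / 2) rfl (mp_inv (fun x => by omega) E2)).1.1 h2
  obtain ⟨n, hn⟩ := h1
  refine (rd_un hK rK hn).minor (sminor_of_sub ?_)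
  rintro x y ⟨hxy, h | h⟩ <;> rcases List.mem_append.1 h with h | h
  · obtain ⟨p, q, h0, e1, e2⟩ := mem_mp h
    exact Or.inl ⟨p, q, ⟨fun e => hxy (by omega), Or.inl h0⟩, e1, e2⟩
  · exact Or.inr ⟨hxy, Or.inl h⟩
  · obtain ⟨p, q, h0, e1, e2⟩ := mem_mp h
    exact Or.inl ⟨q, p, ⟨fun e => hxy (by omega), Or.inr h0⟩, e2, e1⟩
  · exact Or.inr ⟨hxy, Or.inr h⟩

theorem glu (b1 : SB1) {c : ℤ} {A B : List Lt} {E1 E2 : List (ℕ × ℕ)}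
    (h1 : Cl 8 c (.x :: A) E1) (h2 : Cl 8 c (.x :: B) E2) :
    Cl 8 c (.x :: (A ++ .x :: B)) (E1 ++ E2) := by
  obtain ⟨p, hp, y0, e, F1, ⟨-, s2, s3, s4, s5, rfl⟩, r1, rfl⟩ := h1
  obtain ⟨q, hq, y2, e, F2, ⟨-, t2, t3, t4, t5, rfl⟩, r2, rfl⟩ := h2
  exact ⟨q, hq, y0, [], _, ⟨rfl, s2, s3, t4, s5, rfl⟩,
    b1.app.2 ⟨_, _, _, r1, ⟨hp, y2, [], _, ⟨rfl, t2, t3, s4, t5, rfl⟩, r2, rfl⟩, rfl⟩, rfl⟩

theorem split (b1 : SB1) {c : ℤ} {A B : List Lt} {E : List (ℕ × ℕ)} (hA : dc A % 2 = 0)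
    (h : Cl 8 c (.x :: (A ++ .x :: B)) E) :
    ∃ E1 E2, Cl 8 c (.x :: A) E1 ∧ Cl 8 c (.x :: B) E2 ∧ E = E1 ++ E2 := by
  obtain ⟨q, hq, y0, e, F, ⟨-, s2, s3, s4, s5, rfl⟩, r, rfl⟩ := h
  obtain ⟨⟨n1, c1, p⟩, F1, F2', r1, ⟨hp, y2, e, F2, ⟨t1, t2, t3, t4, t5, rfl⟩, r2, rfl⟩, rfl⟩ :=
    b1.app.1 r
  have hc : c1 = c := by
    have e1 : c1 = (y0.c + dc A) % 2 := b1.wc r1
    have e2 : y0.c = c := s3
    have e3 : c = 0 ∨ c = 1 := hq.2.2.1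
    omega
  have hn : n1 = 8 := t1
  subst hc hn
  exact ⟨_, _, ⟨p, hp, y0, [], _, ⟨rfl, s2, s3, t4, s5, rfl⟩, r1, rfl⟩,
    ⟨q, hq, y2, [], _, ⟨rfl, t2, t3, s4, t5, rfl⟩, r2, rfl⟩, rfl⟩

theorem cl_mp (b1 : SB1) (φ : ℕ → ℕ) {n c : ℤ} {W : List Lt} {E : List (ℕ × ℕ)}
    (h : Cl n c W E) : Cl n c W (mp φ E) :=
  let ⟨_, r⟩ := h
  ⟨_, b1.map2 φ id r⟩

theorem cl_len (b1 : SB1) {n c : ℤ} {W : List Lt} {E E' : List (ℕ × ℕ)}
    (h : Cl n c W E) (h' : Cl n c W E') : E.length = E'.length :=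
  let ⟨_, r⟩ := h
  let ⟨_, r'⟩ := h'
  (b1.len r).trans (b1.len r').symm

end DUaux

open DUaux in
theorem pDU (a1 : SA1) (b1 : SB1) (_b2 : SB2) : SDU := by
  intro A B hA gA gB c E hE
  obtain ⟨E1, E2, c1, c2, rfl⟩ := split b1 hA hE.1
  have hl : ∀ {E1' : List (ℕ × ℕ)} (φ : ℕ → ℕ), Cl 8 c (.x :: A) E1' →
      E1'.length = (mp φ E1).length := fun φ h => by
    rw [cl_len b1 h c1]; exact (List.length_map _).symm
  have f1 : Free 8 c (.x :: A) E1 := ⟨c1, fun E' h => by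
    obtain ⟨φ, hφ⟩ := hE.2 _ (glu b1 h c2)
    rw [mp_app] at hφ
    exact ⟨φ, (List.append_inj hφ (hl φ h)).1⟩⟩
  have f2 : Free 8 c (.x :: B) E2 := ⟨c2, fun E' h => by
    obtain ⟨φ, hφ⟩ := hE.2 _ (glu b1 c1 h)
    rw [mp_app] at hφ
    exact ⟨φ, (List.append_inj hφ (hl φ c1)).2⟩⟩
  rcases gA c E1 f1 with r1 | r1
  · rcases gB c E2 f2 with r2 | r2
    · obtain ⟨φ, hφ⟩ := hE.2 _
        (glu b1 (cl_mp b1 (fun x => 2 * x) c1) (cl_mp b1 (fun x => 2 * x + 1) c2))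
      refine Or.inl ((a1.iso (ψ := fun x => x / 2) hφ ?_).1.2 (rd_app a1 r1 r2))
      rw [mp_app, ← mp_inv (fun x => by omega) E1, ← mp_inv (fun x => by omega) E2]
    · refine Or.inr ((a1.mn (sminor_of_sub ?_)).2 r2)
      rintro x y ⟨hxy, h⟩
      exact ⟨hxy, h.imp (List.mem_append_right _) (List.mem_append_right _)⟩
  · refine Or.inr ((a1.mn (sminor_of_sub ?_)).2 r1)
    rintro x y ⟨hxy, h⟩
    exact ⟨hxy, h.imp (List.mem_append_left _) (List.mem_append_left _)⟩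

end Pool.Agent.P.MP_5af56b_co.Kl
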