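import Pool.Agent.P.MP_5af56b_co.Tor.Stmt
import Pool.Agent.P.MP_5af56b_co.Kl.Base

namespace Pool.Agent.P.MP_5af56b_co.Kl

open Finset

export Pool.Agent.P.MP_5af56b_co.Tor (LL gr Bad GoodG Eqv Mn mp St St.Ok St.mp2 St.ofF St.mk.injEq
  sw tr AP cut tc dg rr rho wind S4 SA1 SA2 SFin SFam)

/-! ## Words and their runs -/

/-- crossing at gap `i`, rotation by `k`, cup in gap `i`, cap closing gap `i + 1`, reflection,
and a pair of crosscaps (one closes the surface below, one opens the surface above) -/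
inductive Lt where
  | s (i : ℤ)
  | t (k : ℤ)
  | u (i : ℤ)
  | d (i : ℤ)
  | r
  | x

def Stp : Lt → St → St → List (ℕ × ℕ) → Prop
  | .s i, x, y, e => 2 ≤ x.n ∧ y.n = x.n ∧ y.c = x.c ∧ (∀ j, ¬ x.n ∣ j - i → y.b j = x.b j) ∧
      e = [if (i + x.c) % 2 = 0 then (x.b i, y.b i) else (x.b (i - 1), x.b (i + 1))]
  | .t k, x, y, e => 2 ≤ x.n ∧ y.n = x.n ∧ y.c = (x.c + k) % 2 ∧ (∀ j, y.b (j + k) = x.b j) ∧ e = []
  | .u i, x, y, e => 0 ≤ i ∧ i ≤ x.n ∧ y.n = x.n + 2 ∧ y.c = x.c ∧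
      (∀ j, 0 ≤ j → j ≤ i → y.b j = x.b j) ∧ (∀ j, i ≤ j → j ≤ x.n → y.b (j + 2) = x.b j) ∧ e = []
  | .d i, x, y, e => 0 ≤ i ∧ i ≤ y.n ∧ x.n = y.n + 2 ∧ y.c = x.c ∧
      (∀ j, 0 ≤ j → j ≤ i → y.b j = x.b j) ∧ (∀ j, i ≤ j → j ≤ y.n → y.b j = x.b (j + 2)) ∧ e = []
  | .r, x, y, e => y.n = x.n ∧ y.c = x.c ∧ (∀ j, y.b j = x.b (-j)) ∧ e = []
  | .x, x, y, e => x.n = 8 ∧ y.n = 8 ∧ y.c = x.c ∧ (∀ j, x.b (j + 4) = x.b j) ∧
      (∀ j, y.b (j + 4) = y.b j) ∧ e = []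

def Run : List Lt → St → St → List (ℕ × ℕ) → Prop
  | [], x, z, E => x.Ok ∧ z = x ∧ E = []
  | g :: W, x, z, E => x.Ok ∧ ∃ y e E', Stp g x y e ∧ Run W y z E' ∧ E = e ++ E'

def cr : List Lt → ℕ
  | [] => 0
  | .s _ :: W => cr W + 1
  | _ :: W => cr W

def nt : List Lt → ℕ
  | [] => 0
  | .t _ :: W => nt W + 1
  | _ :: W => nt W

def dl : Lt → ℤ
  | .u _ => 2
  | .d _ => -2
  | _ => 0

def dn : List Lt → ℤ
  | [] => 0
  | g :: W => dl g + dn W

def dc : List Lt → ℤ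
  | [] => 0
  | .t k :: W => k + dc W
  | _ :: W => dc W

def Val : ℤ → List Lt → Prop
  | _, [] => True
  | n, .s _ :: W => 2 ≤ n ∧ Val n W
  | n, .t _ :: W => 2 ≤ n ∧ Val n W
  | n, .u i :: W => 0 ≤ i ∧ i ≤ n ∧ Val (n + 2) W
  | n, .d i :: W => 0 ≤ i ∧ i + 2 ≤ n ∧ Val (n - 2) W
  | n, .r :: W => Val n W
  | n, .x :: W => n = 8 ∧ Val n W

/-- planar letters and rotations by one step -/
def Pl : ℤ → List Lt → Prop
  | _, [] => True
  | n, .s i :: W => 1 ≤ i ∧ i + 1 ≤ n ∧ Pl n W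
  | n, .t k :: W => (k = 1 ∨ k = -1) ∧ 2 ≤ n ∧ Pl n W
  | n, .u i :: W => 0 ≤ i ∧ i ≤ n ∧ Pl (n + 2) W
  | n, .d i :: W => 0 ≤ i ∧ i + 2 ≤ n ∧ Pl (n - 2) W
  | _, .r :: _ => False
  | _, .x :: _ => False

def Bnd (K : ℤ) : ℤ → List Lt → Prop
  | n, [] => n ≤ K
  | n, g :: W => n ≤ K ∧ Bnd K (n + dl g) W

def flp : Lt → Lt
  | .s i => .s i
  | .t k => .t (-k)
  | .u i => .d i
  | .d i => .u i
  | .r => .r
  | .x => .x

def mir (W : List Lt) : List Lt := (W.map flp).reverse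

def Cl (n c : ℤ) (W : List Lt) (E : List (ℕ × ℕ)) : Prop := ∃ b, Run W ⟨n, c, b⟩ ⟨n, c, b⟩ E

def Free (n c : ℤ) (W : List Lt) (E : List (ℕ × ℕ)) : Prop :=
  Cl n c W E ∧ ∀ E', Cl n c W E' → ∃ φ, E' = mp φ E

def Good (n : ℤ) (W : List Lt) : Prop := ∀ c E, Free n c W E → GoodG (gr E)
def BadW (n : ℤ) (W : List Lt) : Prop := ∀ c E, Free n c W E → Bad (gr E)
def RdW (n : ℤ) (W : List Lt) : Prop := ∀ c E, Free n c W E → Rd (gr E)

def RelC (R : SG → SG → Prop) (n c : ℤ) (D D' : List Lt) : Prop :=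
  ∀ X, (∀ E, Free n c (D ++ X) E → ∃ E', Free n c (D' ++ X) E' ∧ R (gr E) (gr E')) ∧
    (∀ E', Free n c (D' ++ X) E' → ∃ E, Free n c (D ++ X) E ∧ R (gr E) (gr E'))

def Rel (R : SG → SG → Prop) (n : ℤ) (D D' : List Lt) : Prop :=
  dn D = dn D' ∧ ∀ c, RelC R n c D D'

def Eqw (n : ℤ) (D D' : List Lt) : Prop := cr D = cr D' ∧ Rel Eqv n D D'
def Mnw (n : ℤ) (D D' : List Lt) : Prop := Rel Mn n D D'
def Rdc (n : ℤ) (D : List Lt) : Prop := ∃ D', cr D' < cr D ∧ Rel Eqv n D D'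

/-- horizontal smoothing of the crossing at gap `i` -/
def ee (i : ℤ) : List Lt := [.t (1 - i), .d 0, .u 0, .t (i - 1)]

/-! ## Braids and affine permutations -/

def IsBr (W : List Lt) : Prop := ∀ g ∈ W, ∃ i, g = .s i ∨ g = .t i
def DownW (W : List Lt) : Prop := ∀ g ∈ W, (∃ i, g = .s i ∨ g = .t i) ∨ g = .d 0
def UpW (W : List Lt) : Prop := ∀ g ∈ W, (∃ i, g = .s i ∨ g = .t i) ∨ g = .u 0

/-- top position of the strand that starts in position `j` -/
def pw (n : ℤ) : List Lt → ℤ → ℤ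
  | [], j => j
  | .s i :: W, j => pw n W (sw n i j)
  | .t k :: W, j => pw n W (j + k)
  | _ :: W, j => pw n W j

def RedW (n : ℤ) : List Lt → Prop
  | [] => True
  | .s i :: W => pw n W (i - 1) < pw n W i ∧ RedW n W
  | _ :: W => RedW n W

/-! ## Horizontal curves, layers -/

def P1 (n : ℤ) : List Lt := ((List.range n.toNat).map fun j : ℕ => Lt.s ((j : ℤ) + 2)) ++ [.t 1]

def Pk (n : ℤ) : ℕ → List Lt
  | 0 => P1 n
  | k + 1 => P1 n ++ .s 1 :: Pk n k

/-- a horizontal curve winding `k + 1` times -/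
def Hw (n : ℤ) (k : ℕ) : List Lt := .u 0 :: (Pk n k ++ [.d 0])
def Z (n : ℤ) (ks : List ℕ) : List Lt := (ks.map (Hw n)).flatten
def ZM (n : ℤ) (N : ℕ) : List Lt := if N = 0 then [] else Hw n (N - 1)

def half (n e : ℤ) : List Lt := (List.range (n / 2).toNat).map fun j : ℕ => Lt.s (2 * (j : ℤ) + e)
def grid (n : ℤ) (K : ℕ) : List Lt := ((List.range K).map fun j : ℕ => half n ((j : ℤ) % 2)).flatten

/-- the two induction hypotheses of the main induction -/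
def Hyp (N : ℕ) (n : ℤ) : Prop :=
  (∀ n' W', cr W' < N → Good n' W') ∧ ∀ n' W', n' < n → cr W' ≤ N → Good n' W'

def w4 (c : ℤ) (l : List ℤ) : List Lt := l.map fun i => Lt.s (i + c)

/-! ## Reflections and crosscaps -/

/-- words without reflection and crosscap letters -/
def Plain (W : List Lt) : Prop := Lt.r ∉ W ∧ Lt.x ∉ W

/-- the half twist on the strands `0, …, q - 1` -/
def w0 : ℕ → List Lt
  | 0 => []
  | q + 1 => ((List.range q).map fun j : ℕ => Lt.s ((j : ℤ) + 1)) ++ w0 q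

/-- `q` one-sided curves, `N` horizontal curves -/
def tgt (n : ℤ) (q N : ℕ) : List Lt := w0 q ++ Z n (List.replicate N 0) ++ [.t (-(q : ℤ)), .r]

/-- edge list of the Klein bottle grid -/
def kgE (n : ℕ) : List (ℕ × ℕ) :=
  (List.range n).flatMap fun i => (List.range n).flatMap fun j =>
    [(i * n + j, i * n + (j + 1) % n),
     (i * n + j, if i + 1 < n then (i + 1) * n + j else (n - j) % n)]

/-! ## Words with a second seam -/

/-- a letter, or a move of the second seam (`true`: to the right) -/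
inductive L2 where
  | l (g : Lt)
  | m (b : Bool)

def fg : List L2 → List Lt
  | [] => []
  | .l g :: V => g :: fg V
  | .m _ :: V => fg V

/-- number of moves of the second seam -/
def nm : List L2 → ℕ
  | [] => 0
  | .l _ :: V => nm V
  | .m _ :: V => nm V + 1

/-- `V2 V n m n' m'`: a planar word with unit rotations from width `n` to width `n'`, the second
seam going from gap `m` to gap `m'` -/
def V2 : List L2 → ℤ → ℤ → ℤ → ℤ → Prop
  | [], n, m, n', m' => 0 ≤ m ∧ m ≤ n ∧ n' = n ∧ m' = m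
  | .l (.s i) :: V, n, m, n', m' => 1 ≤ i ∧ i + 1 ≤ n ∧ i ≠ m ∧ V2 V n m n' m'
  | .l (.t k) :: V, n, m, n', m' => 2 ≤ n ∧ 0 ≤ m ∧ m ≤ n ∧ (k = 1 ∨ k = -1) ∧ V2 V n (m + k) n' m'
  | .l (.u i) :: V, n, m, n', m' => 0 ≤ i ∧ i ≤ n ∧ V2 V (n + 2) (if i ≤ m then m + 2 else m) n' m'
  | .l (.d i) :: V, n, m, n', m' => 0 ≤ i ∧ i + 2 ≤ n ∧ i + 1 ≠ m ∧
      V2 V (n - 2) (if i < m then m - 2 else m) n' m'
  | .l .r :: _, _, _, _, _ => False
  | .l .x :: _, _, _, _, _ => False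
  | .m b :: V, n, m, n', m' => 0 ≤ m ∧ m ≤ n ∧ V2 V n (if b then m + 1 else m - 1) n' m'

/-- The word read from the first seam to the second one. `h` moves of the second seam are done,
`m1` is its final position. Gap `i ≤ m` sits at `h + m - i`, gap `i ≥ m` at
`2 * h + nt (fg V) + m1 + i`. -/
def trK (m1 : ℤ) : List L2 → ℤ → ℤ → ℤ → List Lt
  | [], _, _, _ => []
  | .l (.s i) :: V, n, m, h =>
      .s (if i < m then h + m - i else 2 * h + nt (fg V) + m1 + i) :: trK m1 V n m h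
  | .l (.t k) :: V, n, m, h =>
      .d (if k = 1 then 2 * h + nt (fg V) + m1 + n else h + m - 1) :: trK m1 V n (m + k) h
  | .l (.u i) :: V, n, m, h =>
      if i ≤ m then .u (h + m - i) :: trK m1 V (n + 2) (m + 2) h
      else .u (2 * h + nt (fg V) + m1 + i) :: trK m1 V (n + 2) m h
  | .l (.d i) :: V, n, m, h =>
      if i < m then .d (h + m - i - 2) :: trK m1 V (n - 2) (m - 2) h
      else .d (2 * h + nt (fg V) + m1 + i) :: trK m1 V (n - 2) m h
  | .l .r :: _, _, _, _ => []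
  | .l .x :: _, _, _, _ => []
  | .m b :: V, n, m, h =>
      if b then .u h :: trK m1 V n (m + 1) (h + 1)
      else .u (2 * h + nt (fg V) + m1 + m) :: trK m1 V n (m - 1) (h + 1)

/-- which edges are read backwards (`c` is the colour) -/
def bsK : List L2 → ℤ → ℤ → List Bool
  | [], _, _ => []
  | .l (.s i) :: V, m, c => decide (i < m ∧ (i + c) % 2 = 1) :: bsK V m c
  | .l (.t k) :: V, m, c => bsK V (m + k) (c + k)
  | .l (.u i) :: V, m, c => bsK V (if i ≤ m then m + 2 else m) c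
  | .l (.d i) :: V, m, c => bsK V (if i < m then m - 2 else m) c
  | .l .r :: _, _, _ => []
  | .l .x :: _, _, _ => []
  | .m b :: V, m, c => bsK V (if b then m + 1 else m - 1) c

def swE (bs : List Bool) (E : List (ℕ × ℕ)) : List (ℕ × ℕ) :=
  List.zipWith (fun b e => if b then Prod.swap e else e) bs E

/-- `k` nested cups starting in gap `a` -/
def cups (k : ℕ) (a : ℤ) : List Lt := (List.range k).map fun j : ℕ => Lt.u (a + j)
/-- `k` nested caps around gap `J` -/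
def caps (k : ℕ) (J : ℤ) : List Lt := (List.range k).map fun j : ℕ => Lt.d (J - 1 - j)

def rotK (m0 m1 : ℕ) (V : List L2) : List Lt :=
  .x :: (cups m1 4 ++ cups m0 0 ++ .t (-(m0 : ℤ)) :: trK m1 V (m0 + m1) m0 0 ++
    caps m0 (8 + 2 * m1 + m0) ++ caps m1 (4 + m1) ++ [.t m0])

end Pool.Agent.P.MP_5af56b_co.Kl
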