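import Pool.Agent.P.MP_5af56b_co.Kl.Stmt

namespace Pool.Agent.P.MP_5af56b_co.Kl

namespace E0aux

theorem dz {N x : ℤ} (h : N ∣ x) (h1 : -N < x) (h2 : x < N) : x = 0 :=
  Int.eq_zero_of_abs_lt_dvd h (abs_lt.2 ⟨h1, h2⟩)

theorem nd {N x : ℤ} (h0 : x ≠ 0) (h1 : -N < x) (h2 : x < N) : ¬ N ∣ x :=
  fun h => h0 (dz h h1 h2)

theorem sw_win {N i j : ℤ} (h1 : -N < j - i) (h2 : j - i + 1 < N) :
    sw N i j = if j = i then j - 1 else if j = i - 1 then j + 1 else j := by
  unfold sw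
  by_cases a : j = i
  · subst a
    simp
  · have a' : ¬ N ∣ j - i := nd (by omega) h1 (by omega)
    rw [if_neg a', if_neg a]
    by_cases b : j = i - 1
    · subst b
      simp
    · have b' : ¬ N ∣ j - i + 1 := nd (by omega) (by omega) h2
      rw [if_neg b', if_neg b]

/-- consecutive crossings -/
def LL0 (a : ℤ) (m : ℕ) : List Lt := (List.range m).map fun j : ℕ => Lt.s ((j : ℤ) + a)

theorem LL0_succ (a : ℤ) (m : ℕ) : LL0 a (m + 1) = .s a :: LL0 (a + 1) m := by
  unfold LL0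
  rw [List.range_succ_eq_map, List.map_cons, List.map_map]
  congr 1
  · simp
  · refine List.map_congr_left fun j _ => ?_
    simp only [Function.comp, Nat.succ_eq_add_one]
    congr 1
    push_cast
    ring

theorem pw_LL0 {N : ℤ} (W : List Lt) (m : ℕ) : ∀ (a j : ℤ), 1 ≤ a → a + m ≤ N → 0 ≤ j → j < N →
    pw N (LL0 a m ++ W) j =
      pw N W (if j = a - 1 then a - 1 + m else if a ≤ j ∧ j < a + m then j - 1 else j) := by
  induction m with
  | zero =>
    intro a j _ _ _ _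
    have e : (if j = a - 1 then a - 1 + ((0 : ℕ) : ℤ) else
        if a ≤ j ∧ j < a + ((0 : ℕ) : ℤ) then j - 1 else j) = j := by
      split_ifs <;> omega
    rw [e]
    simp [LL0]
  | succ m ih =>
    intro a j h1 h2 h3 h4
    push_cast at h2
    rw [LL0_succ, List.cons_append]
    show pw N (LL0 (a + 1) m ++ W) (sw N a j) = _
    have hs : sw N a j = if j = a then j - 1 else if j = a - 1 then j + 1 else j :=
      sw_win (by omega) (by omega)
    rw [hs, ih (a + 1) _ (by omega) (by omega) (by split_ifs <;> omega) (by split_ifs <;> omega)]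
    congr 1
    push_cast
    split_ifs <;> omega

theorem red_LL0 {N : ℤ} (W : List Lt) (hW : RedW N W)
    (hm : ∀ j, 0 ≤ j → j < N - 1 → 1 ≤ j → pw N W j < pw N W (N - 1)) (m : ℕ) :
    ∀ a : ℤ, 2 ≤ a → a + m = N → RedW N (LL0 a m ++ W) := by
  induction m with
  | zero =>
    intro a _ _
    simpa [LL0] using hW
  | succ m ih =>
    intro a h1 h2
    push_cast at h2
    rw [LL0_succ, List.cons_append]
    refine ⟨?_, ih (a + 1) (by omega) (by omega)⟩
    rw [pw_LL0 W m (a + 1) (a - 1) (by omega) (by omega) (by omega) (by omega),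
      pw_LL0 W m (a + 1) a (by omega) (by omega) (by omega) (by omega)]
    have e1 : (if a - 1 = a + 1 - 1 then a + 1 - 1 + (m : ℤ) else
        if a + 1 ≤ a - 1 ∧ a - 1 < a + 1 + (m : ℤ) then a - 1 - 1 else a - 1) = a - 1 := by
      split_ifs <;> omega
    have e2 : (if a = a + 1 - 1 then a + 1 - 1 + (m : ℤ) else
        if a + 1 ≤ a ∧ a < a + 1 + (m : ℤ) then a - 1 else a) = N - 1 := by
      split_ifs <;> omega
    rw [e1, e2]
    exact hm _ (by omega) (by omega) (by omega)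

theorem P1_eq (n : ℤ) : P1 n = LL0 2 n.toNat ++ [.t 1] := rfl

theorem rho_mul (n : ℤ) (k : ℕ) (j q : ℤ) : rho n k (j + (n + 2) * q) = rho n k j + (n + 2) * q := by
  unfold rho
  have e1 : (n + 2) ∣ j + (n + 2) * q - 1 ↔ (n + 2) ∣ j - 1 := by
    rw [show j + (n + 2) * q - 1 = (j - 1) + (n + 2) * q by ring]
    exact dvd_add_left (dvd_mul_right _ _)
  have e2 : (n + 2) ∣ j + (n + 2) * q ↔ (n + 2) ∣ j := dvd_add_left (dvd_mul_right _ _)
  simp only [e1, e2]
  split_ifs <;> ring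

theorem rho_win {n : ℤ} (hn : 0 ≤ n) (k : ℕ) {j : ℤ} (h0 : 0 ≤ j) (h1 : j < n + 2) :
    rho n k j = if j = 1 then ((k : ℤ) + 1) * (n + 2) else if j = 0 then 1 else j := by
  unfold rho
  by_cases a : j = 1
  · subst a
    simp
  · have a' : ¬ (n + 2) ∣ j - 1 := nd (by omega) (by omega) (by omega)
    rw [if_neg a', if_neg a]
    by_cases b : j = 0
    · subst b
      simp
    · have b' : ¬ (n + 2) ∣ j := nd b (by omega) (by omega)
      rw [if_neg b', if_neg b]

theorem win_ext (p : SP) {n : ℤ} (hn : 0 ≤ n) (U : List Lt) (k : ℕ)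
    (h : ∀ j, 0 ≤ j → j < n + 2 → pw (n + 2) U j = rho n k j) : pw (n + 2) U = rho n k := by
  funext j
  have hp : 0 < n + 2 := by omega
  have e : j = j % (n + 2) + (n + 2) * (j / (n + 2)) := (Int.emod_add_mul_ediv j (n + 2)).symm
  rw [e, rho_mul, p.mul (p.pw_ap U (by omega)),
    h _ (Int.emod_nonneg _ (by omega)) (Int.emod_lt_of_pos _ hp)]

theorem pw_P1 {n : ℤ} (hn : 0 ≤ n) (W : List Lt) {j : ℤ} (h0 : 0 ≤ j) (h1 : j < n + 2) :
    pw (n + 2) (P1 n ++ W) j =
      pw (n + 2) W (if j = 1 then n + 2 else if j = 0 then 1 else j) := by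
  have hc : ((n.toNat : ℕ) : ℤ) = n := Int.toNat_of_nonneg hn
  rw [P1_eq, List.append_assoc, pw_LL0 _ _ 2 j (by omega) (by omega) h0 h1]
  show pw (n + 2) W (_ + 1) = _
  congr 1
  rw [hc]
  split_ifs <;> omega

theorem pk_pw (p : SP) {n : ℤ} (k : ℕ) (hn : 0 ≤ n) : pw (n + 2) (Pk n k) = rho n k := by
  induction k with
  | zero =>
    refine win_ext p hn _ _ fun j h0 h1 => ?_
    have := pw_P1 hn [] h0 h1
    rw [List.append_nil] at this
    show pw (n + 2) (P1 n) j = _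
    rw [this, rho_win hn 0 h0 h1]
    show (if j = 1 then n + 2 else if j = 0 then 1 else j) = _
    simp
  | succ k ih =>
    refine win_ext p hn _ _ fun j h0 h1 => ?_
    show pw (n + 2) (P1 n ++ .s 1 :: Pk n k) j = _
    rw [pw_P1 hn _ h0 h1, rho_win hn (k + 1) h0 h1]
    show pw (n + 2) (Pk n k) (sw (n + 2) 1 _) = _
    rw [ih]
    by_cases a : j = 1
    · rw [if_pos a, if_pos a]
      have e : sw (n + 2) 1 (n + 2) = 1 + (n + 2) * 1 := by
        unfold sw
        rw [if_neg (nd (by omega) (by omega) (by omega)), if_pos ⟨1, by ring⟩]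
        ring
      rw [e, rho_mul, rho_win hn k (by omega) (by omega), if_pos rfl]
      push_cast
      ring
    · rw [if_neg a, if_neg a]
      by_cases b : j = 0
      · rw [if_pos b]
        have e : sw (n + 2) 1 1 = 0 := by
          unfold sw
          rw [if_pos (by simp)]
          ring
        rw [e, rho_win hn k (by omega) (by omega)]
        simp
      · rw [if_neg b]
        have e : sw (n + 2) 1 j = j := by
          unfold sw
          rw [if_neg (nd (by omega) (by omega) (by omega)),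
            if_neg (nd (by omega) (by omega) (by omega))]
        rw [e, rho_win hn k h0 h1, if_neg a, if_neg b]

theorem pk_red (p : SP) {n : ℤ} (k : ℕ) (hn : 0 ≤ n) : RedW (n + 2) (Pk n k) := by
  have hc : ((n.toNat : ℕ) : ℤ) = n := Int.toNat_of_nonneg hn
  induction k with
  | zero =>
    show RedW (n + 2) (LL0 2 n.toNat ++ [.t 1])
    refine red_LL0 [.t 1] (by simp [RedW]) (fun j _ h1 _ => ?_) _ 2 le_rfl (by omega)
    show j + 1 < n + 2 - 1 + 1
    omega
  | succ k ih =>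
    show RedW (n + 2) ((LL0 2 n.toNat ++ [.t 1]) ++ .s 1 :: Pk n k)
    rw [List.append_assoc]
    have hk : (0 : ℤ) ≤ (k : ℤ) * (n + 2) := by positivity
    refine red_LL0 _ ?_ (fun j _ h1 h2 => ?_) _ 2 le_rfl (by omega)
    · show pw (n + 2) (Pk n k) (1 - 1) < pw (n + 2) (Pk n k) 1 ∧ RedW (n + 2) (Pk n k)
      refine ⟨?_, ih⟩
      rw [pk_pw p k hn, rho_win hn k (by omega) (by omega), rho_win hn k (by omega) (by omega)]
      simp only [sub_self, zero_ne_one, if_false, if_true]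
      nlinarith
    · show pw (n + 2) (Pk n k) (sw (n + 2) 1 (j + 1)) <
        pw (n + 2) (Pk n k) (sw (n + 2) 1 (n + 2 - 1 + 1))
      have e : sw (n + 2) 1 (n + 2 - 1 + 1) = 1 + (n + 2) * 1 := by
        unfold sw
        rw [if_neg (nd (by omega) (by omega) (by omega)), if_pos ⟨1, by ring⟩]
        ring
      have e' : sw (n + 2) 1 (j + 1) = j + 1 := by
        unfold sw
        rw [if_neg (nd (by omega) (by omega) (by omega)),
          if_neg (nd (by omega) (by omega) (by omega))]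
      rw [e, e', pk_pw p k hn, rho_mul, rho_win hn k (by omega) (by omega),
        rho_win hn k (by omega) (by omega), if_neg (by omega), if_neg (by omega), if_pos rfl]
      nlinarith

/-! ### rewriting -/

theorem ecup (b2 : SB2) {n : ℤ} {D D' : List Lt} (A C : List Lt) (hA : dn A = 2)
    (h : Eqw (n + 2) D D') : Eqw n (A ++ D ++ C) (A ++ D' ++ C) :=
  b2.ectx A C (by rw [hA]; exact h)

theorem eflat (b2 : SB2) {n : ℤ} {D D' : List Lt} (A C : List Lt) (hA : dn A = 0)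
    (h : Eqw n D D') : Eqw n (A ++ D ++ C) (A ++ D' ++ C) :=
  b2.ectx A C (by rw [hA, add_zero]; exact h)

theorem rcup (b2 : SB2) {n : ℤ} {D : List Lt} (A C : List Lt) (hA : dn A = 2)
    (h : Rdc (n + 2) D) : Rdc n (A ++ D ++ C) :=
  b2.rctx A C (by rw [hA]; exact h)

theorem rflat (b2 : SB2) {n : ℤ} {D : List Lt} (A C : List Lt) (hA : dn A = 0)
    (h : Rdc n D) : Rdc n (A ++ D ++ C) :=
  b2.rctx A C (by rw [hA, add_zero]; exact h)

theorem tt (b2 : SB2) (c1 : SC1) {n : ℤ} (hn : 2 ≤ n) (k : ℤ) : Eqw n [.t (-k), .t k] [] := by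
  have h1 := c1.t1 n (-k) k
  have h2 := c1.t2 0 hn
  rw [mul_zero] at h2
  rw [neg_add_cancel] at h1
  exact b2.trans h1 h2

theorem cup2 (b2 : SB2) (c1 : SC1) {n : ℤ} (hn : 2 ≤ n) :
    Eqw n [.u 0, .s 2] [.t (-1), .u 0, .s 0, .t 1] := by
  have h1 : Eqw n [.t (-1), .u 0, .s 0, .t 1] [.t (-1), .t 1, .u 0, .s 2, .t (-1), .t 1] := by
    simpa using eflat b2 [.t (-1)] [.t 1] (by simp [dn, dl]) (c1.c2 hn)
  have h2 : Eqw n [.t (-1), .t 1, .u 0, .s 2, .t (-1), .t 1] [.u 0, .s 2, .t (-1), .t 1] := by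
    simpa using eflat b2 [] [.u 0, .s 2, .t (-1), .t 1] rfl (tt b2 c1 hn 1)
  have h3 : Eqw n [.u 0, .s 2, .t (-1), .t 1] [.u 0, .s 2] := by
    simpa using ecup b2 (n := n) [.u 0, .s 2] [] (by simp [dn, dl]) (tt b2 c1 (by omega) 1)
  exact b2.symm (b2.trans h1 (b2.trans h2 h3))

theorem rs3 (c2 : SC2) (n i : ℤ) : Rdc n [.s i, .s i] := ⟨[.s i], by simp [cr], c2.s3 n i⟩

theorem rc3 (c2 : SC2) (n : ℤ) : Rdc n [.u 0, .s 1] := ⟨[.u 0], by simp [cr], c2.c3 n⟩

theorem r21 (b2 : SB2) (c1 : SC1) (c2 : SC2) {n : ℤ} (hn : 2 ≤ n) : Rdc n [.u 0, .s 2, .s 1] := by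
  have h1 : Eqw n [.u 0, .s 2, .s 1] [.t (-1), .u 0, .s 0, .t 1, .s 1] := by
    simpa using eflat b2 [] [.s 1] rfl (cup2 b2 c1 hn)
  have h2 : Eqw n [.t (-1), .u 0, .s 0, .t 1, .s 1] [.t (-1), .u 0, .s 0, .s 0, .t 1] := by
    simpa using ecup b2 (n := n) [.t (-1), .u 0, .s 0] [] (by simp [dn, dl]) (c1.t3 (n + 2) 1 1)
  have h3 : Rdc n [.t (-1), .u 0, .s 0, .s 0, .t 1] := by
    simpa using rcup b2 (n := n) [.t (-1), .u 0] [.t 1] (by simp [dn, dl]) (rs3 c2 (n + 2) 0)
  exact b2.rdc_of (b2.trans h1 h2) h3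

theorem r01 (b2 : SB2) (c1 : SC1) (c2 : SC2) {n : ℤ} (hn : 2 ≤ n) : Rdc n [.u 0, .s 0, .s 1] := by
  have h1 : Eqw n [.u 0, .s 0, .s 1] [.t 1, .u 0, .s 2, .t (-1), .s 1] := by
    simpa using eflat b2 [] [.s 1] rfl (c1.c2 hn)
  have h2 : Eqw n [.t 1, .u 0, .s 2, .t (-1), .s 1] [.t 1, .u 0, .s 2, .s 2, .t (-1)] := by
    have := ecup b2 (n := n) [.t 1, .u 0, .s 2] [] (by simp [dn, dl]) (c1.t3 (n + 2) (-1) 1)
    rw [show (1 : ℤ) - (-1) = 2 by norm_num] at this
    simpa using this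
  have h3 : Rdc n [.t 1, .u 0, .s 2, .s 2, .t (-1)] := by
    simpa using rcup b2 (n := n) [.t 1, .u 0] [.t (-1)] (by simp [dn, dl]) (rs3 c2 (n + 2) 2)
  exact b2.rdc_of (b2.trans h1 h2) h3

/-- pull a crossing to the front, behind an initial word that ends two strands wider -/
theorem pull (b2 : SB2) (d1 : SD1) {n i : ℤ} {U : List Lt} (A : List Lt) (hA : dn A = 2)
    (hn : 0 ≤ n) (he : n % 2 = 0) (hU : IsBr U) (h : pw (n + 2) U i < pw (n + 2) U (i - 1))
    (k : ∀ U1, IsBr U1 → (∀ j, pw (n + 2) U1 (sw (n + 2) i j) = pw (n + 2) U j) →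
      Rdc n (A ++ .s i :: U1)) : Rdc n (A ++ U) := by
  rcases d1.d3 (by omega) (by omega) hU h with h1 | ⟨U1, hb, hp, he⟩
  · simpa using rcup b2 A [] hA h1
  · have h2 : Eqw n (A ++ U) (A ++ .s i :: U1) := by
      simpa using ecup b2 A [] hA he
    exact b2.rdc_of h2 (k U1 hb fun j => congrFun hp j)

theorem r1 (b2 : SB2) (c2 : SC2) (d1 : SD1) {n : ℤ} {U : List Lt} (hn : 0 ≤ n) (he : n % 2 = 0)
    (hU : IsBr U) (h : pw (n + 2) U 1 < pw (n + 2) U 0) : Rdc n (.u 0 :: U) := by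
  refine pull b2 d1 (i := 1) [.u 0] (by simp [dn, dl]) hn he hU (by simpa using h) fun U1 _ _ => ?_
  simpa using rflat b2 [] U1 rfl (rc3 c2 n)

theorem dcr (b2 : SB2) (c1 : SC1) (c2 : SC2) (d1 : SD1) {n : ℤ} {U : List Lt} (hn : 2 ≤ n)
    (he : n % 2 = 0) (hU : IsBr U) (h0 : pw (n + 2) U 2 < pw (n + 2) U 0)
    (h1 : pw (n + 2) U 2 < pw (n + 2) U 1) : Rdc n (.u 0 :: U) := by
  refine pull b2 d1 (i := 2) [.u 0] (by simp [dn, dl]) (by omega) he hU (by simpa using h1)
    fun U1 hb hp => ?_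
  have e2 := hp 2
  have e0 := hp 0
  rw [sw_win (by omega) (by omega)] at e2 e0
  norm_num at e2 e0
  refine pull b2 d1 (i := 1) [.u 0, .s 2] (by simp [dn, dl]) (by omega) he hb
    (by simpa [e2, e0] using h0) fun U2 _ _ => ?_
  simpa using rflat b2 [] U2 rfl (r21 b2 c1 c2 hn)

theorem dcl (b2 : SB2) (c1 : SC1) (c2 : SC2) (d1 : SD1) {n : ℤ} {U : List Lt} (hn : 2 ≤ n)
    (he : n % 2 = 0) (hU : IsBr U) (h0 : pw (n + 2) U 0 < pw (n + 2) U (-1))
    (h1 : pw (n + 2) U 1 < pw (n + 2) U (-1)) : Rdc n (.u 0 :: U) := by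
  refine pull b2 d1 (i := 0) [.u 0] (by simp [dn, dl]) (by omega) he hU (by simpa using h0)
    fun U1 hb hp => ?_
  have e2 := hp (-1)
  have e0 := hp 1
  rw [sw_win (by omega) (by omega)] at e2 e0
  norm_num at e2 e0
  refine pull b2 d1 (i := 1) [.u 0, .s 0] (by simp [dn, dl]) (by omega) he hb
    (by simpa [e2, e0] using h1) fun U2 _ _ => ?_
  simpa using rflat b2 [] U2 rfl (r01 b2 c1 c2 hn)

theorem emir (b3 : SB3) {n : ℤ} {D D' : List Lt} (hD : dn D = 2) (h : Eqw (n - 2) D D') :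
    Eqw n (mir D) (mir D') := by
  have := b3.eqw h
  rwa [hD, sub_add_cancel] at this

theorem rmir (b3 : SB3) {n : ℤ} {D : List Lt} (hD : dn D = 2) (h : Rdc (n - 2) D) :
    Rdc n (mir D) := by
  have := b3.rdc h
  rwa [hD, sub_add_cancel] at this

end E0aux

open E0aux in
theorem pE0 (b1 : SB1) (b2 : SB2) (b3 : SB3) (c1 : SC1) (c2 : SC2) (p : SP) (d1 : SD1) : SE0 where
  r1 := fun hn he hU h => r1 b2 c2 d1 hn he hU h
  dcr := fun hn he hU h0 h1 => dcr b2 c1 c2 d1 hn he hU h0 h1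
  dcl := fun hn he hU h0 h1 => dcl b2 c1 c2 d1 hn he hU h0 h1
  dcr' := by
    intro n a q r U hn he hU hp hq hr h1 h2
    have hb := b3.br_mir hU
    have e0 := p.pw_mir (n := n) U a (by omega)
    have e1 := p.pw_mir (n := n) U q (by omega)
    have e2 := p.pw_mir (n := n) U r (by omega)
    rw [hp] at e0
    rw [hq] at e1
    rw [hr] at e2
    have h := dcr b2 c1 c2 d1 (n := n - 2) (U := mir U) (by omega) (by omega) hb
      (by rw [sub_add_cancel, e0, e2]; exact h1) (by rw [sub_add_cancel, e1, e2]; exact h2)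
    have h' := rmir b3 (D := .u 0 :: mir U) (by simp [dn, dl, b1.br_dn hb]) h
    have e : mir (.u 0 :: mir U) = U ++ [.d 0] := by
      have := b3.mir_app [.u 0] (mir U)
      rw [b3.mir_mir] at this
      exact this
    rwa [e] at h'
  c0' := by
    intro n i hn h0 h1
    have := emir b3 (n := n) (by simp [dn, dl]) (c1.c0 (n := n - 2) (i := i) (by omega) h0 (by omega))
    simpa [mir, flp] using this
  c1' := by
    intro n i h0 h1
    have := emir b3 (n := n) (by simp [dn, dl]) (b2.symm (c1.c1 (n := n - 2) (i := i) h0 (by omega)))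
    simpa [mir, flp] using this
  c2' := by
    intro n hn
    have := emir b3 (n := n) (by simp [dn, dl]) (c1.c2 (n := n - 2) (by omega))
    simpa [mir, flp] using this
  c2'' := by
    intro n hn
    have := emir b3 (n := n) (by simp [dn, dl]) (cup2 b2 c1 (n := n - 2) (by omega))
    simpa [mir, flp] using this
  r1' := by
    intro n _
    have := rmir b3 (n := n) (by simp [dn, dl]) (rc3 c2 (n - 2))
    simpa [mir, flp] using this
  pk_pw := fun k hn => pk_pw p k hn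
  pk_red := fun k hn => pk_red p k hn

end Pool.Agent.P.MP_5af56b_co.Kl
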