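import Pool.Agent.P.MP_5af56b_co.Kl.Chk

namespace Pool.Agent.P.MP_5af56b_co.Kl

namespace Evaux

/-- the state `x` carries the labels `ψ ∘ l` -/
def Mt (m c : ℕ) (l : List ℕ) (ψ : ℕ → ℕ) (x : St) : Prop :=
  x.Ok ∧ x.n = m ∧ x.c = c ∧ ∀ k : ℕ, k ≤ m → x.b k = ψ (l.getD k 0)

structure WF (S : ES) : Prop where
  len : S.cur.length = S.n + 1
  ev : S.n % 2 = 0
  c1 : S.c ≤ 1
  lt : ∀ k, k ≤ S.n → S.cur.getD k 0 < S.nx
  cyc : S.cur.getD S.n 0 = S.cur.getD 0 0

/-- one backward step of the evaluation -/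
def StepOk (g : Lt) (S S' : ES) : Prop :=
  S.ok = true ∧ (WF S → WF S' ∧ ∃ (ρ : ℕ → ℕ) (e : List (ℕ × ℕ)),
    S'.top = S.top.map ρ ∧ S'.E = e ++ mp ρ S.E ∧ (∀ a, a < S.nx → ρ a < S'.nx) ∧
    (∀ p ∈ e, p.1 < S'.nx ∧ p.2 < S'.nx) ∧
    (∀ ψ x, Mt S'.n S'.c S'.cur ψ x →
      ∃ y, Mt S.n S.c S.cur (ψ ∘ ρ) y ∧ Stp g x y (mp ψ e)) ∧
    (∀ ψ x y e', x.Ok → Mt S.n S.c S.cur ψ y → Stp g x y e' →
      ∃ ψ', Mt S'.n S'.c S'.cur ψ' x ∧ e' = mp ψ' e ∧ ∀ a, a < S.nx → ψ' (ρ a) = ψ a))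

theorem mp_id (E : List (ℕ × ℕ)) : mp id E = E := by simp [mp]

theorem mp_mp (φ ψ : ℕ → ℕ) (E : List (ℕ × ℕ)) : mp φ (mp ψ E) = mp (φ ∘ ψ) E := by
  simp only [mp, List.map_map]
  rfl

theorem mp_app (φ : ℕ → ℕ) (E F : List (ℕ × ℕ)) : mp φ (E ++ F) = mp φ E ++ mp φ F := by
  simp [mp]

theorem mp_congr {φ ψ : ℕ → ℕ} {N : ℕ} {E : List (ℕ × ℕ)} (hE : ∀ p ∈ E, p.1 < N ∧ p.2 < N)
    (h : ∀ a, a < N → φ a = ψ a) : mp φ E = mp ψ E := by
  refine List.map_congr_left fun p hp => ?_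
  rw [Prod.map, Prod.map, h _ (hE p hp).1, h _ (hE p hp).2]

theorem getD_map (ρ : ℕ → ℕ) (l : List ℕ) (k : ℕ) (h : k < l.length) :
    (l.map ρ).getD k 0 = ρ (l.getD k 0) := by
  simp [List.getD_eq_getElem?_getD, List.getElem?_eq_getElem h]

theorem getD_set (l : List ℕ) (j v k : ℕ) (h : j < l.length) :
    (l.set j v).getD k 0 = if k = j then v else l.getD k 0 := by
  simp only [List.getD_eq_getElem?_getD, List.getElem?_set]
  by_cases e : j = k
  · subst e
    simp [h]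
  · rw [if_neg e, if_neg (fun e' => e e'.symm)]

theorem getD_td (l : List ℕ) (a b k : ℕ) (h : a ≤ l.length) :
    (l.take a ++ l.drop b).getD k 0 = if k < a then l.getD k 0 else l.getD (b + (k - a)) 0 := by
  simp only [List.getD_eq_getElem?_getD, List.getElem?_append, List.length_take, min_eq_left h,
    List.getElem?_take, List.getElem?_drop]
  split_ifs <;> rfl

theorem getD_tcd (l : List ℕ) (a b v k : ℕ) (h : a ≤ l.length) :
    (l.take a ++ v :: l.drop b).getD k 0 =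
      if k < a then l.getD k 0 else if k = a then v else l.getD (b + (k - a - 1)) 0 := by
  simp only [List.getD_eq_getElem?_getD, List.getElem?_append, List.length_take, min_eq_left h,
    List.getElem?_take]
  by_cases h1 : k < a
  · simp only [h1, if_true]
  · simp only [h1, if_false]
    by_cases h2 : k = a
    · subst h2
      simp
    · rw [if_neg h2]
      obtain ⟨r, hr⟩ : ∃ r, k - a = r + 1 := ⟨k - a - 1, by omega⟩
      rw [hr, List.getElem?_cons_succ, List.getElem?_drop, Nat.add_sub_cancel]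

theorem rnm_b (a b : ℕ) : rnm a b b = a := by simp [rnm]

theorem rnm_a (a b : ℕ) : rnm a b a = a := by
  unfold rnm
  cases Nat.beq a b <;> rfl

theorem rnm_or (a b x : ℕ) : rnm a b x = x ∨ (x = b ∧ rnm a b x = a) := by
  unfold rnm
  cases h : Nat.beq x b
  · exact Or.inl rfl
  · exact Or.inr ⟨Nat.eq_of_beq_eq_true h, rfl⟩

theorem rnm_fix {ψ : ℕ → ℕ} {a b : ℕ} (h : ψ a = ψ b) (x : ℕ) : ψ (rnm a b x) = ψ x := by
  rcases rnm_or a b x with e | ⟨e1, e2⟩
  · rw [e]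
  · rw [e2, e1, h]

theorem stepS_ok (b1 : SB1) (i : ℤ) (S : ES) (h : (evs (.s i) S).ok = true) :
    StepOk (.s i) S (evs (.s i) S) := by
  simp only [evs, stepS, Bool.and_eq_true, Nat.ble_eq] at h
  obtain ⟨h1, h2⟩ := h
  refine ⟨h1, fun w => ?_⟩
  have m0 : (0 : ℤ) < S.n := by omega
  obtain ⟨j, hj⟩ : ∃ j : ℕ, i % (S.n : ℤ) = j :=
    ⟨(i % (S.n : ℤ)).toNat, (Int.toNat_of_nonneg (Int.emod_nonneg _ m0.ne')).symm⟩
  have jl : j < S.n := by
    have := Int.emod_lt_of_pos i m0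
    omega
  obtain ⟨q, hq⟩ : ∃ q : ℤ, i = j + S.n * q := ⟨i / S.n, by rw [← hj, Int.emod_add_mul_ediv]⟩
  obtain ⟨m2, hm2⟩ : ∃ m2 : ℕ, S.n = 2 * m2 := ⟨S.n / 2, by have := w.ev; omega⟩
  have ev : evs (.s i) S = stepS j S := by simp only [evs, hj, Int.toNat_natCast]
  rw [ev]
  have cur : ∀ k, (stepS j S).cur.getD k 0 =
      if k = j ∨ (j = 0 ∧ k = S.n) then S.nx else S.cur.getD k 0 := by
    intro k
    have wl := w.len
    simp only [stepS]
    by_cases j0 : j = 0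
    · subst j0
      rw [show Nat.beq 0 0 = true from rfl, cond_true, getD_set _ _ _ _ (by simp; omega),
        getD_set _ _ _ _ (by omega)]
      by_cases a : k = 0
      · simp [a]
      · by_cases b : k = S.n
        · simp [b]
        · simp [a, b]
    · rw [show Nat.beq j 0 = false from
        Bool.eq_false_iff.mpr (fun e => j0 (Nat.eq_of_beq_eq_true e)), cond_false,
        getD_set _ _ _ _ (by omega)]
      simp [j0]
  have dv : ∀ k : ℕ, k ≤ S.n → ((S.n : ℤ) ∣ k - i ↔ (k = j ∨ (j = 0 ∧ k = S.n))) := by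
    intro k hk
    constructor
    · intro hd
      have hd' : (S.n : ℤ) ∣ (k : ℤ) - j := by
        have := dvd_add hd (Dvd.intro q rfl : (S.n : ℤ) ∣ S.n * q)
        rwa [hq, show (k : ℤ) - (j + S.n * q) + S.n * q = k - j by ring] at this
      obtain ⟨r, hr⟩ := hd'
      have r0 : -1 < r := by nlinarith
      have r1 : r < 2 := by nlinarith
      have : r = 0 ∨ r = 1 := by omega
      rcases this with rfl | rfl <;> omega
    · rintro (rfl | ⟨rfl, rfl⟩)
      · exact ⟨-q, by rw [hq]; ring⟩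
      · exact ⟨1 - q, by rw [hq]; push_cast; ring⟩
  let e0 : ℕ × ℕ := bif Nat.beq ((j + S.c) % 2) 0 then (S.nx, S.cur.getD j 0)
      else (S.cur.getD ((j + S.n - 1) % S.n) 0, S.cur.getD (j + 1) 0)
  have ml : (j + S.n - 1) % S.n < S.n := Nat.mod_lt _ (by omega)
  have mj : (j + S.n - 1) % S.n = if j = 0 then S.n - 1 else j - 1 := by
    split_ifs with j0
    · subst j0
      rw [Nat.zero_add, Nat.mod_eq_of_lt (by omega)]
    · rw [show j + S.n - 1 = j - 1 + S.n by omega, Nat.add_mod_right, Nat.mod_eq_of_lt (by omega)]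
  have edge : ∀ ψ (x y : St), Mt S.n S.c (stepS j S).cur ψ x → Mt S.n S.c S.cur ψ y →
      [if (i + x.c) % 2 = 0 then (x.b i, y.b i) else (x.b (i - 1), x.b (i + 1))] = mp ψ [e0] := by
    intro ψ x y ⟨x1, x2, x3, x4⟩ ⟨y1, y2, _, y4⟩
    have a1 : x.b i = ψ S.nx := by
      rw [b1.per x1 (j := j) ⟨q, by rw [x2, hq]; ring⟩, x4 j jl.le, cur, if_pos (Or.inl rfl)]
    have a2 : y.b i = ψ (S.cur.getD j 0) := by
      rw [b1.per y1 (j := j) ⟨q, by rw [y2, hq]; ring⟩, y4 j jl.le]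
    have a3 : x.b (i + 1) = ψ (S.cur.getD (j + 1) 0) := by
      rw [b1.per x1 (j := (j + 1 : ℕ)) ⟨q, by rw [x2, hq]; push_cast; ring⟩, x4 _ jl, cur,
        if_neg (by omega)]
    have a4 : x.b (i - 1) = ψ (S.cur.getD ((j + S.n - 1) % S.n) 0) := by
      have : x.n ∣ i - 1 - (((j + S.n - 1) % S.n : ℕ) : ℤ) := by
        rw [mj, x2, hq]
        split_ifs with j0
        · refine ⟨q - 1, ?_⟩
          rw [j0, Nat.cast_sub (by omega)]
          push_cast
          ring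
        · refine ⟨q, ?_⟩
          rw [Nat.cast_sub (by omega)]
          push_cast
          ring
      rw [b1.per x1 this, x4 _ ml.le, cur, if_neg]
      rw [mj]
      split_ifs <;> omega
    have par : (i + x.c) % 2 = 0 ↔ (j + S.c) % 2 = 0 := by
      have : (S.n : ℤ) * q = 2 * (m2 * q) := by rw [hm2]; push_cast; ring
      rw [x3, hq, this]
      omega
    simp only [mp, List.map_cons, List.map_nil, e0]
    by_cases hp : (j + S.c) % 2 = 0
    · rw [if_pos (par.mpr hp), hp, a1, a2]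
      rfl
    · rw [if_neg (fun e => hp (par.mp e)), show Nat.beq ((j + S.c) % 2) 0 = false from
        Bool.eq_false_iff.mpr (fun e => hp (Nat.eq_of_beq_eq_true e)), a3, a4]
      rfl
  refine ⟨⟨?_, w.ev, w.c1, fun k hk => ?_, ?_⟩, id, [e0], by simp [stepS], ?_, ?_, ?_, ?_, ?_⟩
  · simp only [stepS]
    cases Nat.beq j 0 <;> simp [w.len]
  · rw [cur]
    have := w.lt k hk
    split_ifs <;> simp only [stepS] <;> omega
  · rw [cur, cur]
    change (if S.n = j ∨ (j = 0 ∧ S.n = S.n) then _ else S.cur.getD S.n 0) = _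
    by_cases j0 : j = 0
    · simp [j0]
    · rw [if_neg (by omega), if_neg (by omega), w.cyc]
  · rw [mp_id]
    rfl
  · intro a ha
    simp only [stepS, id]
    omega
  · intro p hp
    rw [List.mem_singleton] at hp
    have l1 := w.lt j jl.le
    have l2 := w.lt (j + 1) jl
    have l3 := w.lt _ ml.le
    subst hp
    simp only [stepS, e0]
    cases Nat.beq ((j + S.c) % 2) 0 <;> simp only [cond_true, cond_false] <;> omega
  · intro ψ x hx
    have hx' : Mt S.n S.c (stepS j S).cur ψ x := hx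
    obtain ⟨x1, x2, x3, x4⟩ := hx'
    obtain ⟨y, y1, y2, y3, y4, y5⟩ := b1.ex_s x1 (by omega) i (ψ (S.cur.getD j 0))
    have hy : Mt S.n S.c S.cur ψ y := by
      refine ⟨y1, y2.trans x2, y3.trans x3, fun k hk => ?_⟩
      by_cases hd : k = j ∨ (j = 0 ∧ k = S.n)
      · rw [b1.per y1 (j := i) (by rw [y2, x2]; exact (dv k hk).mpr hd), y4]
        rcases hd with rfl | ⟨rfl, rfl⟩
        · rfl
        · rw [w.cyc]
      · rw [y5 k (by rw [x2]; exact fun e => hd ((dv k hk).mp e)), x4 k hk, cur, if_neg hd]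
    exact ⟨y, hy, by omega, y2, y3, y5, (edge ψ x y hx hy).symm⟩
  · intro ψ x y e' x1 ⟨y1, y2, y3, y4⟩ ⟨_, s2, s3, s4, s5⟩
    let ψ' : ℕ → ℕ := fun a => if a = S.nx then x.b i else ψ a
    have hψ : ∀ a, a < S.nx → ψ' a = ψ a := fun a ha => if_neg ha.ne
    have hy : Mt S.n S.c S.cur ψ' y :=
      ⟨y1, y2, y3, fun k hk => by rw [hψ _ (w.lt k hk), y4 k hk]⟩
    have hx : Mt S.n S.c (stepS j S).cur ψ' x := by
      refine ⟨x1, s2.symm.trans y2, s3.symm.trans y3, fun k hk => ?_⟩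
      rw [cur]
      by_cases hd : k = j ∨ (j = 0 ∧ k = S.n)
      · rw [if_pos hd, b1.per x1 (j := i) (by rw [← s2, y2]; exact (dv k hk).mpr hd)]
        exact (if_pos rfl).symm
      · rw [if_neg hd, ← s4 k (by rw [← s2, y2]; exact fun e => hd ((dv k hk).mp e)),
          hy.2.2.2 k hk]
    exact ⟨ψ', hx, s5.trans (edge ψ' x y hx hy), hψ⟩

theorem stepT_ok (b1 : SB1) (i : ℤ) (S : ES) (h : (evs (.t i) S).ok = true) :
    StepOk (.t i) S (evs (.t i) S) := by
  simp only [evs, stepT, Bool.and_eq_true, Nat.ble_eq] at h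
  obtain ⟨h1, h2⟩ := h
  refine ⟨h1, fun w => ?_⟩
  have m0 : (0 : ℤ) < S.n := by omega
  obtain ⟨j, hj⟩ : ∃ j : ℕ, i % (S.n : ℤ) = j :=
    ⟨(i % (S.n : ℤ)).toNat, (Int.toNat_of_nonneg (Int.emod_nonneg _ m0.ne')).symm⟩
  obtain ⟨q, hq⟩ : ∃ q : ℤ, i = j + S.n * q := ⟨i / S.n, by rw [← hj, Int.emod_add_mul_ediv]⟩
  obtain ⟨m2, hm2⟩ : ∃ m2 : ℕ, S.n = 2 * m2 := ⟨S.n / 2, by have := w.ev; omega⟩
  have nq : (S.n : ℤ) * q = 2 * (m2 * q) := by rw [hm2]; push_cast; ring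
  have ev : evs (.t i) S = stepT j S := by simp only [evs, hj, Int.toNat_natCast]
  rw [ev]
  have cur : ∀ k, k ≤ S.n → (stepT j S).cur.getD k 0 = S.cur.getD ((k + j) % S.n) 0 := by
    intro k hk
    simp only [stepT]
    rw [List.getD_eq_getElem?_getD, List.getElem?_map,
      List.getElem?_range (by omega : k < S.n + 1)]
    rfl
  have ml : ∀ k, k % S.n ≤ S.n := fun k => (Nat.mod_lt _ (by omega)).le
  have key : ∀ (ψ : ℕ → ℕ) (y : St), Mt S.n S.c S.cur ψ y → ∀ k : ℕ,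
      y.b (k + i) = ψ (S.cur.getD ((k + j) % S.n) 0) := by
    intro ψ y ⟨y1, y2, _, y4⟩ k
    rw [← y4 _ (ml _)]
    refine b1.per y1 ⟨q + ((k + j) / S.n : ℕ), ?_⟩
    have := Nat.mod_add_div (k + j) S.n
    have e : ((k : ℤ) + j) = ((k + j) % S.n : ℕ) + S.n * ((k + j) / S.n : ℕ) := by
      exact_mod_cast this.symm
    rw [y2, hq, mul_add]
    linarith
  refine ⟨⟨by simp [stepT], w.ev, ?_, fun k hk => ?_, ?_⟩, id, [], by simp [stepT], ?_, ?_, ?_,
    ?_, ?_⟩
  · simp only [stepT]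
    omega
  · rw [cur k hk]
    exact w.lt _ (ml _)
  · change (stepT j S).cur.getD S.n 0 = _
    rw [cur _ le_rfl, cur 0 (Nat.zero_le _), Nat.add_mod_left, Nat.zero_add]
  · rw [mp_id]
    rfl
  · exact fun a ha => ha
  · simp
  · intro ψ x ⟨x1, x2, x3, x4⟩
    have x2' : x.n = S.n := x2
    have x3' : x.c = ((S.c + j) % 2 : ℕ) := x3
    obtain ⟨y, y1, hs⟩ := b1.ex_t x1 (by omega) i
    refine ⟨y, ⟨y1, hs.2.1.trans x2', ?_, fun k hk => ?_⟩, hs⟩
    · have := w.c1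
      rw [hs.2.2.1, x3', hq, nq]
      omega
    · obtain ⟨r, hr⟩ : ∃ r : ℕ, ((k : ℤ) - j) % (S.n : ℤ) = r :=
        ⟨((k : ℤ) - j) % (S.n : ℤ) |>.toNat,
          (Int.toNat_of_nonneg (Int.emod_nonneg _ m0.ne')).symm⟩
      have rl : r < S.n := by
        have := Int.emod_lt_of_pos ((k : ℤ) - j) m0
        omega
      have e := Int.emod_add_mul_ediv ((k : ℤ) - j) S.n
      have e1 : y.b k = x.b r := by
        rw [← hs.2.2.2.1 r]
        refine b1.per y1 ⟨((k : ℤ) - j) / S.n - q, ?_⟩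
        rw [hs.2.1, x2', hq, mul_sub]
        linarith
      have e2 : (r + j) % S.n = k % S.n := by
        have : ((r + j : ℕ) : ℤ) % S.n = (k : ℤ) % S.n := by
          push_cast
          rw [← hr, Int.emod_add_emod, sub_add_cancel]
        exact_mod_cast this
      rw [e1, x4 r rl.le, cur r rl.le, e2]
      rcases hk.lt_or_eq with hk | rfl
      · rw [Nat.mod_eq_of_lt hk]
        rfl
      · rw [Nat.mod_self, w.cyc]
        rfl
  · intro ψ x y e' x1 hy ⟨_, s2, s3, s4, s5⟩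
    refine ⟨ψ, ⟨x1, s2.symm.trans hy.2.1, ?_, fun k hk => ?_⟩, s5, fun _ _ => rfl⟩
    · change x.c = ((S.c + j) % 2 : ℕ)
      have := hy.2.2.1
      have := x1.2.2.1
      rw [hq, nq] at s3
      omega
    · rw [← s4 k, key ψ y hy k, cur k hk]

theorem stepU_ok (b1 : SB1) (i : ℕ) (S : ES) (h : (stepU i S).ok = true) :
    StepOk (.u i) S (stepU i S) := by
  simp only [stepU, ES.ren, Bool.and_eq_true, Nat.ble_eq] at h
  obtain ⟨h1, h2⟩ := h
  refine ⟨h1, fun w => ?_⟩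
  have wl := w.len
  have wv := w.ev
  let ρ := rnm (S.cur.getD i 0) (S.cur.getD (i + 2) 0)
  have ρe : ρ (S.cur.getD (i + 2) 0) = ρ (S.cur.getD i 0) := by
    simp only [ρ, rnm_a, rnm_b]
  have len : (S.cur.take (i + 1) ++ S.cur.drop (i + 3)).length = S.n - 2 + 1 := by
    simp only [List.length_append, List.length_take, List.length_drop]
    omega
  have cur : ∀ k, k ≤ S.n - 2 → (stepU i S).cur.getD k 0 =
      ρ (if k ≤ i then S.cur.getD k 0 else S.cur.getD (k + 2) 0) := by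
    intro k hk
    simp only [stepU, ES.ren]
    rw [getD_map _ _ _ (by omega), getD_td _ _ _ _ (by omega)]
    by_cases e : k ≤ i
    · rw [if_pos (by omega), if_pos e]
    · rw [if_neg (by omega), if_neg e, show i + 3 + (k - (i + 1)) = k + 2 by omega]
  have ρl : ∀ a, a < S.nx → ρ a < S.nx := by
    intro a ha
    rcases rnm_or (S.cur.getD i 0) (S.cur.getD (i + 2) 0) a with e | ⟨_, e⟩
    · change rnm _ _ a < _
      rw [e]; exact ha
    · change rnm _ _ a < _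
      rw [e]; exact w.lt i (by omega)
  refine ⟨⟨?_, ?_, w.c1, fun k hk => ?_, ?_⟩, ρ, [], rfl, rfl, ρl, by simp, ?_, ?_⟩
  · simp only [stepU, ES.ren, List.length_map]
    exact len
  · simp only [stepU, ES.ren]
    omega
  · have hk' : k ≤ S.n - 2 := hk
    rw [cur k hk']
    refine ρl _ ?_
    split_ifs
    · exact w.lt _ (by omega)
    · exact w.lt _ (by omega)
  · change (stepU i S).cur.getD (S.n - 2) 0 = _
    rw [cur _ le_rfl, cur 0 (Nat.zero_le _), if_pos (Nat.zero_le _), ← w.cyc]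
    split_ifs with e
    · have : i = S.n - 2 := by omega
      rw [← this, ← ρe, show i + 2 = S.n by omega]
    · rw [show S.n - 2 + 2 = S.n by omega]
  · intro ψ x ⟨x1, x2, x3, x4⟩
    have x2' : x.n = (S.n - 2 : ℕ) := x2
    obtain ⟨y, y1, hs, y2⟩ := b1.ex_u x1 i (ψ (ρ (S.cur.getD (i + 1) 0))) (by omega) (by omega)
    refine ⟨y, ⟨y1, by rw [hs.2.2.1]; omega, hs.2.2.2.1.trans x3, fun k hk => ?_⟩, hs⟩
    by_cases e : k ≤ i
    · rw [hs.2.2.2.2.1 k (by omega) (by omega), x4 k (show k ≤ S.n - 2 by omega),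
        cur k (by omega), if_pos e]
      rfl
    · by_cases e' : k = i + 1
      · subst e'
        exact y2
      · obtain ⟨r, rfl⟩ : ∃ r, k = r + 2 := ⟨k - 2, by omega⟩
        have := hs.2.2.2.2.2.1 r (by omega) (by omega)
        rw [show ((r + 2 : ℕ) : ℤ) = r + 2 by push_cast; ring, this,
          x4 r (show r ≤ S.n - 2 by omega), cur r (by omega)]
        split_ifs with e''
        · have : r = i := by omega
          rw [this, ← ρe]
          rfl
        · rfl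
  · intro ψ x y e' x1 ⟨_, y2, y3, y4⟩ ⟨_, s2, s3, s4, s5, s6, s7⟩
    have e : ψ (S.cur.getD i 0) = ψ (S.cur.getD (i + 2) 0) := by
      rw [← y4 i (by omega), ← y4 (i + 2) (by omega), s5 i (by omega) le_rfl,
        ← s6 i le_rfl s2]
      rfl
    refine ⟨ψ, ⟨x1, ?_, s4.symm.trans y3, fun k hk => ?_⟩, s7, fun a _ => rnm_fix e a⟩
    · change x.n = (S.n - 2 : ℕ)
      omega
    · have hk' : k ≤ S.n - 2 := hk
      rw [cur k hk', rnm_fix e]
      split_ifs with e'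
      · rw [← y4 k (by omega), s5 k (by omega) (by omega)]
      · rw [← y4 (k + 2) (by omega), ← s6 k (by omega) (by omega)]
        rfl

theorem stepD_ok (b1 : SB1) (i : ℕ) (S : ES) (h : (stepD i S).ok = true) :
    StepOk (.d i) S (stepD i S) := by
  simp only [stepD, Bool.and_eq_true, Nat.ble_eq] at h
  obtain ⟨h1, h2⟩ := h
  refine ⟨h1, fun w => ?_⟩
  have wl := w.len
  have wv := w.ev
  have cur : ∀ k, (stepD i S).cur.getD k 0 =
      if k ≤ i then S.cur.getD k 0 else if k = i + 1 then S.nx else S.cur.getD (k - 2) 0 := by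
    intro k
    simp only [stepD]
    rw [getD_tcd _ _ _ _ _ (by omega)]
    by_cases e : k ≤ i
    · rw [if_pos (by omega), if_pos e]
    · rw [if_neg (by omega), if_neg e]
      by_cases e' : k = i + 1
      · rw [if_pos e', if_pos e']
      · rw [if_neg e', if_neg e', show i + (k - (i + 1) - 1) = k - 2 by omega]
  refine ⟨⟨?_, ?_, w.c1, fun k hk => ?_, ?_⟩, id, [], by simp [stepD], ?_, ?_, by simp, ?_, ?_⟩
  · simp only [stepD, List.length_append, List.length_take, List.length_cons, List.length_drop]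
    omega
  · simp only [stepD]
    omega
  · have hk' : k ≤ S.n + 2 := hk
    rw [cur k]
    change _ < S.nx + 1
    split_ifs
    · exact (w.lt _ (by omega)).trans (Nat.lt_succ_self _)
    · omega
    · exact (w.lt _ (by omega)).trans (Nat.lt_succ_self _)
  · change (stepD i S).cur.getD (S.n + 2) 0 = _
    rw [cur, cur, if_neg (by omega), if_neg (by omega), if_pos (Nat.zero_le _), Nat.add_sub_cancel,
      w.cyc]
  · rw [mp_id]
    rfl
  · intro a ha
    simp only [stepD, id]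
    omega
  · intro ψ x ⟨x1, x2, x3, x4⟩
    have x2' : x.n = (S.n + 2 : ℕ) := x2
    have e : x.b i = x.b (i + 2) := by
      have := x4 (i + 2) (show i + 2 ≤ S.n + 2 by omega)
      rw [cur, if_neg (by omega), if_neg (by omega), Nat.add_sub_cancel] at this
      rw [x4 i (show i ≤ S.n + 2 by omega), cur, if_pos le_rfl, ← this]
      rfl
    obtain ⟨y, y1, hs⟩ := b1.ex_d x1 i (by omega) (by omega) e
    have yn : y.n = S.n := by have := hs.2.2.1; omega
    refine ⟨y, ⟨y1, yn, hs.2.2.2.1.trans x3, fun k hk => ?_⟩, hs⟩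
    by_cases e' : k ≤ i
    · rw [hs.2.2.2.2.1 k (by omega) (by omega), x4 k (show k ≤ S.n + 2 by omega), cur, if_pos e']
      rfl
    · have := x4 (k + 2) (show k + 2 ≤ S.n + 2 by omega)
      rw [cur, if_neg (by omega), if_neg (by omega), Nat.add_sub_cancel] at this
      rw [hs.2.2.2.2.2.1 k (by omega) (by omega)]
      exact this
  · intro ψ x y e' x1 ⟨_, y2, y3, y4⟩ ⟨_, _, s3, s4, s5, s6, s7⟩
    let ψ' : ℕ → ℕ := fun a => if a = S.nx then x.b (i + 1 : ℕ) else ψ a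
    have hψ : ∀ a, a < S.nx → ψ' a = ψ a := fun a ha => if_neg ha.ne
    refine ⟨ψ', ⟨x1, ?_, s4.symm.trans y3, fun k hk => ?_⟩, s7, hψ⟩
    · change x.n = (S.n + 2 : ℕ)
      omega
    · have hk' : k ≤ S.n + 2 := hk
      rw [cur]
      split_ifs with e1 e2
      · rw [hψ _ (w.lt _ (by omega)), ← y4 k (by omega), s5 k (by omega) (by omega)]
      · rw [e2]
        exact (if_pos rfl).symm
      · obtain ⟨r, rfl⟩ : ∃ r, k = r + 2 := ⟨k - 2, by omega⟩
        rw [Nat.add_sub_cancel, hψ _ (w.lt _ (by omega)), ← y4 r (by omega),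
          s6 r (by omega) (by omega)]
        rfl

theorem stepR_ok (b1 : SB1) (nn : SN) (S : ES) (h : (stepR S).ok = true) :
    StepOk .r S (stepR S) := by
  refine ⟨h, fun w => ?_⟩
  have wl := w.len
  have cur : ∀ k, k ≤ S.n → (stepR S).cur.getD k 0 = S.cur.getD (S.n - k) 0 := by
    intro k hk
    simp only [stepR, List.getD_eq_getElem?_getD]
    rw [List.getElem?_reverse (by omega), show S.cur.length - 1 - k = S.n - k by omega]
  have pr : ∀ x : St, x.Ok → x.n = S.n → ∀ k : ℕ, k ≤ S.n → x.b (-k) = x.b (S.n - k : ℕ) :=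
    fun x x1 x2 k hk => b1.per x1 ⟨-1, by rw [x2]; omega⟩
  refine ⟨⟨by simp [stepR, wl], w.ev, w.c1, fun k hk => ?_, ?_⟩, id, [], by simp [stepR], ?_,
    fun a ha => ha, by simp, ?_, ?_⟩
  · rw [cur k hk]
    exact w.lt _ (Nat.sub_le _ _)
  · change (stepR S).cur.getD S.n 0 = _
    rw [cur _ le_rfl, cur 0 (Nat.zero_le _), Nat.sub_self, Nat.sub_zero, w.cyc]
  · rw [mp_id]
    rfl
  · intro ψ x ⟨x1, x2, x3, x4⟩
    obtain ⟨y, y1, hs⟩ := nn.ex_r x1
    refine ⟨y, ⟨y1, hs.1.trans x2, hs.2.1.trans x3, fun k hk => ?_⟩, hs⟩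
    rw [hs.2.2.1, pr x x1 x2 k hk, x4 (S.n - k) (Nat.sub_le _ _), cur _ (Nat.sub_le _ _),
      Nat.sub_sub_self hk]
    rfl
  · intro ψ x y e' x1 ⟨y1, y2, y3, y4⟩ ⟨s1, s2, s3, s4⟩
    refine ⟨ψ, ⟨x1, s1.symm.trans y2, s2.symm.trans y3, fun k hk => ?_⟩, s4, fun _ _ => rfl⟩
    have hk' : k ≤ S.n := hk
    rw [cur k hk', ← y4 _ (Nat.sub_le _ _), ← pr y y1 y2 k hk', s3, neg_neg]

theorem idn_spec : ∀ (j : ℕ) (S : ES), j + 4 ≤ S.cur.length →
    ∃ ρ : ℕ → ℕ, (idn j S).E = mp ρ S.E ∧ (idn j S).top = S.top.map ρ ∧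
      (∀ k, k < j → ρ (S.cur.getD k 0) = ρ (S.cur.getD (k + 4) 0)) ∧
      (∀ ψ : ℕ → ℕ, (∀ k, k < j → ψ (S.cur.getD k 0) = ψ (S.cur.getD (k + 4) 0)) →
        ∀ a, ψ (ρ a) = ψ a) ∧
      ∀ N, (∀ k, k < j → S.cur.getD k 0 < N) → ∀ a, a < N → ρ a < N
  | 0, S, _ => ⟨id, (mp_id _).symm, (List.map_id _).symm, fun _ h => absurd h (Nat.not_lt_zero _),
      fun _ _ _ => rfl, fun _ _ _ h => h⟩
  | j + 1, S, h1 => by
    let σ := rnm (S.cur.getD j 0) (S.cur.getD (j + 4) 0)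
    obtain ⟨ρ, r1, r2, r3, r4, r5⟩ := idn_spec j (S.ren (S.cur.getD j 0) (S.cur.getD (j + 4) 0))
      (by simp only [ES.ren, List.length_map]; omega)
    have c1 : ∀ k, k < j + 4 → (S.ren (S.cur.getD j 0) (S.cur.getD (j + 4) 0)).cur.getD k 0 =
        σ (S.cur.getD k 0) := fun k hk => getD_map _ _ _ (by omega)
    refine ⟨ρ ∘ σ, ?_, ?_, fun k hk => ?_, fun ψ hψ a => ?_, fun N hN a ha => ?_⟩
    · rw [← mp_mp]
      exact r1
    · rw [← List.map_map]
      exact r2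
    · rcases (Nat.le_of_lt_succ hk).lt_or_eq with hk | rfl
      · have := r3 k hk
        rwa [c1 k (by omega), c1 (k + 4) (by omega)] at this
      · simp only [Function.comp, σ, rnm_a, rnm_b]
    · have e := hψ j (Nat.lt_succ_self _)
      rw [Function.comp, r4 ψ (fun k hk => ?_), rnm_fix e]
      rw [c1 k (by omega), c1 (k + 4) (by omega), rnm_fix e, rnm_fix e, hψ k (by omega)]
    · have hσ : ∀ a, a < N → σ a < N := fun a ha => by
        rcases rnm_or (S.cur.getD j 0) (S.cur.getD (j + 4) 0) a with e | ⟨_, e⟩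
        · change rnm _ _ a < _
          rw [e]; exact ha
        · change rnm _ _ a < _
          rw [e]; exact hN j (Nat.lt_succ_self _)
      refine r5 N (fun k hk => ?_) _ (hσ a ha)
      rw [c1 k (by omega)]
      exact hσ _ (hN k (by omega))

theorem per4 (b1 : SB1) {x : St} (x1 : x.Ok) (x2 : x.n = 8)
    (h : ∀ k : ℕ, k < 4 → x.b (k + 4 : ℕ) = x.b k) (j : ℤ) : x.b (j + 4) = x.b j := by
  obtain ⟨k, hk⟩ : ∃ k : ℕ, j % 4 = k := ⟨(j % 4).toNat, by omega⟩
  have := h k (by omega)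
  by_cases e : j % 8 < 4
  · rw [b1.per x1 (i := j + 4) (j := (k + 4 : ℕ)) (by rw [x2]; omega),
      b1.per x1 (i := j) (j := k) (by rw [x2]; omega), this]
  · rw [b1.per x1 (i := j + 4) (j := k) (by rw [x2]; omega),
      b1.per x1 (i := j) (j := (k + 4 : ℕ)) (by rw [x2]; omega), this]

theorem stepX_ok (b1 : SB1) (S : ES) (h : (stepX S).ok = true) : StepOk .x S (stepX S) := by
  simp only [stepX, Bool.and_eq_true, Nat.beq_eq] at h
  obtain ⟨h1, h2⟩ := h
  refine ⟨h1, fun w => ?_⟩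
  have wl := w.len
  have cur : ∀ k, k ≤ 8 → (stepX S).cur.getD k 0 = S.nx + k % 4 := by
    intro k hk
    interval_cases k <;> rfl
  obtain ⟨ρ, r1, r2, r3, r4, r5⟩ := idn_spec 4 S (by omega)
  have ρl := r5 S.nx fun k hk => w.lt k (by omega)
  refine ⟨⟨rfl, show 8 % 2 = 0 from rfl, w.c1, fun k hk => ?_, rfl⟩, ρ, [], r2, r1,
    fun a ha => ?_, by simp, ?_, ?_⟩
  · rw [cur k hk]
    change _ < S.nx + 4
    omega
  · have := ρl a ha
    change _ < S.nx + 4
    omega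
  · intro ψ x ⟨x1, x2, x3, x4⟩
    have x3' : x.c = S.c := x3
    have wc := w.c1
    obtain ⟨o1, o2⟩ := b1.ofF (n := S.n) (c := S.c) (fun j => ψ (ρ (S.cur.getD j.toNat 0)))
      (by omega) (by omega) (by omega) (by simp only [Int.toNat_natCast, w.cyc]; rfl)
    have o3 : ∀ k : ℕ, k ≤ S.n →
        (St.ofF S.n S.c fun j => ψ (ρ (S.cur.getD j.toNat 0))).b k = ψ (ρ (S.cur.getD k 0)) :=
      fun k hk => (o2 k (by omega) (by omega)).trans (by rw [Int.toNat_natCast])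
    have o4 : (St.ofF S.n S.c fun j => ψ (ρ (S.cur.getD j.toNat 0))).n = 8 := by
      change (S.n : ℤ) = 8
      omega
    refine ⟨_, ⟨o1, rfl, rfl, o3⟩, x2, o4, x3'.symm, per4 b1 x1 x2 fun k hk => ?_,
      per4 b1 o1 o4 fun k hk => ?_, rfl⟩
    · rw [x4 _ (show k + 4 ≤ 8 by omega), x4 _ (show k ≤ 8 by omega), cur _ (by omega),
        cur _ (by omega), Nat.add_mod_right]
    · rw [o3 _ (by omega), o3 _ (by omega), r3 k hk]
  · intro ψ x y e' x1 ⟨_, _, y3, y4⟩ ⟨s1, _, s3, s4, s5, s6⟩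
    let ψ' : ℕ → ℕ := fun a => if a < S.nx then ψ a else x.b (a - S.nx : ℕ)
    refine ⟨ψ', ⟨x1, s1, s3.symm.trans y3, fun k hk => ?_⟩, s6, fun a ha => ?_⟩
    · have hk' : k ≤ 8 := hk
      rw [cur k hk']
      refine Eq.trans ?_ (if_neg (by omega)).symm
      rw [Nat.add_sub_cancel_left]
      have a0 := s4 0
      have a1 := s4 1
      have a2 := s4 2
      have a3 := s4 3
      have a4 := s4 4
      interval_cases k
      exacts [rfl, rfl, rfl, rfl, a0, a1, a2, a3, a4.trans a0]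
    · refine (if_pos (ρl a ha)).trans (r4 ψ (fun k hk => ?_) a)
      rw [← y4 k (by omega), ← y4 (k + 4) (by omega), ← s5 k]
      rfl

theorem step_ok (b1 : SB1) (nn : SN) (g : Lt) (S : ES) (h : (evs g S).ok = true) :
    StepOk g S (evs g S) := by
  rcases g with i | i | (i | i) | (i | i) | _ | _
  · exact stepS_ok b1 i S h
  · exact stepT_ok b1 i S h
  · exact stepU_ok b1 i S h
  · exact absurd h (by simp [evs, ES.no])
  · exact stepD_ok b1 i S h
  · exact absurd h (by simp [evs, ES.no])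
  · exact stepR_ok b1 nn S h
  · exact stepX_ok b1 S h

structure Inv (n c : ℕ) (W : List Lt) (S : ES) : Prop where
  wf : WF S
  tl : S.top.length = n + 1
  tb : ∀ k, k ≤ n → S.top.getD k 0 < S.nx
  eb : ∀ p ∈ S.E, p.1 < S.nx ∧ p.2 < S.nx
  r : ∀ ψ x z, Mt S.n S.c S.cur ψ x → Mt n c S.top ψ z → Run W x z (mp ψ S.E)
  u : ∀ x z E', Run W x z E' → z.n = n → z.c = c →
    ∃ ψ, Mt S.n S.c S.cur ψ x ∧ Mt n c S.top ψ z ∧ E' = mp ψ S.E

theorem inv0 (b1 : SB1) (n c : ℕ) (hn : n % 2 = 0) (hc : c ≤ 1) : Inv n c [] (es0 n c) := by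
  have cur : ∀ k, k ≤ n → (List.range n ++ [0]).getD k 0 = if k = n then 0 else k := by
    intro k hk
    rw [List.getD_eq_getElem?_getD, List.getElem?_append, List.length_range]
    rcases hk.lt_or_eq with hk | rfl
    · rw [if_pos hk, if_neg hk.ne, List.getElem?_range hk]
      rfl
    · simp
  have lt : ∀ k, k ≤ n → (List.range n ++ [0]).getD k 0 < n + 1 := by
    intro k hk
    rw [cur k hk]
    split_ifs <;> omega
  refine ⟨⟨by simp [es0], hn, hc, lt, ?_⟩, by simp [es0], lt, by simp [es0], ?_, ?_⟩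
  · change (List.range n ++ [0]).getD n 0 = (List.range n ++ [0]).getD 0 0
    rw [cur _ le_rfl, cur 0 (Nat.zero_le _)]
    simp
  · intro ψ x z ⟨x1, x2, x3, x4⟩ ⟨z1, z2, z3, z4⟩
    refine ⟨x1, b1.ext z1 x1 (z2.trans x2.symm) (z3.trans x3.symm) fun j j0 j1 => ?_, rfl⟩
    lift j to ℕ using j0
    rw [z4 j (by omega), x4 j (show j ≤ n by omega)]
    rfl
  · rintro x z E' ⟨x1, rfl, rfl⟩ z2 z3
    have : Mt n c (List.range n ++ [0]) (fun a => z.b a) z := by
      refine ⟨x1, z2, z3, fun k hk => ?_⟩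
      rw [cur k hk]
      split_ifs with e
      · exact b1.per x1 ⟨1, by rw [z2, e]; simp⟩
      · rfl
    exact ⟨_, this, this, rfl⟩

theorem inv (b1 : SB1) (nn : SN) (n c : ℕ) (hn : n % 2 = 0) (hc : c ≤ 1) :
    ∀ W : List Lt, (evb (es0 n c) W).ok = true → Inv n c W (evb (es0 n c) W)
  | [], _ => inv0 b1 n c hn hc
  | g :: W, h => by
    obtain ⟨h1, h2⟩ := step_ok b1 nn g _ h
    have I := inv b1 nn n c hn hc W h1
    obtain ⟨w, ρ, e, t1, t2, t3, t4, t5, t6⟩ := h2 I.wf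
    have top : ∀ k, k ≤ n → (evs g (evb (es0 n c) W)).top.getD k 0 =
        ρ ((evb (es0 n c) W).top.getD k 0) := fun k hk => by
      rw [t1, getD_map _ _ _ (by rw [I.tl]; omega)]
    change Inv n c (g :: W) (evs g (evb (es0 n c) W))
    refine ⟨w, by rw [t1, List.length_map, I.tl], fun k hk => ?_, fun p hp => ?_, ?_, ?_⟩
    · rw [top k hk]
      exact t3 _ (I.tb k hk)
    · rw [t2, List.mem_append] at hp
      rcases hp with hp | hp
      · exact t4 p hp
      · obtain ⟨p', hp', rfl⟩ := List.mem_map.mp hp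
        exact ⟨t3 _ (I.eb p' hp').1, t3 _ (I.eb p' hp').2⟩
    · intro ψ x z hx ⟨z1, z2, z3, z4⟩
      obtain ⟨y, hy, hs⟩ := t5 ψ x hx
      refine ⟨hx.1, y, _, _, hs, I.r (ψ ∘ ρ) y z hy ⟨z1, z2, z3, fun k hk => ?_⟩, ?_⟩
      · rw [z4 k hk, top k hk]
        rfl
      · rw [t2, mp_app, mp_mp]
    · rintro x z E' ⟨x1, y, e', E'', hs, hr, rfl⟩ z2 z3
      obtain ⟨ψ, hy, ⟨z1, -, -, z4⟩, rfl⟩ := I.u y z E'' hr z2 z3
      obtain ⟨ψ', hx, rfl, hψ⟩ := t6 ψ x y e' x1 hy hs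
      refine ⟨ψ', hx, ⟨z1, z2, z3, fun k hk => ?_⟩, ?_⟩
      · rw [top k hk, hψ _ (I.tb k hk), z4 k hk]
      · rw [t2, mp_app, mp_mp, mp_congr I.eb (φ := ψ' ∘ ρ) hψ]

theorem cls_spec : ∀ (j : ℕ) (S : ES), j ≤ S.cur.length → j ≤ S.top.length →
    ∃ ρ : ℕ → ℕ, (cls j S).E = mp ρ S.E ∧ (∀ k, k < j → ρ (S.cur.getD k 0) = ρ (S.top.getD k 0)) ∧
      ∀ ψ : ℕ → ℕ, (∀ k, k < j → ψ (S.cur.getD k 0) = ψ (S.top.getD k 0)) → ∀ a, ψ (ρ a) = ψ a
  | 0, S, _, _ => ⟨id, (mp_id _).symm, fun _ h => absurd h (Nat.not_lt_zero _), fun _ _ _ => rfl⟩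
  | j + 1, S, h1, h2 => by
    let σ := rnm (S.cur.getD j 0) (S.top.getD j 0)
    obtain ⟨ρ, r1, r2, r3⟩ := cls_spec j (S.ren (S.cur.getD j 0) (S.top.getD j 0))
      (by simp only [ES.ren, List.length_map]; omega) (by simp only [ES.ren, List.length_map]; omega)
    have c1 : ∀ k, k < j → (S.ren (S.cur.getD j 0) (S.top.getD j 0)).cur.getD k 0 =
        σ (S.cur.getD k 0) := fun k hk => getD_map _ _ _ (by omega)
    have c2 : ∀ k, k < j → (S.ren (S.cur.getD j 0) (S.top.getD j 0)).top.getD k 0 =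
        σ (S.top.getD k 0) := fun k hk => getD_map _ _ _ (by omega)
    refine ⟨ρ ∘ σ, ?_, fun k hk => ?_, fun ψ hψ a => ?_⟩
    · rw [← mp_mp]
      exact r1
    · rcases (Nat.le_of_lt_succ hk).lt_or_eq with hk | rfl
      · have := r2 k hk
        rwa [c1 k hk, c2 k hk] at this
      · simp only [Function.comp, σ, rnm_a, rnm_b]
    · have e := hψ j (Nat.lt_succ_self _)
      rw [Function.comp, r3 ψ (fun k hk => ?_), rnm_fix e]
      rw [c1 k hk, c2 k hk, rnm_fix e, rnm_fix e, hψ k (by omega)]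

end Evaux

open Evaux in
theorem pEv (b1 : SB1) (nn : SN) : SEv := by
  intro n c W h
  simp only [evOK, Bool.and_eq_true, Nat.beq_eq, Nat.ble_eq] at h
  obtain ⟨⟨⟨⟨h1, h2⟩, h3⟩, h4⟩, h5⟩ := h
  have I := inv b1 nn n c h4 h5 W h1
  have wl := I.wf.len
  obtain ⟨ρ, r1, r2, r3⟩ := cls_spec (n + 1) (evb (es0 n c) W) (by omega) I.tl.ge
  rw [evE, r1]
  constructor
  · obtain ⟨o1, o2⟩ := b1.ofF (n := n) (c := c)
      (fun j => ρ ((evb (es0 n c) W).cur.getD j.toNat 0)) (by omega) (by omega) (by omega)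
      (by have := I.wf.cyc; rw [h2] at this; simp only [Int.toNat_natCast, this]; rfl)
    refine ⟨_, I.r ρ _ _ ⟨o1, by rw [h2], by rw [h3], fun k hk => ?_⟩
      ⟨o1, rfl, rfl, fun k hk => ?_⟩⟩
    · refine (o2 k (by omega) (by omega)).trans ?_
      rw [Int.toNat_natCast]
    · refine (o2 k (by omega) (by omega)).trans ?_
      rw [Int.toNat_natCast, r2 k (by omega)]
  · rintro E' ⟨b, hb⟩
    obtain ⟨ψ, hx, hz, rfl⟩ := I.u _ _ E' hb rfl rfl
    refine ⟨ψ, ?_⟩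
    rw [mp_mp]
    congr 1
    funext a
    refine (r3 ψ (fun k hk => ?_) a).symm
    rw [← hx.2.2.2 k (by omega), ← hz.2.2.2 k (by omega)]

end Pool.Agent.P.MP_5af56b_co.Kl
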