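import Pool.Agent.P.MP_5af56b_co.Kl.Stmt

namespace Pool.Agent.P.MP_5af56b_co.Kl

open Finset

namespace G1aux

theorem br_s (i : ℤ) {U : List Lt} (h : IsBr U) : IsBr (.s i :: U) := by
  intro g hg
  rcases List.mem_cons.1 hg with rfl | hg
  · exact ⟨i, Or.inl rfl⟩
  · exact h g hg

theorem br_t (i : ℤ) {U : List Lt} (h : IsBr U) : IsBr (.t i :: U) := by
  intro g hg
  rcases List.mem_cons.1 hg with rfl | hg
  · exact ⟨i, Or.inr rfl⟩
  · exact h g hg

theorem br_nil : IsBr [] := fun _ hg => absurd hg List.not_mem_nil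

theorem t0 (c1 : SC1) {n : ℤ} (hn : 2 ≤ n) : Eqw n [.t 0] [] := by
  simpa using c1.t2 0 hn

/-- a rotation followed by its inverse can be put in front -/
theorem ins (b2 : SB2) (c1 : SC1) {n : ℤ} (hn : 2 ≤ n) (k : ℤ) (U : List Lt) :
    Eqw n U (.t k :: .t (-k) :: U) := by
  have h1 : Eqw n [.t k, .t (-k)] [] := by
    refine b2.trans (c1.t1 n k (-k)) ?_
    simpa using t0 c1 hn
  have h2 := b2.ectx (n := n) [] U (by simpa [dn] using h1)
  exact b2.symm (by simpa using h2)

theorem cons_e (b2 : SB2) {n : ℤ} (g : Lt) (hg : dl g = 0) {U V : List Lt} (h : Eqw n U V) :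
    Eqw n (g :: U) (g :: V) := by
  have := b2.ectx (n := n) [g] [] (by simpa [dn, hg] using h)
  simpa using this

theorem cons_r (b2 : SB2) {n : ℤ} (g : Lt) (hg : dl g = 0) {U : List Lt} (h : Rdc n U) :
    Rdc n (g :: U) := by
  have := b2.rctx (n := n) [g] [] (by simpa [dn, hg] using h)
  simpa using this

theorem sum_succ (f : ℤ → ℤ) {n : ℤ} (hn : 0 ≤ n) :
    ∑ i ∈ Ico 0 n, f (i + 1) = ∑ i ∈ Ico 0 n, f i - f 0 + f n := by
  obtain ⟨m, rfl⟩ := Int.eq_ofNat_of_zero_le hn
  induction m with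
  | zero => simp
  | succ m ih =>
    have h1 : Ico (0 : ℤ) ((m + 1 : ℕ) : ℤ) = insert (m : ℤ) (Ico 0 (m : ℤ)) := by
      ext j
      simp only [mem_Ico, mem_insert]
      omega
    have h2 : (m : ℤ) ∉ Ico (0 : ℤ) (m : ℤ) := by simp
    rw [h1, sum_insert h2, sum_insert h2, ih (by omega)]
    push_cast
    ring

theorem sw_mem {n i j : ℤ} (h1 : 1 ≤ i) (h2 : i + 1 ≤ n) (hj : j ∈ Ico 0 n) :
    sw n i j ∈ Ico 0 n := by
  rw [mem_Ico] at hj ⊢
  unfold sw
  split_ifs with ha hb
  · have : j - i = 0 := Int.eq_zero_of_abs_lt_dvd ha (by rw [abs_lt]; omega)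
    omega
  · have : j - i + 1 = 0 := Int.eq_zero_of_abs_lt_dvd hb (by rw [abs_lt]; omega)
    omega
  · exact hj

theorem tc_sw (p : SP) {n i : ℤ} (hn : 2 ≤ n) (h1 : 1 ≤ i) (h2 : i + 1 ≤ n) (w : ℤ → ℤ) :
    tc n (fun j => w (sw n i j)) = tc n w := by
  unfold tc
  exact sum_nbij' (sw n i) (sw n i) (fun j hj => sw_mem h1 h2 hj) (fun j hj => sw_mem h1 h2 hj)
    (fun j _ => p.sw_sw i j hn) (fun j _ => p.sw_sw i j hn) (fun j _ => rfl)

theorem tc_up {n : ℤ} (hn : 2 ≤ n) {w : ℤ → ℤ} (hw : AP n w) (h : w 0 < 0) :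
    tc n (fun j => w (j + 1)) + 1 = tc n w := by
  unfold tc
  rw [sum_succ (fun j => |w j / n|) (by omega)]
  have e1 : w n = w 0 + n := by simpa using hw.2 0
  have e2 : (w 0 + n) / n = w 0 / n + 1 := by
    have := Int.add_mul_ediv_right (w 0) 1 (show n ≠ 0 by omega)
    simpa using this
  have e3 : w 0 / n < 0 := Int.ediv_neg_of_neg_of_pos h (by omega)
  rw [e1, e2, abs_of_neg e3, abs_of_nonpos (by omega)]
  ring

theorem tc_down {n : ℤ} (hn : 2 ≤ n) {w : ℤ → ℤ} (hw : AP n w) (h : 0 ≤ w (-1)) :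
    tc n (fun j => w (j + -1)) + 1 = tc n w := by
  unfold tc
  have h0 := sum_succ (fun j => |w (j + -1) / n|) (show 0 ≤ n by omega)
  simp only [add_neg_cancel_right, zero_add] at h0
  rw [h0]
  have e1 : w (n + -1) = w (-1) + n := by rw [add_comm]; exact hw.2 (-1)
  have e2 : (w (-1) + n) / n = w (-1) / n + 1 := by
    have := Int.add_mul_ediv_right (w (-1)) 1 (show n ≠ 0 by omega)
    simpa using this
  have e3 : 0 ≤ w (-1) / n := Int.ediv_nonneg h (by omega)
  rw [e1, e2, abs_of_nonneg e3, abs_of_nonneg (by omega)]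
  ring

theorem tc_id (n : ℤ) : tc n (fun j => j) = 0 := by
  unfold tc
  refine sum_eq_zero fun i hi => ?_
  rw [mem_Ico] at hi
  rw [Int.ediv_eq_zero_of_lt hi.1 hi.2, abs_zero]

theorem sw_add (n i j a : ℤ) : sw n i (j + a) = sw n (i - a) j + a := by
  unfold sw
  rw [show j + a - i = j - (i - a) by ring]
  split_ifs <;> ring

theorem tc_cut_sw (p : SP) {n i m : ℤ} (hn : 2 ≤ n) (h1 : 1 ≤ i) (h2 : i + 1 ≤ n) (h3 : i ≠ m)
    (h4 : 0 ≤ m) (h5 : m ≤ n) (w : ℤ → ℤ) (b : ℤ) :
    tc n (cut (fun j => w (sw n i j)) m b) = tc n (cut w m b) := by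
  have e : cut (fun j => w (sw n i j)) m b = fun j => cut w m b (sw n (i - m) j) := by
    funext j
    simp only [cut, sw_add]
  rw [e]
  rcases lt_or_gt_of_ne h3 with h | h
  · rw [p.sw_congr (n := n) (i := i - m) (i' := i - m + n) ⟨-1, by ring⟩]
    exact tc_sw p hn (by omega) (by omega) _
  · exact tc_sw p hn (by omega) (by omega) _

theorem cut_succ (w : ℤ → ℤ) (a b : ℤ) : cut w (a + 1) b = fun j => cut w a b (j + 1) := by
  funext j
  simp only [cut]
  rw [show j + (a + 1) = j + 1 + a by ring]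

theorem cut_pred (w : ℤ → ℤ) (a b : ℤ) : cut w (a - 1) b = fun j => cut w a b (j + -1) := by
  funext j
  simp only [cut]
  rw [show j + (a - 1) = j + -1 + a by ring]

theorem cut_t (w : ℤ → ℤ) (k a b : ℤ) : cut (fun j => w (j + k)) (a - k) b = cut w a b := by
  funext j
  simp only [cut]
  rw [show j + (a - k) + k = j + a by ring]

theorem tc_nn (p : SP) (n : ℤ) (w : ℤ → ℤ) : 0 ≤ tc n w :=
  le_trans (abs_nonneg _) (p.tc_ge n w)

theorem main (b2 : SB2) (c1 : SC1) (p : SP) (d1 : SD1) {n m1 : ℤ} (hn : 2 ≤ n) (he : n % 2 = 0)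
    (q1 : 0 ≤ m1) (q2 : m1 ≤ n) (N : ℕ) : ∀ (U : List Lt) (m0 : ℤ), IsBr U → 0 ≤ m0 → m0 ≤ n →
      (cr U : ℤ) + tc n (pw n U) + tc n (cut (pw n U) m0 m1) < N →
      Rdc n U ∨ ∃ V, Eqw n U (fg V) ∧ V2 V n m0 n m1 ∧
        (nt (fg V) : ℤ) = tc n (pw n U) ∧ (nm V : ℤ) = tc n (cut (pw n U) m0 m1) := by
  induction N with
  | zero =>
    intro U m0 _ _ _ h
    have := tc_nn p n (pw n U)
    have := tc_nn p n (cut (pw n U) m0 m1)
    omega
  | succ N ih =>
    intro U m0 hU r1 r2 h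
    have hw := p.pw_ap U hn
    have hcw := p.cut_ap m0 m1 hw
    push_cast at h
    by_cases ha : m0 + 1 ≤ n ∧ 0 ≤ pw n U (-1)
    · have e : pw n (.t (-1) :: U) = fun j => pw n U (j + -1) := rfl
      have e2 := tc_down hn hw ha.2
      have e3 : cut (fun j => pw n U (j + -1)) (m0 + 1) m1 = cut (pw n U) m0 m1 := by
        simpa using cut_t (pw n U) (-1) m0 m1
      have hi := ins b2 c1 hn 1 U
      rcases ih (.t (-1) :: U) (m0 + 1) (br_t _ hU) (by omega) ha.1
        (by rw [e, e3]; simp only [cr]; omega) with hr | ⟨V, h1, h2, h3, h4⟩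
      · exact Or.inl (b2.rdc_of hi (cons_r b2 _ rfl hr))
      · rw [e] at h3 h4
        rw [e3] at h4
        refine Or.inr ⟨.l (.t 1) :: V, b2.trans hi (cons_e b2 _ rfl h1),
          ⟨hn, r1, r2, Or.inl rfl, h2⟩, ?_, h4⟩
        simp only [fg, nt]
        push_cast
        omega
    by_cases hb : 1 ≤ m0 ∧ pw n U 0 < 0
    · have e : pw n (.t 1 :: U) = fun j => pw n U (j + 1) := rfl
      have e2 := tc_up hn hw hb.2
      have e3 := cut_t (pw n U) 1 m0 m1
      have hi : Eqw n U (.t (-1) :: .t 1 :: U) := by simpa using ins b2 c1 hn (-1) U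
      rcases ih (.t 1 :: U) (m0 - 1) (br_t _ hU) (by omega) (by omega)
        (by rw [e, e3]; simp only [cr]; omega) with hr | ⟨V, h1, h2, h3, h4⟩
      · exact Or.inl (b2.rdc_of hi (cons_r b2 _ rfl hr))
      · rw [e] at h3 h4
        rw [e3] at h4
        refine Or.inr ⟨.l (.t (-1)) :: V, b2.trans hi (cons_e b2 _ rfl h1),
          ⟨hn, r1, r2, Or.inr rfl, h2⟩, ?_, h4⟩
        simp only [fg, nt]
        push_cast
        omega
    by_cases hd : 1 ≤ m0 ∧ m1 ≤ pw n U (m0 - 1)
    · have e2 := tc_down hn hcw (by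
        simp only [cut]
        rw [show -1 + m0 = m0 - 1 by ring]
        omega)
      rw [← cut_pred] at e2
      rcases ih U (m0 - 1) hU (by omega) (by omega) (by omega) with hr | ⟨V, h1, h2, h3, h4⟩
      · exact Or.inl hr
      · refine Or.inr ⟨.m false :: V, h1, ⟨r1, r2, h2⟩, h3, ?_⟩
        simp only [nm]
        push_cast
        omega
    by_cases hf : m0 + 1 ≤ n ∧ pw n U m0 < m1
    · have e2 := tc_up hn hcw (by
        simp only [cut, zero_add]
        omega)
      rw [← cut_succ] at e2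
      rcases ih U (m0 + 1) hU (by omega) (by omega) (by omega) with hr | ⟨V, h1, h2, h3, h4⟩
      · exact Or.inl hr
      · refine Or.inr ⟨.m true :: V, h1, ⟨r1, r2, h2⟩, h3, ?_⟩
        simp only [nm]
        push_cast
        omega
    by_cases hc : ∃ i, 1 ≤ i ∧ i + 1 ≤ n ∧ i ≠ m0 ∧ pw n U i < pw n U (i - 1)
    · obtain ⟨i, i1, i2, i3, hi⟩ := hc
      rcases d1.d3 hn he hU hi with hr | ⟨U1, hb1, hp, hq⟩
      · exact Or.inl hr
      have e : pw n U1 = fun j => pw n U (sw n i j) := by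
        funext j
        rw [← hp]
        simp only [pw]
        rw [p.sw_sw i j hn]
      have e2 := tc_sw p hn i1 i2 (pw n U)
      have e3 : cr U = cr U1 + 1 := hq.1
      have e4 := tc_cut_sw p hn i1 i2 i3 r1 r2 (pw n U) m1
      rcases ih U1 m0 hb1 r1 r2 (by rw [e, e2, e4]; omega) with hr | ⟨V, h1, h2, h3, h4⟩
      · exact Or.inl (b2.rdc_of hq (cons_r b2 _ rfl hr))
      · rw [e, e2] at h3
        rw [e, e4] at h4
        exact Or.inr ⟨.l (.s i) :: V, b2.trans hq (cons_e b2 _ rfl h1), ⟨i1, i2, i3, h2⟩, h3, h4⟩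
    have f1 : pw n U n = pw n U 0 + n := by simpa using hw.2 0
    have f2 : pw n U (n - 1) = pw n U (-1) + n := by
      rw [show n - 1 = -1 + n by ring]
      exact hw.2 (-1)
    have g0 : pw n U (-1) < pw n U 0 := by
      rcases eq_or_lt_of_le r1 with z | z
      · subst z
        omega
      rcases eq_or_lt_of_le r2 with y | y
      · subst y
        omega
      · omega
    have hasc : ∀ i, pw n U (i - 1) < pw n U i := by
      intro i
      have s1 := Int.emod_nonneg i (show n ≠ 0 by omega)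
      have s2 := Int.emod_lt_of_pos i (show 0 < n by omega)
      have s3 := Int.emod_add_mul_ediv i n
      have k1 := p.mul hw (i % n) (i / n)
      have k2 := p.mul hw (i % n - 1) (i / n)
      rw [s3] at k1
      rw [show i % n - 1 + n * (i / n) = i - 1 by omega] at k2
      rw [k1, k2]
      by_cases h0 : i % n = 0
      · rw [h0]
        simp only [zero_sub]
        omega
      by_cases h3 : i % n = m0
      · rw [h3] at h0 s2 ⊢
        omega
      · have h1 : ¬ pw n U (i % n) < pw n U (i % n - 1) := fun h' =>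
          hc ⟨_, by omega, by omega, h3, h'⟩
        have h2 : pw n U (i % n - 1) ≠ pw n U (i % n) := fun h' => by
          have := hw.1.1 h'
          omega
        omega
    have hm := p.mono hw hasc
    have k1 := hm (-1)
    have k2 := hm m0
    have k3 := hm (m0 - 1)
    have h0 : pw n U 0 = 0 := by omega
    have h1 : m1 = m0 := by omega
    have hid : pw n U = fun j => j := by
      funext j
      rw [hm j, h0, add_zero]
    have hcid : cut (pw n U) m0 m1 = fun j => j := by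
      funext j
      simp only [cut, hid, h1]
      ring
    rcases d1.d4' (V := []) hn he hU br_nil trivial hid with hr | hq
    · exact Or.inl hr
    · exact Or.inr ⟨[], hq, ⟨r1, r2, rfl, h1⟩, by rw [hid, tc_id]; rfl, by rw [hcid, tc_id]; rfl⟩

end G1aux

open G1aux

theorem pG1 (b1 : SB1) (b2 : SB2) (c1 : SC1) (p : SP) (d1 : SD1) : SG1 := by
  have _ := b1
  intro n m0 m1 U hn he hU r1 r2 q1 q2
  refine main b2 c1 p d1 hn he q1 q2
    (((cr U : ℤ) + tc n (pw n U) + tc n (cut (pw n U) m0 m1)).toNat + 1) U m0 hU r1 r2 ?_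
  push_cast
  omega

end Pool.Agent.P.MP_5af56b_co.Kl
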