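import Pool.Agent.P.MP_5af56b_co.Kl.Stmt

namespace Pool.Agent.P.MP_5af56b_co.Kl

namespace KMaux

theorem tg (ks : SKS) {q N : ℕ} (hq : q ≤ 6) (hN : 1 ≤ N)
    (h : ∀ n : ℤ, n = 6 ∨ n = 8 → BadW n (tgt n q N)) {n : ℤ} (h6 : 6 ≤ n) (h2 : n % 2 = 0) :
    BadW n (tgt n q N) := by
  obtain ⟨m, rfl⟩ : ∃ m : ℕ, n = m + 6 := ⟨(n - 6).toNat, by omega⟩
  induction m using Nat.strong_induction_on with
  | _ m ih =>
    rcases lt_or_ge m 4 with h4 | h4
    · exact h _ (by omega)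
    · obtain ⟨m, rfl⟩ := Nat.exists_eq_add_of_le' h4
      have := ks q N (by omega) (by omega) (by omega) hN (ih m (by omega) (by omega) (by omega))
      rwa [show ((m + 4 : ℕ) : ℤ) + 6 = m + 6 + 4 by push_cast; ring]

theorem br_t (k : ℤ) : IsBr [Lt.t k] := fun _ h => ⟨k, Or.inr (List.mem_singleton.1 h)⟩

theorem odd (b1 : SB1) {n : ℤ} {W : List Lt} (h : dc W % 2 ≠ 0) : Good n W := by
  rintro c E ⟨⟨b, h1⟩, -⟩
  have h2 : c = (c + dc W) % 2 := b1.wc h1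
  omega

theorem conj (b1 : SB1) (b2 : SB2) (c1 : SC1) (e3 : SE3) (nn : SN) {n : ℤ} {B : List Lt}
    (ks : List ℕ) (j : ℤ) (h2 : 2 ≤ n) (he : n % 2 = 0) (hB : IsBr B)
    (h : Good n ([Lt.t (-j)] ++ B ++ [Lt.t (-j)] ++ Z n ks ++ [Lt.r])) : Good n (B ++ Z n ks ++ [Lt.r]) := by
  have d1 := b1.br_dn hB
  have d2 := b1.z_dn n ks
  have e1 : Eqw n ([Lt.t (-j)] ++ B ++ (Z n ks ++ [Lt.t (-j)]) ++ [Lt.r])
      ([Lt.t (-j)] ++ B ++ ([Lt.t (-j)] ++ Z n ks) ++ [Lt.r]) := b2.ectx _ _ (by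
    simpa [b1.dn_app, d1, dn, dl] using b2.symm (e3.cmz ks (by omega) he (br_t (-j))))
  have e2 : Eqw n ([Lt.t (-j)] ++ B ++ Z n ks ++ [Lt.r, Lt.t (- -j)] ++ [])
      ([Lt.t (-j)] ++ B ++ Z n ks ++ [Lt.t (-j), Lt.r] ++ []) := b2.ectx _ _ (b2.symm (nn.tr _ _))
  have e4 : Eqw n (B ++ Z n ks ++ [Lt.r] ++ [] ++ []) (B ++ Z n ks ++ [Lt.r] ++ [Lt.t j, Lt.t (-j)] ++ []) :=
    b2.ectx _ _ (b2.symm (b2.trans (c1.t1 _ _ _) (by
      simpa [b1.dn_app, d1, d2, dn, dl] using c1.t2 0 h2)))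
  have g1 := b2.good_of e1.2 (by simpa [List.append_assoc] using h)
  have g2 := b2.good_of e2.2 (by simpa [List.append_assoc] using g1)
  have g3 : Good n ((B ++ Z n ks ++ [Lt.r, Lt.t j]) ++ [Lt.t (-j)]) := b2.good_rot (by
    simpa [List.append_assoc, b1.dn_app, d1, d2, dn, dl] using g2)
  simpa using b2.good_of e4.2 (by simpa [List.append_assoc] using g3)

end KMaux

open KMaux in
theorem pKM (b1 : SB1) (b2 : SB2) (c1 : SC1) (p : SP) (e3 : SE3) (nn : SN) (t : ST) (kb : SKb)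
    (ks : SKS) (kw : SKW) (un : SUn) (g1 : SG1) (v : SV) (tc' : STc) : SKM := by
  intro N n B l h6 he hB H1 H2 hN
  rcases le_or_gt 4 (wind l) with h4 | h4
  · exact b2.good_bad (kb.big l (by omega) he hB h4 (tg ks (by omega) (by omega)
      (fun n h => t.t4 n (Or.inr h)) h6 he))
  have hT : BadW n (tgt n (6 - wind l) (wind l)) := by
    generalize wind l = k at h4
    interval_cases k
    exacts [kw h6 t.t0, tg ks (by omega) (by omega) t.t1 h6 he,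
      tg ks (by omega) (by omega) t.t2 h6 he, tg ks (by omega) (by omega) t.t3 h6 he]
  have ap := p.pw_ap (n := n) B (by omega)
  have d1 := b1.br_dn hB
  by_cases hA : ∀ b, 6 ≤ tc n (cut (pw n B) (-b) b) + wind l
  · exact b2.good_bad (kb.one l h6 he hB (by omega) hA hT)
  by_cases hC : ∀ b, 6 ≤ tc n (cut (pw n B) (n - b) b) + wind l
  · have e1 : Eqw n (B ++ [] ++ (Z n l ++ [Lt.r])) (B ++ [Lt.t n] ++ (Z n l ++ [Lt.r])) :=
      b2.ectx _ _ (b2.symm (by simpa [d1] using c1.t2 (n := n) 1 (by omega)))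
    have h1 := kb.one l h6 he (b1.br_app.2 ⟨hB, br_t n⟩) (by omega) (fun b => ?_) hT
    · simpa using b2.good_of e1.2 (b2.good_bad (by simpa [List.append_assoc] using h1))
    · have : cut (pw n (B ++ [Lt.t n])) (-b) b = cut (pw n B) (n - b) b := funext fun i => by
        simp only [cut, p.pw_app, pw]
        rw [show i + (n - b) = i + -b + n by ring, ap.2]
      rw [this]
      exact hC b
  push Not at hA hC
  obtain ⟨b0, b', h1, h2, h3, h5⟩ := un (K := 5 - wind l) (by omega) ap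
    (hA.imp fun b h => by omega) (hC.imp fun b h => by omega)
  refine conj b1 b2 c1 e3 nn l b0 (by omega) he hB ?_
  have hB' : IsBr ([Lt.t (-b0)] ++ B ++ [Lt.t (-b0)]) :=
    b1.br_app.2 ⟨b1.br_app.2 ⟨br_t _, hB⟩, br_t _⟩
  have hc : cr ([Lt.t (-b0)] ++ B ++ [Lt.t (-b0)]) = cr B := by simp [b1.cr_app, cr]
  have hw : pw n ([Lt.t (-b0)] ++ B ++ [Lt.t (-b0)]) = cut (pw n B) (-b0) b0 := funext fun i => by
    simp only [cut, p.pw_app, pw, sub_eq_add_neg]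
  generalize [Lt.t (-b0)] ++ B ++ [Lt.t (-b0)] = U at hB' hc hw
  obtain ⟨m1, rfl⟩ : ∃ m : ℕ, b' = b0 + m := ⟨(b' - b0).toNat, by omega⟩
  obtain ⟨m0, rfl⟩ : ∃ m : ℕ, n = m + m1 := ⟨(n - m1).toNat, by omega⟩
  rcases g1 (m0 := m0) (m1 := m1) (by omega) he hB' (by omega) (by omega) (by omega) (by omega) with
    h7 | ⟨V, h7, h8, h9, h10⟩
  · refine b2.good_rdc (by
      simpa using b2.rctx [] (Z (m0 + m1) l ++ [Lt.r]) (by simpa [dn] using h7)) fun W' h => H1 _ _ ?_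
    simp only [b1.cr_app, cr] at h
    omega
  have hw' : cut (pw (m0 + m1) U) m0 m1 = cut (pw (m0 + m1) B) (m0 + m1 - (b0 + m1)) (b0 + m1) := by
    rw [hw]
    funext i
    simp only [cut]
    rw [show i + m0 + -b0 = i + (m0 + m1 - (b0 + m1)) by ring]
    ring
  rw [hw'] at h10
  rw [hw] at h9
  obtain ⟨V1, f1, f2, f3⟩ := v.z (n := m0 + m1) (m := m1) l (by omega) (by omega)
  have k1 := v.app h8 f2
  have k2 := v.par k1
  have k3 := b1.z_nt (m0 + m1) l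
  rw [v.fg_app, v.nm_app, b1.nt_app, f1, f3, k3] at k2
  have e1 : Eqw (m0 + m1) ([] ++ U ++ (Z (m0 + m1) l ++ [Lt.r])) ([] ++ fg V ++ (Z (m0 + m1) l ++ [Lt.r])) :=
    b2.ectx _ _ (by simpa [dn] using h7)
  suffices h : Good (m0 + m1) (fg V ++ Z (m0 + m1) l ++ [Lt.r]) by
    simpa using b2.good_of e1.2 (by simpa using h)
  by_cases ho : dc (fg V ++ Z (m0 + m1) l) % 2 = 0
  swap
  · exact odd b1 (by rw [b1.dc_app]; simpa [dc] using ho)
  obtain ⟨V', f4, f5, f6, f7⟩ := v.pad (n := m0 + m1) (m := m1) ((4 - (nt (fg V) + wind l)) / 2)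
    ((4 - (nm V + wind l)) / 2) (by omega) (by omega) (by omega)
  have d2 : dn (fg V) = 0 := h7.2.1 ▸ b1.br_dn hB'
  have e2 : Eqw (m0 + m1) (fg V ++ Z (m0 + m1) l ++ [] ++ [Lt.r])
      (fg V ++ Z (m0 + m1) l ++ fg V' ++ [Lt.r]) :=
    b2.ectx _ _ (by simpa [b1.dn_app, d2, b1.z_dn] using b2.symm f5)
  have := tc' (v.app k1 f4) (by simp only [v.fg_app, b1.nt_app, f1, k3, f6]; omega)
    (by simp only [v.nm_app, f3, f7]; omega) fun W h => H2 W (by
      have := f5.1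
      have := h7.1
      simp only [v.fg_app, b1.cr_app, f1, cr] at *
      omega)
  rw [v.fg_app, v.fg_app, f1] at this
  simpa using b2.good_of e2.2 this

end Pool.Agent.P.MP_5af56b_co.Kl
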