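import Pool.Agent.P.MP_5af56b_co.Kl.Stmt

namespace Pool.Agent.P.MP_5af56b_co.Kl

namespace KSaux

theorem run1 {g : Lt} {x z : St} {E : List (ℕ × ℕ)} :
    Run [g] x z E ↔ x.Ok ∧ z.Ok ∧ Stp g x z E := by
  constructor
  · rintro ⟨hx, y, e, E', h1, ⟨hy, rfl, rfl⟩, rfl⟩
    exact ⟨hx, hy, by simpa using h1⟩
  · rintro ⟨hx, hz, h⟩
    exact ⟨hx, z, E, [], h, ⟨hz, rfl, rfl⟩, by simp⟩

theorem run2 {g1 g2 : Lt} {x z : St} {E : List (ℕ × ℕ)} :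
    Run [g1, g2] x z E ↔ x.Ok ∧ z.Ok ∧ ∃ y e1 e2, y.Ok ∧ Stp g1 x y e1 ∧ Stp g2 y z e2 ∧
      E = e1 ++ e2 := by
  constructor
  · rintro ⟨hx, y, e, E', h1, h2, rfl⟩
    obtain ⟨hy, hz, h2⟩ := run1.1 h2
    exact ⟨hx, hz, y, e, E', hy, h1, h2, rfl⟩
  · rintro ⟨hx, hz, y, e1, e2, hy, h1, h2, rfl⟩
    exact ⟨hx, y, e1, e2, h1, run1.2 ⟨hy, hz, h2⟩, rfl⟩

theorem bc (x : St) {i j : ℤ} (h : i = j) : x.b i = x.b j := by rw [h]

theorem ud (b1 : SB1) (b2 : SB2) {n j i i' : ℤ} (h0 : 0 ≤ j) (h1 : j ≤ i) (h2 : i + 2 ≤ n)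
    (e : i' = i + 2) : Eqw n [.u j, .d i'] [.d i, .u j] := by
  subst e
  refine b2.same (by simp [dn, dl]) rfl fun x z E hn => ⟨fun h => ?_, fun h => ?_⟩
  · obtain ⟨hx, hz, y, e1, e2, hy, ⟨-, -, u3, u4, u5, u6, rfl⟩, ⟨-, -, d3, d4, d5, d6, rfl⟩, rfl⟩ :=
      run2.1 h
    obtain ⟨w, hw, hd⟩ := b1.ex_d hx i (by omega) (by omega) (by
      rw [← u6 i h1 (by omega), ← d5 (i + 2) (by omega) le_rfl, d6 (i + 2) le_rfl (by omega),
        u6 (i + 2) (by omega) (by omega)])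
    obtain ⟨-, -, w3, w4, w5, w6, -⟩ := id hd
    refine run2.2 ⟨hx, hz, w, [], [], hw, hd, ⟨h0, by omega, by omega, by omega,
      fun a a0 a1 => ?_, fun a a0 a1 => ?_, rfl⟩, rfl⟩
    · rw [d5 a a0 (by omega), u5 a a0 a1, w5 a a0 (by omega)]
    · rcases le_total a i with a2 | a2
      · rw [d5 _ (by omega) (by omega), u6 a a0 (by omega), w5 a (by omega) a2]
      · rw [d6 _ (by omega) (by omega), u6 _ (by omega) (by omega), w6 a a2 a1]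
  · obtain ⟨hx, hz, w, e1, e2, hw, ⟨-, -, w3, w4, w5, w6, rfl⟩, ⟨-, -, u3, u4, u5, u6, rfl⟩, rfl⟩ :=
      run2.1 h
    obtain ⟨y, hy, hu, hv⟩ := b1.ex_u hx j (z.b (j + 1)) h0 (by omega)
    obtain ⟨-, -, y3, y4, y5, y6, -⟩ := id hu
    refine run2.2 ⟨hx, hz, y, [], [], hy, hu, ⟨by omega, by omega, by omega, by omega,
      fun a a0 a1 => ?_, fun a a0 a1 => ?_, rfl⟩, rfl⟩
    · rcases le_or_gt a j with a2 | a2
      · rw [u5 a a0 a2, w5 a a0 (by omega), y5 a a0 a2]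
      rcases (Int.add_one_le_of_lt a2).eq_or_lt with rfl | a3
      · exact hv.symm
      · obtain ⟨a, rfl⟩ : ∃ a', a = a' + 2 := ⟨a - 2, by omega⟩
        rw [u6 a (by omega) (by omega), w5 a (by omega) (by omega), y6 a (by omega) (by omega)]
    · obtain ⟨a, rfl⟩ : ∃ a', a = a' + 2 := ⟨a - 2, by omega⟩
      rw [u6 a (by omega) (by omega), w6 a (by omega) (by omega), y6 _ (by omega) (by omega)]

theorem dd (b1 : SB1) (b2 : SB2) {n j j' : ℤ} (h0 : 0 ≤ j) (h1 : j + 4 ≤ n) (e : j' = j + 2) :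
    Eqw n [.d 0, .d j] [.d j', .d 0] := by
  subst e
  refine b2.same (by simp [dn, dl]) rfl fun x z E hn => ⟨fun h => ?_, fun h => ?_⟩
  · obtain ⟨hx, hz, y, e1, e2, hy, ⟨-, -, u3, u4, u5, u6, rfl⟩, ⟨-, -, d3, d4, d5, d6, rfl⟩, rfl⟩ :=
      run2.1 h
    obtain ⟨w, hw, hd⟩ := b1.ex_d hx (j + 2) (by omega) (by omega) (by
      rw [← u6 j h0 (by omega), ← d5 j h0 le_rfl, d6 j le_rfl (by omega),
        u6 (j + 2) (by omega) (by omega)])
    obtain ⟨-, -, w3, w4, w5, w6, -⟩ := id hd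
    refine run2.2 ⟨hx, hz, w, [], [], hw, hd, ⟨le_rfl, by omega, by omega, by omega,
      fun a a0 a1 => ?_, fun a a0 a1 => ?_, rfl⟩, rfl⟩
    · rw [d5 a a0 (by omega), u5 a a0 a1, w5 a a0 (by omega)]
    · rcases le_total a j with a2 | a2
      · rw [d5 a a0 a2, u6 a a0 (by omega), w5 _ (by omega) (by omega)]
      · rw [d6 a a2 a1, u6 _ (by omega) (by omega), w6 _ (by omega) (by omega)]
  · obtain ⟨hx, hz, w, e1, e2, hw, ⟨-, -, w3, w4, w5, w6, rfl⟩, ⟨-, -, u3, u4, u5, u6, rfl⟩, rfl⟩ :=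
      run2.1 h
    obtain ⟨y, hy, hd⟩ := b1.ex_d hx 0 le_rfl (by omega) (by
      rw [← w5 0 le_rfl (by omega), ← u5 0 le_rfl le_rfl, u6 0 le_rfl (by omega),
        w5 _ (by omega) (by omega)])
    obtain ⟨-, -, y3, y4, y5, y6, -⟩ := id hd
    refine run2.2 ⟨hx, hz, y, [], [], hy, hd, ⟨h0, by omega, by omega, by omega,
      fun a a0 a1 => ?_, fun a a0 a1 => ?_, rfl⟩, rfl⟩
    · rw [u6 a a0 (by omega), w5 _ (by omega) (by omega), y6 a a0 (by omega)]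
    · rw [u6 a (by omega) a1, w6 _ (by omega) (by omega), y6 _ (by omega) (by omega)]

theorem es (b2 : SB2) {n m : ℤ} {D D' X Y : List Lt} (A C : List Lt) (h : Eqw m D D')
    (e : m = n + dn A) (e1 : X = A ++ D ++ C) (r : Eqw n (A ++ D' ++ C) Y) : Eqw n X Y :=
  e1 ▸ b2.trans (b2.ectx A C (e ▸ h)) r

theorem ms (b2 : SB2) {n m : ℤ} {D D' X Y : List Lt} (A C : List Lt) (h : Mnw m D D')
    (e : m = n + dn A) (e1 : X = A ++ D ++ C) (r : Mnw n (A ++ D' ++ C) Y) : Mnw n X Y :=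
  e1 ▸ b2.mtrans (b2.mctx A C (e ▸ h)) r

theorem me (b2 : SB2) {n m : ℤ} {D D' X Y : List Lt} (A C : List Lt) (h : Eqw m D D')
    (e : m = n + dn A) (e1 : X = A ++ D ++ C) (r : Mnw n (A ++ D' ++ C) Y) : Mnw n X Y :=
  ms b2 A C (b2.mn_of h.2) e e1 r

theorem ef (b2 : SB2) {n : ℤ} {X Y : List Lt} (e : X = Y) : Eqw n X Y := e ▸ b2.refl n X

theorem mf (b2 : SB2) {n : ℤ} {X Y : List Lt} (e : X = Y) : Mnw n X Y := e ▸ b2.mrefl n X

theorem tt (c1 : SC1) (n : ℤ) {a b c : ℤ} (e : c = a + b) : Eqw n [.t a, .t b] [.t c] :=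
  e ▸ c1.t1 n a b

theorem t0 (b2 : SB2) (c1 : SC1) {n a b : ℤ} (h : 2 ≤ n) (e : a + b = 0) :
    Eqw n [.t a, .t b] [] := b2.trans (tt c1 n (by omega)) (c1.t2 0 h)

theorem ts (c1 : SC1) (n : ℤ) {k i j : ℤ} (e : j = i - k) : Eqw n [.t k, .s i] [.s j, .t k] :=
  e ▸ c1.t3 n k i

theorem td (b2 : SB2) (c1 : SC1) (e0 : SE0) {n i j k : ℤ} (h : 4 ≤ n) (i0 : 0 ≤ i)
    (i1 : i + 2 ≤ n) (j0 : 0 ≤ j) (j1 : j + 2 ≤ n) (e : j = i + k) :
    Eqw n [.t k, .d j] [.d i, .t k] := by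
  refine es b2 [.t k] [] (e0.c0' h j0 j1) (by simp [dn, dl]) rfl ?_
  refine es b2 [] [.d 0, .t j] (tt c1 n (c := -i) (a := k) (b := -j) (by omega))
    (by simp [dn]) rfl ?_
  refine es b2 [.t (-i), .d 0] [] (b2.symm (tt c1 _ (a := i) (b := k) e)) rfl rfl ?_
  exact es b2 [] [.t k] (b2.symm (e0.c0' h i0 i1)) (by simp [dn]) rfl (b2.refl _ _)

theorem sd (b2 : SB2) (c1 : SC1) (e0 : SE0) {n i k k' : ℤ} (a : ℤ) (i0 : 0 ≤ i) (i1 : i + 2 ≤ n)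
    (a1 : 1 ≤ a) (a3 : a + 3 ≤ n) (h1 : n ∣ k - i - (a + 2)) (h2 : n - 2 ∣ a - (k' - i)) :
    Eqw n [.s k, .d i] [.d i, .s k'] := by
  have h : 4 ≤ n := by omega
  refine es b2 [.s k] [] (e0.c0' h i0 i1) (by simp [dn, dl]) rfl ?_
  refine es b2 [] [.d 0, .t i] (b2.symm (ts c1 n (k := -i) (i := k - i) (j := k) (by omega)))
    (by simp [dn]) rfl ?_
  refine es b2 [.t (-i)] [.d 0, .t i] (c1.t4 h1) (by simp [dn, dl]) rfl ?_
  refine es b2 [.t (-i)] [.t i] (e0.c1' a1 a3) (by simp [dn, dl]) rfl ?_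
  refine es b2 [.t (-i), .d 0] [.t i] (c1.t4 h2) (by simp [dn, dl]; omega) rfl ?_
  refine es b2 [.t (-i), .d 0] [] (b2.symm (ts c1 _ (k := i) (i := k') rfl)) rfl rfl ?_
  exact es b2 [] [.s k'] (b2.symm (e0.c0' h i0 i1)) (by simp [dn]) rfl (b2.refl _ _)

theorem zz (b2 : SB2) (c1 : SC1) (c1b : SC1b) (e0 : SE0) {n i j : ℤ} (h : 2 ≤ n) (i0 : 0 ≤ i)
    (j1 : j ≤ n) (e : j = i + 1) : Eqw n [.u j, .d i] [] := by
  refine es b2 [] [.d i] (c1.c0 h (by omega) j1) (by simp [dn]) rfl ?_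
  refine es b2 [.t (-j), .u 0, .t j] [] (e0.c0' (n := n + 2) (by omega) i0 (by omega))
    (by simp [dn, dl]) rfl ?_
  refine es b2 [.t (-j), .u 0] [.d 0, .t i] (tt c1 _ (a := j) (b := -i) (c := 1) (by omega))
    rfl rfl ?_
  refine es b2 [.t (-j)] [.t i] (c1b.c4b h) (by simp [dn, dl]) rfl ?_
  refine es b2 [] [.t i] (tt c1 n (a := -j) (b := 1) (c := -i) (by omega)) (by simp [dn]) rfl ?_
  exact t0 b2 c1 h (by omega)

theorem lo (b2 : SB2) (c1 : SC1) (c3 : SC3) (e0 : SE0) {n i j : ℤ} (h : 4 ≤ n) (i0 : 0 ≤ i)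
    (i1 : i + 2 ≤ n) (e : j = i + 1) : Mnw n [.s i, .s j] [.d i, .u i] := by
  refine ms b2 [] [.s j] (c3.mn1 (n := n) i (by omega)) (by simp [dn]) rfl ?_
  refine ms b2 [] [] (c3.mn2 (n := n) j (by omega)) (by simp [dn]) rfl ?_
  refine b2.mn_of (b2.symm ?_).2
  refine es b2 [.d i] [] (c1.c0 (n := n - 2) (by omega) i0 (by omega))
    (by simp [dn, dl]; omega) rfl ?_
  refine es b2 [] [.t (-i), .u 0, .t i] (e0.c0' h i0 i1) (by simp [dn]) rfl ?_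
  refine es b2 [.t (-i), .d 0] [.u 0, .t i] (t0 b2 c1 (n := n - 2) (a := i) (b := -i) (by omega)
    (by omega)) (by simp [dn, dl]; omega) rfl (ef b2 ?_)
  simp [ee, e]

/-- consecutive crossings -/
def R (a : ℤ) (k : ℕ) : List Lt := (List.range k).map fun j : ℕ => Lt.s ((j : ℤ) + a)

theorem R_succ (a : ℤ) (k : ℕ) : R a (k + 1) = R a k ++ [.s (k + a)] := by
  simp [R, List.range_succ]

theorem R_add (a : ℤ) (k l : ℕ) : R a (k + l) = R a k ++ R (k + a) l := by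
  simp [R, List.range_add, Function.comp_def, add_comm, add_assoc]

theorem R_dn (b1 : SB1) (a : ℤ) (k : ℕ) : dn (R a k) = 0 :=
  b1.br_dn fun g hg => by
    obtain ⟨j, -, rfl⟩ := List.mem_map.1 hg
    exact ⟨_, Or.inl rfl⟩

theorem w_dn (b1 : SB1) : ∀ q, dn (w0 q) = 0
  | 0 => rfl
  | q + 1 => by
    rw [show w0 (q + 1) = R 1 q ++ w0 q from rfl, b1.dn_app, R_dn b1, w_dn b1 q]; rfl

theorem cm1 (b1 : SB1) (b2 : SB2) (c1 : SC1) (e0 : SE0) {n i a : ℤ} (a1 : 1 ≤ a) (i0 : 0 ≤ i)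
    (i1 : i + 2 ≤ n) : ∀ k : ℕ, (k = 0 ∨ a + k ≤ i) → Eqw n (R a k ++ [.d i]) (.d i :: R a k)
  | 0, _ => b2.refl _ _
  | k + 1, h => by
    rw [R_succ]
    refine es b2 (R a k) [] (sd b2 c1 e0 (k := k + a) (k' := k + a) (k + a - i + n - 2) i0 i1
      (by omega) (by omega) ⟨-1, by ring⟩ ⟨1, by ring⟩) (by simp [R_dn b1]) (by simp) ?_
    exact es b2 [] [.s (k + a)] (cm1 b1 b2 c1 e0 a1 i0 i1 k (by omega)) (by simp [dn]) (by simp)
      (ef b2 (by simp))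

theorem cm2 (b1 : SB1) (b2 : SB2) (c1 : SC1) (e0 : SE0) {n i a a' : ℤ} (a1 : i + 3 ≤ a)
    (i0 : 0 ≤ i) (e : a = a' + 2) :
    ∀ k : ℕ, a + k ≤ n → Eqw n (R a k ++ [.d i]) (.d i :: R a' k)
  | 0, _ => b2.refl _ _
  | k + 1, h => by
    rw [R_succ, R_succ]
    refine es b2 (R a k) [] (sd b2 c1 e0 (n := n) (k := k + a) (k' := k + a') (k + a' - i) i0
      (by omega) (by omega) (by omega) ⟨0, by omega⟩ ⟨0, by ring⟩) (by simp [R_dn b1]) (by simp) ?_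
    exact es b2 [] [.s (k + a')] (cm2 b1 b2 c1 e0 (n := n) a1 i0 e k (by omega)) (by simp [dn]) (by simp)
      (ef b2 (by simp))

theorem cmw (b1 : SB1) (b2 : SB2) (c1 : SC1) (e0 : SE0) {n i : ℤ} (i0 : 0 ≤ i) (i1 : i + 2 ≤ n) :
    ∀ q : ℕ, (q : ℤ) ≤ i → Eqw n (w0 q ++ [.d i]) (.d i :: w0 q)
  | 0, _ => b2.refl _ _
  | q + 1, h => by
    rw [show w0 (q + 1) = R 1 q ++ w0 q from rfl]
    refine es b2 (R 1 q) [] (cmw b1 b2 c1 e0 i0 i1 q (by omega)) (by simp [R_dn b1]) (by simp) ?_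
    exact es b2 [] (w0 q) (cm1 b1 b2 c1 e0 le_rfl i0 i1 q (by omega)) (by simp [dn]) (by simp)
      (ef b2 (by simp))

/-- a horizontal curve that is opened upwards after `j` crossings -/
def O (j l : ℕ) : List Lt := .u 0 :: (R 2 j ++ .u (j + 2) :: (R (j + 4) l ++ [.t 1, .d 0]))

theorem O_dn (b1 : SB1) (j l : ℕ) : dn (O j l) = 2 := by simp [O, dn, dl, b1.dn_app, R_dn b1]

theorem hw {m : ℤ} {k : ℕ} (h : m = k) : Hw m 0 = .u 0 :: (R 2 k ++ [.t 1, .d 0]) := by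
  simp [Hw, Pk, P1, R, h]

theorem H_dn (b1 : SB1) (m : ℤ) : dn (Hw m 0) = 0 := by simpa [Z] using b1.z_dn m [0]

theorem A1 (b1 : SB1) (b2 : SB2) (c1 : SC1) (c3 : SC3) (e0 : SE0) {m : ℤ} {j l : ℕ}
    (h : m = j + l) : Mnw (m + 2) (Hw (m + 2) 0) (.d j :: O j l) := by
  rw [hw (k := j + 1 + 1 + l) (by omega), R_add, R_succ, R_succ]
  refine ms b2 (.u 0 :: R 2 j) (R (j + 4) l ++ [.t 1, .d 0])
    (lo b2 c1 c3 e0 (n := m + 4) (i := j + 2) (j := j + 3) (by omega) (by omega) (by omega)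
      (by omega)) (by simp [dn, dl, R_dn b1]; omega) (by simp [add_assoc]) ?_
  refine me b2 [.u 0] (.u (j + 2) :: (R (j + 4) l ++ [.t 1, .d 0]))
    (cm1 b1 b2 c1 e0 (n := m + 4) (i := j + 2) (a := 2) (by omega) (by omega) (by omega) j
      (by omega)) (by simp [dn, dl]; omega) (by simp) ?_
  exact me b2 [] (R 2 j ++ .u (j + 2) :: (R (j + 4) l ++ [.t 1, .d 0]))
    (ud b1 b2 (n := m + 2) (j := 0) (i := j) le_rfl (by omega) (by omega) rfl) (by simp [dn])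
    (by simp) (mf b2 (by simp [O]))

theorem A2 (b1 : SB1) (b2 : SB2) (c1 : SC1) (c1b : SC1b) (e0 : SE0) {m : ℤ} {j l : ℕ}
    (h : m = j + l) : Eqw m (O j l ++ [.d j]) (Hw m 0) := by
  rw [hw (k := j + l) (by omega), R_add]
  refine es b2 (.u 0 :: (R 2 j ++ .u (j + 2) :: (R (j + 4) l ++ [.t 1]))) []
    (dd b1 b2 (n := m + 4) (j := j) (by omega) (by omega) rfl)
    (by simp [dn, dl, R_dn b1, b1.dn_app]) (by simp [O]) ?_
  refine es b2 (.u 0 :: (R 2 j ++ .u (j + 2) :: R (j + 4) l)) [.d 0]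
    (td b2 c1 e0 (n := m + 4) (i := j + 1) (j := j + 2) (k := 1) (by omega) (by omega) (by omega)
      (by omega) (by omega) (by omega)) (by simp [dn, dl, R_dn b1, b1.dn_app]) (by simp) ?_
  refine es b2 (.u 0 :: (R 2 j ++ [.u (j + 2)])) [.t 1, .d 0]
    (cm2 b1 b2 c1 e0 (n := m + 4) (i := j + 1) (a := j + 4) (a' := j + 2) (by omega) (by omega)
      (by omega) l (by omega)) (by simp [dn, dl, R_dn b1, b1.dn_app]) (by simp) ?_
  exact es b2 (.u 0 :: R 2 j) (R (j + 2) l ++ [.t 1, .d 0])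
    (zz b2 c1 c1b e0 (n := m + 2) (i := j + 1) (j := j + 2) (by omega) (by omega) (by omega)
      (by omega)) (by simp [dn, dl, R_dn b1]) (by simp) (ef b2 (by simp))

theorem A4 (b1 : SB1) (b2 : SB2) (c1 : SC1) (c1b : SC1b) (c3 : SC3) (e0 : SE0) {m : ℤ} {j l : ℕ}
    (h : m = j + l) : ∀ k : ℕ, Mnw (m + 2) (Z (m + 2) (List.replicate k 0) ++ [.d j])
      (.d j :: Z m (List.replicate k 0))
  | 0 => b2.mrefl _ _
  | k + 1 => by
    refine ms b2 (Hw (m + 2) 0) [] (A4 b1 b2 c1 c1b c3 e0 h k) (by simp [H_dn b1])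
      (by simp [Z, List.replicate_succ]) ?_
    refine ms b2 [] (.d j :: Z m (List.replicate k 0)) (A1 b1 b2 c1 c3 e0 h) (by simp [dn])
      (by simp) ?_
    exact me b2 [.d j] (Z m (List.replicate k 0)) (A2 b1 b2 c1 c1b e0 h) (by simp [dn, dl])
      (by simp) (mf b2 (by simp [Z, List.replicate_succ]))

theorem A5 (b1 : SB1) (b2 : SB2) (c1 : SC1) (c1b : SC1b) (c3 : SC3) (e0 : SE0) {n : ℤ} {q l : ℕ}
    (h : n = q + l) : Mnw (n + 2) (O q (l + 1 + 1) ++ [.d (n + 2)]) (.d n :: O q l) := by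
  have e1 : (l : ℤ) + (q + 4) = n + 4 := by omega
  have e2 : ((l + 1 : ℕ) : ℤ) + (q + 4) = n + 5 := by omega
  rw [O, R_succ, R_succ, e1, e2]
  refine me b2 (.u 0 :: (R 2 q ++ .u (q + 2) :: (R (q + 4) l ++ [.s (n + 4), .s (n + 5), .t 1]))) []
    (dd b1 b2 (n := n + 6) (j := n + 2) (j' := n + 4) (by omega) (by omega) (by omega))
    (by simp [dn, dl, R_dn b1, b1.dn_app]; omega) (by simp) ?_
  refine me b2 (.u 0 :: (R 2 q ++ .u (q + 2) :: (R (q + 4) l ++ [.s (n + 4), .s (n + 5)]))) [.d 0]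
    (td b2 c1 e0 (n := n + 6) (i := n + 3) (j := n + 4) (k := 1) (by omega) (by omega) (by omega)
      (by omega) (by omega) (by omega)) (by simp [dn, dl, R_dn b1, b1.dn_app]; omega) (by simp) ?_
  refine ms b2 (.u 0 :: (R 2 q ++ .u (q + 2) :: R (q + 4) l)) [.d (n + 3), .t 1, .d 0]
    (lo b2 c1 c3 e0 (n := n + 6) (i := n + 4) (j := n + 5) (by omega) (by omega) (by omega)
      (by omega)) (by simp [dn, dl, R_dn b1, b1.dn_app]; omega) (by simp) ?_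
  refine me b2 (.u 0 :: (R 2 q ++ .u (q + 2) :: (R (q + 4) l ++ [.d (n + 4)]))) [.t 1, .d 0]
    (zz b2 c1 c1b e0 (n := n + 4) (i := n + 3) (j := n + 4) (by omega) (by omega) (by omega)
      (by omega)) (by simp [dn, dl, R_dn b1, b1.dn_app]; omega) (by simp) ?_
  refine me b2 (.u 0 :: (R 2 q ++ [.u (q + 2)])) [.t 1, .d 0]
    (cm1 b1 b2 c1 e0 (n := n + 6) (i := n + 4) (a := q + 4) (by omega) (by omega) (by omega) l
      (by omega)) (by simp [dn, dl, R_dn b1, b1.dn_app]; omega) (by simp) ?_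
  refine me b2 (.u 0 :: R 2 q) (R (q + 4) l ++ [.t 1, .d 0])
    (ud b1 b2 (n := n + 4) (j := q + 2) (i := n + 2) (i' := n + 4) (by omega) (by omega) (by omega)
      (by omega)) (by simp [dn, dl, R_dn b1]; omega) (by simp) ?_
  refine me b2 [.u 0] (.u (q + 2) :: (R (q + 4) l ++ [.t 1, .d 0]))
    (cm1 b1 b2 c1 e0 (n := n + 4) (i := n + 2) (a := 2) (by omega) (by omega) (by omega) q
      (by omega)) (by simp [dn, dl]; omega) (by simp) ?_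
  exact me b2 [] (R 2 q ++ .u (q + 2) :: (R (q + 4) l ++ [.t 1, .d 0]))
    (ud b1 b2 (n := n + 2) (j := 0) (i := n) le_rfl (by omega) (by omega) rfl) (by simp [dn])
    (by simp) (mf b2 (by simp [O]))

/-- a cap passes the twist -/
theorem tw (b2 : SB2) (c1 : SC1) (e0 : SE0) (nn : SN) {n q i j : ℤ} (h : 4 ≤ n) (i0 : 0 ≤ i)
    (i1 : i + 2 ≤ n) (j0 : 0 ≤ j) (j1 : j + 2 ≤ n) (e : i + j + 2 = n + q) :
    Eqw n [.t (-q), .r, .d i] [.d j, .t (-q), .r] := by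
  refine es b2 [.t (-q)] [] (nn.rd n i) (by simp [dn, dl]) rfl ?_
  exact es b2 [] [.r] (td b2 c1 e0 h j0 j1 (j := n - 2 - i) (k := -q) (by omega) (by omega)
    (by omega)) (by simp [dn]) rfl (b2.refl _ _)

end KSaux

open KSaux in
theorem pKS (b1 : SB1) (b2 : SB2) (c1 : SC1) (c1b : SC1b) (c3 : SC3) (e0 : SE0) (_e3 : SE3)
    (nn : SN) : SKS := by
  intro n q N hq h2 _ hN hb
  obtain ⟨N, rfl⟩ : ∃ N', N = N' + 1 := ⟨N - 1, by omega⟩
  obtain ⟨l, hl⟩ : ∃ l : ℕ, n = q + l := ⟨(n - q).toNat, by omega⟩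
  have hZ : ∀ m, Z m (List.replicate (N + 1) 0) = Z m (List.replicate N 0) ++ Hw m 0 := fun m => by
    simp [Z, List.replicate_succ']
  have e4 : n + 4 = n + 2 + 2 := by omega
  have hl2 : n + 2 = q + ((l + 1 + 1 : ℕ) : ℤ) := by omega
  rw [tgt, hZ] at hb
  rw [tgt, hZ, e4]
  refine b2.bad_of (D' := [.d q] ++ (w0 q ++ Z (n + 2) (List.replicate N 0) ++ O q (l + 1 + 1) ++
    [.t (-q), .r])) ?_ (b2.bad_rot ?_)
  · refine ms b2 (w0 q ++ Z (n + 2 + 2) (List.replicate N 0)) [.t (-q), .r]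
      (A1 b1 b2 c1 c3 e0 hl2) (by simp [b1.dn_app, w_dn b1, b1.z_dn]) (by simp) ?_
    refine ms b2 (w0 q) (O q (l + 1 + 1) ++ [.t (-q), .r]) (A4 b1 b2 c1 c1b c3 e0 hl2 N)
      (by simp [w_dn b1]) (by simp) ?_
    exact me b2 [] (Z (n + 2) (List.replicate N 0) ++ O q (l + 1 + 1) ++ [.t (-q), .r])
      (cmw b1 b2 c1 e0 (n := n + 2 + 2) (i := q) (by omega) (by omega) q le_rfl) (by simp [dn])
      (by simp) (mf b2 (by simp))
  rw [show n + 2 + 2 + dn [.d q] = n + 2 by simp [dn, dl]]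
  refine b2.bad_of (D' := [.d n] ++ (w0 q ++ Z n (List.replicate N 0) ++ O q l ++
    [.t (-q), .r])) ?_ (b2.bad_rot ?_)
  · obtain ⟨k, rfl⟩ : ∃ k : ℕ, n = k := ⟨q + l, by omega⟩
    refine me b2 (w0 q ++ Z (k + 2) (List.replicate N 0) ++ O q (l + 1 + 1)) []
      (tw b2 c1 e0 nn (n := k + 4) (q := q) (i := q) (j := k + 2) (by omega) (by omega) (by omega)
        (by omega) (by omega) (by omega))
      (by simp [b1.dn_app, w_dn b1, b1.z_dn, O_dn b1]; omega) (by simp) ?_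
    refine ms b2 (w0 q ++ Z (k + 2) (List.replicate N 0)) [.t (-q), .r]
      (A5 b1 b2 c1 c1b c3 e0 hl) (by simp [b1.dn_app, w_dn b1, b1.z_dn]) (by simp) ?_
    refine ms b2 (w0 q) (O q l ++ [.t (-q), .r])
      (A4 b1 b2 c1 c1b c3 e0 (m := k) (j := k) (l := 0) (by simp) N) (by simp [w_dn b1])
      (by simp) ?_
    exact me b2 [] (Z k (List.replicate N 0) ++ O q l ++ [.t (-q), .r])
      (cmw b1 b2 c1 e0 (n := k + 2) (i := k) (by omega) le_rfl q hq) (by simp [dn])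
      (by simp) (mf b2 (by simp))
  rw [show n + 2 + dn [.d n] = n by simp [dn, dl]]
  refine b2.bad_of ?_ hb
  refine me b2 (w0 q ++ Z n (List.replicate N 0) ++ O q l) []
    (tw b2 c1 e0 nn (n := n + 2) (q := q) (i := n) (j := q) (by omega) (by omega) (by omega)
      (by omega) (by omega) (by omega)) (by simp [b1.dn_app, w_dn b1, b1.z_dn, O_dn b1])
    (by simp) ?_
  exact me b2 (w0 q ++ Z n (List.replicate N 0)) [.t (-q), .r] (A2 b1 b2 c1 c1b e0 hl)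
    (by simp [b1.dn_app, w_dn b1, b1.z_dn]) (by simp) (mf b2 (by simp))

end Pool.Agent.P.MP_5af56b_co.Kl
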