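import Pool.Agent.P.MP_5af56b_co.Kl.Stmt

namespace Pool.Agent.P.MP_5af56b_co.Kl

namespace KWaux

theorem nd {n d : ℤ} (h0 : d ≠ 0) (h1 : -n < d) (h2 : d < n) : ¬ n ∣ d := fun h =>
  h0 (Int.eq_zero_of_abs_lt_dvd h (abs_lt.2 ⟨h1, h2⟩))

/-- crossings inside the window of the gaps `0, …, 6` do not see the width -/
theorem win (b1 : SB1) : ∀ U : List Lt, (∀ g ∈ U, ∃ i, 1 ≤ i ∧ i ≤ 5 ∧ g = .s i) →
    ∀ (x y x' : St) (E : List (ℕ × ℕ)), Run U x y E → 6 ≤ x.n → x'.Ok → 6 ≤ x'.n → x'.c = x.c →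
      (∀ j, 0 ≤ j → j ≤ 6 → x'.b j = x.b j) →
      ∃ y', Run U x' y' E ∧ y'.n = x'.n ∧ y'.c = x'.c ∧ (∀ j, 0 ≤ j → j ≤ 6 → y'.b j = y.b j) ∧
        ∀ j, 6 ≤ j → j ≤ x'.n → y'.b j = x'.b j
  | [], _, x, y, x', E, ⟨_, h, hE⟩, _, o, _, _, hb =>
    ⟨x', ⟨o, rfl, hE⟩, rfl, rfl, fun j a b => by rw [h]; exact hb j a b, fun _ _ _ => rfl⟩
  | g :: U, hU, x, y, x', E, ⟨_, z, e, E', hs, hr, hE⟩, hn, o, hn', hc, hb => by
    obtain ⟨i, i1, i5, rfl⟩ := hU g List.mem_cons_self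
    obtain ⟨-, s1, s2, s3, s4⟩ := hs
    obtain ⟨z', o', t1, t2, t3, t4⟩ := b1.ex_s o (by omega) i (z.b i)
    obtain ⟨y', r1, r2, r3, r4, r5⟩ := win b1 U (fun g hg => hU g (List.mem_cons_of_mem _ hg))
      z y z' E' hr (by omega) o' (by omega) (by omega) fun j a b => by
        by_cases h : j = i
        · rw [h, t3]
        · rw [t4 j (nd (by omega) (by omega) (by omega)), s3 j (nd (by omega) (by omega) (by omega)),
            hb j a b]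
    refine ⟨y', ⟨o, z', e, E', ⟨by omega, t1, t2, t4, ?_⟩, r1, hE⟩, by omega, by omega, r4,
      fun j a b => ?_⟩
    · rw [s4, hc, t3, hb i (by omega) (by omega), hb (i - 1) (by omega) (by omega),
        hb (i + 1) (by omega) (by omega)]
    · rw [r5 j a (by omega), t4 j (nd (by omega) (by omega) (by omega))]

theorem close {x y : St} {E : List (ℕ × ℕ)} (h : Run [.t (-6), .r] y x E) :
    E = [] ∧ ∀ j, x.b j = y.b (6 - j) := by
  obtain ⟨-, z, _, _, ⟨-, -, -, h1, rfl⟩, ⟨-, w, _, _, ⟨-, -, h2, rfl⟩, ⟨-, rfl, rfl⟩, rfl⟩, rfl⟩ := h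
  refine ⟨rfl, fun j => ?_⟩
  rw [h2, ← h1]
  congr 1
  omega

theorem close' (b1 : SB1) {x y : St} (ox : x.Ok) (oy : y.Ok) (h2 : 2 ≤ y.n) (hn : x.n = y.n)
    (hc : x.c = y.c) (hb : ∀ j, x.b j = y.b (6 - j)) : Run [.t (-6), .r] y x [] := by
  obtain ⟨z, oz, hz⟩ := b1.ex_t oy h2 (-6)
  refine ⟨oy, z, [], [], hz, ⟨oz, x, [], [], ⟨hn.trans hz.2.1.symm, ?_, fun j => ?_, rfl⟩,
    ⟨ox, rfl, rfl⟩, rfl⟩, rfl⟩
  · have := hz.2.2.1
    have := oy.2.2.1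
    omega
  · rw [hb, ← hz.2.2.2.1]
    congr 1
    omega

theorem w6 : ∀ g ∈ w0 6, ∃ i, 1 ≤ i ∧ i ≤ 5 ∧ g = Lt.s i := by
  have key : ∀ q : ℕ, q ≤ 6 → ∀ g ∈ w0 q, ∃ i, 1 ≤ i ∧ i ≤ 5 ∧ g = Lt.s i := by
    intro q
    induction q with
    | zero => exact fun _ g hg => absurd hg List.not_mem_nil
    | succ q ih =>
      intro hq g hg
      rcases List.mem_append.1 hg with h | h
      · obtain ⟨j, hj, rfl⟩ := List.mem_map.1 h
        have := List.mem_range.1 hj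
        exact ⟨j + 1, by omega, by omega, rfl⟩
      · exact ih (by omega) g h
  exact key 6 le_rfl

theorem tgt_eq (n : ℤ) : tgt n 6 0 = w0 6 ++ [.t (-6), .r] := by
  simp [tgt, Z]

theorem trans (b1 : SB1) {n m c : ℤ} {E : List (ℕ × ℕ)} (hn : 6 ≤ n) (hm : 6 ≤ m) (he : m % 2 = 0)
    (h : Cl n c (tgt n 6 0) E) : Cl m c (tgt m 6 0) E := by
  obtain ⟨b, h⟩ := h
  rw [tgt_eq] at h
  obtain ⟨y, E1, E2, r1, r2, rfl⟩ := b1.app.1 h
  obtain ⟨rfl, cl⟩ := close r2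
  have ox := b1.okl r1
  have e6 : b 6 = b 0 := by
    obtain ⟨y', -, -, -, a1, a2⟩ := win b1 _ w6 _ y _ E1 r1 hn ox hn rfl fun _ _ _ => rfl
    exact ((a2 6 le_rfl hn).symm.trans (a1 6 (by omega) le_rfl)).trans (cl 0).symm
  obtain ⟨o, hb⟩ := b1.ofF (n := m) (c := c) (fun j => if j < 6 then b j else b 0) (by omega) he
    ox.2.2.1 (by rw [if_neg (by omega), if_pos (by omega)])
  have hw : ∀ j, 0 ≤ j → j ≤ 6 →
      (St.ofF m c fun j => if j < 6 then b j else b 0).b j = b j := fun j a d => by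
    rw [hb j a (by omega)]
    split_ifs with hj
    · rfl
    · rw [show j = 6 by omega, e6]
  obtain ⟨y', q1, q2, q3, q4, q5⟩ := win b1 _ w6 _ y _ E1 r1 hn o hm rfl hw
  have oy := b1.okr q1
  have q2' : y'.n = m := q2
  refine ⟨(St.ofF m c fun j => if j < 6 then b j else b 0).b, ?_⟩
  rw [tgt_eq]
  refine b1.app.2 ⟨y', E1, [], q1, close' b1 o oy (by omega) q2.symm q3.symm fun j => ?_, rfl⟩
  have j0 := Int.emod_nonneg j (show m ≠ 0 by omega)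
  have j1 := Int.emod_lt_of_pos j (show 0 < m by omega)
  have d1 : m ∣ j - j % m := Int.dvd_self_sub_emod
  rw [b1.per o (i := j) (j := j % m) d1, b1.per oy (i := 6 - j) (j := 6 - j % m)
    (by rw [q2', show 6 - j - (6 - j % m) = -(j - j % m) by ring]; exact dvd_neg.2 d1)]
  generalize j % m = k at j0 j1
  by_cases hk : k ≤ 6
  · rw [hw k j0 hk, q4 _ (by omega) (by omega)]
    exact cl k
  · rw [b1.per oy (i := 6 - k) (j := m + 6 - k) (by rw [q2']; exact ⟨-1, by ring⟩),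
      q5 _ (by omega) (show m + 6 - k ≤ m by omega), hb k j0 j1.le, hb _ (by omega) (by omega),
      if_neg (by omega), if_neg (by omega)]

end KWaux

open KWaux

theorem pKW (b1 : SB1) : SKW := by
  intro n hn h c E hF
  obtain ⟨b, hb⟩ := hF.1
  exact h c E ⟨KWaux.trans b1 hn le_rfl rfl hF.1,
    fun E' hE => hF.2 E' (KWaux.trans b1 le_rfl hn (b1.okl hb).2.1 hE)⟩

end Pool.Agent.P.MP_5af56b_co.Kl
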