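import Pool.Agent.P.MP_5af56b_co.Kl.Stmt

/-!
The half twist is the smallest affine permutation with many crossings across the mirror cuts.
-/

namespace Pool.Agent.P.MP_5af56b_co.Kl

namespace Kaaux

/-- consecutive crossings -/
def ul (a m : ℕ) : List Lt := (List.range' a m).map fun j : ℕ => Lt.s ((j : ℤ) + 1)

theorem w0_succ (q : ℕ) : w0 (q + 1) = ul 0 q ++ w0 q := by
  rw [w0, ul, List.range_eq_range']

theorem ul_succ (a m : ℕ) : ul a (m + 1) = .s ((a : ℤ) + 1) :: ul (a + 1) m := by
  simp [ul, List.range'_succ]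

theorem ul_dc (m : ℕ) : ∀ a, dc (ul a m) = 0 := by
  induction m with
  | zero => intro a; simp [ul, dc]
  | succ m ih => intro a; rw [ul_succ]; simpa [dc] using ih _

theorem w0_br (b1 : SB1) (q : ℕ) : IsBr (w0 q) := by
  induction q with
  | zero => intro g hg; simp [w0] at hg
  | succ q ih =>
    rw [w0_succ]
    refine b1.br_app.2 ⟨fun g hg => ?_, ih⟩
    obtain ⟨j, -, rfl⟩ := List.mem_map.1 hg
    exact ⟨_, Or.inl rfl⟩

theorem w0_dc (b1 : SB1) (q : ℕ) : dc (w0 q) = 0 := by
  induction q with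
  | zero => rfl
  | succ q ih => rw [w0_succ, b1.dc_app, ul_dc, ih]; rfl

theorem dvd_small {n y : ℤ} (h1 : -n < y) (h2 : y < n) : n ∣ y ↔ y = 0 :=
  ⟨fun h => Int.eq_zero_of_abs_lt_dvd h (abs_lt.2 ⟨h1, h2⟩), fun h => by simp [h]⟩

theorem ul_pw {n : ℤ} (m : ℕ) : ∀ (a : ℕ) (r : ℤ), (a : ℤ) + m < n → 0 ≤ r → r < n →
    pw n (ul a m) r = if r = a then (a : ℤ) + m else if a < r ∧ r ≤ a + m then r - 1 else r := by
  induction m with
  | zero =>
    intro a r _ _ _
    change r = _
    split_ifs <;> omega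
  | succ m ih =>
    intro a r h h0 h1
    have e : sw n ((a : ℤ) + 1) r = if r = a + 1 then r - 1 else if r = a then r + 1 else r := by
      unfold sw
      rw [if_congr (dvd_small (by omega) (by omega)) rfl
        (if_congr (dvd_small (by omega) (by omega)) rfl rfl)]
      split_ifs <;> omega
    rw [ul_succ]
    change pw n _ (sw n _ _) = _
    rw [ih (a + 1) _ (by omega) (by rw [e]; split_ifs <;> omega) (by rw [e]; split_ifs <;> omega),
      e]
    split_ifs <;> omega

theorem w0_pw (p : SP) {n : ℤ} (q : ℕ) : ∀ r : ℤ, (q : ℤ) ≤ n → 0 ≤ r → r < n →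
    pw n (w0 q) r = if r < q then q - 1 - r else r := by
  induction q with
  | zero =>
    intro r _ _ _
    change r = _
    split_ifs <;> omega
  | succ q ih =>
    intro r h h0 h1
    have e := ul_pw (n := n) q 0 r (by omega) h0 h1
    rw [w0_succ, p.pw_app, ih _ (by omega) (by rw [e]; split_ifs <;> omega)
      (by rw [e]; split_ifs <;> omega), e]
    split_ifs <;> omega

theorem w0_red (p : SP) {n : ℤ} (s : ℤ) (q : ℕ) : (q : ℤ) ≤ n → RedW n (w0 q ++ [.t s]) := by
  induction q with
  | zero => exact fun _ => trivial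
  | succ q ih =>
    intro h
    have key : ∀ m a : ℕ, a + m = q → RedW n (ul a m ++ (w0 q ++ [.t s])) := by
      intro m
      induction m with
      | zero => exact fun a _ => ih (by omega)
      | succ m ihm =>
        intro a ha
        rw [ul_succ]
        refine ⟨?_, ihm (a + 1) (by omega)⟩
        change pw n (ul (a + 1) m ++ _) _ < pw n (ul (a + 1) m ++ _) _
        rw [p.pw_app, p.pw_app, p.pw_app, p.pw_app, ul_pw m _ _ (by omega) (by omega) (by omega),
          ul_pw m _ _ (by omega) (by omega) (by omega), if_neg (by omega), if_neg (by omega),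
          if_pos (by omega), w0_pw p q _ (by omega) (by omega) (by omega),
          w0_pw p q _ (by omega) (by omega) (by omega)]
        change _ + s < _ + s
        split_ifs <;> omega
    rw [w0_succ, List.append_assoc]
    exact key q 0 (by omega)

theorem cut_shift (p : SP) {n : ℤ} {w : ℤ → ℤ} (hw : AP n w) (a b x : ℤ) :
    cut w (a + n * x) (b + n * x) = cut w a b := by
  funext i
  change w (i + (a + n * x)) - (b + n * x) = w (i + a) - b
  rw [← add_assoc, p.mul hw]
  ring

theorem rr_add (p : SP) {n : ℤ} {w : ℤ → ℤ} (hn : 0 < n) (hw : AP n w) (a b : ℤ) (m : ℕ) :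
    rr n w (a + m) b ≤ rr n w a b + m := by
  induction m with
  | zero => simp
  | succ m ih =>
    rw [Nat.cast_succ, ← add_assoc, p.rr_succ _ _ hn hw]
    split_ifs <;> omega

theorem tc_le (p : SP) {n e h q : ℤ} {g w : ℤ → ℤ} (hn : 0 < n) (hq0 : 0 ≤ q) (hq : q ≤ n)
    (hh : q + e = 2 * h) (hg : AP n g) (hw : AP n w) (dg1 : dg n g = e) (dw : dg n w = e)
    (hf : ∀ j, -h ≤ j → j < n - h → g j = if j < h - e then -1 - j else j + e)
    (hK : ∀ b, q ≤ tc n (cut w (-b) b)) (a b : ℤ) (h0 : -h ≤ a) (h1 : a < n - h) :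
    tc n (cut g a b) ≤ tc n (cut w a b) := by
  have lo : ∀ k, k < -h → g k < e - h := fun k hk => by
    have e1 := Int.mul_ediv_add_emod (k + h) n
    have e2 := Int.emod_nonneg (k + h) hn.ne'
    have e3 := Int.emod_lt_of_pos (k + h) hn
    have e4 : (k + h) / n < 0 := Int.ediv_neg_of_neg_of_pos (by omega) hn
    generalize (k + h) / n = x at *
    generalize (k + h) % n = r at *
    have e5 := p.mul hg (r - h) x
    have e6 : n * x ≤ -n := by nlinarith
    rw [show r - h + n * x = k by omega, hf (r - h) (by omega) (by omega)] at e5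
    split_ifs at e5 <;> omega
  have z : ∀ a b, a ≤ n - h → -h ≤ a → (a = -h ∨ h ≤ b) → a + e ≤ b → rr n g a b = 0 :=
    fun a b _ _ _ _ => (p.rr_zero _ _ hn hg).2 fun k hk => by
      by_cases c : k < -h
      · have := lo k c
        omega
      · rw [hf k (by omega) (by omega)]
        split_ifs <;> omega
  have t1 := p.tc_ge n (cut w a b)
  rw [p.dg_cut a b hn hw, dw] at t1
  have t2 := p.lip a b (-a) hn hw
  have t3 := hK (-a)
  rw [neg_neg] at t3
  by_cases c : a < h - e
  · have l1 := p.lip a h b hn hg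
    have l2 := p.lip a (e - h) b hn hg
    have r1 := p.tc_cut a h hn hg
    have r2 := p.tc_cut a (e - h) hn hg
    have r3 := rr_add p hn hg (-h) (e - h) (a + h).toNat
    rw [z a h (by omega) h0 (by omega) (by omega)] at r1
    rw [z (-h) _ (by omega) le_rfl (by omega) (by omega),
      show -h + ((a + h).toNat : ℤ) = a by omega] at r3
    simp only [abs_eq_max_neg] at *
    omega
  · have l1 := p.lip a (a + e) b hn hg
    have r1 := p.tc_cut a (a + e) hn hg
    rw [z a (a + e) (by omega) h0 (by omega) le_rfl] at r1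
    simp only [abs_eq_max_neg] at *
    omega

end Kaaux

open Kaaux in
theorem pKa (b1 : SB1) (p : SP) : SKa := by
  intro n e q w hn hq he h2 hw dw hK
  refine ⟨w0_br b1 q, w0_dc b1 q, w0_red p _ q hq, fun a b => ?_⟩
  have hn0 : 0 < n := by omega
  have hg := p.pw_ap (gw q e) hn
  have dg1 : dg n (pw n (gw q e)) = e := by
    rw [p.dg_pw _ hn, gw, dc, b1.dc_app, w0_dc b1]
    simp [dc]
  obtain ⟨h, hh⟩ : ∃ h : ℤ, q + e = 2 * h := ⟨(q + e) / 2, by omega⟩
  have e1 := Int.mul_ediv_add_emod (a + h) n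
  have e2 := Int.emod_nonneg (a + h) hn0.ne'
  have e3 := Int.emod_lt_of_pos (a + h) hn0
  generalize (a + h) / n = x at *
  generalize (a + h) % n = r at *
  have key := tc_le p hn0 (by omega) hq hh hg hw dg1 dw (fun j h0 h1 => by
    change pw n (w0 q ++ _) (j + _) = _
    rw [p.pw_app, w0_pw p q _ hq (by omega) (by omega)]
    change _ + _ = _
    split_ifs <;> omega) hK (r - h) (b - n * x) (by omega) (by omega)
  rw [← cut_shift p hg _ _ x, ← cut_shift p hw _ _ x, show r - h + n * x = a by omega,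
    sub_add_cancel, p.tc_cut _ _ hn0 hg, p.tc_cut _ _ hn0 hw, dg1, dw] at key
  omega

end Pool.Agent.P.MP_5af56b_co.Kl
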