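import Pool.Agent.P.MP_5af56b_co.Kl.Stmt

namespace Pool.Agent.P.MP_5af56b_co.Kl

open Finset

namespace Kbaux

theorem bad_odd (b1 : SB1) {n : ℤ} {W : List Lt} (h : dc W % 2 ≠ 0) : BadW n W := by
  intro c E hE
  obtain ⟨b, hb⟩ := hE.1
  have h1 : c = (c + dc W) % 2 := b1.wc hb
  omega

theorem br_t (k : ℤ) : IsBr [.t k] := by
  intro g hg
  rw [List.mem_singleton] at hg
  exact ⟨k, Or.inr hg⟩

theorem ectx0 (b2 : SB2) {n : ℤ} {D D' : List Lt} (A C : List Lt) (hA : dn A = 0)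
    (h : Eqw n D D') : Eqw n (A ++ D ++ C) (A ++ D' ++ C) :=
  b2.ectx A C (by rw [hA, add_zero]; exact h)

theorem mctx0 (b2 : SB2) {n : ℤ} {D D' : List Lt} (A C : List Lt) (hA : dn A = 0)
    (h : Mnw n D D') : Mnw n (A ++ D ++ C) (A ++ D' ++ C) :=
  b2.mctx A C (by rw [hA, add_zero]; exact h)

theorem bad_eq (b2 : SB2) {n : ℤ} {D D' : List Lt} (h : Eqw n D D') (h' : BadW n D') :
    BadW n D := b2.bad_of (b2.mn_of h.2) h'

theorem t0 (c1 : SC1) {n : ℤ} (hn : 2 ≤ n) : Eqw n [.t 0] [] := by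
  simpa using c1.t2 0 hn

theorem tt (b2 : SB2) (c1 : SC1) {n a b : ℤ} (hn : 2 ≤ n) (h : a + b = 0) :
    Eqw n [.t a, .t b] [] :=
  b2.trans (c1.t1 n a b) (h ▸ t0 c1 hn)

theorem conj (b1 : SB1) (b2 : SB2) (c1 : SC1) (e3 : SE3) (nn : SN) {n : ℤ} {B : List Lt}
    (ks : List ℕ) (j : ℤ) (hn : 2 ≤ n) (hn2 : n % 2 = 0) (hB : IsBr B)
    (h : BadW n (.t (-j) :: (B ++ [.t (-j)]) ++ Z n ks ++ [.r])) : BadW n (B ++ Z n ks ++ [.r]) := by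
  have d1 : dn B = 0 := b1.br_dn hB
  have d2 : dn (B ++ [.t (-j)]) = 0 := b1.br_dn (b1.br_app.2 ⟨hB, br_t _⟩)
  have d3 : dn (B ++ [.t (-j)] ++ Z n ks) = 0 := by rw [b1.dn_app, d2, b1.z_dn, add_zero]
  have d4 : dn (B ++ [.t (-j)] ++ Z n ks ++ [.r]) = 0 := by
    rw [b1.dn_app, d3]
    rfl
  have e1 := ectx0 b2 B (Z n ks ++ [.r]) d1 (b2.symm (tt b2 c1 hn (neg_add_cancel j)))
  have e2 := ectx0 b2 (B ++ [.t (-j)]) [.r] d2 (e3.cmz ks (by omega) hn2 (br_t j))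
  have e4 := ectx0 b2 (B ++ [.t (-j)] ++ Z n ks) [] d3 (nn.tr n j)
  have e5 : BadW n ((B ++ [.t (-j)] ++ Z n ks ++ [.r]) ++ [.t (-j)]) :=
    b2.bad_rot (by
      rw [d4, add_zero]
      simpa [List.append_assoc] using h)
  simp only [List.append_assoc, List.cons_append, List.nil_append, List.append_nil] at e1 e2 e4 e5 ⊢
  exact bad_eq b2 (b2.trans e1 (b2.trans e2 e4)) e5

theorem big (b1 : SB1) (b2 : SB2) (c1 : SC1) (e3 : SE3) (h : SH) (nn : SN) {n : ℤ} {B : List Lt}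
    (ks : List ℕ) (hn : 2 ≤ n) (hn2 : n % 2 = 0) (hB : IsBr B) (hw : 4 ≤ wind ks)
    (hb : BadW n (tgt n 0 4)) : BadW n (B ++ Z n ks ++ [.r]) := by
  obtain ⟨s, hs⟩ := h.z4 ks hn hn2 hB hw
  have m1 := mctx0 b2 [] [.r] rfl hs
  refine b2.bad_of (by simpa using m1) (?_ : BadW n ([.t s] ++ Z n [0, 0, 0, 0] ++ [.r]))
  by_cases hp : s % 2 = 0
  · refine conj b1 b2 c1 e3 nn _ (s / 2) hn hn2 (br_t s) ?_
    have e1 := ectx0 b2 [] (.t (-(s / 2)) :: (Z n [0, 0, 0, 0] ++ [.r])) rfl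
      (c1.t1 n (-(s / 2)) s)
    have e2 := ectx0 b2 [] (Z n [0, 0, 0, 0] ++ [.r]) rfl
      (tt b2 c1 (a := -(s / 2) + s) (b := -(s / 2)) hn (by omega))
    have e4 := ectx0 b2 (Z n [0, 0, 0, 0]) [.r] (b1.z_dn _ _) (b2.symm (t0 c1 hn))
    have hb' : BadW n (Z n [0, 0, 0, 0] ++ [.t 0, .r]) := hb
    simp only [List.append_assoc, List.cons_append, List.nil_append, List.append_nil] at e1 e2 e4 ⊢
    exact bad_eq b2 (b2.trans e1 (b2.trans e2 e4)) hb'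
  · refine bad_odd b1 ?_
    rw [b1.dc_app, b1.dc_app, b1.z_dc]
    simp only [dc, wind]
    simp
    omega

theorem gw_bad (b1 : SB1) (b2 : SB2) (c1 : SC1) (e3 : SE3) (nn : SN) {n e : ℤ} {q N : ℕ}
    (hn : 2 ≤ n) (hn2 : n % 2 = 0) (hq : (q + e) % 2 = 0) (hw : IsBr (w0 q))
    (hb : BadW n (tgt n q N)) : BadW n (gw q e ++ Z n (List.replicate N 0) ++ [.r]) := by
  have hg : IsBr (gw q e) :=
    b1.br_app (A := [.t _]).2 ⟨br_t _, b1.br_app.2 ⟨hw, br_t _⟩⟩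
  refine conj b1 b2 c1 e3 nn _ ((q + e) / 2) hn hn2 hg ?_
  have e1 := ectx0 b2 [] (w0 q ++ [.t (e - (q + e) / 2), .t (-((q + e) / 2))] ++
    Z n (List.replicate N 0) ++ [.r]) rfl (tt b2 c1 hn (neg_add_cancel ((q + e) / 2)))
  have e2 := ectx0 b2 (w0 q) (Z n (List.replicate N 0) ++ [.r]) (b1.br_dn hw)
    (c1.t1 n (e - (q + e) / 2) (-((q + e) / 2)))
  rw [show e - (q + e) / 2 + -((q + e) / 2) = -(q : ℤ) by omega] at e2
  have e4 := ectx0 b2 (w0 q) [.r] (b1.br_dn hw)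
    (e3.cmz (List.replicate N 0) (by omega) hn2 (br_t (-(q : ℤ))))
  unfold tgt at hb
  unfold gw
  simp only [List.append_assoc, List.cons_append, List.nil_append] at e1 e2 e4 hb ⊢
  exact bad_eq b2 (b2.trans e1 (b2.trans e2 e4)) hb

theorem one (b1 : SB1) (b2 : SB2) (c1 : SC1) (p : SP) (d1 : SD1) (d2 : SD2) (rc : SRC) (e3 : SE3)
    (h : SH) (nn : SN) (ka : SKa) {n : ℤ} {B : List Lt} (ks : List ℕ) (hn : 6 ≤ n)
    (hn2 : n % 2 = 0) (hB : IsBr B) (hw : wind ks ≤ 3)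
    (hc : ∀ b, 6 ≤ tc n (cut (pw n B) (-b) b) + wind ks)
    (hb : BadW n (tgt n (6 - wind ks) (wind ks))) : BadW n (B ++ Z n ks ++ [.r]) := by
  have h2 : 2 ≤ n := by omega
  by_cases hp : (dc B + wind ks) % 2 = 0
  swap
  · refine bad_odd b1 ?_
    rw [b1.dc_app, b1.dc_app, b1.z_dc]
    simpa [dc] using hp
  obtain ⟨e, he⟩ : ∃ e : ℤ, e = (wind ks : ℤ) % 2 := ⟨_, rfl⟩
  obtain ⟨j, hj⟩ : ∃ j : ℤ, j = (dc B - e) / 2 := ⟨_, rfl⟩
  obtain ⟨q, hq⟩ : ∃ q : ℕ, q = 6 - wind ks := ⟨_, rfl⟩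
  rw [← hq] at hb
  refine conj b1 b2 c1 e3 nn ks j h2 hn2 hB ?_
  have hB' : IsBr (.t (-j) :: (B ++ [.t (-j)])) :=
    b1.br_app (A := [.t _]).2 ⟨br_t _, b1.br_app.2 ⟨hB, br_t _⟩⟩
  have hdc : dc (.t (-j) :: (B ++ [.t (-j)])) = e := by
    change -j + dc (B ++ [.t (-j)]) = e
    rw [b1.dc_app]
    simp only [dc]
    omega
  have hcut : ∀ b, cut (pw n (.t (-j) :: (B ++ [.t (-j)]))) (-b) b =
      cut (pw n B) (-(b + j)) (b + j) := fun b => funext fun i => by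
    change pw n (B ++ [.t (-j)]) (i + -b + -j) - b = pw n B (i + -(b + j)) - (b + j)
    rw [p.pw_app, show i + -b + -j = i + -(b + j) by ring]
    simp only [pw]
    ring
  generalize (Lt.t (-j) :: (B ++ [.t (-j)])) = B' at hB' hdc hcut ⊢
  have hqe : ((q : ℤ) + e) % 2 = 0 := by omega
  obtain ⟨k1, k2, k3, k4⟩ := ka (n := n) (e := e) (q := q) (w := pw n B') h2 (by omega) (by omega)
    hqe (p.pw_ap _ h2) ((p.dg_pw _ h2).trans hdc) fun b => by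
      rw [hcut]
      have := hc (b + j)
      omega
  have hg : IsBr (gw q e) :=
    b1.br_app (A := [.t _]).2 ⟨br_t _, b1.br_app.2 ⟨k1, br_t _⟩⟩
  have hgd : dc (gw q e) = e := by
    change (q + e) / 2 + dc (w0 q ++ [.t (e - (q + e) / 2)]) = e
    rw [b1.dc_app, k2]
    simp only [dc]
    omega
  obtain ⟨U0, u1, u2, u3, u4, -, -⟩ := d2.d5 h2 hn2 hB'
  obtain ⟨U', v1, v2, v3, v4⟩ := rc (g := pw n (gw q e)) h2 u1 u2 (p.pw_ap _ h2)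
    (by rw [u3, p.dg_pw _ h2, p.dg_pw _ h2, hgd, hdc]) (by rw [u3]; exact k4)
  have m1 : Mnw n B' (gw q e) :=
    b2.mtrans u4 (b2.mtrans v4 (b2.mn_of (d1.d4 h2 hn2 v1 hg v2 k3 v3).2))
  have m2 := mctx0 b2 [] (Z n ks ++ [.r]) rfl m1
  have m3 := mctx0 b2 (gw q e) [.r] (b1.br_dn hg) (h.z_split (n := n) ks (by omega))
  have m4 := gw_bad b1 b2 c1 e3 nn h2 hn2 hqe k1 hb
  simp only [List.append_assoc, List.nil_append] at m2 m3 m4 ⊢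
  exact b2.bad_of (b2.mtrans m2 m3) m4

end Kbaux

theorem pKb (b1 : SB1) (b2 : SB2) (c1 : SC1) (p : SP) (d1 : SD1) (d2 : SD2) (rc : SRC) (e3 : SE3)
    (h : SH) (nn : SN) (ka : SKa) : SKb :=
  ⟨fun ks hn hn2 hB hw hb => Kbaux.big b1 b2 c1 e3 h nn ks hn hn2 hB hw hb,
    fun ks hn hn2 hB hw hc hb => Kbaux.one b1 b2 c1 p d1 d2 rc e3 h nn ka ks hn hn2 hB hw hc hb⟩

end Pool.Agent.P.MP_5af56b_co.Kl
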