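import Pool.Agent.P.MP_5af56b_co.Kl.Stmt

namespace Pool.Agent.P.MP_5af56b_co.Kl

namespace Naux

theorem run1 {g : Lt} {x z : St} {E : List (ℕ × ℕ)} :
    Run [g] x z E ↔ x.Ok ∧ z.Ok ∧ Stp g x z E := by
  constructor
  · rintro ⟨hx, y, e, E', hs, ⟨hy, rfl, rfl⟩, rfl⟩
    exact ⟨hx, hy, by simpa using hs⟩
  · rintro ⟨hx, hz, hs⟩
    exact ⟨hx, z, E, [], hs, ⟨hz, rfl, rfl⟩, by simp⟩

theorem run2 {g h : Lt} {x z : St} {E : List (ℕ × ℕ)} :
    Run [g, h] x z E ↔ x.Ok ∧ z.Ok ∧ ∃ y e1 e2, y.Ok ∧ Stp g x y e1 ∧ Stp h y z e2 ∧ E = e1 ++ e2 := by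
  constructor
  · rintro ⟨hx, y, e, E', hs, hr, rfl⟩
    obtain ⟨hy, hz, h2⟩ := run1.1 hr
    exact ⟨hx, hz, y, e, E', hy, hs, h2, rfl⟩
  · rintro ⟨hx, hz, y, e1, e2, hy, h1, h2, rfl⟩
    exact ⟨hx, y, e1, e2, h1, run1.2 ⟨hy, hz, h2⟩, rfl⟩

/-- the reflected state -/
def rf (x : St) : St := ⟨x.n, x.c, fun j => x.b (-j)⟩

theorem rf_rf (x : St) : rf (rf x) = x := by
  cases x
  simp [rf]

theorem rf_n (x : St) : (rf x).n = x.n := rfl

theorem rf_ok {x : St} (h : x.Ok) : (rf x).Ok := by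
  obtain ⟨h1, h2, h3, h4, h5⟩ := h
  refine ⟨h1, h2, h3, fun j => ?_, fun h0 j => ?_⟩
  · change x.b (-(j + x.n)) = x.b (-j)
    rw [← h4 (-(j + x.n))]
    congr 1
    ring
  · change x.b (-j) = x.b (-0)
    rw [h5 h0, h5 h0 (-0)]

theorem stp_r {x y : St} {e : List (ℕ × ℕ)} : Stp .r x y e ↔ y = rf x ∧ e = [] := by
  constructor
  · rintro ⟨h1, h2, h3, h4⟩
    refine ⟨?_, h4⟩
    cases y
    simp only [rf, St.mk.injEq]
    exact ⟨h1, h2, funext h3⟩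
  · rintro ⟨rfl, rfl⟩
    exact ⟨rfl, rfl, fun _ => rfl, rfl⟩

theorem runL {g : Lt} {x z : St} {E : List (ℕ × ℕ)} :
    Run [.r, g] x z E ↔ x.Ok ∧ z.Ok ∧ Stp g (rf x) z E := by
  rw [run2]
  constructor
  · rintro ⟨hx, hz, y, e1, e2, -, h1, h2, rfl⟩
    obtain ⟨rfl, rfl⟩ := stp_r.1 h1
    exact ⟨hx, hz, h2⟩
  · rintro ⟨hx, hz, h⟩
    exact ⟨hx, hz, rf x, [], E, rf_ok hx, stp_r.2 ⟨rfl, rfl⟩, h, rfl⟩

theorem runR {g : Lt} {x z : St} {E : List (ℕ × ℕ)} :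
    Run [g, .r] x z E ↔ x.Ok ∧ z.Ok ∧ Stp g x (rf z) E := by
  rw [run2]
  constructor
  · rintro ⟨hx, hz, y, e1, e2, -, h1, h2, rfl⟩
    obtain ⟨rfl, rfl⟩ := stp_r.1 h2
    exact ⟨hx, hz, by simpa [rf_rf] using h1⟩
  · rintro ⟨hx, hz, h⟩
    exact ⟨hx, hz, rf z, E, [], rf_ok hz, h, stp_r.2 ⟨(rf_rf z).symm, rfl⟩, by simp⟩

theorem st_t {k : ℤ} {x y : St} {e : List (ℕ × ℕ)} (h : Stp (.t k) x y e) :
    Stp (.t (-k)) (rf x) (rf y) e := by
  obtain ⟨h1, h2, h3, h4, h5⟩ := h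
  refine ⟨h1, h2, ?_, fun j => ?_, h5⟩
  · change y.c = (x.c + -k) % 2
    omega
  · change y.b (-(j + -k)) = x.b (-j)
    rw [← h4]
    congr 1
    ring

theorem st_d (b1 : SB1) {i : ℤ} {x y : St} {e : List (ℕ × ℕ)} (hx : x.Ok) (hy : y.Ok)
    (h : Stp (.d i) x y e) : Stp (.d (x.n - 2 - i)) (rf x) (rf y) e := by
  obtain ⟨h1, h2, h3, h4, h5, h6, h7⟩ := h
  have e1 : (rf y).n = y.n := rfl
  refine ⟨by omega, by omega, h3, h4, fun j j0 j1 => ?_, fun j j0 j1 => ?_, h7⟩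
  · change y.b (-j) = x.b (-j)
    rw [b1.per hy (i := -j) (j := y.n - j) ⟨-1, by ring⟩, h6 _ (by omega) (by omega)]
    exact b1.per hx ⟨1, by rw [h3]; ring⟩
  · change y.b (-j) = x.b (-(j + 2))
    rw [b1.per hy (i := -j) (j := y.n - j) ⟨-1, by ring⟩, h5 _ (by omega) (by omega)]
    exact b1.per hx ⟨1, by rw [h3]; ring⟩

theorem st_u (b1 : SB1) {i : ℤ} {x y : St} {e : List (ℕ × ℕ)} (hx : x.Ok) (hy : y.Ok)
    (h : Stp (.u i) x y e) : Stp (.u (x.n - i)) (rf x) (rf y) e := by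
  obtain ⟨h1, h2, h3, h4, h5, h6, h7⟩ := h
  have e1 : (rf x).n = x.n := rfl
  refine ⟨by omega, by omega, h3, h4, fun j j0 j1 => ?_, fun j j0 j1 => ?_, h7⟩
  · change y.b (-j) = x.b (-j)
    rw [b1.per hx (i := -j) (j := x.n - j) ⟨-1, by ring⟩, ← h6 _ (by omega) (by omega)]
    exact b1.per hy ⟨-1, by rw [h3]; ring⟩
  · change y.b (-(j + 2)) = x.b (-j)
    rw [b1.per hx (i := -j) (j := x.n - j) ⟨-1, by ring⟩, ← h5 _ (by omega) (by omega)]
    exact b1.per hy ⟨-1, by rw [h3]; ring⟩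

/-- reading the edges backwards at a face gap -/
def th (p : Prop) [Decidable p] (E : List (ℕ × ℕ)) : List (ℕ × ℕ) :=
  if p then E else E.map Prod.swap

theorem th_th (p : Prop) [Decidable p] (E : List (ℕ × ℕ)) : th p (th p E) = E := by
  unfold th
  split_ifs <;> simp

theorem st_s {i c : ℤ} {x y : St} {e : List (ℕ × ℕ)} (j : ℤ) (hj : j = i ∨ j = -i) (hc : x.c = c)
    (h : Stp (.s i) x y e) : Stp (.s (-i)) (rf x) (rf y) (th ((j + c) % 2 = 0) e) := by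
  obtain ⟨h1, h2, h3, h4, rfl⟩ := h
  refine ⟨h1, h2, h3, fun k hk => h4 _ fun hd => hk ?_, ?_⟩
  · have : k - -i = -(-k - i) := by ring
    rw [this]
    exact (dvd_neg).2 hd
  · change _ = [if (-i + x.c) % 2 = 0 then (x.b (- -i), y.b (- -i))
      else (x.b (-(-i - 1)), x.b (-(-i + 1)))]
    rw [neg_neg, show -(-i - 1) = i + 1 by ring, show -(-i + 1) = i - 1 by ring]
    unfold th
    by_cases hp : (i + x.c) % 2 = 0
    · rw [if_pos hp, if_pos (by omega), if_pos (by omega)]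
    · rw [if_neg hp, if_neg (by omega), if_neg (by omega)]
      rfl

theorem st_x {x y : St} {e : List (ℕ × ℕ)} (h : Stp .x x y e) : Stp .x (rf x) y e := by
  obtain ⟨h1, h2, h3, h4, h5, h6⟩ := h
  refine ⟨h1, h2, h3, fun j => ?_, h5, h6⟩
  change x.b (-(j + 4)) = x.b (-j)
  rw [← h4 (-(j + 4))]
  congr 1
  ring

theorem rt (b2 : SB2) (n k : ℤ) : Eqw n [.r, .t k] [.t (-k), .r] := by
  refine b2.same (by simp [dn, dl]) rfl fun x z E _ => ?_
  rw [runL, runR]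
  refine and_congr_right fun _ => and_congr_right fun _ => ⟨fun h => ?_, fun h => ?_⟩
  · simpa only [rf_rf] using st_t h
  · simpa only [rf_rf, neg_neg] using st_t h

theorem rd (b1 : SB1) (b2 : SB2) (n i : ℤ) : Eqw n [.r, .d i] [.d (n - 2 - i), .r] := by
  refine b2.same (by simp [dn, dl]) rfl fun x z E hn => ?_
  subst hn
  rw [runL, runR]
  refine and_congr_right fun hx => and_congr_right fun hz => ⟨fun h => ?_, fun h => ?_⟩
  · simpa only [rf_rf, rf_n] using st_d b1 (rf_ok hx) hz h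
  · simpa only [rf_rf, sub_sub_cancel] using st_d b1 hx (rf_ok hz) h

theorem ru (b1 : SB1) (b2 : SB2) (n i : ℤ) : Eqw n [.r, .u i] [.u (n - i), .r] := by
  refine b2.same (by simp [dn, dl]) rfl fun x z E hn => ?_
  subst hn
  rw [runL, runR]
  refine and_congr_right fun hx => and_congr_right fun hz => ⟨fun h => ?_, fun h => ?_⟩
  · simpa only [rf_rf, rf_n] using st_u b1 (rf_ok hx) hz h
  · simpa only [rf_rf, sub_sub_cancel] using st_u b1 hx (rf_ok hz) h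

theorem rs (a1 : SA1) (b2 : SB2) (n i : ℤ) : Eqw n [.r, .s i] [.s (-i), .r] := by
  refine ⟨rfl, by simp [dn, dl], fun c => b2.locC (th ((i + c) % 2 = 0)) ?_ ?_ ?_ ?_⟩
  · intro x y E _ hc h
    obtain ⟨hx, hy, h⟩ := runL.1 h
    refine runR.2 ⟨hx, hy, ?_⟩
    simpa only [rf_rf] using st_s (x := rf x) i (Or.inl rfl) hc h
  · intro x y E _ hc h
    obtain ⟨hx, hy, h⟩ := runR.1 h
    refine ⟨_, runL.2 ⟨hx, hy, ?_⟩, th_th _ E⟩
    simpa only [rf_rf, neg_neg] using st_s i (Or.inr (neg_neg i).symm) hc h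
  · intro φ E
    unfold th
    split_ifs
    · rfl
    · simp only [mp, List.map_map]
      rfl
  · intro X x y E Y _ _ _ _ _
    have e : gr (E ++ Y) = gr (th ((i + c) % 2 = 0) E ++ Y) := a1.ext fun p q => by
      unfold th
      split_ifs
      · rfl
      · have : ∀ a b : ℕ, (a, b) ∈ E.map Prod.swap ↔ (b, a) ∈ E := fun a b => by
          constructor
          · intro h
            obtain ⟨⟨u, v⟩, huv, e⟩ := List.mem_map.1 h
            obtain ⟨rfl, rfl⟩ := Prod.mk.inj e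
            exact huv
          · intro h
            exact List.mem_map.2 ⟨_, h, rfl⟩
        simp only [gr, List.mem_append, this]
        tauto
    rw [← e]
    exact ⟨Iff.rfl, Iff.rfl⟩

theorem rr' (b2 : SB2) (n : ℤ) : Eqw n [.r, .r] [] := by
  refine b2.same (by simp [dn, dl]) rfl fun x z E _ => ?_
  rw [runL, stp_r, rf_rf]
  constructor
  · rintro ⟨hx, -, h⟩
    exact ⟨hx, h⟩
  · rintro ⟨hx, rfl, rfl⟩
    exact ⟨hx, hx, rfl, rfl⟩

theorem rx (b2 : SB2) : Eqw 8 [.r, .x] [.x] := by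
  refine b2.same (by simp [dn, dl]) rfl fun x z E _ => ?_
  rw [runL, run1]
  refine and_congr_right fun _ => and_congr_right fun _ => ⟨fun h => ?_, st_x⟩
  simpa only [rf_rf] using st_x h

theorem per4 {k : ℤ} {x y : St} (f : ∀ j, y.b (j + k) = x.b j) :
    (∀ j, x.b (j + 4) = x.b j) ↔ ∀ j, y.b (j + 4) = y.b j := by
  constructor
  · intro h j
    have e1 := f (j - k + 4)
    have e2 := f (j - k)
    rw [show j - k + 4 + k = j + 4 by ring] at e1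
    rw [show j - k + k = j by ring] at e2
    rw [e1, e2, h]
  · intro h j
    rw [← f, ← f, show j + 4 + k = j + k + 4 by ring, h]

theorem tx (b1 : SB1) (b2 : SB2) (k : ℤ) : Eqw 8 [.t (2 * k), .x] [.x] := by
  refine b2.same (by simp [dn, dl]) rfl fun x z E hn => ?_
  rw [run2, run1]
  constructor
  · rintro ⟨hx, hz, y, e1, e2, -, ⟨-, n1, c1, f1, rfl⟩, ⟨-, n2, c2, p1, p2, rfl⟩, rfl⟩
    have := hx.2.2.1
    exact ⟨hx, hz, hn, n2, by omega, (per4 f1).2 p1, p2, rfl⟩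
  · rintro ⟨hx, hz, -, n2, c2, p1, p2, rfl⟩
    obtain ⟨y, hy, hs⟩ := b1.ex_t hx (by omega) (2 * k)
    obtain ⟨-, n1, c1, f1, -⟩ := id hs
    have := hx.2.2.1
    exact ⟨hx, hz, y, [], [], hy, hs, ⟨by omega, n2, by omega, (per4 f1).1 p1, p2, rfl⟩, rfl⟩

theorem txt (b1 : SB1) (b2 : SB2) (k : ℤ) : Eqw 8 [.x] [.t k, .x, .t (-k)] := by
  refine b2.same (by simp [dn, dl]) rfl fun x z E hn => ?_
  rw [run1]
  constructor
  · rintro ⟨hx, hz, -, n2, c2, p1, p2, rfl⟩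
    obtain ⟨y, hy, hs⟩ := b1.ex_t hx (by omega) k
    obtain ⟨-, n1, c1, f1, -⟩ := id hs
    obtain ⟨w, hw, -, n3, c3, f3, -⟩ := b1.ex_t hz (by omega) k
    have := hx.2.2.1
    refine ⟨hx, y, [], [], hs, run2.2 ⟨hy, hz, w, [], [], hw,
      ⟨by omega, by omega, by omega, (per4 f1).1 p1, (per4 f3).1 p2, rfl⟩,
      ⟨by omega, by omega, by omega, fun j => ?_, rfl⟩, rfl⟩, rfl⟩
    rw [← f3, neg_add_cancel_right]
  · rintro ⟨hx, y, e, E', ⟨-, n1, c1, f1, rfl⟩, hr, rfl⟩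
    obtain ⟨-, hz, w, e1, e2, -, ⟨-, n2, c2, p1, p2, rfl⟩, ⟨-, n3, c3, f3, rfl⟩, rfl⟩ := run2.1 hr
    have := hx.2.2.1
    exact ⟨hx, hz, hn, by omega, by omega, (per4 f1).2 p1, (per4 f3).1 p2, rfl⟩

theorem plain_cons {g : Lt} {W : List Lt} (h1 : g ≠ .r) (h2 : g ≠ .x) (h : Plain W) :
    Plain (g :: W) :=
  ⟨fun m => (List.mem_cons.1 m).elim (fun e => h1 e.symm) h.1,
    fun m => (List.mem_cons.1 m).elim (fun e => h2 e.symm) h.2⟩

theorem one (a1 : SA1) (b1 : SB1) (b2 : SB2) (n : ℤ) {g : Lt} (h1 : g ≠ .r) (h2 : g ≠ .x) :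
    ∃ g', g' ≠ .r ∧ g' ≠ .x ∧ Eqw n [.r, g] [g', .r] := by
  cases g with
  | s i => exact ⟨.s (-i), nofun, nofun, rs a1 b2 n i⟩
  | t k => exact ⟨.t (-k), nofun, nofun, rt b2 n k⟩
  | u i => exact ⟨.u (n - i), nofun, nofun, ru b1 b2 n i⟩
  | d i => exact ⟨.d (n - 2 - i), nofun, nofun, rd b1 b2 n i⟩
  | r => exact absurd rfl h1
  | x => exact absurd rfl h2

theorem push (a1 : SA1) (b1 : SB1) (b2 : SB2) {W : List Lt} (h : Plain W) (n : ℤ) :
    ∃ W', Plain W' ∧ Eqw n (.r :: W) (W' ++ [.r]) := by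
  induction W generalizing n with
  | nil => exact ⟨[], h, b2.refl _ _⟩
  | cons g W ih =>
    obtain ⟨g', h1, h2, e⟩ := one a1 b1 b2 n (g := g) (fun e => h.1 (e ▸ List.mem_cons_self))
      (fun e => h.2 (e ▸ List.mem_cons_self))
    obtain ⟨W', hp, e'⟩ := ih ⟨fun m => h.1 (List.mem_cons_of_mem _ m),
      fun m => h.2 (List.mem_cons_of_mem _ m)⟩ (n + dn [g'])
    refine ⟨g' :: W', plain_cons h1 h2 hp, b2.trans (D' := g' :: .r :: W) ?_ ?_⟩
    · exact b2.ectx (n := n) (D := [.r, g]) (D' := [g', .r]) [] W (by simpa [dn] using e)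
    · simpa using b2.ectx [g'] [] e'

theorem nrm (a1 : SA1) (b1 : SB1) (b2 : SB2) (n : ℤ) {W : List Lt} (h : Lt.x ∉ W) :
    ∃ W0, Plain W0 ∧ (Eqw n W W0 ∨ Eqw n W (W0 ++ [.r])) := by
  induction W generalizing n with
  | nil => exact ⟨[], ⟨by simp, by simp⟩, Or.inl (b2.refl _ _)⟩
  | cons g W ih =>
    obtain ⟨W0, hp, e⟩ := ih (n + dn [g]) fun m => h (List.mem_cons_of_mem _ m)
    have e' : Eqw n (g :: W) (g :: W0) ∨ Eqw n (g :: W) (g :: W0 ++ [.r]) :=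
      e.imp (fun e => by simpa using b2.ectx [g] [] e) fun e => by simpa using b2.ectx [g] [] e
    by_cases hg : g = .r
    · subst hg
      obtain ⟨W', hp', e2⟩ := push a1 b1 b2 hp n
      refine ⟨W', hp', e'.symm.imp (fun e => b2.trans e ?_) fun e => b2.trans e e2⟩
      refine b2.trans (D' := W' ++ [.r, .r]) ?_ ?_
      · have := b2.ectx (n := n) (D := .r :: W0) (D' := W' ++ [.r]) [] [.r]
          (by simpa [dn] using e2)
        simpa using this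
      · simpa using b2.ectx W' [] (rr' b2 (n + dn W'))
    · exact ⟨g :: W0, plain_cons hg (fun e => h (e ▸ List.mem_cons_self)) hp, e'⟩

end Naux

theorem pN (a1 : SA1) (b1 : SB1) (b2 : SB2) : SN where
  ex_r := fun hx => ⟨_, Naux.rf_ok hx, Naux.stp_r.2 ⟨rfl, rfl⟩⟩
  tr := fun n k => b2.symm (by simpa only [neg_neg] using Naux.rt b2 n (-k))
  rd := Naux.rd b1 b2
  rx := Naux.rx b2
  tx := Naux.tx b1 b2
  txt := Naux.txt b1 b2
  nrm := Naux.nrm a1 b1 b2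

end Pool.Agent.P.MP_5af56b_co.Kl
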