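import Pool.Agent.P.MP_5af56b_co.Kl.Stmt

namespace Pool.Agent.P.MP_5af56b_co.Kl

open Finset

namespace Paux

theorem not_dvd_two {n a : ℤ} (hn : 2 ≤ n) (h1 : n ∣ a) (h2 : n ∣ a + 1) : False := by
  have h : n ∣ 1 := by simpa using (dvd_sub h2 h1)
  have := Int.le_of_dvd one_pos h
  omega

theorem sw_sw {n : ℤ} (i j : ℤ) (hn : 2 ≤ n) : sw n i (sw n i j) = j := by
  by_cases h1 : n ∣ j - i
  · have e : sw n i j = j - 1 := by simp [sw, h1]
    have h2 : ¬ n ∣ j - 1 - i := fun h => not_dvd_two hn h (by convert h1 using 1; ring)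
    have h3 : n ∣ j - 1 - i + 1 := by convert h1 using 1; ring
    rw [e]; unfold sw; rw [if_neg h2, if_pos h3]; ring
  · by_cases h2 : n ∣ j - i + 1
    · have e : sw n i j = j + 1 := by simp [sw, h1, h2]
      have h3 : n ∣ j + 1 - i := by convert h2 using 1; ring
      rw [e]; unfold sw; rw [if_pos h3]; ring
    · have e : sw n i j = j := by simp [sw, h1, h2]
      rw [e, e]

theorem dvd_per {n a c : ℤ} (h : c = a + n) : n ∣ c ↔ n ∣ a := by
  rw [h]; exact dvd_add_self_right

theorem sw_per (n i j : ℤ) : sw n i (j + n) = sw n i j + n := by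
  have h1 : n ∣ j + n - i ↔ n ∣ j - i := dvd_per (by ring)
  have h2 : n ∣ j + n - i + 1 ↔ n ∣ j - i + 1 := dvd_per (by ring)
  unfold sw
  simp only [h1, h2]
  split_ifs <;> ring

theorem sw_ap {n : ℤ} (i : ℤ) (hn : 2 ≤ n) : AP n (sw n i) :=
  ⟨Function.Involutive.bijective (fun j => sw_sw i j hn), sw_per n i⟩

theorem sw_congr {n i i' : ℤ} (h : n ∣ i - i') : sw n i = sw n i' := by
  funext j
  have h1 : n ∣ j - i ↔ n ∣ j - i' := by
    have e : j - i' = j - i + (i - i') := by ring
    rw [e]; exact dvd_add_left h |>.symm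
  have h2 : n ∣ j - i + 1 ↔ n ∣ j - i' + 1 := by
    have e : j - i' + 1 = j - i + 1 + (i - i') := by ring
    rw [e]; exact dvd_add_left h |>.symm
  unfold sw
  simp only [h1, h2]

theorem sw_lt {n : ℤ} (i : ℤ) {a b : ℤ} (hn : 2 ≤ n) (hab : a < b) :
    sw n i a < sw n i b ∨ (b = a + 1 ∧ n ∣ b - i) := by
  by_cases hb : n ∣ b - i
  · by_cases e : b = a + 1
    · exact Or.inr ⟨e, hb⟩
    · left
      have eb : sw n i b = b - 1 := by simp [sw, hb]
      rw [eb]
      unfold sw
      split_ifs with h1 h2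
      · omega
      · by_contra hc
        have e2 : b = a + 2 := by omega
        exact not_dvd_two hn h2 (by convert hb using 1; rw [e2]; ring)
      · omega
  · left
    have eb : b ≤ sw n i b := by
      unfold sw; rw [if_neg hb]; split_ifs <;> omega
    refine lt_of_lt_of_le ?_ eb
    unfold sw
    split_ifs with h1 h2
    · omega
    · by_contra hc
      have e2 : b = a + 1 := by omega
      exact hb (by convert h2 using 1; rw [e2]; ring)
    · omega

theorem tr_tr {n a b : ℤ} (hab : ¬ n ∣ a - b) (j : ℤ) : tr n a b (tr n a b j) = j := by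
  by_cases h1 : n ∣ j - a
  · have e : tr n a b j = j - a + b := by simp [tr, h1]
    have h2 : ¬ n ∣ j - a + b - a := fun h => hab (by
      have e' : a - b = j - a - (j - a + b - a) := by ring
      rw [e']; exact dvd_sub h1 h)
    have h3 : n ∣ j - a + b - b := by convert h1 using 1; ring
    rw [e]; unfold tr; rw [if_neg h2, if_pos h3]; ring
  · by_cases h2 : n ∣ j - b
    · have e : tr n a b j = j - b + a := by simp [tr, h1, h2]
      have h3 : n ∣ j - b + a - a := by convert h2 using 1; ring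
      rw [e]; unfold tr; rw [if_pos h3]; ring
    · have e : tr n a b j = j := by simp [tr, h1, h2]
      rw [e, e]

theorem tr_ap {n a b : ℤ} (hab : ¬ n ∣ a - b) : AP n (tr n a b) := by
  refine ⟨Function.Involutive.bijective (tr_tr hab), fun j => ?_⟩
  have h1 : n ∣ j + n - a ↔ n ∣ j - a := dvd_per (by ring)
  have h2 : n ∣ j + n - b ↔ n ∣ j - b := dvd_per (by ring)
  unfold tr
  simp only [h1, h2]
  split_ifs <;> ring

theorem pw_app (n : ℤ) (A B : List Lt) (j : ℤ) : pw n (A ++ B) j = pw n B (pw n A j) := by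
  induction A generalizing j with
  | nil => rfl
  | cons g A ih => cases g <;> simp only [List.cons_append, pw, ih]

theorem comp {n : ℤ} {w w' : ℤ → ℤ} (h : AP n w) (h' : AP n w') : AP n (fun j => w (w' j)) :=
  ⟨h.1.comp h'.1, fun j => by simp only [h'.2, h.2]⟩

theorem shift (n k : ℤ) : AP n (fun j => j + k) :=
  ⟨⟨fun a b h => by simpa using h, fun b => ⟨b - k, by simp⟩⟩, fun j => by simp only; ring⟩

theorem pw_ap {n : ℤ} (U : List Lt) (hn : 2 ≤ n) : AP n (pw n U) := by
  induction U with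
  | nil => exact ⟨Function.bijective_id, fun j => rfl⟩
  | cons g U ih =>
    cases g with
    | s i => exact (comp ih (sw_ap i hn) :)
    | t k => exact (comp ih (shift n k) :)
    | u i => exact ih
    | d i => exact ih
    | r => exact ih
    | x => exact ih

theorem mir_cons (g : Lt) (U : List Lt) : mir (g :: U) = mir U ++ [flp g] := by
  simp [mir]

theorem pw_mir {n : ℤ} (U : List Lt) (j : ℤ) (hn : 2 ≤ n) : pw n (mir U) (pw n U j) = j := by
  induction U generalizing j with
  | nil => rfl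
  | cons g U ih =>
    rw [mir_cons, pw_app]
    cases g with
    | s i => simp only [pw, flp, ih, sw_sw i j hn]
    | t k => simp only [pw, flp, ih]; ring
    | u i => simp only [pw, flp, ih]
    | d i => simp only [pw, flp, ih]
    | r => simp only [pw, flp, ih]
    | x => simp only [pw, flp, ih]

theorem pw_mir' {n : ℤ} (U : List Lt) (j : ℤ) (hn : 2 ≤ n) : pw n U (pw n (mir U) j) = j :=
  (pw_ap (mir U) hn).1.1 (pw_mir U _ hn)

theorem mul {n : ℤ} {w : ℤ → ℤ} (h : AP n w) (j k : ℤ) : w (j + n * k) = w j + n * k := by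
  induction k using Int.induction_on with
  | zero => simp
  | succ k ih =>
    have : j + n * ((k : ℤ) + 1) = j + n * k + n := by ring
    rw [this, h.2, ih]; ring
  | pred k ih =>
    have e := h.2 (j + n * (-(k : ℤ) - 1))
    have : j + n * (-(k : ℤ) - 1) + n = j + n * (-(k : ℤ)) := by ring
    rw [this, ih] at e
    linarith

theorem dvd {n : ℤ} {w : ℤ → ℤ} (h : AP n w) (i j : ℤ) : n ∣ w i - w j ↔ n ∣ i - j := by
  constructor
  · rintro ⟨k, hk⟩
    have : w i = w (j + n * k) := by rw [mul h]; linarith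
    have := h.1.1 this
    exact ⟨k, by linarith⟩
  · rintro ⟨k, hk⟩
    have : i = j + n * k := by linarith
    exact ⟨k, by rw [this, mul h]; ring⟩

theorem ext {n : ℤ} {w w' : ℤ → ℤ} (hn : 0 < n) (h : AP n w) (h' : AP n w')
    (e : ∀ j, 0 ≤ j → j < n → w j = w' j) : w = w' := by
  funext j
  have hj : j = j % n + n * (j / n) := (Int.emod_add_mul_ediv j n).symm
  rw [hj, mul h, mul h', e _ (Int.emod_nonneg _ hn.ne') (Int.emod_lt_of_pos _ hn)]

theorem inv {n : ℤ} {w : ℤ → ℤ} (h : AP n w) :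
    ∃ v, AP n v ∧ (∀ j, v (w j) = j) ∧ ∀ j, w (v j) = j := by
  let e := Equiv.ofBijective w h.1
  have h1 : ∀ j, e.symm (w j) = j := fun j => e.symm_apply_apply j
  have h2 : ∀ j, w (e.symm j) = j := fun j => e.apply_symm_apply j
  refine ⟨e.symm, ⟨e.symm.bijective, fun j => ?_⟩, h1, h2⟩
  apply h.1.1
  rw [h.2, h2, h2]

theorem cut_ap {n : ℤ} {w : ℤ → ℤ} (a b : ℤ) (h : AP n w) : AP n (cut w a b) := by
  exact (comp (shift n (-b)) (comp h (shift n a)) :)

theorem mono {n : ℤ} {w : ℤ → ℤ} (h : AP n w) (hm : ∀ i, w (i - 1) < w i) (j : ℤ) :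
    w j = j + w 0 := by
  have sm : StrictMono w := strictMono_int_of_lt_succ fun i => by simpa using hm (i + 1)
  have st : ∀ i, w (i + 1) = w i + 1 := by
    intro i
    obtain ⟨k, hk⟩ := h.1.2 (w i + 1)
    have h1 : i < k := sm.lt_iff_lt.1 (by omega)
    have h2 : w (i + 1) ≤ w k := sm.monotone (by omega)
    have h3 : w i < w (i + 1) := sm (by omega)
    omega
  induction j using Int.induction_on with
  | zero => simp
  | succ k ih => rw [st, ih]; ring
  | pred k ih =>
    have e := st (-(k : ℤ) - 1)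
    rw [sub_add_cancel, ih] at e
    linarith

theorem per_mul {n : ℤ} {f : ℤ → ℤ} (hf : ∀ j, f (j + n) = f j) (j k : ℤ) :
    f (j + n * k) = f j := by
  have : Function.Periodic f n := hf
  have := (this.int_mul k) j
  simpa [mul_comm] using this

theorem sumper {n : ℤ} {u : ℤ → ℤ} (f : ℤ → ℤ) (hn : 0 < n) (h : AP n u)
    (hf : ∀ j, f (j + n) = f j) : ∑ i ∈ Ico 0 n, f (u i) = ∑ i ∈ Ico 0 n, f i := by
  refine Finset.sum_bij (fun i _ => u i % n) ?_ ?_ ?_ ?_
  · intro i _
    exact mem_Ico.2 ⟨Int.emod_nonneg _ hn.ne', Int.emod_lt_of_pos _ hn⟩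
  · intro i hi j hj e
    have h1 : n ∣ u i - u j := Int.ModEq.dvd (show u j ≡ u i [ZMOD n] from e.symm)
    have h2 := (dvd h i j).1 h1
    rw [mem_Ico] at hi hj
    have h3 := Int.eq_zero_of_abs_lt_dvd h2 (by rw [abs_lt]; omega)
    omega
  · intro b hb
    rw [mem_Ico] at hb
    obtain ⟨k, hk⟩ := h.1.2 b
    refine ⟨k % n, mem_Ico.2 ⟨Int.emod_nonneg _ hn.ne', Int.emod_lt_of_pos _ hn⟩, ?_⟩
    have hj : k % n = k + n * (-(k / n)) := by have := Int.emod_add_mul_ediv k n; linarith
    show u (k % n) % n = b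
    rw [hj, mul h, hk, Int.add_mul_emod_self_left, Int.emod_eq_of_lt hb.1 hb.2]
  · intro i _
    have hj : u i % n = u i + n * (-(u i / n)) := by
      have := Int.emod_add_mul_ediv (u i) n; linarith
    show f (u i) = f (u i % n)
    rw [hj, per_mul hf]

theorem dg_sum {n : ℤ} {w : ℤ → ℤ} (hn : 0 < n) (h : AP n w) :
    n * dg n w = ∑ i ∈ Ico 0 n, (w i - i) := by
  have h1 := sumper (fun j => j % n) hn h (fun j => by simp)
  have h2 : ∑ i ∈ Ico 0 n, i % n = ∑ i ∈ Ico 0 n, i :=
    sum_congr rfl fun i hi => Int.emod_eq_of_lt (mem_Ico.1 hi).1 (mem_Ico.1 hi).2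
  rw [sum_sub_distrib, ← h2, ← h1, ← sum_sub_distrib, dg, mul_sum]
  refine sum_congr rfl fun i _ => ?_
  have := Int.emod_add_mul_ediv (w i) n
  linarith

theorem dg_comp {n : ℤ} {w u : ℤ → ℤ} (hn : 0 < n) (h : AP n w) (hu : AP n u) :
    dg n (fun j => w (u j)) = dg n w + dg n u := by
  apply mul_left_cancel₀ hn.ne'
  rw [mul_add, dg_sum hn (comp h hu), dg_sum hn h, dg_sum hn hu,
    ← sumper (fun j => w j - j) hn hu (fun j => by simp only [h.2]; ring), ← sum_add_distrib]
  exact sum_congr rfl fun i _ => by ring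

theorem dg_shift {n : ℤ} (k : ℤ) (hn : 0 < n) : dg n (fun j => j + k) = k := by
  apply mul_left_cancel₀ hn.ne'
  rw [dg_sum hn (shift n k)]
  simp [hn.le]

theorem dg_sw {n : ℤ} (i : ℤ) (hn : 2 ≤ n) : dg n (sw n i) = 0 := by
  have h1 := dg_comp (by omega : 0 < n) (sw_ap i hn) (sw_ap i hn)
  have h2 : (fun j => sw n i (sw n i j)) = fun j => j + 0 := by
    funext j; rw [sw_sw i j hn]; simp
  rw [h2, dg_shift 0 (by omega)] at h1
  omega

theorem dg_pw {n : ℤ} (U : List Lt) (hn : 2 ≤ n) : dg n (pw n U) = dc U := by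
  have h0 : 0 < n := by omega
  induction U with
  | nil =>
    have := dg_shift (n := n) 0 h0
    simp only [add_zero] at this
    exact this
  | cons g U ih =>
    cases g with
    | s i =>
      have := dg_comp h0 (pw_ap U hn) (sw_ap i hn)
      rw [dg_sw i hn, ih, add_zero] at this
      exact this
    | t k =>
      have := dg_comp h0 (pw_ap U hn) (shift n k)
      rw [dg_shift k h0, ih, add_comm] at this
      exact this
    | u i => exact ih
    | d i => exact ih
    | r => exact ih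
    | x => exact ih

theorem dg_cut {n : ℤ} {w : ℤ → ℤ} (a b : ℤ) (hn : 0 < n) (h : AP n w) :
    dg n (cut w a b) = dg n w + a - b := by
  have h1 := dg_comp hn (shift n (-b)) (comp h (shift n a))
  have h2 := dg_comp hn h (shift n a)
  rw [h2, dg_shift _ hn, dg_shift _ hn] at h1
  have : cut w a b = fun j => w (j + a) + -b := rfl
  rw [this, h1]; ring

theorem rr_succ {n : ℤ} {w : ℤ → ℤ} (a b : ℤ) (hn : 0 < n) (h : AP n w) :
    rr n w (a + 1) b = rr n w a b + if b ≤ w a then 1 else 0 := by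
  unfold rr
  have e1 : Ico a (a + n + 1) = insert a (Ico (a + 1) (a + 1 + n)) := by
    ext x; simp only [mem_Ico, mem_insert]; omega
  have e2 : Ico a (a + n + 1) = insert (a + n) (Ico a (a + n)) := by
    ext x; simp only [mem_Ico, mem_insert]; omega
  have s1 := sum_insert (s := Ico (a + 1) (a + 1 + n)) (a := a)
    (f := fun k => max 0 ((w k - b) / n)) (by simp)
  have s2 := sum_insert (s := Ico a (a + n)) (a := a + n)
    (f := fun k => max 0 ((w k - b) / n)) (by simp)
  rw [← e1] at s1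
  rw [← e2, s1] at s2
  have e3 : (w (a + n) - b) / n = (w a - b) / n + 1 := by
    rw [h.2]
    have : w a + n - b = w a - b + n * 1 := by ring
    rw [this, Int.add_mul_ediv_left _ _ hn.ne']
  simp only [e3] at s2
  split_ifs with hb
  · have : 0 ≤ (w a - b) / n := Int.ediv_nonneg (by omega) hn.le
    omega
  · have : (w a - b) / n < 0 := Int.ediv_neg_of_neg_of_pos (by omega) hn
    omega

theorem rr_zero {n : ℤ} {w : ℤ → ℤ} (a b : ℤ) (hn : 0 < n) (h : AP n w) :
    rr n w a b = 0 ↔ ∀ k, k < a → w k < b := by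
  unfold rr
  rw [sum_eq_zero_iff_of_nonneg fun k _ => le_max_left _ _]
  constructor
  · intro H k hk
    have m1 := Int.emod_nonneg (k - a) hn.ne'
    have m2 := Int.emod_lt_of_pos (k - a) hn
    have m3 := Int.emod_add_mul_ediv (k - a) n
    have m4 : (k - a) / n < 0 := Int.ediv_neg_of_neg_of_pos (by omega) hn
    have H1 := H (a + (k - a) % n) (mem_Ico.2 ⟨by omega, by omega⟩)
    have H2 : (w (a + (k - a) % n) - b) / n < 1 := by omega
    rw [Int.ediv_lt_iff_lt_mul hn] at H2
    have e : k = a + (k - a) % n + n * ((k - a) / n) := by linarith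
    rw [e, mul h]
    nlinarith
  · intro H k hk
    rw [mem_Ico] at hk
    have H1 := H (k - n) (by omega)
    have e := h.2 (k - n)
    rw [sub_add_cancel] at e
    have H2 : (w k - b) / n < 1 := by
      rw [Int.ediv_lt_iff_lt_mul hn]; omega
    omega

theorem rr_nn (n : ℤ) (w : ℤ → ℤ) (a b : ℤ) : 0 ≤ rr n w a b :=
  sum_nonneg fun _ _ => le_max_left _ _

theorem rr_win (n : ℤ) (w : ℤ → ℤ) (a b : ℤ) :
    rr n w a b = ∑ i ∈ Ico 0 n, max 0 (cut w a b i / n) := by
  unfold rr cut
  refine (Finset.sum_bij (fun i _ => i + a) ?_ ?_ ?_ ?_).symm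
  · intro i hi; rw [mem_Ico] at hi ⊢; omega
  · intro i _ j _ e; simpa using e
  · intro k hk; rw [mem_Ico] at hk
    exact ⟨k - a, mem_Ico.2 ⟨by omega, by omega⟩, by simp⟩
  · intro i _; rfl

theorem tc_cut {n : ℤ} {w : ℤ → ℤ} (a b : ℤ) (hn : 0 < n) (h : AP n w) :
    tc n (cut w a b) = 2 * rr n w a b - (dg n w + a - b) := by
  rw [← dg_cut a b hn h, rr_win, tc, dg, mul_sum, ← sum_sub_distrib]
  refine sum_congr rfl fun i _ => ?_
  rcases abs_cases (cut w a b i / n) with e | e <;> omega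

theorem tc_ge (n : ℤ) (w : ℤ → ℤ) : |dg n w| ≤ tc n w :=
  abs_sum_le_sum_abs _ _

theorem lip {n : ℤ} {w : ℤ → ℤ} (a b b' : ℤ) (hn : 0 < n) (h : AP n w) :
    tc n (cut w a b') - |b - b'| ≤ tc n (cut w a b) := by
  have d1 := dg_cut a b hn h
  have d2 := dg_cut a b' hn h
  unfold dg at d1 d2
  unfold tc
  rcases le_total b b' with hb | hb
  · have : ∑ i ∈ Ico 0 n, |cut w a b' i / n| ≤
        ∑ i ∈ Ico 0 n, (|cut w a b i / n| + (cut w a b i / n - cut w a b' i / n)) := by
      refine sum_le_sum fun i _ => ?_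
      have : cut w a b' i / n ≤ cut w a b i / n := Int.ediv_le_ediv hn (by unfold cut; omega)
      rcases abs_cases (cut w a b i / n) with e | e <;>
        rcases abs_cases (cut w a b' i / n) with e' | e' <;> omega
    rw [sum_add_distrib, sum_sub_distrib, d1, d2] at this
    rcases abs_cases (b - b') with e | e <;> omega
  · have : ∑ i ∈ Ico 0 n, |cut w a b' i / n| ≤
        ∑ i ∈ Ico 0 n, (|cut w a b i / n| + (cut w a b' i / n - cut w a b i / n)) := by
      refine sum_le_sum fun i _ => ?_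
      have : cut w a b i / n ≤ cut w a b' i / n := Int.ediv_le_ediv hn (by unfold cut; omega)
      rcases abs_cases (cut w a b i / n) with e | e <;>
        rcases abs_cases (cut w a b' i / n) with e' | e' <;> omega
    rw [sum_add_distrib, sum_sub_distrib, d1, d2] at this
    rcases abs_cases (b - b') with e | e <;> omega

end Paux

theorem pP : SP where
  sw_sw := Paux.sw_sw
  sw_ap := Paux.sw_ap
  sw_congr := Paux.sw_congr
  sw_lt := Paux.sw_lt
  tr_ap := fun _ h => Paux.tr_ap h
  pw_app := Paux.pw_app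
  pw_ap := Paux.pw_ap
  pw_mir := Paux.pw_mir
  pw_mir' := Paux.pw_mir'
  mul := Paux.mul
  dvd := Paux.dvd
  ext := Paux.ext
  comp := Paux.comp
  inv := Paux.inv
  shift := Paux.shift
  cut_ap := Paux.cut_ap
  mono := Paux.mono
  sumper := Paux.sumper
  dg_sum := Paux.dg_sum
  dg_pw := Paux.dg_pw
  dg_cut := Paux.dg_cut
  rr_succ := Paux.rr_succ
  rr_zero := Paux.rr_zero
  rr_nn := Paux.rr_nn
  tc_cut := Paux.tc_cut
  tc_ge := Paux.tc_ge
  lip := Paux.lip

end Pool.Agent.P.MP_5af56b_co.Kl
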