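import Pool.Agent.P.MP_5af56b_co.Kl.Stmt

namespace Pool.Agent.P.MP_5af56b_co.Kl

open Finset

namespace RCaux

lemma nd1 {n : ℤ} (hn : 2 ≤ n) : ¬ n ∣ 1 := fun h => by
  have := Int.le_of_dvd (by norm_num) h
  omega

lemma sw_i (n i : ℤ) : sw n i i = i - 1 := by
  simp [sw]

lemma sw_im {n : ℤ} (hn : 2 ≤ n) (i : ℤ) : sw n i (i - 1) = i := by
  have h1 : ¬ n ∣ i - 1 - i := by
    intro h
    apply nd1 hn
    have : (1 : ℤ) = -(i - 1 - i) := by ring
    rw [this]
    exact (dvd_neg).2 h
  have h2 : n ∣ i - 1 - i + 1 := by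
    have : i - 1 - i + 1 = 0 := by ring
    rw [this]
    exact dvd_zero n
  simp only [sw, h1, h2, if_false, if_true]
  ring

lemma sw_mem {n i a k : ℤ} (ha : ¬ n ∣ a - i) (hk : k ∈ Ico a (a + n)) :
    sw n i k ∈ Ico a (a + n) := by
  rw [mem_Ico] at hk ⊢
  unfold sw
  split_ifs with h1 h2
  · have : k ≠ a := fun h => ha (h ▸ h1)
    omega
  · have : k + 1 ≠ a + n := by
      intro h
      apply ha
      have e : a - i = (k - i + 1) - n := by omega
      rw [e]
      exact dvd_sub h2 (dvd_refl n)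
    omega
  · exact hk

lemma rr_sw (p : SP) {n i a : ℤ} (hn : 2 ≤ n) (ha : ¬ n ∣ a - i) (w : ℤ → ℤ) (b : ℤ) :
    rr n (fun j => w (sw n i j)) a b = rr n w a b := by
  unfold rr
  exact Finset.sum_nbij' (sw n i) (sw n i) (fun k hk => sw_mem ha hk) (fun k hk => sw_mem ha hk)
    (fun k _ => p.sw_sw i k hn) (fun k _ => p.sw_sw i k hn) (fun _ _ => rfl)

lemma rr_cut (n : ℤ) (w : ℤ → ℤ) (k a b : ℤ) :
    rr n (fun j => w (j + k)) a b = rr n w (a + k) b := by
  unfold rr
  refine Finset.sum_nbij' (fun j => j + k) (fun j => j - k) ?_ ?_ ?_ ?_ (fun _ _ => rfl)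
  · intro j hj
    rw [mem_Ico] at hj ⊢
    omega
  · intro j hj
    rw [mem_Ico] at hj ⊢
    omega
  · intro j _
    simp
  · intro j _
    simp

/-- comparison at an ascent of the smaller permutation -/
lemma rr_asc (p : SP) {n a b : ℤ} {g u : ℤ → ℤ} (hn : 2 ≤ n) (hg : AP n g) (hu : AP n u)
    (hasc : g (a - 1) < g a) (h1 : rr n g (a - 1) b ≤ rr n u (a - 1) b)
    (h2 : rr n g (a + 1) b ≤ rr n u (a + 1) b) : rr n g a b ≤ rr n u a b := by
  have hn0 : 0 < n := by omega
  have e1 := p.rr_succ (a - 1) b hn0 hg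
  have e2 := p.rr_succ a b hn0 hg
  have e3 := p.rr_succ (a - 1) b hn0 hu
  have e4 := p.rr_succ a b hn0 hu
  rw [sub_add_cancel] at e1 e3
  split_ifs at e1 e2 e3 e4 <;> omega

lemma rr_all (p : SP) {n i : ℤ} {g u : ℤ → ℤ} (hn : 2 ≤ n) (hg : AP n g) (hu : AP n u)
    (hasc : g (i - 1) < g i) (h : ∀ a b, ¬ n ∣ a - i → rr n g a b ≤ rr n u a b) (a b : ℤ) :
    rr n g a b ≤ rr n u a b := by
  by_cases ha : n ∣ a - i
  · obtain ⟨k, hk⟩ := ha
    refine rr_asc p hn hg hu ?_ (h _ _ ?_) (h _ _ ?_)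
    · have e1 : a = i + n * k := by omega
      have e2 : a - 1 = i - 1 + n * k := by omega
      rw [e2, p.mul hg, e1, p.mul hg]
      omega
    · intro hd
      apply nd1 hn
      have e : (1 : ℤ) = n * k - (a - 1 - i) := by omega
      rw [e]
      exact dvd_sub (dvd_mul_right n k) hd
    · intro hd
      apply nd1 hn
      have e : (1 : ℤ) = (a + 1 - i) - n * k := by omega
      rw [e]
      exact dvd_sub hd (dvd_mul_right n k)
  · exact h a b ha

lemma dg_sw (p : SP) {n : ℤ} (i : ℤ) {g : ℤ → ℤ} (hn : 2 ≤ n) (hg : AP n g) :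
    dg n (fun j => g (sw n i j)) = dg n g := by
  have hn0 : 0 < n := by omega
  have hs := p.sw_ap i hn
  have e1 := p.dg_sum hn0 (p.comp hg hs)
  have e2 := p.dg_sum hn0 hg
  have e3 := p.dg_sum hn0 hs
  have e4 : dg n (sw n i) = 0 := by
    have := p.dg_pw [.s i] hn
    simpa [pw, dc] using this
  have e5 := p.sumper (fun j => g j - j) hn0 hs (fun j => by rw [hg.2]; ring)
  have e6 : ∑ j ∈ Ico 0 n, (g (sw n i j) - j) =
      ∑ j ∈ Ico 0 n, (g (sw n i j) - sw n i j) + ∑ j ∈ Ico 0 n, (sw n i j - j) := by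
    rw [← Finset.sum_add_distrib]
    exact Finset.sum_congr rfl fun _ _ => by ring
  rw [e6, e5, ← e2, ← e3, e4] at e1
  have : n * dg n (fun j => g (sw n i j)) = n * dg n g := by rw [e1]; ring
  exact mul_left_cancel₀ hn0.ne' this

lemma base (p : SP) {n : ℤ} {g : ℤ → ℤ} (hn : 2 ≤ n) (hg : AP n g)
    (hd : dg n g = dg n (pw n [])) (h : ∀ a b, rr n g a b ≤ rr n (pw n []) a b) :
    pw n [] = g := by
  have hn0 : 0 < n := by omega
  have hid := p.pw_ap (n := n) [] hn
  have hle : ∀ k, g k ≤ k := by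
    intro k
    have h0 : rr n (pw n []) (k + 1) (k + 1) = 0 :=
      (p.rr_zero _ _ hn0 hid).2 fun j hj => hj
    have h1 : rr n g (k + 1) (k + 1) = 0 :=
      le_antisymm (h0 ▸ h (k + 1) (k + 1)) (p.rr_nn _ _ _ _)
    have := (p.rr_zero _ _ hn0 hg).1 h1 k (by omega)
    omega
  have hz : dg n g = 0 := by
    rw [hd, p.dg_pw [] hn]
    rfl
  have hs := p.dg_sum hn0 hg
  rw [hz, mul_zero] at hs
  have hall := (Finset.sum_eq_zero_iff_of_nonpos (s := Ico 0 n) (f := fun i => g i - i)
    (fun i _ => by have := hle i; omega)).1 hs.symm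
  refine p.ext hn0 hid hg fun j h0 h1 => ?_
  have := hall j (mem_Ico.2 ⟨h0, h1⟩)
  show j = g j
  omega

lemma br_cons {a : Lt} {U : List Lt} (h : IsBr (a :: U)) : IsBr U :=
  fun g hg => h g (List.mem_cons_of_mem _ hg)

lemma br_s (i : ℤ) {U : List Lt} (h : IsBr U) : IsBr (.s i :: U) := by
  intro g hg
  rcases List.mem_cons.1 hg with rfl | hg
  · exact ⟨i, Or.inl rfl⟩
  · exact h g hg

lemma br_t (i : ℤ) {U : List Lt} (h : IsBr U) : IsBr (.t i :: U) := by
  intro g hg
  rcases List.mem_cons.1 hg with rfl | hg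
  · exact ⟨i, Or.inr rfl⟩
  · exact h g hg

end RCaux

open RCaux in
theorem pRC (b1 : SB1) (b2 : SB2) (c3 : SC3) (p : SP) : SRC := by
  intro n U
  induction U with
  | nil =>
    intro g hn hb hr hg hd h
    exact ⟨[], hb, hr, base p hn hg hd h, b2.mrefl _ _⟩
  | cons l U ih =>
    intro g hn hb hr hg hd h
    have hn0 : 0 < n := by omega
    have hu := p.pw_ap (n := n) U hn
    obtain ⟨i, rfl | rfl⟩ := hb l List.mem_cons_self
    · have hw : pw n (.s i :: U) = fun j => pw n U (sw n i j) := rfl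
      have hdu : dg n g = dg n (pw n U) := by rw [hd, hw, dg_sw p i hn hu]
      have hoff : ∀ a b, ¬ n ∣ a - i → rr n g a b ≤ rr n (pw n U) a b := by
        intro a b ha
        have := h a b
        rwa [hw, rr_sw p hn ha] at this
      rcases lt_trichotomy (g (i - 1)) (g i) with hlt | heq | hgt
      · obtain ⟨U', h1, h2, h3, h4⟩ := ih hn (br_cons hb) hr.2 hg hdu (rr_all p hn hg hu hlt hoff)
        refine ⟨U', h1, h2, h3, b2.mtrans ?_ h4⟩
        have := b2.mctx (n := n) [] U (D := [.s i]) (D' := [])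
          (by simpa [dn] using c3.mn1 i hn)
        simpa using this
      · have := hg.1.1 heq
        omega
      · have hg' := p.comp hg (p.sw_ap i hn)
        have hasc : (fun j => g (sw n i j)) (i - 1) < (fun j => g (sw n i j)) i := by
          simp only [sw_i, sw_im hn]
          exact hgt
        obtain ⟨U', h1, h2, h3, h4⟩ := ih hn (br_cons hb) hr.2 hg'
          (by rw [dg_sw p i hn hg, hdu])
          (rr_all p hn hg' hu hasc fun a b ha => by rw [rr_sw p hn ha]; exact hoff a b ha)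
        refine ⟨.s i :: U', br_s i h1, ⟨by rw [h3]; exact hasc, h2⟩, ?_, ?_⟩
        · funext j
          show pw n U' (sw n i j) = g j
          rw [h3]
          simp only [p.sw_sw i j hn]
        · have := b2.mctx (n := n) [.s i] [] (D := U) (D' := U') (by simpa [dn, dl] using h4)
          simpa using this
    · have hw : pw n (.t i :: U) = fun j => pw n U (j + i) := rfl
      have hg' : AP n (fun j => g (j + -i)) := p.comp hg (p.shift n (-i))
      have hc1 : (fun j => g (j + -i)) = cut g (-i) 0 := by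
        funext j
        simp [cut]
      have hc2 : (fun j => pw n U (j + i)) = cut (pw n U) i 0 := by
        funext j
        simp [cut]
      obtain ⟨U', h1, h2, h3, h4⟩ := ih hn (br_cons hb) hr hg'
        (by
          rw [hw, hc2, p.dg_cut _ _ hn0 hu] at hd
          rw [hc1, p.dg_cut _ _ hn0 hg, hd]
          ring)
        (fun a b => by
          have := h (a + -i) b
          rw [hw, rr_cut] at this
          rw [rr_cut]
          simpa using this)
      refine ⟨.t i :: U', br_t i h1, h2, ?_, ?_⟩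
      · funext j
        show pw n U' (j + i) = g j
        rw [h3]
        simp
      · have := b2.mctx (n := n) [.t i] [] (D := U) (D' := U') (by simpa [dn, dl] using h4)
        simpa using this

end Pool.Agent.P.MP_5af56b_co.Kl
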