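import Pool.Agent.P.MP_5af56b_co.Kl.Stmt

namespace Pool.Agent.P.MP_5af56b_co.Kl

namespace Taaux

theorem ndvd {n d : ℤ} (h1 : -n < d) (h2 : d < n) (h3 : d ≠ 0) : ¬ n ∣ d := by
  rintro ⟨k, rfl⟩
  have hn : 0 < n := by omega
  have hk1 : k < 1 := by
    by_contra h
    have : n * 1 ≤ n * k := Int.mul_le_mul_of_nonneg_left (by omega) hn.le
    omega
  have hk2 : -1 < k := by
    by_contra h
    have : n * k ≤ n * (-1) := Int.mul_le_mul_of_nonneg_left (by omega) hn.le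
    omega
  have : k = 0 := by omega
  subst this
  simp at h3

theorem sh {x : St} (h : x.Ok) {p q : ℤ} (e : p = q + x.n) : x.b p = x.b q := by
  rw [e]
  exact h.2.2.2.1 q

theorem cg (f : ℤ → ℕ) {p q : ℤ} (e : p = q) : f p = f q := congrArg f e

theorem v2b : ∀ (V : List L2) {n m n' m' : ℤ}, V2 V n m n' m' → 0 ≤ m ∧ m ≤ n
  | [], _, _, _, _, h => ⟨h.1, h.2.1⟩
  | .l (.s _) :: V, _, _, _, _, h => v2b V h.2.2.2
  | .l (.t _) :: _, _, _, _, _, h => ⟨h.2.1, h.2.2.1⟩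
  | .l (.u _) :: V, _, _, _, _, h => by
    have := v2b V h.2.2
    have := h.1
    have := h.2.1
    split_ifs at * <;> omega
  | .l (.d _) :: V, _, _, _, _, h => by
    have := v2b V h.2.2.2
    split_ifs at * <;> omega
  | .l .r :: _, _, _, _, _, h => h.elim
  | .l .x :: _, _, _, _, _, h => h.elim
  | .m _ :: _, _, _, _, _, h => ⟨h.1, h.2.1⟩

theorem cross (b1 : SB1) {X : St} (hX : X.Ok) {q : ℤ} (v : ℕ) (h1 : 1 ≤ q) (h2 : q + 1 ≤ X.n) :
    ∃ Y : St, Y.Ok ∧ Y.n = X.n ∧ Y.c = X.c ∧ Y.b q = v ∧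
      (∀ p, 0 ≤ p → p ≤ X.n → p ≠ q → Y.b p = X.b p) ∧
      Stp (.s q) X Y [if (q + X.c) % 2 = 0 then (X.b q, v) else (X.b (q - 1), X.b (q + 1))] := by
  obtain ⟨Y, hY, hn, hc, hi, hb⟩ := b1.ex_s hX (by omega) q v
  exact ⟨Y, hY, hn, hc, hi, fun p a b c => hb p (ndvd (by omega) (by omega) (by omega)),
    by omega, hn, hc, hb, by rw [hi]⟩

theorem cup (b1 : SB1) {X : St} (hX : X.Ok) {q : ℤ} (v : ℕ) (h1 : 0 ≤ q) (h2 : q ≤ X.n) :
    ∃ Y : St, Y.Ok ∧ Y.n = X.n + 2 ∧ Y.c = X.c ∧ Y.b (q + 1) = v ∧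
      (∀ p, 0 ≤ p → p ≤ q → Y.b p = X.b p) ∧
      (∀ p, q + 2 ≤ p → p ≤ X.n + 2 → Y.b p = X.b (p - 2)) ∧ Stp (.u q) X Y [] := by
  obtain ⟨Y, hY, hs, hi⟩ := b1.ex_u hX q v h1 h2
  obtain ⟨-, -, hn, hc, hL, hH, -⟩ := id hs
  exact ⟨Y, hY, hn, hc, hi, hL,
    fun p a b => (cg Y.b (by omega)).trans (hH (p - 2) (by omega) (by omega)), hs⟩

theorem cap (b1 : SB1) {X : St} (hX : X.Ok) {q : ℤ} (h1 : 0 ≤ q) (h2 : q + 2 ≤ X.n)
    (h3 : X.b q = X.b (q + 2)) :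
    ∃ Y : St, Y.Ok ∧ X.n = Y.n + 2 ∧ Y.c = X.c ∧ (∀ p, 0 ≤ p → p ≤ q → Y.b p = X.b p) ∧
      (∀ p, q ≤ p → p ≤ Y.n → Y.b p = X.b (p + 2)) ∧ Stp (.d q) X Y [] := by
  obtain ⟨Y, hY, hs⟩ := b1.ex_d hX q h1 h2 h3
  obtain ⟨-, -, hn, hc, hL, hH, -⟩ := id hs
  exact ⟨Y, hY, hn, hc, hL, hH, hs⟩

/-- the big state `X` displays the small state `x` -/
structure Lay (m0 m1 : ℤ) (G1 G2 : ℤ → ℕ) (x X : St) (h m a : ℤ) : Prop where
  ok : X.Ok
  nn : 0 ≤ m0 ∧ 0 ≤ m1 ∧ 0 ≤ h ∧ 0 ≤ a ∧ 0 ≤ m ∧ m ≤ x.n ∧ X.n = 2 * h + 2 * a + x.n + m0 + m1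
  cc : (h + m + X.c) % 2 = x.c % 2 ∧ (a + m1 + X.c) % 2 = x.c % 2
  A : ∀ p p', p' = h + m + a + m1 + p → 0 ≤ p → p ≤ h → X.b p = X.b p'
  B : ∀ p i, p = h + m - i → 0 ≤ i → i ≤ m → X.b p = x.b i
  C : ∀ p j, p = h + m + a + m1 - j → 0 ≤ j → j ≤ a + m1 → X.b p = G1 j
  D : ∀ p i, p = 2 * h + a + m1 + i → m ≤ i → i ≤ x.n → X.b p = x.b i
  E : ∀ p j, p = X.n - j → 0 ≤ j → j ≤ a + m0 → X.b p = G2 j

variable {m0 m1 : ℤ} {G1 G2 : ℤ → ℕ} {x y X : St} {h m a i : ℤ} {e : List (ℕ × ℕ)}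

theorem st_s (b1 : SB1) (L : Lay m0 m1 G1 G2 x X h m a) (hs : Stp (.s i) x y e) (h1 : 1 ≤ i)
    (h2 : i + 1 ≤ x.n) (h3 : i ≠ m) {c : ℤ} (hc : c % 2 = x.c % 2) :
    ∃ Y e0, e = [e0] ∧ Lay m0 m1 G1 G2 y Y h m a ∧
      Stp (.s (if i < m then h + m - i else 2 * h + a + m1 + i)) X Y
        [if decide (i < m ∧ (i + c) % 2 = 1) then Prod.swap e0 else e0] := by
  obtain ⟨ok, nn, cc, A, B, C, D, E⟩ := L
  obtain ⟨-, yn, yc, yb, he⟩ := hs
  have hy : ∀ j : ℤ, 0 ≤ j → j ≤ x.n → j ≠ i → x.b j = y.b j := fun j a b c =>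
    (yb j (ndvd (by omega) (by omega) (by omega))).symm
  obtain ⟨q, hq⟩ : ∃ q, q = if i < m then h + m - i else 2 * h + a + m1 + i := ⟨_, rfl⟩
  rw [← hq]
  have hq' : (i < m ∧ q = h + m - i) ∨ (m < i ∧ q = 2 * h + a + m1 + i) := by
    split_ifs at hq <;> omega
  obtain ⟨Y, hY, Yn, Yc, Yq, Yb, st⟩ := cross b1 ok (q := q) (y.b i) (by omega) (by omega)
  refine ⟨Y, _, he, ⟨hY, by omega, by omega, fun p p' e a b => ?_, fun p j e a b => ?_,
    fun p j e a b => ?_, fun p j e a b => ?_, fun p j e a b => ?_⟩, ?_⟩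
  iterate 5
    clear cc hc yc Yc
    rotate_left
  rotate_left
  · rw [Yb p a (by omega) (by omega), Yb p' (by omega) (by omega) (by omega), A p p' e a b]
  · by_cases hj : j = i
    · rw [hj, ← Yq]
      exact cg _ (by omega)
    · rw [Yb p (by omega) (by omega) (by omega), B p j e a b, hy j a (by omega) hj]
  · rw [Yb p (by omega) (by omega) (by omega), C p j e a b]
  · by_cases hj : j = i
    · rw [hj, ← Yq]
      exact cg _ (by omega)
    · rw [Yb p (by omega) (by omega) (by omega), D p j e a (by omega), hy j (by omega) (by omega) hj]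
  · rw [Yb p (by omega) (by omega) (by omega), E p j (by omega) a b]
  · convert st using 2
    rcases hq' with ⟨k1, k2⟩ | ⟨k1, k2⟩
    · rw [B q i k2 (by omega) (by omega), B (q - 1) (i + 1) (by omega) (by omega) (by omega),
        B (q + 1) (i - 1) (by omega) (by omega) (by omega)]
      by_cases hp : (i + x.c) % 2 = 0
      · rw [if_neg (by simp; omega), if_pos hp, if_pos (by omega)]
      · rw [if_pos (by simp; omega), if_neg hp, if_neg (by omega)]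
        rfl
    · rw [D q i k2 (by omega) (by omega), D (q - 1) (i - 1) (by omega) (by omega) (by omega),
        D (q + 1) (i + 1) (by omega) (by omega) (by omega), if_neg (by simp; omega)]
      by_cases hp : (i + x.c) % 2 = 0
      · rw [if_pos hp, if_pos (by omega)]
      · rw [if_neg hp, if_neg (by omega)]

theorem st_tp (b1 : SB1) (hx : x.Ok) (L : Lay m0 m1 G1 G2 x X h m (a + 1)) (hs : Stp (.t 1) x y e)
    (h1 : m + 1 ≤ x.n) (ha : 0 ≤ a) (g1 : G1 (m1 + a) = y.b 0) (g2 : G2 (m0 + a) = y.b 0) :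
    ∃ Y, Lay m0 m1 G1 G2 y Y h (m + 1) a ∧ Stp (.d (2 * h + a + m1 + x.n)) X Y [] := by
  obtain ⟨ok, nn, cc, A, B, C, D, E⟩ := L
  obtain ⟨-, yn, yc, yb, -⟩ := hs
  have hy : ∀ j : ℤ, x.b (j - 1) = y.b j := fun j => (yb _).symm.trans (cg _ (by omega))
  obtain ⟨Y, hY, Yn, Yc, YL, YH, st⟩ := cap b1 ok (q := 2 * h + a + m1 + x.n) (by omega) (by omega)
    (by
      rw [D _ (x.n - 1) (by omega) (by omega) (by omega), E _ (m0 + a) (by omega) (by omega) (by omega),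
        g2, ← hy 0]
      exact sh hx (by omega))
  refine ⟨Y, ⟨hY, by omega, by omega, fun p p' e a b => ?_, fun p j e a b => ?_,
    fun p j e a b => ?_, fun p j e a b => ?_, fun p j e a b => ?_⟩, st⟩ <;> clear cc Yc yc
  · rw [YL p a (by omega), YL p' (by omega) (by omega), A p p' (by omega) a b]
  · rw [YL p (by omega) (by omega)]
    by_cases hj : j = 0
    · rw [hj, ← g1]
      exact C _ _ (by omega) (by omega) (by omega)
    · rw [B p (j - 1) (by omega) (by omega) (by omega), hy]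
  · rw [YL p (by omega) (by omega), C p j (by omega) a (by omega)]
  · rw [YL p (by omega) (by omega), D p (j - 1) (by omega) (by omega) (by omega), hy]
  · rw [YH p (by omega) (by omega), E _ j (by omega) a (by omega)]

theorem st_tm (b1 : SB1) (hx : x.Ok) (L : Lay m0 m1 G1 G2 x X h m (a + 1))
    (hs : Stp (.t (-1)) x y e) (h1 : 1 ≤ m) (ha : 0 ≤ a) (g1 : G1 (m1 + a) = y.b 0)
    (g2 : G2 (m0 + a) = y.b 0) :
    ∃ Y, Lay m0 m1 G1 G2 y Y h (m + -1) a ∧ Stp (.d (h + m - 1)) X Y [] := by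
  obtain ⟨ok, nn, cc, A, B, C, D, E⟩ := L
  obtain ⟨-, yn, yc, yb, -⟩ := hs
  have hy : ∀ j : ℤ, x.b (j + 1) = y.b j := fun j => (yb _).symm.trans (cg _ (by omega))
  obtain ⟨Y, hY, Yn, Yc, YL, YH, st⟩ := cap b1 ok (q := h + m - 1) (by omega) (by omega)
    (by
      rw [B _ (0 + 1) (by omega) (by omega) (by omega), C _ (m1 + a) (by omega) (by omega) (by omega),
        g1, hy 0])
  have gE : ∀ p, p = X.n - (m0 + a) → X.b p = y.b 0 := fun p e =>
    (E p _ e (by omega) (by omega)).trans g2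
  refine ⟨Y, ⟨hY, by omega, by omega, fun p p' e a b => ?_, fun p j e a b => ?_,
    fun p j e a b => ?_, fun p j e a b => ?_, fun p j e a b => ?_⟩, st⟩ <;> clear cc Yc yc
  · rw [YL p a (by omega), YH p' (by omega) (by omega)]
    exact A p _ (by omega) a b
  · rw [YL p (by omega) (by omega), B p (j + 1) (by omega) (by omega) (by omega), hy]
  · rw [YH p (by omega) (by omega), C _ j (by omega) a (by omega)]
  · rw [YH p (by omega) (by omega)]
    by_cases hj : j = x.n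
    · rw [gE _ (by omega), ← hy, ← hy]
      exact (sh hx (by omega)).symm
    · rw [D _ (j + 1) (by omega) (by omega) (by omega), hy]
  · rw [YH p (by omega) (by omega), E _ j (by omega) a (by omega)]

theorem st_u1 (b1 : SB1) (L : Lay m0 m1 G1 G2 x X h m a) (hs : Stp (.u i) x y e) (h1 : i ≤ m) :
    ∃ Y, Lay m0 m1 G1 G2 y Y h (m + 2) a ∧ Stp (.u (h + m - i)) X Y [] := by
  obtain ⟨ok, nn, cc, A, B, C, D, E⟩ := L
  obtain ⟨i0, i1, yn, yc, yL, yH, -⟩ := hs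
  have hy : ∀ j : ℤ, i + 2 ≤ j → j ≤ y.n → x.b (j - 2) = y.b j := fun j a b =>
    (yH _ (by omega) (by omega)).symm.trans (cg _ (by omega))
  obtain ⟨Y, hY, Yn, Yc, Yq, YL, YH, st⟩ :=
    cup b1 ok (q := h + m - i) (y.b (i + 1)) (by omega) (by omega)
  refine ⟨Y, ⟨hY, by omega, by omega, fun p p' e a b => ?_, fun p j e a b => ?_,
    fun p j e a b => ?_, fun p j e a b => ?_, fun p j e a b => ?_⟩, st⟩ <;> clear cc Yc yc
  · rw [YL p a (by omega), YH p' (by omega) (by omega)]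
    exact A p _ (by omega) a b
  · rcases lt_trichotomy j (i + 1) with hj | hj | hj
    · rw [YH p (by omega) (by omega), B _ j (by omega) a (by omega), yL j a (by omega)]
    · rw [hj, ← Yq]
      exact cg _ (by omega)
    · rw [YL p (by omega) (by omega), B p (j - 2) (by omega) (by omega) (by omega),
        hy j (by omega) (by omega)]
  · rw [YH p (by omega) (by omega), C _ j (by omega) a b]
  · rw [YH p (by omega) (by omega), D _ (j - 2) (by omega) (by omega) (by omega), hy j (by omega) b]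
  · rw [YH p (by omega) (by omega), E _ j (by omega) a b]

theorem st_u2 (b1 : SB1) (L : Lay m0 m1 G1 G2 x X h m a) (hs : Stp (.u i) x y e) (h1 : m < i) :
    ∃ Y, Lay m0 m1 G1 G2 y Y h m a ∧ Stp (.u (2 * h + a + m1 + i)) X Y [] := by
  obtain ⟨ok, nn, cc, A, B, C, D, E⟩ := L
  obtain ⟨i0, i1, yn, yc, yL, yH, -⟩ := hs
  have hy : ∀ j : ℤ, i + 2 ≤ j → j ≤ y.n → x.b (j - 2) = y.b j := fun j a b =>
    (yH _ (by omega) (by omega)).symm.trans (cg _ (by omega))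
  obtain ⟨Y, hY, Yn, Yc, Yq, YL, YH, st⟩ :=
    cup b1 ok (q := 2 * h + a + m1 + i) (y.b (i + 1)) (by omega) (by omega)
  refine ⟨Y, ⟨hY, by omega, by omega, fun p p' e a b => ?_, fun p j e a b => ?_,
    fun p j e a b => ?_, fun p j e a b => ?_, fun p j e a b => ?_⟩, st⟩ <;> clear cc Yc yc
  · rw [YL p a (by omega), YL p' (by omega) (by omega), A p _ e a b]
  · rw [YL p (by omega) (by omega), B p j e a b, yL j a (by omega)]
  · rw [YL p (by omega) (by omega), C _ j e a b]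
  · rcases lt_trichotomy j (i + 1) with hj | hj | hj
    · rw [YL p (by omega) (by omega), D _ j e a (by omega), yL j (by omega) (by omega)]
    · rw [hj, ← Yq]
      exact cg _ (by omega)
    · rw [YH p (by omega) (by omega), D _ (j - 2) (by omega) (by omega) (by omega),
        hy j (by omega) b]
  · rw [YH p (by omega) (by omega), E _ j (by omega) a b]

theorem st_d1 (b1 : SB1) (L : Lay m0 m1 G1 G2 x X h m a) (hs : Stp (.d i) x y e) (h1 : i + 2 ≤ m) :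
    ∃ Y, Lay m0 m1 G1 G2 y Y h (m - 2) a ∧ Stp (.d (h + m - i - 2)) X Y [] := by
  obtain ⟨ok, nn, cc, A, B, C, D, E⟩ := L
  obtain ⟨i0, i1, yn, yc, yL, yH, -⟩ := hs
  obtain ⟨Y, hY, Yn, Yc, YL, YH, st⟩ := cap b1 ok (q := h + m - i - 2) (by omega) (by omega)
    (by
      rw [B _ (i + 2) (by omega) (by omega) (by omega), B _ i (by omega) (by omega) (by omega),
        ← yH i le_rfl i1, yL i i0 le_rfl])
  refine ⟨Y, ⟨hY, by omega, by omega, fun p p' e a b => ?_, fun p j e a b => ?_,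
    fun p j e a b => ?_, fun p j e a b => ?_, fun p j e a b => ?_⟩, st⟩ <;> clear cc Yc yc
  · rw [YL p a (by omega), YH p' (by omega) (by omega)]
    exact A p _ (by omega) a b
  · rcases le_total j i with hj | hj
    · rw [YH p (by omega) (by omega), B _ j (by omega) a (by omega), yL j a hj]
    · rw [YL p (by omega) (by omega), B p (j + 2) (by omega) (by omega) (by omega),
        yH j hj (by omega)]
  · rw [YH p (by omega) (by omega), C _ j (by omega) a b]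
  · rw [YH p (by omega) (by omega), D _ (j + 2) (by omega) (by omega) (by omega), yH j (by omega) b]
  · rw [YH p (by omega) (by omega), E _ j (by omega) a b]

theorem st_d2 (b1 : SB1) (L : Lay m0 m1 G1 G2 x X h m a) (hs : Stp (.d i) x y e) (h1 : m ≤ i) :
    ∃ Y, Lay m0 m1 G1 G2 y Y h m a ∧ Stp (.d (2 * h + a + m1 + i)) X Y [] := by
  obtain ⟨ok, nn, cc, A, B, C, D, E⟩ := L
  obtain ⟨i0, i1, yn, yc, yL, yH, -⟩ := hs
  obtain ⟨Y, hY, Yn, Yc, YL, YH, st⟩ := cap b1 ok (q := 2 * h + a + m1 + i) (by omega) (by omega)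
    (by
      rw [D _ i (by omega) (by omega) (by omega), D _ (i + 2) (by omega) (by omega) (by omega),
        ← yH i le_rfl i1, yL i i0 le_rfl])
  refine ⟨Y, ⟨hY, by omega, by omega, fun p p' e a b => ?_, fun p j e a b => ?_,
    fun p j e a b => ?_, fun p j e a b => ?_, fun p j e a b => ?_⟩, st⟩ <;> clear cc Yc yc
  · rw [YL p a (by omega), YL p' (by omega) (by omega), A p _ e a b]
  · rw [YL p (by omega) (by omega), B p j e a b, yL j a (by omega)]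
  · rw [YL p (by omega) (by omega), C _ j e a b]
  · rcases le_total j i with hj | hj
    · rw [YL p (by omega) (by omega), D _ j e a (by omega), yL j (by omega) hj]
    · rw [YH p (by omega) (by omega), D _ (j + 2) (by omega) (by omega) (by omega), yH j hj b]
  · rw [YH p (by omega) (by omega), E _ j (by omega) a b]

theorem st_m1 (b1 : SB1) (L : Lay m0 m1 G1 G2 x X h m a) (h1 : m + 1 ≤ x.n) :
    ∃ Y, Lay m0 m1 G1 G2 x Y (h + 1) (m + 1) a ∧ Stp (.u h) X Y [] := by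
  obtain ⟨ok, nn, cc, A, B, C, D, E⟩ := L
  obtain ⟨Y, hY, Yn, Yc, Yq, YL, YH, st⟩ := cup b1 ok (q := h) (x.b (m + 1)) (by omega) (by omega)
  refine ⟨Y, ⟨hY, by omega, by omega, fun p p' e a b => ?_, fun p j e a b => ?_,
    fun p j e a b => ?_, fun p j e a b => ?_, fun p j e a b => ?_⟩, st⟩ <;> clear cc Yc
  · rw [YH p' (by omega) (by omega)]
    by_cases hj : p = h + 1
    · rw [hj, Yq, D _ (m + 1) (by omega) (by omega) (by omega)]
    · rw [YL p a (by omega)]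
      exact A p _ (by omega) a (by omega)
  · by_cases hj : j = m + 1
    · rw [hj, ← Yq]
      exact cg _ (by omega)
    · rw [YH p (by omega) (by omega), B _ j (by omega) a (by omega)]
  · rw [YH p (by omega) (by omega), C _ j (by omega) a b]
  · rw [YH p (by omega) (by omega), D _ j (by omega) (by omega) b]
  · rw [YH p (by omega) (by omega), E _ j (by omega) a b]

theorem st_m2 (b1 : SB1) (L : Lay m0 m1 G1 G2 x X h m a) (h1 : 1 ≤ m) :
    ∃ Y, Lay m0 m1 G1 G2 x Y (h + 1) (m - 1) a ∧ Stp (.u (2 * h + a + m1 + m)) X Y [] := by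
  obtain ⟨ok, nn, cc, A, B, C, D, E⟩ := L
  obtain ⟨Y, hY, Yn, Yc, Yq, YL, YH, st⟩ :=
    cup b1 ok (q := 2 * h + a + m1 + m) (x.b (m - 1)) (by omega) (by omega)
  refine ⟨Y, ⟨hY, by omega, by omega, fun p p' e a b => ?_, fun p j e a b => ?_,
    fun p j e a b => ?_, fun p j e a b => ?_, fun p j e a b => ?_⟩, st⟩ <;> clear cc Yc
  · rw [YL p a (by omega)]
    by_cases hj : p = h + 1
    · rw [B p (m - 1) (by omega) (by omega) (by omega), ← Yq]
      exact cg _ (by omega)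
    · rw [YL p' (by omega) (by omega)]
      exact A p _ (by omega) a (by omega)
  · rw [YL p (by omega) (by omega), B _ j (by omega) a (by omega)]
  · rw [YL p (by omega) (by omega), C _ j (by omega) a b]
  · by_cases hj : j = m - 1
    · rw [hj, ← Yq]
      exact cg _ (by omega)
    · rw [YH p (by omega) (by omega), D _ j (by omega) (by omega) b]
  · rw [YH p (by omega) (by omega), E _ j (by omega) a b]

/-- the conclusion of the middle lemma -/
def Concl (m0 m1 : ℤ) (V : List L2) (x z : St) (E : List (ℕ × ℕ)) (n m m' c : ℤ) (S : ℤ → ℕ) :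
    Prop :=
  S 0 = z.b 0 ∧ S (nt (fg V)) = x.b 0 ∧ ∀ (G1 G2 : ℤ → ℕ) (X : St) (h : ℤ),
    (∀ j : ℤ, 0 ≤ j → j ≤ nt (fg V) → G1 (m1 + j) = S j ∧ G2 (m0 + j) = S j) →
    Lay m0 m1 G1 G2 x X h m (nt (fg V)) →
    ∃ Y, Run (trK m1 V n m h) X Y (swE (bsK V m c) E) ∧ Lay m0 m1 G1 G2 z Y (h + nm V) m' 0

theorem mid (b1 : SB1) (m0 m1 : ℤ) {z : St} {n' m' : ℤ} : ∀ (V : List L2) (x : St)
    (E : List (ℕ × ℕ)) (n m c : ℤ), x.n = n → c % 2 = x.c % 2 → V2 V n m n' m' →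
    Run (fg V) x z E → ∃ S, Concl m0 m1 V x z E n m m' c S
  | [], x, E, n, m, c, _, _, hv, ⟨_, hz, hE⟩ => by
    obtain ⟨-, -, -, rfl⟩ := hv
    subst hz hE
    exact ⟨fun _ => z.b 0, rfl, rfl, fun G1 G2 X h _ L =>
      ⟨X, ⟨L.ok, rfl, rfl⟩, by simpa [nm, nt, fg] using L⟩⟩
  | .l .r :: _, _, _, _, _, _, _, _, hv, _ => hv.elim
  | .l .x :: _, _, _, _, _, _, _, _, hv, _ => hv.elim
  | .l (.s i) :: V, x, E, n, m, c, hn, hc, hv, ⟨hx, y, e, E', hs, hr, hE⟩ => by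
    obtain ⟨v1, v2, v3, hv⟩ := hv
    obtain ⟨S, s1, s2, s3⟩ := mid b1 m0 m1 V y E' n m c (hs.2.1.trans hn) (hs.2.2.1 ▸ hc) hv hr
    refine ⟨S, s1, s2.trans (hs.2.2.2.1 0 (ndvd (by omega) (by omega) (by omega))),
      fun G1 G2 X h hG L => ?_⟩
    obtain ⟨Y, e0, he, L', st⟩ := st_s b1 L hs v1 (by omega) v3 hc
    obtain ⟨Z, r, LZ⟩ := s3 G1 G2 Y h hG L'
    subst he hE
    exact ⟨Z, ⟨L.ok, Y, _, _, st, r, rfl⟩, LZ⟩
  | .l (.u i) :: V, x, E, n, m, c, hn, hc, hv, ⟨hx, y, e, E', hs, hr, hE⟩ => by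
    obtain ⟨v1, v2, hv⟩ := hv
    obtain ⟨S, s1, s2, s3⟩ :=
      mid b1 m0 m1 V y E' (n + 2) _ c (hn ▸ hs.2.2.1) (hs.2.2.2.1 ▸ hc) hv hr
    refine ⟨S, s1, s2.trans (hs.2.2.2.2.1 0 le_rfl v1), fun G1 G2 X h hG L => ?_⟩
    have he : e = [] := hs.2.2.2.2.2.2
    subst he hE
    simp only [trK, bsK]
    split_ifs at s3 ⊢ with hi
    · obtain ⟨Y, L', st⟩ := st_u1 b1 L hs hi
      obtain ⟨Z, r, LZ⟩ := s3 G1 G2 Y h hG L'
      exact ⟨Z, ⟨L.ok, Y, _, _, st, r, rfl⟩, LZ⟩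
    · obtain ⟨Y, L', st⟩ := st_u2 b1 L hs (not_le.1 hi)
      obtain ⟨Z, r, LZ⟩ := s3 G1 G2 Y h hG L'
      exact ⟨Z, ⟨L.ok, Y, _, _, st, r, rfl⟩, LZ⟩
  | .l (.d i) :: V, x, E, n, m, c, hn, hc, hv, ⟨hx, y, e, E', hs, hr, hE⟩ => by
    obtain ⟨v1, v2, v3, hv⟩ := hv
    have yn := hs.2.2.1
    obtain ⟨S, s1, s2, s3⟩ :=
      mid b1 m0 m1 V y E' (n - 2) _ c (by omega) (hs.2.2.2.1 ▸ hc) hv hr
    refine ⟨S, s1, s2.trans (hs.2.2.2.2.1 0 le_rfl v1), fun G1 G2 X h hG L => ?_⟩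
    have he : e = [] := hs.2.2.2.2.2.2
    subst he hE
    simp only [trK, bsK]
    split_ifs at s3 ⊢ with hi
    · obtain ⟨Y, L', st⟩ := st_d1 b1 L hs (by omega)
      obtain ⟨Z, r, LZ⟩ := s3 G1 G2 Y h hG L'
      exact ⟨Z, ⟨L.ok, Y, _, _, st, r, rfl⟩, LZ⟩
    · obtain ⟨Y, L', st⟩ := st_d2 b1 L hs (not_lt.1 hi)
      obtain ⟨Z, r, LZ⟩ := s3 G1 G2 Y h hG L'
      exact ⟨Z, ⟨L.ok, Y, _, _, st, r, rfl⟩, LZ⟩
  | .m b :: V, x, E, n, m, c, hn, hc, hv, hr => by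
    obtain ⟨v1, v2, hv⟩ := hv
    have hb := v2b V hv
    obtain ⟨S, s1, s2, s3⟩ := mid b1 m0 m1 V x E n _ c hn hc hv hr
    refine ⟨S, s1, s2, fun G1 G2 X h hG L => ?_⟩
    have e : h + (nm (.m b :: V) : ℕ) = h + 1 + nm V := by
      simp only [nm]
      push_cast
      ring
    rw [e]
    simp only [trK, bsK]
    split_ifs at s3 hb ⊢ with hi
    · obtain ⟨Y, L', st⟩ := st_m1 b1 L (by omega)
      obtain ⟨Z, r, LZ⟩ := s3 G1 G2 Y _ hG L'
      exact ⟨Z, ⟨L.ok, Y, _, _, st, r, rfl⟩, LZ⟩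
    · obtain ⟨Y, L', st⟩ := st_m2 b1 L (by omega)
      obtain ⟨Z, r, LZ⟩ := s3 G1 G2 Y _ hG L'
      exact ⟨Z, ⟨L.ok, Y, _, _, st, r, rfl⟩, LZ⟩
  | .l (.t k) :: V, x, E, n, m, c, hn, hc, hv, ⟨hx, y, e, E', hs, hr, hE⟩ => by
    obtain ⟨v1, v2, v3, hk, hv⟩ := hv
    have hb := v2b V hv
    have yc := hs.2.2.1
    obtain ⟨S, s1, s2, s3⟩ :=
      mid b1 m0 m1 V y E' n _ (c + k) (hs.2.1.trans hn) (by omega) hv hr
    have hnt : (nt (fg (.l (.t k) :: V)) : ℤ) = nt (fg V) + 1 := by simp [nt, fg]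
    have ha : (0 : ℤ) ≤ nt (fg V) := Int.natCast_nonneg _
    refine ⟨fun j => if j = nt (fg V) + 1 then x.b 0 else S j, ?_⟩
    unfold Concl
    rw [hnt]
    refine ⟨(if_neg (by omega)).trans s1, if_pos rfl, fun G1 G2 X h hG L => ?_⟩
    have hG' : ∀ j : ℤ, 0 ≤ j → j ≤ nt (fg V) → G1 (m1 + j) = S j ∧ G2 (m0 + j) = S j :=
      fun j a b => by simpa only [if_neg (show j ≠ nt (fg V) + 1 by omega)] using hG j a (by omega)
    have g := hG' _ ha le_rfl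
    rw [s2] at g
    have he : e = [] := hs.2.2.2.2
    subst he hE hn
    simp only [trK, bsK]
    rcases hk with rfl | rfl
    · obtain ⟨Y, L', st⟩ := st_tp b1 hx L hs hb.2 ha g.1 g.2
      obtain ⟨Z, r, LZ⟩ := s3 G1 G2 Y h hG' L'
      exact ⟨Z, ⟨L.ok, Y, _, _, st, r, rfl⟩, LZ⟩
    · obtain ⟨Y, L', st⟩ := st_tm b1 hx L hs (by omega) ha g.1 g.2
      obtain ⟨Z, r, LZ⟩ := s3 G1 G2 Y h hG' L'
      exact ⟨Z, ⟨L.ok, Y, _, _, st, r, rfl⟩, LZ⟩

theorem snoc (b1 : SB1) {W : List Lt} {g : Lt} {X Y Z : St} (r : Run W X Y []) (hZ : Z.Ok)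
    (st : Stp g Y Z []) : Run (W ++ [g]) X Z [] :=
  b1.app.2 ⟨Y, [], [], r, ⟨b1.okr r, Z, [], [], st, ⟨hZ, rfl, rfl⟩, rfl⟩, rfl⟩

theorem cups_run (b1 : SB1) {a : ℤ} {X : St} (hX : X.Ok) (h0 : 0 ≤ a) (hn : a ≤ X.n) (g : ℤ → ℕ)
    (hg : g 0 = X.b a) : ∀ k : ℕ, ∃ Y, Run (cups k a) X Y [] ∧ Y.n = X.n + 2 * k ∧ Y.c = X.c ∧
      (∀ p, 0 ≤ p → p ≤ a → Y.b p = X.b p) ∧
      (∀ p j : ℤ, p = a + j ∨ p = a + 2 * k - j → 0 ≤ j → j ≤ k → Y.b p = g j) ∧
      ∀ p, a + 2 * k ≤ p → p ≤ Y.n → Y.b p = X.b (p - 2 * k)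
  | 0 => ⟨X, ⟨hX, rfl, rfl⟩, by simp, rfl, fun _ _ _ => rfl, fun p j e a b =>
      (cg _ (by omega)).trans (hg.symm.trans (cg _ (by omega))), fun p _ _ => by simp⟩
  | k + 1 => by
    obtain ⟨Y, r1, r2, r3, r4, r5, r6⟩ := cups_run b1 hX h0 hn g hg k
    obtain ⟨Q, hQ, qn, qc, qi, qL, qH, hq⟩ :=
      cup b1 (b1.okr r1) (q := a + k) (g (k + 1)) (by omega) (by omega)
    have hc : cups (k + 1) a = cups k a ++ [.u (a + k)] := by simp [cups, List.range_succ]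
    rw [hc]
    push_cast
    refine ⟨Q, snoc b1 r1 hQ hq, by omega, qc.trans r3, fun p s t => ?_, fun p j e s t => ?_,
      fun p s t => ?_⟩
    · rw [qL p s (by omega), r4 p s t]
    · by_cases hj : j = k + 1
      · rw [hj, ← qi]
        exact cg _ (by omega)
      · rcases e with e | e
        · rw [qL _ (by omega) (by omega), r5 p j (by omega) s (by omega)]
        · rw [qH _ (by omega) (by omega), r5 _ j (by omega) s (by omega)]
    · rw [qH _ (by omega) (by omega), r6 _ (by omega) (by omega)]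
      exact cg _ (by omega)

theorem caps_run (b1 : SB1) {J : ℤ} {X : St} (hX : X.Ok) : ∀ k : ℕ, (k : ℤ) ≤ J → J + k ≤ X.n →
    (∀ j : ℤ, 0 ≤ j → j ≤ k → X.b (J - j) = X.b (J + j)) →
    ∃ Y, Run (caps k J) X Y [] ∧ X.n = Y.n + 2 * k ∧ Y.c = X.c ∧
      (∀ p, 0 ≤ p → p ≤ J - k → Y.b p = X.b p) ∧
      ∀ p, J - k ≤ p → p ≤ Y.n → Y.b p = X.b (p + 2 * k)
  | 0, _, _, _ => ⟨X, ⟨hX, rfl, rfl⟩, by simp, rfl, fun _ _ _ => rfl, fun p _ _ => by simp⟩
  | k + 1, h1, h2, hs => by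
    push_cast at h1 h2 hs
    obtain ⟨Y, r1, r2, r3, r4, r5⟩ :=
      caps_run b1 hX k (by omega) (by omega) fun j s t => hs j s (by omega)
    obtain ⟨Q, hQ, qn, qc, qL, qH, hq⟩ := cap b1 (b1.okr r1) (q := J - 1 - k) (by omega) (by omega)
      (by
        rw [r4 _ (by omega) (by omega), r5 _ (by omega) (by omega)]
        exact (cg _ (by omega)).trans ((hs _ (by omega) le_rfl).trans (cg _ (by omega))))
    have hc : caps (k + 1) J = caps k J ++ [.d (J - 1 - k)] := by simp [caps, List.range_succ]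
    rw [hc]
    push_cast
    refine ⟨Q, snoc b1 r1 hQ hq, by omega, qc.trans r3, fun p s t => ?_, fun p s t => ?_⟩
    · rw [qL p s (by omega), r4 p s (by omega)]
    · rw [qH _ (by omega) (by omega), r5 _ (by omega) (by omega)]
      exact cg _ (by omega)

theorem per4 (b1 : SB1) {T : St} (hT : T.Ok) (hn : T.n = 8)
    (h : ∀ p, 0 ≤ p → p ≤ 4 → T.b p = T.b (p + 4)) (j : ℤ) : T.b (j + 4) = T.b j := by
  have e : ∀ p q : ℤ, (p - q) % 8 = 0 → T.b p = T.b q := fun p q s =>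
    b1.per hT (hn ▸ Int.dvd_of_emod_eq_zero s)
  rcases le_total (j % 8) 4 with s | s
  · rw [e j (j % 8) (by omega), h _ (by omega) s]
    exact e _ _ (by omega)
  · rw [e (j + 4) (j % 8 - 4) (by omega), h _ (by omega) (by omega)]
    exact e _ _ (by omega)

end Taaux

open Taaux in
theorem pTa (b1 : SB1) (_v : SV) : STa := by
  intro m0 m1 c V E hv ht hm ⟨b, hr⟩
  obtain ⟨z, E1, E2, r1, ⟨hz, x', e, E', ⟨zn, zc, zb, he⟩, ⟨hx, hx', hE'⟩, hE2⟩, hE⟩ := b1.app.1 hr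
  subst hx' he hE' hE2
  obtain rfl : E = E1 := by simpa using hE
  obtain ⟨S, s1, s2, s3⟩ := mid b1 m0 m1 V _ E _ m0 c rfl rfl hv r1
  rw [ht] at s2 s3
  rw [hm] at s3
  have n2 : ((m0 : ℤ) + m1) % 2 = 0 := hx.2.1
  have hc : c = 0 ∨ c = 1 := hx.2.2.1
  have top : b (m0 + m1) = b 0 := sh hx (zero_add _).symm
  simp only [Nat.cast_ofNat] at zn zc zb s2 s3
  have s0 : S 0 = b 0 := by rw [s1, zb, neg_zero]
  obtain ⟨Y0, hY0⟩ : ∃ Y0 : St, Y0 = ⟨8, c, fun j => S (4 - j % 4)⟩ := ⟨_, rfl⟩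
  have n0 : Y0.n = 8 := by rw [hY0]
  have c0 : Y0.c = c := by rw [hY0]
  have b0 : ∀ p j, j = 4 - p % 4 → Y0.b p = S j := fun p j e => by rw [hY0, e]
  have ok0 : Y0.Ok := ⟨by omega, by omega, by omega,
    fun j => (b0 _ _ (by omega)).trans (b0 j _ rfl).symm, fun h => by omega⟩
  obtain ⟨Y1, a1, a2, a3, a4, a5, a6⟩ := cups_run b1 (a := 4) ok0 (by omega) (by omega)
    (fun j => b (m0 + m1 - j)) (by rw [b0 4 4 (by omega), s2, sub_zero, top]) m1
  obtain ⟨Y2, e1, e2, e3, -, e5, e6⟩ := cups_run b1 (a := 0) (b1.okr a1) le_rfl (by omega) b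
    (by rw [a4 0 le_rfl (by omega), b0 0 4 (by omega), s2]) m0
  obtain ⟨Y3, ok3, st3⟩ := b1.ex_t (b1.okr e1) (by omega) (-(m0 : ℤ))
  obtain ⟨-, n3, c3, f3, -⟩ := id st3
  have g3 : ∀ p, Y3.b p = Y2.b (p + m0) := fun p => (cg _ (by omega)).trans (f3 _)
  obtain ⟨G1, hG1⟩ : ∃ G1 : ℤ → ℕ,
      G1 = fun j : ℤ => if j ≤ m1 then b (m0 + j) else S (j - m1) := ⟨_, rfl⟩
  obtain ⟨G2, hG2⟩ : ∃ G2 : ℤ → ℕ,
      G2 = fun j : ℤ => if j ≤ m0 then b (m0 - j) else S (j - m0) := ⟨_, rfl⟩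
  have g1a : ∀ j : ℤ, j ≤ m1 → G1 j = b (m0 + j) := fun j s => by rw [hG1]; exact if_pos s
  have g1b : ∀ j : ℤ, m1 < j → G1 j = S (j - m1) := fun j s => by
    rw [hG1]; exact if_neg (not_le.2 s)
  have g2a : ∀ j : ℤ, j ≤ m0 → G2 j = b (m0 - j) := fun j s => by rw [hG2]; exact if_pos s
  have g2b : ∀ j : ℤ, m0 < j → G2 j = S (j - m0) := fun j s => by
    rw [hG2]; exact if_neg (not_le.2 s)
  have lB : ∀ p i : ℤ, p = 0 + m0 - i → 0 ≤ i → i ≤ m0 → Y3.b p = b i := fun p i e s t => by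
    rw [g3, e5 _ i (by omega) s t]
  have lD : ∀ p i : ℤ, p = 2 * 0 + 4 + m1 + i → m0 ≤ i → i ≤ m0 + m1 → Y3.b p = b i :=
    fun p i e s t => by
      rw [g3, e6 _ (by omega) (by omega), a5 _ (m0 + m1 - i) (by omega) (by omega) (by omega)]
      exact cg _ (by omega)
  obtain ⟨Y, r, okY, nn, cc, A, B, C, D, F⟩ := s3 G1 G2 Y3 0 (fun j s t => by
      rcases eq_or_lt_of_le s with rfl | s
      · rw [g1a _ (by omega), g2a _ (by omega), s0]
        exact ⟨(cg _ (by omega)).trans top, cg _ (by omega)⟩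
      · rw [g1b _ (by omega), g2b _ (by omega)]
        exact ⟨cg _ (by omega), cg _ (by omega)⟩)
    ⟨ok3, by simp only; omega, by simp only; omega, fun p p' e s t => by
      rw [lB p m0 (by omega) (by omega) le_rfl, lD p' m0 (by omega) le_rfl (by omega)], lB,
      fun p j e s t => by
        rw [g3, e6 _ (by omega) (by omega)]
        rcases le_or_gt j m1 with u | u
        · rw [g1a j u, a5 _ (m1 - j) (by omega) (by omega) (by omega)]
          exact cg _ (by omega)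
        · rw [g1b j u, a4 _ (by omega) (by omega), b0 _ (j - m1) (by omega)],
      lD, fun p j e s t => by
        rw [g3]
        rcases le_or_gt j m0 with u | u
        · rw [g2a j u, sh (b1.okr e1) (q := m0 - j) (by omega),
            e5 _ (m0 - j) (by omega) (by omega) (by omega)]
        · rw [g2b j u, e6 _ (by omega) (by omega), a6 _ (by omega) (by omega),
            b0 _ (j - m0) (by omega)]⟩
  obtain ⟨T1, t1, t2, t3, t4, -⟩ := caps_run b1 (J := 8 + 2 * m1 + m0) okY m0 (by omega) (by omega)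
    fun j s t => by
      rw [D _ (m0 + m1 - j) (by omega) (by omega) (by omega),
        F _ (m0 - j) (by omega) (by omega) (by omega), g2a _ (by omega), zb]
      exact sh hz (by omega)
  obtain ⟨T2, u1, u2, u3, u4, u5⟩ := caps_run b1 (J := 4 + m1) (b1.okr t1) m1 (by omega) (by omega)
    fun j s t => by
      rw [t4 _ (by omega) (by omega), t4 _ (by omega) (by omega), B _ j (by omega) s t,
        C _ (m1 - j) (by omega) (by omega) (by omega), g1a _ (by omega), zb]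
      exact sh hz (by omega)
  have p2 := per4 b1 (b1.okr u1) (by omega) fun p s t => by
    rw [u4 p s (by omega), u5 _ (by omega) (by omega), t4 _ s (by omega), t4 _ (by omega) (by omega)]
    exact A p _ (by omega) s t
  obtain ⟨T3, okT, stT⟩ := b1.ex_t (b1.okr u1) (by omega) (m0 : ℤ)
  obtain ⟨-, nT, cT, fT, -⟩ := id stT
  have gT : ∀ p, T3.b p = T2.b (p - m0) := fun p => (cg _ (by omega)).trans (fT _)
  have nT' : T3.n = 8 := by omega
  have cT' : T3.c = c := by omega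
  have fin : Run (rotK m0 m1 V) T3 T3 (swE (bsK V m0 c) E) := by
    refine ⟨okT, Y0, [], _, ⟨nT', n0, c0.trans cT'.symm, fun j => ?_,
      fun j => (b0 _ _ (by omega)).trans (b0 j _ rfl).symm, rfl⟩, ?_, rfl⟩
    · rw [gT, gT, ← p2 (j - m0)]
      exact cg _ (by omega)
    · exact b1.app.2 ⟨T2, _, [], b1.app.2 ⟨T1, _, [], b1.app.2 ⟨Y, _, [], b1.app.2 ⟨Y2, [], _,
        b1.app.2 ⟨Y1, [], [], a1, e1, rfl⟩, ⟨b1.okr e1, Y3, [], _, st3, r, rfl⟩, rfl⟩, t1, rfl⟩,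
        u1, rfl⟩, ⟨b1.okr u1, T3, [], [], stT, ⟨okT, rfl, rfl⟩, rfl⟩, by simp [swE]⟩
  have eT : T3 = ⟨8, c, T3.b⟩ := by rw [← nT', ← cT']
  exact ⟨T3.b, eT ▸ fin⟩

end Pool.Agent.P.MP_5af56b_co.Kl
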