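import Pool.Agent.P.MP_5af56b_co.Kl.Stmt

namespace Pool.Agent.P.MP_5af56b_co.Kl

namespace Tbaux

variable {X Y : St} {e : List (ℕ × ℕ)} {p j k : ℤ}

lemma ndvd {n k : ℤ} (h0 : k ≠ 0) (h1 : k < n) (h2 : -n < k) : ¬ n ∣ k := by
  intro h
  exact h0 (Int.eq_zero_of_abs_lt_dvd h (abs_lt.mpr ⟨h2, h1⟩))

lemma cg (X : St) (h : j = k) : X.b j = X.b k := by rw [h]

lemma s_eq (st : Stp (.s p) X Y e) (h0 : j ≠ p) (h1 : j - p < X.n) (h2 : p - j < X.n)
    (h : j = k) : Y.b j = X.b k :=
  h ▸ st.2.2.2.1 j (ndvd (by omega) h1 (by omega))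

lemma u_lo (st : Stp (.u p) X Y e) (h0 : 0 ≤ j) (h1 : j ≤ p) (h : j = k) : Y.b j = X.b k :=
  h ▸ st.2.2.2.2.1 j h0 h1

lemma u_hi (st : Stp (.u p) X Y e) (h0 : p ≤ k) (h1 : k ≤ X.n) (h : j = k + 2) :
    Y.b j = X.b k :=
  h ▸ st.2.2.2.2.2.1 k h0 h1

lemma d_lo (st : Stp (.d p) X Y e) (h0 : 0 ≤ j) (h1 : j ≤ p) (h : j = k) : Y.b j = X.b k :=
  h ▸ st.2.2.2.2.1 j h0 h1

lemma d_hi (st : Stp (.d p) X Y e) (h0 : p ≤ j) (h1 : j ≤ Y.n) (h : k = j + 2) :
    Y.b j = X.b k :=
  h ▸ st.2.2.2.2.2.1 j h0 h1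

lemma d_eq (st : Stp (.d p) X Y e) (h0 : j = p) (h1 : k = p + 2) : X.b j = X.b k := by
  rw [← d_lo st (j := p) st.1 le_rfl h0.symm, d_hi st le_rfl st.2.1 h1]

lemma t_eq {r : ℤ} (st : Stp (.t r) X Y e) (h : j = k + r) : Y.b j = X.b k :=
  h ▸ st.2.2.2.1 k

lemma rng : ∀ {V : List L2} {n m n' m' : ℤ}, V2 V n m n' m' → 0 ≤ m ∧ m ≤ n
  | [], _, _, _, _, h => ⟨h.1, h.2.1⟩
  | .l (.s _) :: _, _, _, _, _, h => rng h.2.2.2
  | .l (.t _) :: _, _, _, _, _, h => ⟨h.2.1, h.2.2.1⟩
  | .l (.u _) :: _, _, _, _, _, h => by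
    have := rng h.2.2
    have := h.1
    have := h.2.1
    split_ifs at * <;> omega
  | .l (.d _) :: _, _, _, _, _, h => by
    have := rng h.2.2.2
    have := h.1
    have := h.2.1
    split_ifs at * <;> omega
  | .l .r :: _, _, _, _, _, h => h.elim
  | .l .x :: _, _, _, _, _, h => h.elim
  | .m _ :: _, _, _, _, _, h => ⟨h.1, h.2.1⟩

lemma run_cups (b1 : SB1) (a : ℤ) : ∀ (m : ℕ) {Y X : St} {E : List (ℕ × ℕ)},
    Run (cups m a) Y X E → 0 ≤ a → a ≤ Y.n → E = [] ∧ X.n = Y.n + 2 * m ∧ X.c = Y.c ∧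
      (∀ j, 0 ≤ j → j ≤ a → X.b j = Y.b j) ∧
      (∀ j, a ≤ j → j ≤ Y.n → X.b (j + 2 * m) = Y.b j) ∧
      ∀ j : ℤ, 0 ≤ j → j ≤ m → X.b (a + 2 * m - j) = X.b (a + j)
  | 0, Y, X, E, h, _, _ => by
    obtain ⟨-, rfl, rfl⟩ := h
    exact ⟨rfl, by simp, rfl, fun _ _ _ => rfl, fun _ _ _ => cg _ (by simp),
      fun j h0 h1 => cg _ (by omega)⟩
  | m + 1, Y, X, E, h, a0, a1 => by
    have e : cups (m + 1) a = cups m a ++ [Lt.u (a + m)] := by
      simp [cups, List.range_succ]
    rw [e] at h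
    obtain ⟨V, E1, E2, r1, r2, rfl⟩ := b1.app.mp h
    obtain ⟨rfl, hn, hc, h1, h3, h2⟩ := run_cups b1 a m r1 a0 a1
    obtain ⟨-, y, e, E', st, ⟨-, rfl, rfl⟩, rfl⟩ := r2
    obtain ⟨-, -, sn, sc, -, -, rfl⟩ := id st
    push_cast
    refine ⟨rfl, by omega, by omega, fun j j0 j1 => ?_, fun j j0 j1 => ?_, fun j j0 j1 => ?_⟩
    · rw [u_lo st j0 (by omega) rfl, h1 j j0 j1]
    · rw [u_hi st (k := j + 2 * m) (by omega) (by omega) (by omega), h3 j j0 j1]
    · rcases eq_or_lt_of_le j1 with rfl | j2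
      · exact cg _ (by omega)
      · rw [u_lo st (j := a + j) (by omega) (by omega) rfl, ← h2 j j0 (by omega),
          u_hi st (k := a + 2 * m - j) (by omega) (by omega) (by omega)]

lemma run_caps (b1 : SB1) (J : ℤ) : ∀ (m : ℕ) {Z Y : St} {E : List (ℕ × ℕ)},
    Run (caps m J) Z Y E → E = [] ∧ Z.n = Y.n + 2 * m ∧ Y.c = Z.c ∧
      (∀ j, 0 ≤ j → j ≤ J - m → Y.b j = Z.b j) ∧
      (∀ j, J - m ≤ j → j ≤ Y.n → Y.b j = Z.b (j + 2 * m)) ∧
      ∀ k : ℤ, 0 ≤ k → k ≤ m → Z.b (J - k) = Z.b (J + k)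
  | 0, Z, Y, E, h => by
    obtain ⟨-, rfl, rfl⟩ := h
    exact ⟨rfl, by simp, rfl, fun _ _ _ => rfl, fun _ _ _ => cg _ (by simp),
      fun j h0 h1 => cg _ (by omega)⟩
  | m + 1, Z, Y, E, h => by
    have e : caps (m + 1) J = caps m J ++ [Lt.d (J - 1 - m)] := by
      simp [caps, List.range_succ]
    rw [e] at h
    obtain ⟨V, E1, E2, r1, r2, rfl⟩ := b1.app.mp h
    obtain ⟨rfl, hn, hc, h1, h3, h2⟩ := run_caps b1 J m r1
    obtain ⟨-, y, e, E', st, ⟨-, rfl, rfl⟩, rfl⟩ := r2
    obtain ⟨s0, s1, sn, sc, -, -, rfl⟩ := id st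
    push_cast
    refine ⟨rfl, by omega, by omega, fun j j0 j1 => ?_, fun j j0 j1 => ?_, fun j j0 j1 => ?_⟩
    · rw [d_lo st j0 (by omega) rfl, h1 j j0 (by omega)]
    · rw [d_hi st (by omega) j1 rfl, h3 _ (by omega) (by omega)]
      exact cg _ (by omega)
    · rcases eq_or_lt_of_le j1 with rfl | j2
      · rw [← h1 _ (by omega) (by omega), d_eq st (by omega) rfl, h3 _ (by omega) (by omega)]
        exact cg _ (by omega)
      · exact h2 j j0 (by omega)

/-- the labels that persist -/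
structure Pe (m0 m1 n m h a n' m' H : ℤ) (X Z : St) : Prop where
  wd : Z.n = 2 * H + n' + m0 + m1
  co : Z.c = X.c
  p1 : ∀ j, 0 ≤ j → j ≤ h → Z.b j = X.b j
  p2 : ∀ j, 0 ≤ j → j ≤ m1 + h → Z.b (H + m' + j) = X.b (h + m + a + j)
  p3 : ∀ j, 0 ≤ j → j ≤ m0 → Z.b (2 * H + m1 + n' + j) = X.b (2 * h + 2 * a + m1 + n + j)

lemma Pe.step {m0 m1 n m h a n1 k1 h1 a1 n' m' H : ℤ} {Z : St}
    (q : Pe m0 m1 n1 k1 h1 a1 n' m' H Y Z) (hh : h ≤ h1) (c : Y.c = X.c)
    (p1 : ∀ j, 0 ≤ j → j ≤ h → Y.b j = X.b j)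
    (p2 : ∀ j, 0 ≤ j → j ≤ m1 + h → Y.b (h1 + k1 + a1 + j) = X.b (h + m + a + j))
    (p3 : ∀ j, 0 ≤ j → j ≤ m0 →
      Y.b (2 * h1 + 2 * a1 + m1 + n1 + j) = X.b (2 * h + 2 * a + m1 + n + j)) :
    Pe m0 m1 n m h a n' m' H X Z :=
  ⟨q.wd, q.co.trans c, fun j a b => (q.p1 j a (by omega)).trans (p1 j a b),
    fun j a b => (q.p2 j a (by omega)).trans (p2 j a b), fun j a b => (q.p3 j a b).trans (p3 j a b)⟩

lemma pers {m0 m1 n' m' H : ℤ} (h0 : 0 ≤ m0) (h1 : 0 ≤ m1) : ∀ (V : List L2) {n m h : ℤ}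
    {X Z : St} {E : List (ℕ × ℕ)}, V2 V n m n' m' → 0 ≤ h → h + nm V = H →
    X.n = 2 * h + 2 * nt (fg V) + n + m0 + m1 → Run (trK m1 V n m h) X Z E →
      Pe m0 m1 n m h (nt (fg V)) n' m' H X Z
  | [], n, m, h, X, Z, E, hv, hh, hH, hn, hr => by
    obtain ⟨-, rfl, -⟩ := hr
    obtain ⟨-, -, rfl, rfl⟩ := hv
    simp only [nm, fg, nt, Nat.cast_zero] at hH hn ⊢
    exact ⟨by omega, rfl, fun _ _ _ => rfl, fun _ _ _ => cg _ (by omega),
      fun _ _ _ => cg _ (by omega)⟩
  | .l (.s i) :: V, n, m, h, X, Z, E, hv, hh, hH, hn, hr => by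
    obtain ⟨v1, v2, v3, v4⟩ := hv
    have := rng v4
    obtain ⟨-, Y, e, E', st, hr', -⟩ := hr
    simp only [nm, fg, nt] at hH hn ⊢
    obtain ⟨-, sn, sc, -⟩ := id st
    refine (pers h0 h1 V v4 hh hH (by omega) hr').step le_rfl sc (fun j a b => ?_)
      (fun j a b => ?_) fun j a b => ?_
    all_goals refine s_eq st ?_ ?_ ?_ rfl <;> split_ifs <;> omega
  | .l (.t k) :: V, n, m, h, X, Z, E, hv, hh, hH, hn, hr => by
    obtain ⟨v1, v2, v3, v4, v5⟩ := hv
    have := rng v5
    obtain ⟨-, Y, e, E', st, hr', -⟩ := hr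
    simp only [nm, fg, nt] at hH hn ⊢
    push_cast at hn ⊢
    obtain ⟨-, -, sn, sc, -⟩ := id st
    refine (pers h0 h1 V v5 hh hH (by omega) hr').step le_rfl sc (fun j a b => ?_)
      (fun j a b => ?_) fun j a b => ?_
    · refine d_lo st a ?_ rfl
      split_ifs <;> omega
    · rcases v4 with rfl | rfl
      · rw [if_pos rfl] at st
        exact d_lo st (by omega) (by omega) (by omega)
      · rw [if_neg (by norm_num)] at st
        exact d_hi st (by omega) (by omega) (by omega)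
    · exact d_hi st (by split_ifs <;> omega) (by omega) (by omega)
  | .l (.u i) :: V, n, m, h, X, Z, E, hv, hh, hH, hn, hr => by
    obtain ⟨v1, v2, v3⟩ := hv
    have := rng v3
    simp only [nm, fg, nt, trK] at hH hn hr ⊢
    split_ifs at hr v3 this with c
    all_goals
      obtain ⟨-, Y, e, E', st, hr', -⟩ := hr
      obtain ⟨-, -, sn, sc, -⟩ := id st
      refine (pers h0 h1 V v3 hh hH (by omega) hr').step le_rfl sc
        (fun j a b => u_lo st a (by omega) rfl) (fun j a b => ?_)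
        fun j a b => u_hi st (by omega) (by omega) (by omega)
    · exact u_hi st (by omega) (by omega) (by omega)
    · exact u_lo st (by omega) (by omega) (by omega)
  | .l (.d i) :: V, n, m, h, X, Z, E, hv, hh, hH, hn, hr => by
    obtain ⟨v1, v2, v3, v4⟩ := hv
    have := rng v4
    simp only [nm, fg, nt, trK] at hH hn hr ⊢
    split_ifs at hr v4 this with c
    all_goals
      obtain ⟨-, Y, e, E', st, hr', -⟩ := hr
      obtain ⟨-, -, sn, sc, -⟩ := id st
      refine (pers h0 h1 V v4 hh hH (by omega) hr').step le_rfl sc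
        (fun j a b => d_lo st a (by omega) rfl) (fun j a b => ?_)
        fun j a b => d_hi st (by omega) (by omega) (by omega)
    · exact d_hi st (by omega) (by omega) (by omega)
    · exact d_lo st (by omega) (by omega) (by omega)
  | .l .r :: _, _, _, _, _, _, _, hv, _, _, _, _ => hv.elim
  | .l .x :: _, _, _, _, _, _, _, hv, _, _, _, _ => hv.elim
  | .m b :: V, n, m, h, X, Z, E, hv, hh, hH, hn, hr => by
    obtain ⟨v1, v2, v3⟩ := hv
    have := rng v3
    simp only [nm, fg, trK] at hH hn hr ⊢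
    push_cast at hH
    split_ifs at hr v3 this with c
    all_goals
      obtain ⟨-, Y, e, E', st, hr', -⟩ := hr
      obtain ⟨-, -, sn, sc, -⟩ := id st
      refine (pers h0 h1 V v3 (by omega) (by omega) (by omega) hr').step (by omega) sc
        (fun j a b => u_lo st a (by omega) rfl) (fun j a b => ?_)
        fun j a b => u_hi st (by omega) (by omega) (by omega)
    · exact u_hi st (by omega) (by omega) (by omega)
    · exact u_lo st (by omega) (by omega) (by omega)

/-- the relation between the big state and the small state -/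
structure Iv (m1 n m h a cc : ℤ) (X x : St) : Prop where
  ok : x.Ok
  wd : x.n = n
  co : x.c = cc % 2
  c1 : (X.c + h + m - cc) % 2 = 0
  c2 : (h + m + a + m1) % 2 = 0
  l : ∀ i, 0 ≤ i → i ≤ m → x.b i = X.b (h + m - i)
  r : ∀ i, m ≤ i → i ≤ n → x.b i = X.b (2 * h + a + m1 + i)
  lam : ∀ j, 0 ≤ j → j ≤ a → X.b (h + m + j) = X.b (2 * h + a + m1 + n + j)

lemma swE_cons (b : Bool) (bs : List Bool) (e : ℕ × ℕ) (E : List (ℕ × ℕ)) :
    swE (b :: bs) (e :: E) = (if b then e.swap else e) :: swE bs E := rfl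

lemma main (b1 : SB1) {m0 m1 n' m' H : ℤ} (h0 : 0 ≤ m0) (h1 : 0 ≤ m1) {Z : St}
    (hz : ∀ j, 0 ≤ j → j ≤ H → Z.b j = Z.b (H + m' + (m1 + j))) : ∀ (V : List L2)
    {n m h cc : ℤ} {X x : St} {E : List (ℕ × ℕ)}, V2 V n m n' m' → 0 ≤ h → h + nm V = H →
    X.n = 2 * h + 2 * nt (fg V) + n + m0 + m1 → Run (trK m1 V n m h) X Z E →
    Iv m1 n m h (nt (fg V)) cc X x →
      ∃ z E0 c', Run (fg V) x z E0 ∧ E = swE (bsK V m cc) E0 ∧ Iv m1 n' m' H 0 c' Z z
  | [], n, m, h, cc, X, x, E, hv, hh, hH, hn, hr, iv => by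
    obtain ⟨-, rfl, rfl⟩ := hr
    obtain ⟨-, -, rfl, rfl⟩ := hv
    simp only [nm, fg, nt, Nat.cast_zero, add_zero] at hH iv
    subst hH
    exact ⟨x, [], cc, ⟨iv.ok, rfl, rfl⟩, rfl, iv⟩
  | .l (.s i) :: V, n, m, h, cc, X, x, E, hv, hh, hH, hn, hr, iv => by
    obtain ⟨v1, v2, v3, v4⟩ := hv
    have := rng v4
    simp only [nm, fg, nt, trK, bsK] at hH hn hr iv ⊢
    have := iv.wd
    have := iv.co
    have := iv.c1
    have := iv.c2
    obtain ⟨-, Y, e, E', st, hr', rfl⟩ := hr
    obtain ⟨-, sn, sc, -, he⟩ := id st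
    generalize hp : (if i < m then h + m - i else 2 * h + nt (fg V) + m1 + i) = p at st he
    have hp' : (i < m ∧ p = h + m - i) ∨ (m < i ∧ p = 2 * h + nt (fg V) + m1 + i) := by
      split_ifs at hp <;> omega
    obtain ⟨y, oky, yn, yc, yk, yb⟩ := b1.ex_s iv.ok (by omega) i (Y.b p)
    have yb' : ∀ j, 0 ≤ j → j ≤ n → j ≠ i → y.b j = x.b j := fun j a b c =>
      yb j (ndvd (by omega) (by omega) (by omega))
    obtain ⟨z, E0, c', rz, rfl, zb⟩ := main b1 h0 h1 hz V (x := y) (cc := cc) v4 hh hH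
      (by omega) hr'
      ⟨oky, by omega, by omega, by omega, iv.c2, fun j a b => by
        rcases eq_or_ne j i with rfl | c
        · rw [yk]; exact cg _ (by omega)
        · rw [yb' j a (by omega) c, iv.l j a b]
          exact (s_eq st (by omega) (by omega) (by omega) rfl).symm, fun j a b => by
        rcases eq_or_ne j i with rfl | c
        · rw [yk]; exact cg _ (by omega)
        · rw [yb' j (by omega) b c, iv.r j a b]
          exact (s_eq st (by omega) (by omega) (by omega) rfl).symm, fun j a b => by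
        rw [s_eq st (by omega) (by omega) (by omega) rfl, iv.lam j a b]
        exact (s_eq st (by omega) (by omega) (by omega) rfl).symm⟩
    refine ⟨z, _, c', ⟨iv.ok, y, _, E0, ⟨by omega, yn, yc, yb, rfl⟩, rz, rfl⟩, ?_, zb⟩
    rw [he, List.singleton_append, List.singleton_append, swE_cons, yk]
    congr 1
    rcases hp' with ⟨c, rfl⟩ | ⟨c, rfl⟩
    · rw [iv.l i (by omega) (by omega), iv.l (i - 1) (by omega) (by omega),
        iv.l (i + 1) (by omega) (by omega)]
      by_cases c3 : (i + cc) % 2 = 1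
      · rw [if_neg (by omega), if_neg (show ¬ (i + x.c) % 2 = 0 by omega),
          if_pos (by simp [c, c3])]
        exact Prod.ext (cg _ (by omega)) (cg _ (by omega))
      · rw [if_pos (by omega), if_pos (show (i + x.c) % 2 = 0 by omega), if_neg (by simp [c3])]
    · rw [iv.r i (by omega) (by omega), iv.r (i - 1) (by omega) (by omega),
        iv.r (i + 1) (by omega) (by omega), if_neg (show ¬ decide _ = true by simp; omega)]
      exact if_congr (by omega) rfl (Prod.ext (cg _ (by omega)) (cg _ (by omega)))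
  | .l (.t k) :: V, n, m, h, cc, X, x, E, hv, hh, hH, hn, hr, iv => by
    obtain ⟨v1, v2, v3, v4, v5⟩ := hv
    have := rng v5
    simp only [nm, fg, nt, trK, bsK] at hH hn hr iv ⊢
    have := iv.wd
    have := iv.co
    have := iv.c1
    have := iv.c2
    obtain ⟨-, Y, e, E', st, hr', rfl⟩ := hr
    obtain ⟨-, -, sn, sc, -, -, rfl⟩ := id st
    obtain ⟨y, oky, sy⟩ := b1.ex_t iv.ok (by omega) k
    obtain ⟨-, yn, yc, -⟩ := id sy
    have yp : y.b n = y.b 0 := by
      have := oky.2.2.2.1 0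
      rwa [show 0 + y.n = n by omega] at this
    have hl := iv.lam 1 (by omega) (by omega)
    suffices hI : Iv m1 n (m + k) h (nt (fg V)) (cc + k) Y y by
      obtain ⟨z, E0, c', rz, rfl, zb⟩ := main b1 h0 h1 hz V v5 hh hH (by omega) hr' hI
      exact ⟨z, E0, c', ⟨iv.ok, y, _, E0, sy, rz, rfl⟩, rfl, zb⟩
    rcases v4 with rfl | rfl
    · rw [if_pos rfl] at st
      have a1 : ∀ j, m + 1 ≤ j → j ≤ n → y.b j = X.b (2 * h + nt (fg V) + m1 + j) :=
        fun j a b => by
          rw [t_eq sy (k := j - 1) (by omega), iv.r _ (by omega) (by omega)]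
          exact cg _ (by omega)
      refine ⟨oky, by omega, by omega, by omega, by omega, fun j a b => ?_, fun j a b => ?_,
        fun j a b => ?_⟩
      · rw [d_lo st (by omega) (by omega) rfl]
        rcases a.eq_or_lt with rfl | c
        · rw [← yp, a1 n (by omega) le_rfl, d_eq st rfl rfl]
          exact (cg _ (by omega)).trans (hl.symm.trans (cg _ (by omega)))
        · rw [t_eq sy (k := j - 1) (by omega), iv.l _ (by omega) (by omega)]
          exact cg _ (by omega)
      · rw [a1 j a b, d_lo st (by omega) (by omega) rfl]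
      · rw [d_lo st (k := h + m + (j + 1)) (by omega) (by omega) (by omega),
          iv.lam _ (by omega) (by omega)]
        exact (d_hi st (by omega) (by omega) (by omega)).symm
    · rw [if_neg (by norm_num)] at st
      have a1 : ∀ j, 0 ≤ j → j + 1 ≤ m → y.b j = X.b (h + m - 1 - j) := fun j a b => by
        rw [t_eq sy (k := j + 1) (by omega), iv.l _ (by omega) (by omega)]
        exact cg _ (by omega)
      refine ⟨oky, by omega, by omega, by omega, by omega, fun j a b => ?_, fun j a b => ?_,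
        fun j a b => ?_⟩
      · rw [a1 j a (by omega)]
        exact (d_lo st (by omega) (by omega) (by omega)).symm
      · rw [d_hi st (by omega) (by omega) rfl]
        rcases b.eq_or_lt with rfl | c
        · rw [yp, a1 0 le_rfl (by omega), d_eq st (by omega) rfl]
          exact (cg _ (by omega)).trans (hl.trans (cg _ (by omega)))
        · rw [t_eq sy (k := j + 1) (by omega), iv.r _ (by omega) (by omega)]
          exact cg _ (by omega)
      · rw [d_hi st (k := h + m + (j + 1)) (by omega) (by omega) (by omega),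
          iv.lam _ (by omega) (by omega)]
        exact (d_hi st (by omega) (by omega) (by omega)).symm
  | .l (.u i) :: V, n, m, h, cc, X, x, E, hv, hh, hH, hn, hr, iv => by
    obtain ⟨v1, v2, v3⟩ := hv
    have := rng v3
    simp only [nm, fg, nt, trK, bsK] at hH hn hr iv ⊢
    have := iv.wd
    have := iv.co
    have := iv.c1
    have := iv.c2
    split_ifs at * with c
    · obtain ⟨-, Y, e, E', st, hr', rfl⟩ := hr
      obtain ⟨-, -, sn, sc, -, -, rfl⟩ := id st
      obtain ⟨y, oky, sy, yk⟩ := b1.ex_u iv.ok i (Y.b (h + m - i + 1)) v1 (by omega)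
      obtain ⟨-, -, yn, yc, -⟩ := id sy
      obtain ⟨z, E0, c', rz, rfl, zb⟩ := main b1 h0 h1 hz V (x := y) (cc := cc) v3 hh hH
        (by omega) hr'
        ⟨oky, by omega, by omega, by omega, by omega, fun j a b => by
          rcases lt_trichotomy j (i + 1) with d | rfl | d
          · rw [u_lo sy a (by omega) rfl, iv.l j a (by omega)]
            exact (u_hi st (by omega) (by omega) (by omega)).symm
          · rw [yk]; exact cg _ (by omega)
          · rw [u_hi sy (k := j - 2) (by omega) (by omega) (by omega),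
              iv.l _ (by omega) (by omega)]
            exact (u_lo st (by omega) (by omega) (by omega)).symm, fun j a b => by
          rw [u_hi sy (k := j - 2) (by omega) (by omega) (by omega), iv.r _ (by omega) (by omega)]
          exact (u_hi st (by omega) (by omega) (by omega)).symm, fun j a b => by
          rw [u_hi st (k := h + m + j) (by omega) (by omega) (by omega), iv.lam j a b]
          exact (u_hi st (by omega) (by omega) (by omega)).symm⟩
      exact ⟨z, E0, c', ⟨iv.ok, y, _, E0, sy, rz, rfl⟩, rfl, zb⟩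
    · obtain ⟨-, Y, e, E', st, hr', rfl⟩ := hr
      obtain ⟨-, -, sn, sc, -, -, rfl⟩ := id st
      obtain ⟨y, oky, sy, yk⟩ :=
        b1.ex_u iv.ok i (Y.b (2 * h + nt (fg V) + m1 + i + 1)) v1 (by omega)
      obtain ⟨-, -, yn, yc, -⟩ := id sy
      obtain ⟨z, E0, c', rz, rfl, zb⟩ := main b1 h0 h1 hz V (x := y) (cc := cc) v3 hh hH
        (by omega) hr'
        ⟨oky, by omega, by omega, by omega, by omega, fun j a b => by
          rw [u_lo sy a (by omega) rfl, iv.l j a b]
          exact (u_lo st (by omega) (by omega) rfl).symm, fun j a b => by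
          rcases lt_trichotomy j (i + 1) with d | rfl | d
          · rw [u_lo sy (by omega) (by omega) rfl, iv.r j a (by omega)]
            exact (u_lo st (by omega) (by omega) rfl).symm
          · rw [yk]; exact cg _ (by omega)
          · rw [u_hi sy (k := j - 2) (by omega) (by omega) (by omega),
              iv.r _ (by omega) (by omega)]
            exact (u_hi st (by omega) (by omega) (by omega)).symm, fun j a b => by
          rw [u_lo st (by omega) (by omega) rfl, iv.lam j a b]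
          exact (u_hi st (by omega) (by omega) (by omega)).symm⟩
      exact ⟨z, E0, c', ⟨iv.ok, y, _, E0, sy, rz, rfl⟩, rfl, zb⟩
  | .l (.d i) :: V, n, m, h, cc, X, x, E, hv, hh, hH, hn, hr, iv => by
    obtain ⟨v1, v2, v3, v4⟩ := hv
    have := rng v4
    simp only [nm, fg, nt, trK, bsK] at hH hn hr iv ⊢
    have := iv.wd
    have := iv.co
    have := iv.c1
    have := iv.c2
    split_ifs at * with c
    · obtain ⟨-, Y, e, E', st, hr', rfl⟩ := hr
      obtain ⟨-, -, sn, sc, -, -, rfl⟩ := id st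
      obtain ⟨y, oky, sy⟩ := b1.ex_d iv.ok i v1 (by omega) (by
        rw [iv.l _ v1 (by omega), iv.l _ (by omega) (by omega)]
        exact (d_eq st (by omega) (by omega)).symm)
      obtain ⟨-, -, yn, yc, -⟩ := id sy
      obtain ⟨z, E0, c', rz, rfl, zb⟩ := main b1 h0 h1 hz V (x := y) (cc := cc) v4 hh hH
        (by omega) hr'
        ⟨oky, by omega, by omega, by omega, by omega, fun j a b => by
          rcases le_total j i with d | d
          · rw [d_lo sy a d rfl, iv.l j a (by omega)]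
            exact (d_hi st (by omega) (by omega) (by omega)).symm
          · rw [d_hi sy d (by omega) rfl, iv.l _ (by omega) (by omega)]
            exact (d_lo st (by omega) (by omega) (by omega)).symm, fun j a b => by
          rw [d_hi sy (by omega) (by omega) rfl, iv.r _ (by omega) (by omega)]
          exact (d_hi st (by omega) (by omega) (by omega)).symm, fun j a b => by
          rw [d_hi st (k := h + m + j) (by omega) (by omega) (by omega), iv.lam j a b]
          exact (d_hi st (by omega) (by omega) (by omega)).symm⟩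
      exact ⟨z, E0, c', ⟨iv.ok, y, _, E0, sy, rz, rfl⟩, rfl, zb⟩
    · obtain ⟨-, Y, e, E', st, hr', rfl⟩ := hr
      obtain ⟨-, -, sn, sc, -, -, rfl⟩ := id st
      obtain ⟨y, oky, sy⟩ := b1.ex_d iv.ok i v1 (by omega) (by
        rw [iv.r _ (by omega) (by omega), iv.r _ (by omega) (by omega)]
        exact d_eq st rfl (by omega))
      obtain ⟨-, -, yn, yc, -⟩ := id sy
      obtain ⟨z, E0, c', rz, rfl, zb⟩ := main b1 h0 h1 hz V (x := y) (cc := cc) v4 hh hH
        (by omega) hr'
        ⟨oky, by omega, by omega, by omega, by omega, fun j a b => by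
          rw [d_lo sy a (by omega) rfl, iv.l j a b]
          exact (d_lo st (by omega) (by omega) rfl).symm, fun j a b => by
          rcases le_total j i with d | d
          · rw [d_lo sy (by omega) d rfl, iv.r j a (by omega)]
            exact (d_lo st (by omega) (by omega) rfl).symm
          · rw [d_hi sy d (by omega) rfl, iv.r _ (by omega) (by omega)]
            exact (d_hi st (by omega) (by omega) (by omega)).symm, fun j a b => by
          rw [d_lo st (by omega) (by omega) rfl, iv.lam j a b]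
          exact (d_hi st (by omega) (by omega) (by omega)).symm⟩
      exact ⟨z, E0, c', ⟨iv.ok, y, _, E0, sy, rz, rfl⟩, rfl, zb⟩
  | .l .r :: _, _, _, _, _, _, _, _, hv, _, _, _, _, _ => hv.elim
  | .l .x :: _, _, _, _, _, _, _, _, hv, _, _, _, _, _ => hv.elim
  | .m b :: V, n, m, h, cc, X, x, E, hv, hh, hH, hn, hr, iv => by
    obtain ⟨v1, v2, v3⟩ := hv
    have := rng v3
    simp only [nm, fg, trK, bsK] at hH hn hr iv ⊢
    have := iv.wd
    have := iv.co
    have := iv.c1
    have := iv.c2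
    push_cast at hH
    split_ifs at * with c
    all_goals
      obtain ⟨-, Y, e, E', st, hr', rfl⟩ := hr
      obtain ⟨-, -, sn, sc, -, -, rfl⟩ := id st
      have q := pers (H := H) h0 h1 V v3 (by omega) (by omega) (by omega) hr'
      have mu := (q.p1 (h + 1) (by omega) le_rfl).symm.trans ((hz _ (by omega) (by omega)).trans
        (q.p2 _ (by omega) le_rfl))
      refine main b1 h0 h1 hz V v3 (by omega) (by omega) (by omega) hr'
        ⟨iv.ok, iv.wd, iv.co, by omega, by omega, fun j a b => ?_, fun j a b => ?_,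
          fun j a b => ?_⟩
    · rcases b.eq_or_lt with rfl | d
      · rw [iv.r _ (by omega) (by omega), cg Y (k := h + 1) (by omega), mu]
        exact (u_hi st (by omega) (by omega) (by omega)).symm
      · rw [iv.l j a (by omega)]
        exact (u_hi st (by omega) (by omega) (by omega)).symm
    · rw [iv.r j (by omega) b]
      exact (u_hi st (by omega) (by omega) (by omega)).symm
    · rw [u_hi st (k := h + m + j) (by omega) (by omega) (by omega), iv.lam j a b]
      exact (u_hi st (by omega) (by omega) (by omega)).symm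
    · rw [iv.l j a (by omega)]
      exact (u_lo st (by omega) (by omega) (by omega)).symm
    · rcases a.eq_or_lt with rfl | d
      · rw [iv.l _ (by omega) (by omega), ← u_lo st (j := h + 1) (by omega) (by omega) (by omega),
          mu]
        exact cg _ (by omega)
      · rw [iv.r j (by omega) b]
        exact (u_hi st (by omega) (by omega) (by omega)).symm
    · rw [u_lo st (k := h + m + j) (by omega) (by omega) (by omega), iv.lam j a b]
      exact (u_hi st (by omega) (by omega) (by omega)).symm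

end Tbaux

open Tbaux in
theorem pTb (b1 : SB1) (_v : SV) : STb := by
  intro m0 m1 c V E' hm hv ha hb ⟨b, h⟩
  obtain ⟨okS, Y0, e0, E0, ⟨-, n0, c0, p0, p1, rfl⟩, g6, rfl⟩ := h
  obtain ⟨W2, _, E6, g5, h6, rfl⟩ := b1.app.mp g6
  obtain ⟨W1, _, E5, g4, h5, rfl⟩ := b1.app.mp g5
  obtain ⟨Z, _, E4, g3, h4, rfl⟩ := b1.app.mp g4
  obtain ⟨Y2, _, E3, g2, h3, rfl⟩ := b1.app.mp g3
  obtain ⟨Y1, E1, E2, h1, h2, rfl⟩ := b1.app.mp g2
  clear g6 g5 g4 g3 g2
  obtain ⟨okY, X, e3, E, st, h3, rfl⟩ := h3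
  obtain ⟨-, S, e6, E7, su, ⟨-, rfl, rfl⟩, rfl⟩ := h6
  obtain ⟨rfl, n1, c1, a1, a2, a3⟩ := run_cups b1 _ _ h1 (by omega) (by omega)
  obtain ⟨rfl, n2, c2, -, a5, a6⟩ := run_cups b1 _ _ h2 le_rfl (by omega)
  obtain ⟨rfl, n4, -, a7, -, a9⟩ := run_caps b1 _ _ h4
  obtain ⟨rfl, n5, -, a10, a11, a12⟩ := run_caps b1 _ _ h5
  obtain ⟨-, n3, c3, -, rfl⟩ := id st
  obtain ⟨-, n6, -, -, rfl⟩ := id su
  have hc := okS.2.2.1
  simp only at c0 n6 p0 hc
  have hn : X.n = 2 * 0 + 2 * nt (fg V) + (m0 + m1) + m0 + m1 := by omega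
  have q := pers (H := 4) (Int.natCast_nonneg m0) (Int.natCast_nonneg m1) V hv le_rfl
    (by omega) hn h3
  have hz : ∀ j : ℤ, 0 ≤ j → j ≤ 4 → Z.b j = Z.b (4 + m1 + (m1 + j)) := fun j j0 j1 => by
    have e1 := t_eq su (j := j + m0) rfl
    have e2 := t_eq su (j := j + m0 + 4) (k := j + 4) (by omega)
    simp only at e1 e2
    rw [← a7 j j0 (by omega), ← a10 j j0 (by omega), ← e1, ← p0, e2, a11 _ (by omega) (by omega),
      a7 _ (by omega) (by omega)]
    exact cg _ (by omega)
  have x1 : ∀ j : ℤ, 0 ≤ j → j ≤ Y1.n → X.b (m0 + j) = Y1.b j := fun j j0 j1 => by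
    rw [t_eq st (k := j + 2 * m0) (by omega), a5 j j0 j1]
  have lam : ∀ j : ℤ, 0 ≤ j → j ≤ 4 → X.b (m0 + j) = X.b (4 + m1 + (m0 + m1) + j) :=
    fun j j0 j1 => by
      rw [x1 j j0 (by omega), cg X (k := m0 + (j + 4 + 2 * m1)) (by omega),
        x1 _ (by omega) (by omega), a1 j j0 j1, a2 _ (by omega) (by omega), p1]
  have mu : X.b 0 = X.b (4 + m1 + m0) := by
    rw [← q.p1 0 le_rfl le_rfl, hz 0 le_rfl (by omega), q.p2 _ (by omega) (by omega)]
    exact cg _ (by omega)
  obtain ⟨f, hf⟩ : ∃ f : ℤ → ℕ,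
      f = fun j : ℤ => if j ≤ m0 then X.b (m0 - j) else X.b (4 + m1 + j) := ⟨_, rfl⟩
  have f1 : ∀ j : ℤ, j ≤ m0 → f j = X.b (m0 - j) := fun j a => by rw [hf]; exact if_pos a
  have f2 : ∀ j : ℤ, m0 ≤ j → f j = X.b (4 + m1 + j) := fun j a => by
    rcases a.eq_or_lt with rfl | d
    · rw [f1 _ le_rfl, sub_self, mu]
    · rw [hf]; exact if_neg (by omega)
  obtain ⟨ok, xb⟩ := b1.ofF (n := m0 + m1) (c := c) f (by omega) (by omega) hc (by
    rw [f2 _ (by omega), f1 0 (by omega)]
    exact (cg _ (by omega)).trans ((lam 0 le_rfl (by omega)).symm.trans (cg _ (by omega))))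
  obtain ⟨z, E0, c', rz, rfl, iv⟩ := main b1 (Int.natCast_nonneg m0) (Int.natCast_nonneg m1) hz V
    (cc := c) hv le_rfl (by omega) hn h3
    ⟨ok, rfl, by change c = _; omega, by omega, by omega, fun j j0 j1 => by
      rw [xb j j0 (by omega), f1 j j1]; exact cg _ (by omega), fun j j0 j1 => by
      rw [xb j (by omega) j1, f2 j j0]; exact cg _ (by omega), fun j j0 j1 =>
      (cg _ (by omega)).trans ((lam j j0 (by omega)).trans (cg _ (by omega)))⟩
  have okz := iv.ok
  have zn := iv.wd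
  have key : ∀ j : ℤ, 0 ≤ j → j ≤ m0 + m1 → f j = z.b (m0 + m1 - j) := fun j j0 j1 => by
    rcases le_total j m0 with d | d
    · rw [f1 j d, iv.r _ (by omega) (by omega), cg Z (k := 8 + 2 * m1 + m0 - j) (by omega),
        a9 j j0 d, cg Z (k := 2 * 4 + m1 + (m0 + m1) + j) (by omega), q.p3 j j0 d,
        t_eq st (k := 0 + 2 * m0 - j) (by omega), a6 j j0 d,
        t_eq st (k := 0 + j + Y2.n) (by omega), okY.2.2.2.1]
    · rw [f2 j d, iv.l _ (by omega) (by omega), ← a7 _ (by omega) (by omega),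
        a12 _ (by omega) (by omega), a7 _ (by omega) (by omega), q.p2 _ (by omega) (by omega),
        cg X (k := m0 + (4 + 2 * m1 - (m0 + m1 - j))) (by omega), x1 _ (by omega) (by omega),
        a3 _ (by omega) (by omega), ← x1 _ (by omega) (by omega)]
      exact cg _ (by omega)
  have zc : z.c = c := by
    have := iv.co
    have := iv.c1
    have := q.co
    omega
  refine ⟨E0, ⟨(St.ofF (m0 + m1) c f).b, b1.app.mpr ⟨z, E0, [], rz,
    ⟨okz, _, [], [], ⟨zn.symm, zc.symm, fun j => ?_, rfl⟩, ⟨ok, rfl, rfl⟩, rfl⟩,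
    (List.append_nil _).symm⟩⟩, by simp⟩
  rcases (show (0 : ℤ) ≤ m0 + m1 by omega).eq_or_lt with d | d
  · rw [ok.2.2.2.2 d.symm, okz.2.2.2.2 (by omega), xb 0 le_rfl (by omega),
      key 0 le_rfl (by omega)]
    exact cg _ (by omega)
  · have e1 := Int.emod_nonneg j d.ne'
    have e2 := Int.emod_lt_of_pos j d
    have e3 : (m0 + m1 : ℤ) ∣ j - j % (m0 + m1) := Int.dvd_self_sub_emod
    rw [b1.per ok (j := j % (m0 + m1)) e3, xb _ e1 e2.le, key _ e1 e2.le]
    refine b1.per okz ?_
    rw [zn, show (m0 + m1 : ℤ) - j % (m0 + m1) - -j = (m0 + m1) + (j - j % (m0 + m1)) by ring]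
    exact dvd_add dvd_rfl e3

end Pool.Agent.P.MP_5af56b_co.Kl
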