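import Pool.Agent.P.MP_5af56b_co.Kl.Stmt

namespace Pool.Agent.P.MP_5af56b_co.Kl

namespace Tcaux

theorem cr_trK (m1 : ℤ) : ∀ (V : List L2) (n m h n' m' : ℤ), V2 V n m n' m' →
    cr (trK m1 V n m h) = cr (fg V)
  | [], _, _, _, _, _, _ => rfl
  | .l (.s _) :: V, n, m, h, n', m', hV =>
      congrArg (· + 1) (cr_trK m1 V n m h n' m' hV.2.2.2)
  | .l (.t k) :: V, n, m, h, n', m', hV => cr_trK m1 V n (m + k) h n' m' hV.2.2.2.2
  | .l (.u i) :: V, n, m, h, n', m', hV => by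
      have h1 := hV.2.2
      rw [trK]
      split_ifs at h1 ⊢
      · exact cr_trK m1 V _ _ h n' m' h1
      · exact cr_trK m1 V _ _ h n' m' h1
  | .l (.d i) :: V, n, m, h, n', m', hV => by
      have h1 := hV.2.2.2
      rw [trK]
      split_ifs at h1 ⊢
      · exact cr_trK m1 V _ _ h n' m' h1
      · exact cr_trK m1 V _ _ h n' m' h1
  | .l .r :: _, _, _, _, _, _, hV => hV.elim
  | .l .x :: _, _, _, _, _, _, hV => hV.elim
  | .m b :: V, n, m, h, n', m', hV => by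
      have h1 := hV.2.2
      rw [trK]
      split_ifs at h1 ⊢
      · exact cr_trK m1 V _ _ _ n' m' h1
      · exact cr_trK m1 V _ _ _ n' m' h1

theorem len_bsK : ∀ (V : List L2) (n m c n' m' : ℤ), V2 V n m n' m' →
    (bsK V m c).length = cr (fg V)
  | [], _, _, _, _, _, _ => rfl
  | .l (.s _) :: V, n, m, c, n', m', hV => congrArg (· + 1) (len_bsK V n m c n' m' hV.2.2.2)
  | .l (.t k) :: V, n, m, c, n', m', hV => len_bsK V n (m + k) (c + k) n' m' hV.2.2.2.2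
  | .l (.u _) :: V, _, _, c, n', m', hV => len_bsK V _ _ c n' m' hV.2.2
  | .l (.d _) :: V, _, _, c, n', m', hV => len_bsK V _ _ c n' m' hV.2.2.2
  | .l .r :: _, _, _, _, _, _, hV => hV.elim
  | .l .x :: _, _, _, _, _, _, hV => hV.elim
  | .m _ :: V, _, _, c, n', m', hV => len_bsK V _ _ c n' m' hV.2.2

theorem cr_u (f : ℕ → ℤ) : ∀ l : List ℕ, cr (l.map fun j => Lt.u (f j)) = 0
  | [] => rfl
  | _ :: l => cr_u f l

theorem cr_d (f : ℕ → ℤ) : ∀ l : List ℕ, cr (l.map fun j => Lt.d (f j)) = 0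
  | [] => rfl
  | _ :: l => cr_d f l

theorem cr_cups (k : ℕ) (a : ℤ) : cr (cups k a) = 0 := cr_u _ _

theorem cr_caps (k : ℕ) (a : ℤ) : cr (caps k a) = 0 := cr_d _ _

theorem swE_cons (b : Bool) (bs : List Bool) (e : ℕ × ℕ) (E : List (ℕ × ℕ)) :
    swE (b :: bs) (e :: E) = (if b then Prod.swap e else e) :: swE bs E := rfl

theorem swE_mp (φ : ℕ → ℕ) : ∀ (bs : List Bool) (E : List (ℕ × ℕ)),
    swE bs (mp φ E) = mp φ (swE bs E)
  | [], _ => rfl
  | _ :: _, [] => rfl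
  | b :: bs, e :: E => by
      change swE (b :: bs) (Prod.map φ φ e :: mp φ E) =
        Prod.map φ φ (if b then Prod.swap e else e) :: mp φ (swE bs E)
      rw [swE_cons, swE_mp φ bs E]
      cases b <;> rfl

theorem swE_swE : ∀ (bs : List Bool) (E : List (ℕ × ℕ)), bs.length = E.length →
    swE bs (swE bs E) = E
  | [], [], _ => rfl
  | [], _ :: _, h => absurd h (by simp)
  | _ :: _, [], _ => rfl
  | b :: bs, e :: E, h => by
      rw [swE_cons, swE_cons, swE_swE bs E (by simpa using h)]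
      cases b <;> rfl

theorem mem_swE (x y : ℕ) : ∀ (bs : List Bool) (E : List (ℕ × ℕ)), bs.length = E.length →
    (((x, y) ∈ swE bs E ∨ (y, x) ∈ swE bs E) ↔ ((x, y) ∈ E ∨ (y, x) ∈ E))
  | [], [], _ => Iff.rfl
  | [], _ :: _, h => absurd h (by simp)
  | _ :: _, [], _ => Iff.rfl
  | b :: bs, (p, q) :: E, h => by
      have ih := mem_swE x y bs E (by simpa using h)
      rw [swE_cons]
      cases b
      · simp only [Bool.false_eq_true, if_false, List.mem_cons]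
        tauto
      · simp only [if_true, Prod.swap_prod_mk, List.mem_cons, Prod.mk.injEq]
        tauto

theorem gr_swE (a1 : SA1) {bs : List Bool} {E : List (ℕ × ℕ)} (h : bs.length = E.length) :
    gr (swE bs E) = gr E :=
  a1.ext fun x y => and_congr_right fun _ => mem_swE x y bs E h

end Tcaux

open Tcaux in
theorem pTc (a1 : SA1) (b1 : SB1) (b2 : SB2) (ta : STa) (tb : STb) : STc := by
  intro m0 m1 V hV ht hm H c E hE
  have hlen : ∀ E', Cl (m0 + m1) c (fg V ++ [.r]) E' → (bsK V m0 c).length = E'.length := by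
    rintro E' ⟨b, hb⟩
    rw [b1.len hb, b1.cr_app, len_bsK V _ _ _ _ _ hV]
    rfl
  have hpar : (m0 + m1) % 2 = 0 := by
    obtain ⟨b, hb⟩ := hE.1
    have h1 : ((m0 : ℤ) + m1) % 2 = 0 := (b1.okl hb).2.1
    omega
  have h1 := ta hV ht hm hE.1
  obtain ⟨E2, h2⟩ := b2.ex_free h1
  have h3 : GoodG (gr E2) := by
    refine H _ (le_of_eq ?_) c E2 h2
    rw [b1.cr_app, b1.cr_app, b1.cr_app, b1.cr_app, b1.cr_app, cr_cups, cr_cups, cr_caps, cr_caps]
    change 0 + 0 + cr (trK m1 V (m0 + m1) m0 0) + 0 + 0 + 0 = _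
    rw [cr_trK _ V _ _ _ _ _ hV]
    omega
  obtain ⟨E3, h4, h5⟩ := tb hpar hV ht hm h2.1
  obtain ⟨φ, hφ⟩ := hE.2 E3 h4
  obtain ⟨ψ, hψ⟩ := h2.2 _ h1
  have h6 : E = mp ψ E3 := by
    rw [← swE_swE _ E (hlen E hE.1), hψ, swE_mp, h5, swE_swE _ E3 (hlen E3 h4)]
  have h7 := a1.iso hφ h6
  rw [h5, gr_swE a1 (hlen E3 h4)] at h3
  exact h3.imp h7.1.2 h7.2.2

end Pool.Agent.P.MP_5af56b_co.Kl
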