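import Pool.Agent.P.MP_5af56b_co.Kl.Stmt

namespace Pool.Agent.P.MP_5af56b_co.Kl

namespace Traux

/-- torus letters as Klein bottle letters -/
def emb : Tor.Lt → Lt
  | .s i => .s i
  | .t k => .t k
  | .u i => .u i
  | .d i => .d i

theorem stp_emb (g : Tor.Lt) (x y : St) (e : List (ℕ × ℕ)) :
    Stp (emb g) x y e ↔ Tor.Stp g x y e := by
  cases g <;> exact Iff.rfl

theorem run_emb : ∀ (W : List Tor.Lt) (x z : St) (E : List (ℕ × ℕ)),
    Run (W.map emb) x z E ↔ Tor.Run W x z E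
  | [], _, _, _ => Iff.rfl
  | g :: W, x, z, E => by
    simp only [List.map_cons, Run, Tor.Run, stp_emb, run_emb W]

theorem cl_emb (n c : ℤ) (W : List Tor.Lt) (E : List (ℕ × ℕ)) :
    Cl n c (W.map emb) E ↔ Tor.Cl n c W E := by
  simp only [Cl, Tor.Cl, run_emb]

theorem free_emb (n c : ℤ) (W : List Tor.Lt) (E : List (ℕ × ℕ)) :
    Free n c (W.map emb) E ↔ Tor.Free n c W E := by
  simp only [Free, Tor.Free, cl_emb]

theorem plain_emb : ∀ W : List Lt, Plain W → ∃ W' : List Tor.Lt, W = W'.map emb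
  | [], _ => ⟨[], rfl⟩
  | g :: W, h => by
    obtain ⟨W', rfl⟩ := plain_emb W
      ⟨fun h' => h.1 (List.mem_cons_of_mem _ h'), fun h' => h.2 (List.mem_cons_of_mem _ h')⟩
    cases g with
    | s i => exact ⟨.s i :: W', rfl⟩
    | t i => exact ⟨.t i :: W', rfl⟩
    | u i => exact ⟨.u i :: W', rfl⟩
    | d i => exact ⟨.d i :: W', rfl⟩
    | r => exact absurd List.mem_cons_self h.1
    | x => exact absurd List.mem_cons_self h.2

end Traux

theorem pTr (all : Tor.SAll) : STr := by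
  intro n W hW c E hE
  obtain ⟨W', rfl⟩ := Traux.plain_emb W hW
  exact all n W' c E ((Traux.free_emb n c W' E).1 hE)

end Pool.Agent.P.MP_5af56b_co.Kl
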