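import Pool.Agent.P.MP_5af56b_co.Kl.Stmt

/-!
# Two short one-sided cuts can be uncrossed
-/

namespace Pool.Agent.P.MP_5af56b_co.Kl

open Finset
open Tor (AP cut tc)

namespace Unaux

/-- the signed crossing number of strand `k` with the cut number `b` -/
def g (n : ℤ) (w : ℤ → ℤ) (b k : ℤ) : ℤ := (w k - b) / n - (k + b) / n

theorem tc_eq (p : SP) {n : ℤ} {w : ℤ → ℤ} (hn : 0 < n) (hw : AP n w) (a b : ℤ) :
    tc n (cut w a b) = ∑ k ∈ Ico 0 n, |(w k - b) / n - (k - a) / n| := by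
  have h := p.sumper (u := fun j => j + a) (fun k => |(w k - b) / n - (k - a) / n|) hn
    (p.shift n a) fun j => by
      rw [hw.2 j, show w j + n - b = w j - b + 1 * n by ring,
        show j + n - a = j - a + 1 * n by ring, Int.add_mul_ediv_right _ _ hn.ne',
        Int.add_mul_ediv_right _ _ hn.ne']
      congr 1; ring
  rw [← h]
  unfold tc cut
  refine sum_congr rfl fun i hi => ?_
  rw [mem_Ico] at hi
  rw [show i + a - a = i by ring, Int.ediv_eq_zero_of_lt hi.1 hi.2, sub_zero]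

theorem t0_eq (p : SP) {n : ℤ} {w : ℤ → ℤ} (hn : 0 < n) (hw : AP n w) (b : ℤ) :
    tc n (cut w (-b) b) = ∑ k ∈ Ico 0 n, |g n w b k| := by
  rw [tc_eq p hn hw]
  refine sum_congr rfl fun k _ => ?_
  rw [g, sub_neg_eq_add]

theorem t1_eq (p : SP) {n : ℤ} {w : ℤ → ℤ} (hn : 0 < n) (hw : AP n w) (b : ℤ) :
    tc n (cut w (n - b) b) = ∑ k ∈ Ico 0 n, |g n w b k + 1| := by
  rw [tc_eq p hn hw]
  refine sum_congr rfl fun k _ => ?_
  rw [g, show k - (n - b) = k + b + (-1) * n by ring, Int.add_mul_ediv_right _ _ hn.ne']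
  congr 1; ring

theorem g_anti {n : ℤ} (w : ℤ → ℤ) (hn : 0 < n) {b b' : ℤ} (h : b ≤ b') (k : ℤ) :
    g n w b' k ≤ g n w b k := by
  have h1 : (w k - b') / n ≤ (w k - b) / n := Int.ediv_le_ediv hn (by omega)
  have h2 : (k + b) / n ≤ (k + b') / n := Int.ediv_le_ediv hn (by omega)
  unfold g; omega

theorem g_add {n : ℤ} (w : ℤ → ℤ) (hn : 0 < n) (b k : ℤ) : g n w (b + n) k = g n w b k - 2 := by
  unfold g
  rw [show w k - (b + n) = w k - b + (-1) * n by ring, show k + (b + n) = k + b + 1 * n by ring,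
    Int.add_mul_ediv_right _ _ hn.ne', Int.add_mul_ediv_right _ _ hn.ne']
  ring

theorem g_sub {n : ℤ} (w : ℤ → ℤ) (hn : 0 < n) (b k : ℤ) : g n w (b - n) k = g n w b k + 2 := by
  have := g_add w hn (b - n) k
  rw [sub_add_cancel] at this
  omega

theorem abs_in {u v : ℤ} (h : v ≤ u - 1) : |v + 1| + |u - 1| ≤ |u| + |v| := by
  rcases abs_cases (v + 1) with a | a <;> rcases abs_cases (u - 1) with b | b <;>
    rcases abs_cases u with c | c <;> rcases abs_cases v with d | d <;> omega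

theorem ex_min (f : ℤ → ℤ) (h : ∀ b, 0 ≤ f b) : ∃ b, ∀ b', f b ≤ f b' := by
  obtain ⟨m, ⟨b, rfl⟩, hm⟩ := Int.exists_least_of_bdd (P := fun m => ∃ b, f b = m)
    ⟨0, by rintro _ ⟨b, rfl⟩; exact h b⟩ ⟨f 0, 0, rfl⟩
  exact ⟨b, fun b' => hm _ ⟨b', rfl⟩⟩

/-- the exchange argument for two functions on the integers -/
theorem core {n : ℤ} (hn : 0 < n) (f0 f1 : ℤ → ℤ) (h0 : ∀ b, 0 ≤ f0 b) (h1 : ∀ b, 0 ≤ f1 b)
    (up : ∀ b0 b1, b0 + n < b1 → f0 (b1 - n) + f1 (b0 + n) ≤ f0 b0 + f1 b1)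
    (dn : ∀ b0 b1, b1 < b0 → f0 b1 + f1 b0 ≤ f0 b0 + f1 b1) :
    ∃ b0 b1, b0 ≤ b1 ∧ b1 ≤ b0 + n ∧ (∀ b, f0 b0 ≤ f0 b) ∧ ∀ b, f1 b1 ≤ f1 b := by
  obtain ⟨c0, hc0⟩ := ex_min f0 h0
  obtain ⟨c1, hc1⟩ := ex_min f1 h1
  obtain ⟨m, ⟨b0, b1, m0, m1, rfl⟩, hm⟩ := Int.exists_least_of_bdd
    (P := fun m => ∃ b0 b1, (∀ b, f0 b0 ≤ f0 b) ∧ (∀ b, f1 b1 ≤ f1 b) ∧ |2 * (b1 - b0) - n| = m)
    ⟨0, by rintro _ ⟨b0, b1, -, -, rfl⟩; exact abs_nonneg _⟩ ⟨_, c0, c1, hc0, hc1, rfl⟩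
  have key : ∀ a0 a1, f0 a0 + f1 a1 ≤ f0 b0 + f1 b1 →
      |2 * (b1 - b0) - n| ≤ |2 * (a1 - a0) - n| := fun a0 a1 h =>
    hm _ ⟨a0, a1, fun b => by have := m0 b; have := m1 a1; omega,
      fun b => by have := m1 b; have := m0 a0; omega, rfl⟩
  refine ⟨b0, b1, ?_, ?_, m0, m1⟩
  · by_contra hc
    have := key b1 b0 (dn b0 b1 (by omega))
    rcases abs_cases (2 * (b1 - b0) - n) with a | a <;>
      rcases abs_cases (2 * (b0 - b1) - n) with b | b <;> omega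
  · by_contra hc
    have := key (b1 - n) (b0 + n) (up b0 b1 (by omega))
    rcases abs_cases (2 * (b1 - b0) - n) with a | a <;>
      rcases abs_cases (2 * (b0 + n - (b1 - n)) - n) with b | b <;> omega

end Unaux

open Unaux

theorem pUn (p : SP) : SUn := by
  intro n K w hn hw ⟨c0, hc0⟩ ⟨c1, hc1⟩
  obtain ⟨b0, b1, l1, l2, m0, m1⟩ := core hn (fun b => tc n (cut w (-b) b))
    (fun b => tc n (cut w (n - b) b))
    (fun b => by rw [t0_eq p hn hw]; exact sum_nonneg fun _ _ => abs_nonneg _)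
    (fun b => by rw [t1_eq p hn hw]; exact sum_nonneg fun _ _ => abs_nonneg _)
    (fun b0 b1 h => by
      simp only [t0_eq p hn hw, t1_eq p hn hw, ← sum_add_distrib]
      refine sum_le_sum fun k _ => ?_
      have a1 := g_anti w hn h.le k
      rw [g_add w hn] at a1
      have a2 := abs_in (u := g n w b0 k) (v := g n w b1 k + 1) (by omega)
      rw [g_add w hn, g_sub w hn, show g n w b1 k + 2 = g n w b1 k + 1 + 1 by ring,
        show g n w b0 k - 2 + 1 = g n w b0 k - 1 by ring]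
      exact a2)
    (fun b0 b1 h => by
      simp only [t0_eq p hn hw, t1_eq p hn hw, ← sum_add_distrib]
      refine sum_le_sum fun k _ => ?_
      have a1 := g_anti w hn h.le k
      have a2 := abs_in (u := g n w b1 k + 1) (v := g n w b0 k) (by omega)
      rw [add_sub_cancel_right] at a2
      omega)
  exact ⟨b0, b1, l1, l2, (m0 c0).trans hc0, (m1 c1).trans hc1⟩

end Pool.Agent.P.MP_5af56b_co.Kl
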