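import Pool.Agent.P.MP_5af56b_co.Kl.Stmt

namespace Pool.Agent.P.MP_5af56b_co.Kl

namespace Vaux

theorem app : ∀ (A : List L2) {B : List L2} {n m n' m' n'' m'' : ℤ}, V2 A n m n' m' →
    V2 B n' m' n'' m'' → V2 (A ++ B) n m n'' m''
  | [], B, n, m, n', m', n'', m'', hA, hB => by
      obtain ⟨-, -, rfl, rfl⟩ := hA
      exact hB
  | .l (.s i) :: A, B, n, m, n', m', n'', m'', hA, hB =>
      ⟨hA.1, hA.2.1, hA.2.2.1, app A hA.2.2.2 hB⟩
  | .l (.t k) :: A, B, n, m, n', m', n'', m'', hA, hB =>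
      ⟨hA.1, hA.2.1, hA.2.2.1, hA.2.2.2.1, app A hA.2.2.2.2 hB⟩
  | .l (.u i) :: A, B, n, m, n', m', n'', m'', hA, hB =>
      ⟨hA.1, hA.2.1, app A hA.2.2 hB⟩
  | .l (.d i) :: A, B, n, m, n', m', n'', m'', hA, hB =>
      ⟨hA.1, hA.2.1, hA.2.2.1, app A hA.2.2.2 hB⟩
  | .l .r :: A, B, n, m, n', m', n'', m'', hA, hB => hA.elim
  | .l .x :: A, B, n, m, n', m', n'', m'', hA, hB => hA.elim
  | .m b :: A, B, n, m, n', m', n'', m'', hA, hB =>
      ⟨hA.1, hA.2.1, app A hA.2.2 hB⟩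

theorem fg_app : ∀ A B : List L2, fg (A ++ B) = fg A ++ fg B
  | [], B => rfl
  | .l g :: A, B => by simp only [List.cons_append, fg, fg_app A B]
  | .m b :: A, B => by simp only [List.cons_append, fg, fg_app A B]

theorem nm_app : ∀ A B : List L2, nm (A ++ B) = nm A + nm B
  | [], B => by simp only [List.nil_append, nm, Nat.zero_add]
  | .l g :: A, B => by simp only [List.cons_append, nm, nm_app A B]
  | .m b :: A, B => by simp only [List.cons_append, nm, nm_app A B]; omega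

theorem par : ∀ (V : List L2) {n m n' m' : ℤ}, V2 V n m n' m' →
    ((nt (fg V) : ℤ) - dc (fg V)) % 2 = 0 ∧ (m' - m - dc (fg V) - nm V) % 2 = 0
  | [], n, m, n', m', h => by
      obtain ⟨-, -, rfl, rfl⟩ := h
      simp [fg, nt, dc, nm]
  | .l (.s i) :: V, n, m, n', m', h => by
      have := par V h.2.2.2
      simpa only [fg, nt, dc, nm] using this
  | .l (.t k) :: V, n, m, n', m', h => by
      have := par V h.2.2.2.2
      have hk := h.2.2.2.1
      simp only [fg, nt, dc, nm]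
      push_cast
      omega
  | .l (.u i) :: V, n, m, n', m', h => by
      have := par V h.2.2
      simp only [fg, nt, dc, nm]
      split_ifs at this <;> omega
  | .l (.d i) :: V, n, m, n', m', h => by
      have := par V h.2.2.2
      simp only [fg, nt, dc, nm]
      split_ifs at this <;> omega
  | .l .r :: V, n, m, n', m', h => h.elim
  | .l .x :: V, n, m, n', m', h => h.elim
  | .m b :: V, n, m, n', m', h => by
      have := par V h.2.2
      simp only [fg, nm]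
      push_cast
      split_ifs at this <;> omega

/-- crossings away from the second seam -/
def ss (l : List ℤ) : List L2 := l.map fun i => L2.l (.s i)

theorem ss_fg : ∀ l : List ℤ, fg (ss l) = l.map Lt.s
  | [] => rfl
  | i :: l => by
      have := ss_fg l
      simp only [ss, List.map_cons, fg] at this ⊢
      rw [this]

theorem ss_nm : ∀ l : List ℤ, nm (ss l) = 0
  | [] => rfl
  | i :: l => by
      have := ss_nm l
      simp only [ss, List.map_cons, nm] at this ⊢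
      exact this

theorem ss_v2 {n m : ℤ} (h0 : 0 ≤ m) (h1 : m ≤ n) : ∀ l : List ℤ,
    (∀ i ∈ l, 1 ≤ i ∧ i + 1 ≤ n ∧ i ≠ m) → V2 (ss l) n m n m
  | [], _ => ⟨h0, h1, rfl, rfl⟩
  | i :: l, h => by
      have hi := h i (List.mem_cons_self ..)
      exact ⟨hi.1, hi.2.1, hi.2.2, ss_v2 h0 h1 l fun j hj => h j (List.mem_cons_of_mem _ hj)⟩

theorem p1 {n m : ℤ} (h0 : 0 ≤ m) (h1 : m ≤ n) :
    ∃ V, fg V = P1 n ∧ V2 V (n + 2) (m + 2) (n + 2) (m + 2) ∧ nm V = 1 := by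
  obtain ⟨a, rfl⟩ := Int.eq_ofNat_of_zero_le h0
  obtain ⟨b, hb⟩ := Int.eq_ofNat_of_zero_le (sub_nonneg.2 h1)
  have hn : n.toNat = a + b := by omega
  refine ⟨ss ((List.range a).map fun j : ℕ => (j : ℤ) + 2) ++ .m false ::
    (ss ((List.range b).map fun j : ℕ => ((a + j : ℕ) : ℤ) + 2) ++ [.l (.t 1)]), ?_, ?_, ?_⟩
  · simp only [fg_app, fg, ss_fg, P1, hn, List.range_add, List.map_append, List.map_map,
      List.append_assoc]
    rfl
  · refine app _ (ss_v2 (by omega) (by omega) _ ?_) ⟨by omega, by omega, ?_⟩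
    · intro i hi
      obtain ⟨j, hj, rfl⟩ := List.mem_map.1 hi
      have := List.mem_range.1 hj
      omega
    · have e : (if false = true then (a : ℤ) + 2 + 1 else (a : ℤ) + 2 - 1) = a + 1 := by
        rw [if_neg (by decide)]; ring
      rw [e]
      refine app _ (ss_v2 (by omega) (by omega) _ ?_)
        ⟨by omega, by omega, by omega, Or.inl rfl, by omega, by omega, rfl, by ring⟩
      intro i hi
      obtain ⟨j, hj, rfl⟩ := List.mem_map.1 hi
      have := List.mem_range.1 hj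
      push_cast
      omega
  · simp only [nm_app, nm, ss_nm]

theorem pk {n m : ℤ} (h0 : 0 ≤ m) (h1 : m ≤ n) : ∀ k : ℕ,
    ∃ V, fg V = Pk n k ∧ V2 V (n + 2) (m + 2) (n + 2) (m + 2) ∧ nm V = k + 1
  | 0 => p1 h0 h1
  | k + 1 => by
      obtain ⟨A, a1, a2, a3⟩ := p1 h0 h1
      obtain ⟨B, c1, c2, c3⟩ := pk h0 h1 k
      refine ⟨A ++ .l (.s 1) :: B, ?_, app _ a2 ⟨le_rfl, by omega, by omega, c2⟩, ?_⟩
      · simp only [fg_app, fg, a1, c1, Pk]
      · simp only [nm_app, nm, a3, c3]; omega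

theorem hw {n m : ℤ} (h0 : 0 ≤ m) (h1 : m ≤ n) (k : ℕ) :
    ∃ V, fg V = Hw n k ∧ V2 V n m n m ∧ nm V = k + 1 := by
  obtain ⟨A, a1, a2, a3⟩ := pk h0 h1 k
  refine ⟨.l (.u 0) :: (A ++ [.l (.d 0)]), ?_, ⟨le_rfl, by omega, ?_⟩, ?_⟩
  · simp only [fg_app, fg, a1, Hw]
  · rw [if_pos h0]
    refine app _ a2 ⟨le_rfl, by omega, by omega, ?_⟩
    rw [if_pos (by omega)]
    exact ⟨by omega, by omega, by ring, by ring⟩
  · simp only [nm_app, nm, a3]

theorem z {n m : ℤ} (h0 : 0 ≤ m) (h1 : m ≤ n) : ∀ ks : List ℕ,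
    ∃ V, fg V = Z n ks ∧ V2 V n m n m ∧ nm V = wind ks
  | [] => ⟨[], rfl, ⟨h0, h1, rfl, rfl⟩, rfl⟩
  | k :: ks => by
      obtain ⟨A, a1, a2, a3⟩ := hw h0 h1 k
      obtain ⟨B, c1, c2, c3⟩ := z h0 h1 ks
      refine ⟨A ++ B, ?_, app _ a2 c2, ?_⟩
      · simp only [fg_app, a1, c1, Z, List.map_cons, List.flatten_cons]
      · simp only [nm_app, a3, c3, wind, List.map_cons, List.sum_cons]

theorem eqw_app (b2 : SB2) {n : ℤ} {A B : List Lt} (hA : Eqw n A []) (hB : Eqw n B []) :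
    Eqw n (A ++ B) [] := by
  have h := b2.ectx (n := n) (D := A) (D' := []) [] B (by simpa [dn] using hA)
  exact b2.trans (by simpa using h) hB

theorem tt (b2 : SB2) (c1 : SC1) {n : ℤ} (hn : 2 ≤ n) (k : ℤ) : Eqw n [.t k, .t (-k)] [] := by
  have h1 := c1.t1 n k (-k)
  have h2 := c1.t2 0 hn
  rw [add_neg_cancel] at h1
  rw [mul_zero] at h2
  exact b2.trans h1 h2

theorem padT (b2 : SB2) (c1 : SC1) {n m : ℤ} (hn : 2 ≤ n) (h0 : 0 ≤ m) (h1 : m ≤ n) :
    ∃ V, V2 V n m n m ∧ Eqw n (fg V) [] ∧ nt (fg V) = 2 ∧ nm V = 0 := by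
  by_cases h : m + 1 ≤ n
  · exact ⟨[.l (.t 1), .l (.t (-1))], ⟨hn, h0, h1, Or.inl rfl, hn, by omega, h, Or.inr rfl,
      by omega, by omega, rfl, by ring⟩, tt b2 c1 hn 1, rfl, rfl⟩
  · exact ⟨[.l (.t (-1)), .l (.t (- -1))], ⟨hn, h0, h1, Or.inr rfl, hn, by omega, by omega,
      Or.inl (by norm_num), by omega, by omega, rfl, by ring⟩, tt b2 c1 hn (-1), rfl, rfl⟩

theorem padM {n m : ℤ} (hn : 2 ≤ n) (h0 : 0 ≤ m) (h1 : m ≤ n) :
    ∃ V, V2 V n m n m ∧ fg V = [] ∧ nm V = 2 := by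
  by_cases h : 1 ≤ m
  · refine ⟨[.m false, .m true], ?_, rfl, rfl⟩
    simp only [V2, Bool.false_eq_true, if_false, if_true, true_and]
    omega
  · refine ⟨[.m true, .m false], ?_, rfl, rfl⟩
    simp only [V2, Bool.false_eq_true, if_false, if_true, true_and]
    omega

theorem padMs {n m : ℤ} (hn : 2 ≤ n) (h0 : 0 ≤ m) (h1 : m ≤ n) : ∀ b : ℕ,
    ∃ V, V2 V n m n m ∧ fg V = [] ∧ nm V = 2 * b
  | 0 => ⟨[], ⟨h0, h1, rfl, rfl⟩, rfl, rfl⟩
  | b + 1 => by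
      obtain ⟨A, a1, a2, a3⟩ := padM hn h0 h1
      obtain ⟨B, d1, d2, d3⟩ := padMs hn h0 h1 b
      refine ⟨A ++ B, app _ a1 d1, ?_, ?_⟩
      · rw [fg_app, a2, d2]; rfl
      · rw [nm_app, a3, d3]; omega

theorem pad (b1 : SB1) (b2 : SB2) (c1 : SC1) {n m : ℤ} (b : ℕ) (hn : 2 ≤ n) (h0 : 0 ≤ m)
    (h1 : m ≤ n) : ∀ a : ℕ,
    ∃ V, V2 V n m n m ∧ Eqw n (fg V) [] ∧ nt (fg V) = 2 * a ∧ nm V = 2 * b
  | 0 => by
      obtain ⟨B, d1, d2, d3⟩ := padMs hn h0 h1 b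
      exact ⟨B, d1, by rw [d2]; exact b2.refl n [], by rw [d2]; rfl, d3⟩
  | a + 1 => by
      obtain ⟨A, a1, a2, a3, a4⟩ := padT b2 c1 hn h0 h1
      obtain ⟨B, d1, d2, d3, d4⟩ := pad b1 b2 c1 b hn h0 h1 a
      refine ⟨A ++ B, app _ a1 d1, ?_, ?_, ?_⟩
      · rw [fg_app]; exact eqw_app b2 a2 d2
      · rw [fg_app, b1.nt_app, a3, d3]; omega
      · rw [nm_app, a4, d4]; omega

end Vaux

theorem pV (b1 : SB1) (b2 : SB2) (c1 : SC1) : SV where
  app := fun hA hB => Vaux.app _ hA hB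
  fg_app := Vaux.fg_app
  nm_app := Vaux.nm_app
  z := fun ks h0 h1 => Vaux.z h0 h1 ks
  par := fun h => Vaux.par _ h
  pad := fun a b hn h0 h1 => Vaux.pad b1 b2 c1 b hn h0 h1 a

end Pool.Agent.P.MP_5af56b_co.Kl
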