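import Pool.Agent.P.MP_5af56b_co.Kl.Stmt

/-! Words with at most four live labels at every level give reducible graphs. -/

namespace Pool.Agent.P.MP_5af56b_co.Kl

namespace W8aux

variable {E : List (ℕ × ℕ)} {T : Finset ℕ} {a b c p q z : ℕ}

theorem occ_of {x y : ℕ} (h : (gr E).A x y) : occ E x := ⟨y, h.2⟩

theorem occ_app {F : List (ℕ × ℕ)} {v : ℕ} : occ (E ++ F) v ↔ occ E v ∨ occ F v := by
  simp only [occ, List.mem_append]
  grind

theorem occ_cons {v : ℕ} : occ ((p, q) :: E) v ↔ v = p ∨ v = q ∨ occ E v := by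
  simp only [occ, List.mem_cons, Prod.mk.injEq]
  constructor
  · grind
  · rintro (rfl | rfl | ⟨w, h⟩)
    exacts [⟨q, by simp⟩, ⟨p, by simp⟩, ⟨w, by grind⟩]

theorem occ_nil {v : ℕ} : ¬ occ [] v := by simp [occ]

theorem gr_cons {x y : ℕ} : (gr ((p, q) :: E)).A x y ↔
    x ≠ y ∧ ((x = p ∧ y = q) ∨ (x = q ∧ y = p) ∨ (gr E).A x y) := by
  simp only [gr, List.mem_cons, Prod.mk.injEq]
  grind

theorem fresh (E : List (ℕ × ℕ)) (T : Finset ℕ) : ∃ w, w ∉ T ∧ ¬ occ E w := by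
  obtain ⟨w, hw⟩ := Infinite.exists_notMem_finset
    (T ∪ ((E.map Prod.fst).toFinset ∪ (E.map Prod.snd).toFinset))
  simp only [Finset.mem_union, List.mem_toFinset, List.mem_map, not_or] at hw
  exact ⟨w, hw.1, fun ⟨v, h⟩ => h.elim (fun h => hw.2.1 ⟨_, h, rfl⟩) fun h => hw.2.2 ⟨_, h, rfl⟩⟩

/-- two hubs `a`, `z` joined to `T`, together with the graph of `E`, are reducible -/
def RG (z a : ℕ) (T : Finset ℕ) (E : List (ℕ × ℕ)) : Prop :=
  ∀ G : SG, (∀ x y, G.A x y → ((x = a ∨ x = z) ∧ (y ∈ T ∨ y = z)) ∨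
    ((y = a ∨ y = z) ∧ (x ∈ T ∨ x = z)) ∨ (gr E).A x y) → Rd G

theorem RG.mono {T' : Finset ℕ} (h : RG z a T' E) (hT : T ⊆ T') : RG z a T E := fun G hG =>
  h G fun x y hxy => by
    have := hG x y hxy
    have := @hT x
    have := @hT y
    grind

theorem two {U : Finset ℕ} (h : U.card ≤ 2) (a : ℕ) :
    ∃ b d, (b ∈ U ∨ b = a) ∧ (d ∈ U ∨ d = a) ∧ ∀ x ∈ U, x = b ∨ x = d := by
  obtain h | h | h : U.card = 0 ∨ U.card = 1 ∨ U.card = 2 := by omega
  · exact ⟨a, a, by simp [Finset.card_eq_zero.1 h]⟩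
  · obtain ⟨b, rfl⟩ := Finset.card_eq_one.1 h
    exact ⟨b, b, by simp⟩
  · obtain ⟨b, d, -, rfl⟩ := Finset.card_eq_two.1 h
    exact ⟨b, d, by simp⟩

/-- change of the hub -/
theorem hub (a1 : SA1) (h4 : T.card ≤ 4) (hz : z ∉ T) (hE : ¬ occ E z) (ha : a ∈ T) (hc : c ∈ T)
    (h : RG z c T E) : RG z a T E := by
  by_cases hac : a = c
  · exact hac ▸ h
  obtain ⟨b, d, hb, hd, hT⟩ := two (U := (T.erase a).erase c) (by
    rw [Finset.card_erase_of_mem (Finset.mem_erase.2 ⟨Ne.symm hac, hc⟩),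
      Finset.card_erase_of_mem ha]
    omega) a
  simp only [Finset.mem_erase] at hb hd hT
  have hb' : b ∈ T := by grind
  have hd' : d ∈ T := by grind
  obtain ⟨w, hw, hw'⟩ := fresh E (insert z T)
  simp only [Finset.mem_insert, not_or] at hw
  have e1 : ∀ x y, (gr E).A x y → x ≠ y ∧ x ≠ w ∧ y ≠ w ∧ x ≠ z ∧ y ≠ z := fun x y h =>
    ⟨h.1, fun e => hw' (e ▸ occ_of h), fun e => hw' (e ▸ occ_of ((gr E).symm _ _ h)),
      fun e => hE (e ▸ occ_of h), fun e => hE (e ▸ occ_of ((gr E).symm _ _ h))⟩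
  let G1 : ℕ → ℕ → SG := fun a c =>
    gr ((w, a) :: (w, z) :: (w, b) :: (z, c) :: (z, d) :: (a, c) :: (a, d) :: E)
  have n1 : ∀ a ∈ T, ∀ c ∈ T, Rd (G1 a c) ↔ Rd ((G1 a c).elim w) := fun a ha c hc =>
    a1.rd_elim (a := a) (b := z) (c := b) fun x hx => by
      have := e1 w x
      simp only [G1, gr_cons, T3] at hx ⊢
      grind
  have n2 : ∀ a ∈ T, ∀ c ∈ T, Rd (G1 a c) ↔ Rd ((G1 a c).elim z) := fun a ha c hc =>
    a1.rd_elim (a := w) (b := c) (c := d) fun x hx => by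
      have := e1 z x
      simp only [G1, gr_cons, T3] at hx ⊢
      grind
  have h1 : Rd ((G1 c a).elim w) := h _ fun x y hxy => by
    have := e1 w x
    have := e1 w y
    simp only [G1, SG.elim, gr_cons] at hxy
    grind
  have h2 : Rd ((G1 a c).elim z) :=
    ((n2 c hc a ha).1 ((n1 c hc a ha).2 h1)).minor (sminor_of_sub fun x y hxy => by
      have := e1 z x
      have := e1 z y
      simp only [G1, SG.elim, gr_cons] at hxy ⊢
      grind)
  intro G hG
  refine ((n1 a ha c hc).1 ((n2 a ha c hc).2 h2)).minor (sminor_of_sub fun x y hxy => ?_)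
  have := hG x y hxy
  have := e1 x y
  have := hT x
  have := hT y
  have : x ≠ y := fun e => G.irr x (e ▸ hxy)
  simp only [G1, SG.elim, gr_cons]
  grind (splits := 40)

/-- labels that do not occur later can be left out -/
theorem clean (a1 : SA1) (hE : ¬ occ E z) (n : ℕ) : ∀ T : Finset ℕ, T.card ≤ n → T.card ≤ 4 →
    z ∉ T → (∀ T' ⊆ T, ∀ a ∈ T', (T'.card ≤ 1 ∨ ∀ x ∈ T', occ E x) → RG z a T' E) →
    ∀ a ∈ T, RG z a T E := by
  induction n with
  | zero => exact fun T h _ _ H a ha => H T subset_rfl a ha (Or.inl (by omega))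
  | succ n ih =>
    intro T h h4 hz H a ha
    by_cases h1 : T.card ≤ 1 ∨ ∀ x ∈ T, occ E x
    · exact H T subset_rfl a ha h1
    simp only [not_or, not_forall, not_le] at h1
    obtain ⟨h1, b, hb, hb'⟩ := h1
    obtain ⟨c, hc, hcb⟩ := Finset.exists_mem_ne h1 b
    have h2 := Finset.card_erase_of_mem hb
    have h3 := ih (T.erase b) (by omega) (by omega) (fun h => hz (Finset.mem_of_mem_erase h))
      (fun T' hT => H T' (hT.trans (Finset.erase_subset _ _))) c (Finset.mem_erase.2 ⟨hcb, hc⟩)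
    refine hub a1 h4 hz hE ha hc fun G hG => ?_
    have h5 : ∀ x, G.A b x → x = c ∨ x = z := fun x hx => by
      have := hG b x hx
      have := occ_of (E := E) (x := b) (y := x)
      grind
    refine (a1.rd_elim (v := b) (a := c) (b := z) (c := z) fun x hx => ?_).2 (h3 _ ?_)
    · have := h5 x hx
      simp only [T3]
      grind
    · rintro x y ⟨h6, h7, h8, h9⟩
      have := hG x y
      have := h5 x
      have := h5 y
      simp only [Finset.mem_erase]
      grind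

/-- the invariant at the level between `E1` and `E` -/
def Inv (z : ℕ) (E1 E : List (ℕ × ℕ)) : Prop := ∀ (T : Finset ℕ) (a : ℕ), T.card ≤ 4 → a ∈ T →
  z ∉ T → (∀ x ∈ T, occ E1 x ∨ ¬ occ E x) → RG z a T E

theorem base (a1 : SA1) (E1 : List (ℕ × ℕ)) : Inv z E1 [] := fun T a h4 ha hz _ => by
  refine clean a1 occ_nil _ T le_rfl h4 hz (fun T' _ a ha h G hG => ?_) a ha
  have h1 := Finset.card_le_one.1 (h.resolve_right fun h => occ_nil (h a ha))
  refine a1.small G a z a a fun x y hxy => ?_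
  have := hG x y hxy
  have := h1 x
  have : ¬ (gr []).A x y := fun h => occ_nil (occ_of h)
  grind

section

variable {E1 E2 E' : List (ℕ × ℕ)} (a1 : SA1) (h : Inv z E2 E)
  (h1 : ∀ x y, (gr E').A x y ↔ x ≠ y ∧ ((x = p ∧ y = q) ∨ (x = q ∧ y = p) ∨ (gr E).A x y))
  (h2 : ∀ v, occ E' v ↔ v = p ∨ v = q ∨ occ E v) (h3 : ∀ v, occ E2 v ↔ v = p ∨ v = q ∨ occ E1 v)
  (hE : ¬ occ E' z) (ha : a ∈ T) (hz : z ∉ T) (hT : ∀ x ∈ T, occ E1 x ∨ ¬ occ E' x)

include a1 h h1 h2 h3 hE ha hz hT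

/-- the hub absorbs the new edge -/
theorem absorb (h4 : (insert p (insert q T)).card ≤ 4) : RG z a T E' := by
  have h5 : z ∉ insert p (insert q T) := by
    have := h2 z
    simp only [Finset.mem_insert]
    grind
  have h6 := h _ p h4 (by simp) h5 fun x hx => by
    have := h2 x
    have := h3 x
    have := hT x
    simp only [Finset.mem_insert] at hx
    grind
  refine (hub a1 h4 h5 hE (by simp [ha]) (Finset.mem_insert_self _ _) fun G hG => ?_).mono
    fun x hx => by simp [hx]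
  refine h6 G fun x y hxy => ?_
  have := hG x y hxy
  have := h1 x y
  simp only [Finset.mem_insert] at *
  grind

/-- an end of the new edge that does not occur later is eliminated -/
theorem leave (h4 : T.card ≤ 4) (hp : ¬ occ E p) : RG z a T E' := by
  by_cases h5 : T.card ≤ 1
  · refine absorb a1 h h1 h2 h3 hE ha hz hT ?_
    have := Finset.card_insert_le p (insert q T)
    have := Finset.card_insert_le q T
    omega
  obtain ⟨c, hc, hcp⟩ := Finset.exists_mem_ne (not_le.1 h5) p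
  have z1 := h2 z
  have h6 : RG z c (if p ∈ T then insert q (T.erase p) else T) E := by
    refine h _ c ?_ ?_ ?_ fun x hx => ?_
    · split_ifs with h7
      · have := Finset.card_insert_le q (T.erase p)
        have := Finset.card_erase_of_mem h7
        omega
      · exact h4
    · split_ifs <;> simp [hc, hcp]
    · grind
    · have := h2 x
      have := h3 x
      have := hT x
      grind
  refine hub a1 h4 hz hE ha hc fun G hG => ?_
  have h7 : ∀ x, G.A p x → (p ∈ T ∧ (x = c ∨ x = z)) ∨ x = q := fun x hx => by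
    have := hG p x hx
    have := h1 p x
    have := occ_of (E := E) (x := p) (y := x)
    grind
  refine (a1.rd_elim (v := p) (a := c) (b := z) (c := q) fun x hx => ?_).2 (h6 _ ?_)
  · have := h7 x hx
    simp only [T3]
    grind
  · rintro x y ⟨h8, h9, h10, h11⟩
    have := hG x y
    have := h1 x y
    have := h7 x
    have := h7 y
    grind (splits := 40)

end

/-- one more edge -/
theorem step (a1 : SA1) {E1 : List (ℕ × ℕ)} {S : Finset ℕ} (hS : S.card ≤ 4)
    (h1 : ∀ x, occ (E1 ++ [(p, q)]) x → occ E x → x ∈ S) (hE : ¬ occ ((p, q) :: E) z)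
    (h : Inv z (E1 ++ [(p, q)]) E) : Inv z E1 ((p, q) :: E) := by
  have h3 : ∀ v, occ (E1 ++ [(p, q)]) v ↔ v = p ∨ v = q ∨ occ E1 v := fun v => by
    have := @occ_nil v
    rw [occ_app, occ_cons]
    grind
  intro T a h4 ha hz hT
  by_cases hp : occ E p
  swap
  · exact leave a1 h (fun _ _ => gr_cons) (fun _ => occ_cons) h3 hE ha hz hT h4 hp
  by_cases hq : occ E q
  swap
  · refine leave (p := q) (q := p) a1 h (fun x y => ?_) (fun v => ?_) (fun v => ?_) hE ha hz hT
      h4 hq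
    · rw [gr_cons]
      grind
    · rw [occ_cons]
      grind
    · rw [h3]
      grind
  refine clean a1 hE _ T le_rfl h4 hz (fun T' hT' a ha h5 => ?_) a ha
  refine absorb a1 h (fun _ _ => gr_cons) (fun _ => occ_cons) h3 hE ha (fun h => hz (hT' h))
    (fun x hx => hT x (hT' hx)) ?_
  rcases h5 with h5 | h5
  · have := Finset.card_insert_le p (insert q T')
    have := Finset.card_insert_le q T'
    omega
  · refine (Finset.card_le_card fun x hx => ?_).trans hS
    have := h1 x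
    have := h3 x
    have := h5 x
    have := hT x
    have := @hT' x
    have := @occ_cons E p q x
    simp only [Finset.mem_insert] at hx
    grind

/-- the label sits at a vertex gap -/
def Vx (x : St) (v : ℕ) : Prop := ∃ j, ((if x.n = 0 then 0 else j) + x.c) % 2 = 0 ∧ x.b j = v

theorem mp2_fix {x : St} {v : ℕ} (z : ℕ) (h : ¬ Vx x v) : x.mp2 (ren z v) id = x := by
  obtain ⟨n, c, b⟩ := x
  simp only [St.mp2, St.mk.injEq, true_and]
  funext j
  by_cases e : ((if n = 0 then 0 else j) + c) % 2 = 0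
  · rw [if_pos e, ren, if_neg fun e' => h ⟨j, e, e'⟩]
  · rw [if_neg e, id]

theorem vx8 (b1 : SB1) {x : St} (hx : x.Ok) (h8 : x.n ≤ 8) {v : ℕ} (h : Vx x v) :
    v ∈ (Finset.range 4).image fun j : ℕ => x.b (x.c + 2 * j) := by
  obtain ⟨j, h1, rfl⟩ := h
  have h0 := hx.1
  have h2 := hx.2.1
  by_cases e : x.n = 0
  · exact Finset.mem_image.2 ⟨0, by simp, (hx.2.2.2.2 e _).trans (hx.2.2.2.2 e j).symm⟩
  rw [if_neg e] at h1
  obtain e | e | e | e : x.n = 2 ∨ x.n = 4 ∨ x.n = 6 ∨ x.n = 8 := by omega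
  · exact Finset.mem_image.2 ⟨0, by simp, b1.per hx (by rw [e]; omega)⟩
  · exact Finset.mem_image.2 ⟨((j - x.c) % 4 / 2).toNat, by rw [Finset.mem_range]; omega,
      b1.per hx (by rw [e]; omega)⟩
  · exact Finset.mem_image.2 ⟨((j - x.c) % 6 / 2).toNat, by rw [Finset.mem_range]; omega,
      b1.per hx (by rw [e]; omega)⟩
  · exact Finset.mem_image.2 ⟨((j - x.c) % 8 / 2).toNat, by rw [Finset.mem_range]; omega,
      b1.per hx (by rw [e]; omega)⟩

theorem mp_eq {φ ψ : ℕ → ℕ} (h : mp φ E = mp ψ E) {v : ℕ} (hv : occ E v) : φ v = ψ v := by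
  obtain ⟨w, h1 | h1⟩ := hv
  · exact (Prod.mk.inj (List.map_inj_left.1 h _ h1)).1
  · exact (Prod.mk.inj (List.map_inj_left.1 h _ h1)).2

/-- a label used before and after a level is visible at that level -/
theorem sep (b1 : SB1) {c : ℤ} {P S : List Lt} {x y0 y : St} {E1 E2 : List (ℕ × ℕ)}
    (hc : x.c = c) (r0 : Stp .x x y0 []) (r1 : Run P y0 y E1) (r2 : Run S y x E2)
    (hF : Free 8 c (.x :: (P ++ S)) (E1 ++ E2)) {v : ℕ} (o1 : occ E1 v) (o2 : occ E2 v) :
    Vx y v := by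
  by_contra hv
  have r3 := b1.map2 (ren (v + 1) v) id r2
  rw [mp2_fix _ hv] at r3
  obtain ⟨n, c, b⟩ := x
  obtain ⟨rfl : n = 8, s1, s2, s3, s4, -⟩ := r0
  subst hc
  obtain ⟨φ, hφ⟩ := hF.2 (E1 ++ mp (ren (v + 1) v) E2) ⟨_, b1.okr r3, y0, [], _,
    ⟨rfl, s1, s2, fun j => by
      simp only [show (8 : ℤ) ≠ 0 by omega, if_false, show b (j + 4) = b j from s3 j,
        show (j + 4 + c) % 2 = (j + c) % 2 by omega], s4, rfl⟩,
    b1.app.2 ⟨y, E1, _, r1, r3, rfl⟩, rfl⟩
  rw [mp, mp, List.map_append] at hφ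
  obtain ⟨e1, e2⟩ := List.append_inj hφ (by simp)
  have e3 : mp id E1 = mp φ E1 := by simpa [mp] using e1
  have e4 := mp_eq e3 o1
  have e5 := mp_eq (φ := ren (v + 1) v) (ψ := φ) e2 o2
  rw [ren, if_pos rfl, ← e4, id] at e5
  omega

theorem stp_e {g : Lt} {x y : St} {e : List (ℕ × ℕ)} (h : Stp g x y e) :
    e = [] ∨ ∃ p q, e = [(p, q)] := by
  cases g with
  | s i => exact Or.inr ⟨_, _, h.2.2.2.2⟩
  | t k => exact Or.inl h.2.2.2.2
  | u i => exact Or.inl h.2.2.2.2.2.2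
  | d i => exact Or.inl h.2.2.2.2.2.2
  | r => exact Or.inl h.2.2.2
  | x => exact Or.inl h.2.2.2.2.2

theorem main (a1 : SA1) (b1 : SB1) {c : ℤ} {x y0 : St} (hc : x.c = c) (r0 : Stp .x x y0 [])
    (S : List Lt) : ∀ (P : List Lt) (y : St) (E1 E2 : List (ℕ × ℕ)), Run P y0 y E1 →
      Run S y x E2 → Free 8 c (.x :: (P ++ S)) (E1 ++ E2) → Bnd 8 y.n S → ¬ occ E2 z →
      Inv z E1 E2 := by
  induction S with
  | nil =>
    intro P y E1 E2 _ r2 _ _ _
    obtain ⟨-, -, rfl⟩ := r2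
    exact base a1 E1
  | cons g S ih =>
    intro P y E1 E2 r1 r2 hF hB hz
    obtain ⟨hy, y', e, E', st, r3, rfl⟩ := r2
    have r4 : Run [g] y y' e := ⟨hy, y', e, [], st, ⟨b1.okl r3, rfl, rfl⟩, by simp⟩
    have hw : y'.n = y.n + dl g := by simpa [dn] using b1.wn r4
    have r5 := b1.app.2 ⟨y, E1, e, r1, r4, rfl⟩
    have hF' : Free 8 c (.x :: (P ++ [g] ++ S)) (E1 ++ e ++ E') := by
      simpa [List.append_assoc] using hF
    have hB' : Bnd 8 y'.n S := hw ▸ hB.2
    have h := ih (P ++ [g]) y' (E1 ++ e) E' r5 r3 hF' hB' fun h => hz (occ_app.2 (Or.inr h))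
    rcases stp_e st with rfl | ⟨p, q, rfl⟩
    · simpa using h
    · refine step a1 (Finset.card_image_le.trans (by simp)) (fun v o1 o2 =>
        vx8 b1 (b1.okl r3) ?_ (sep b1 hc r0 r5 r3 hF' o1 o2)) hz h
      cases S
      exacts [hB', hB'.1]

end W8aux

open W8aux in
theorem pW8 (a1 : SA1) (b1 : SB1) : SW8 := by
  intro W hB c E hF
  obtain ⟨b, -, y, e, E', st, r, rfl⟩ := hF.1
  obtain rfl : e = [] := st.2.2.2.2.2
  obtain ⟨z, -, hz⟩ := fresh E' ∅
  obtain ⟨a, ha, ha'⟩ := fresh E' {z}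
  exact main a1 b1 rfl st W [] y [] E' ⟨b1.okl r, rfl, rfl⟩ r hF (st.2.1 ▸ hB) hz {a} a (by simp)
    (by simp) (by simpa [eq_comm] using ha) (by simpa using Or.inr ha') _
    fun x y h => Or.inr (Or.inr h)

end Pool.Agent.P.MP_5af56b_co.Kl
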