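import Pool.Agent.P.MP_5af56b_co.Kl.Stmt

/-! Closed words that contain a crosscap letter. -/

namespace Pool.Agent.P.MP_5af56b_co.Kl

namespace XMaux

/-- number of crosscap letters -/
def nx : List Lt → ℕ
  | [] => 0
  | .x :: W => nx W + 1
  | _ :: W => nx W

theorem nx_app (A B : List Lt) : nx (A ++ B) = nx A + nx B := by
  induction A with
  | nil => simp [nx]
  | cons g A ih => cases g <;> simp only [List.cons_append, nx, ih] <;> omega

/-- a word without closed run is good -/
theorem good_wlog (b1 : SB1) {n : ℤ} {W : List Lt}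
    (h : Val n W → dn W = 0 → dc W % 2 = 0 → Good n W) : Good n W := by
  intro c E hF
  obtain ⟨b, r⟩ := hF.1
  have h1 : Val n W := b1.val r
  have h2 : n = n + dn W := b1.wn r
  have h3 : c = (c + dc W) % 2 := b1.wc r
  have h4 : c = 0 ∨ c = 1 := (b1.okl r).2.2.1
  exact h h1 (by omega) (by omega) c E hF

theorem bnd_app {K : ℤ} (A B : List Lt) : ∀ n : ℤ, Bnd K n A → Bnd K (n + dn A) B →
    Bnd K n (A ++ B) := by
  induction A with
  | nil => intro n _ h; simpa [dn] using h
  | cons g A ih =>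
    intro n h1 h2
    exact ⟨h1.1, ih _ h1.2 (by simpa [dn, add_assoc] using h2)⟩

theorem bnd_br {K n : ℤ} (hn : n ≤ K) (A : List Lt) (h : IsBr A) : Bnd K n A := by
  induction A with
  | nil => exact hn
  | cons g A ih =>
    have h1 := ih fun y hy => h y (List.mem_cons_of_mem _ hy)
    obtain ⟨i, rfl | rfl⟩ := h g List.mem_cons_self
    · exact ⟨hn, by simpa [dl] using h1⟩
    · exact ⟨hn, by simpa [dl] using h1⟩

theorem bnd_Z (b1 : SB1) {n : ℤ} (hn : n ≤ 6) (ks : List ℕ) : Bnd 8 n (Z n ks) := by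
  induction ks with
  | nil => show n ≤ 8; omega
  | cons k ks ih =>
    have e : Z n (k :: ks) = .u 0 :: (Pk n k ++ (.d 0 :: Z n ks)) := by simp [Z, Hw]
    rw [e]
    refine ⟨by omega, bnd_app _ _ _ (bnd_br (by simp only [dl]; omega) _ (b1.pk_br n k)) ?_⟩
    rw [b1.br_dn (b1.pk_br n k)]
    exact ⟨by simp only [dl]; omega, by simpa [dl] using ih⟩

theorem bnd_down {K : ℤ} (A : List Lt) (h : DownW A) : ∀ n : ℤ, n ≤ K → Bnd K n A := by
  induction A with
  | nil => intro n hn; exact hn
  | cons g A ih =>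
    intro n hn
    have h1 := ih fun y hy => h y (List.mem_cons_of_mem _ hy)
    refine ⟨hn, h1 _ ?_⟩
    rcases h g List.mem_cons_self with ⟨i, rfl | rfl⟩ | rfl <;> simp only [dl] <;> omega

theorem bnd_up (e4 : SE4) {K : ℤ} (A : List Lt) (h : UpW A) :
    ∀ n : ℤ, n + dn A ≤ K → Bnd K n A := by
  induction A with
  | nil => intro n hn; simpa [dn, Bnd] using hn
  | cons g A ih =>
    intro n hn
    have h0 := (e4.up h).1
    have h1 := ih fun y hy => h y (List.mem_cons_of_mem _ hy)
    refine ⟨by omega, h1 _ ?_⟩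
    simp only [dn] at hn
    omega

/-- an even rotation after a crosscap letter is absorbed -/
theorem xt (b2 : SB2) (nn : SN) (k : ℤ) : Eqw 8 [.x, .t (2 * k)] [.x] := by
  have h1 := nn.txt (2 * -k)
  have h2 := b2.ectx (n := 8) [] [.t (-(2 * -k))] (by simpa [dn] using nn.tx (-k))
  have h3 : -(2 * -k) = 2 * k := by ring
  rw [h3] at h1 h2
  exact b2.symm (b2.trans h1 (by simpa using h2))

/-- horizontal curves contain rotations -/
theorem tz (b1 : SB1) (b2 : SB2) (c1 : SC1) (h : SH) (m : ℕ) :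
    ∀ s : ℤ, Mnw 8 (.t s :: Z 8 (List.replicate m 0)) [.t (s + m)] := by
  induction m with
  | zero => intro s; simpa [Z] using b2.mrefl 8 [.t s]
  | succ m ih =>
    intro s
    have e : Z 8 (List.replicate (m + 1) 0) = Hw 8 0 ++ Z 8 (List.replicate m 0) := by
      simp [Z, List.replicate_succ]
    have h1 := b2.mctx (n := 8) [.t s] (Z 8 (List.replicate m 0))
      (by simpa [dn, dl] using h.h_t (n := 8) (by norm_num))
    have h2 := b2.mn_of (b2.ectx (n := 8) [] (Z 8 (List.replicate m 0))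
      (by simpa [dn] using c1.t1 8 s 1)).2
    have h3 := ih (s + 1)
    have h4 : s + 1 + (m : ℤ) = s + ((m + 1 : ℕ) : ℤ) := by push_cast; ring
    rw [h4] at h3
    rw [e]
    exact b2.mtrans (by simpa using h1) (b2.mtrans (by simpa using h2) h3)

theorem wind_cases (ks : List ℕ) : ks = [] ∨ ks = [0] ∨ ∃ m, wind ks = m + 2 := by
  rcases ks with _ | ⟨k, _ | ⟨l, ks⟩⟩
  · exact Or.inl rfl
  · rcases k with _ | k
    · exact Or.inr (Or.inl rfl)
    · exact Or.inr (Or.inr ⟨k, by simp [wind]⟩)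
  · exact Or.inr (Or.inr ⟨k + l + wind ks, by simp [wind]; omega⟩)

/-- a braid and horizontal curves between the two crosscaps -/
theorem brz (b1 : SB1) (b2 : SB2) (c1 : SC1) (d2 : SD2) (h : SH) (nn : SN) (t : ST) (w8 : SW8)
    (aut : SAut) {B : List Lt} (hB : IsBr B) (ks : List ℕ) : Good 8 (.x :: (B ++ Z 8 ks)) := by
  rcases wind_cases ks with rfl | rfl | ⟨m, hm⟩
  · exact b2.good_rd (w8 (by simpa [Z] using bnd_br (le_refl (8 : ℤ)) B hB))
  · simpa [Z] using aut hB
  · refine good_wlog b1 fun _ _ hc => b2.good_bad ?_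
    have h0 : (dc B + m) % 2 = 0 := by
      simp only [dc, b1.dc_app, b1.z_dc, hm] at hc
      push_cast at hc
      omega
    obtain ⟨k, hk⟩ : ∃ k, dc B + m = 2 * k := ⟨(dc B + m) / 2, by omega⟩
    have h1 := b2.mctx (n := 8) [.x] (Z 8 ks)
      (by simpa [dn, dl] using d2.br_t (n := 8) (by norm_num) hB)
    have h2 := b2.mctx (n := 8) [.x, .t (dc B)] []
      (by simpa [dn, dl] using h.z_split (n := 8) ks (by norm_num))
    have e : Z 8 (List.replicate (wind ks) 0) = Z 8 (List.replicate m 0) ++ Z 8 [0, 0] := by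
      rw [hm, List.replicate_add, b1.z_app]
      rfl
    rw [e] at h2
    have h3 := b2.mctx (n := 8) [.x] (Z 8 [0, 0])
      (by simpa [dn, dl] using tz b1 b2 c1 h m (dc B))
    rw [hk] at h3
    have h4 := b2.mn_of (b2.ectx (n := 8) [] (Z 8 [0, 0]) (by simpa [dn] using xt b2 nn k)).2
    refine b2.bad_of ?_ t.tx
    exact b2.mtrans (by simpa using h1) (b2.mtrans (by simpa using h2)
      (b2.mtrans (by simpa using h3) (by simpa using h4)))

/-- one crosscap letter followed by a plain word -/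
theorem plain (b1 : SB1) (b2 : SB2) (c1 : SC1) (d2 : SD2) (e3 : SE3) (e4 : SE4) (h : SH) (nn : SN)
    (t : ST) (w8 : SW8) (aut : SAut) {N : ℕ} (hN : ∀ n' W', cr W' < N → Good n' W')
    {W : List Lt} (hW : Plain W) (hc : cr W ≤ N) : Good 8 (.x :: W) := by
  refine good_wlog b1 fun hv hd _ => ?_
  have hd0 : dn W = 0 := by simpa [dn, dl] using hd
  rcases e4.nf (n := 8) (by norm_num) (by norm_num) hW hv.2 with hr | ⟨A, ks, C, hA, hC, -, he⟩
  · have h1 := b2.rctx (n := 8) [.x] [] (by simpa [dn, dl] using hr)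
    refine b2.good_rdc (by simpa using h1) fun W' hW' => hN _ _ ?_
    simp only [cr] at hW'
    omega
  · have h1 := b2.ectx (n := 8) [.x] [] (by simpa [dn, dl] using he)
    have h2 : dn A + dn C = 0 := by
      have := he.2.1
      simp only [b1.dn_app, b1.z_dn] at this
      omega
    refine b2.good_of (D' := .x :: (A ++ Z (8 + dn A) ks ++ C)) (by simpa using h1.2) ?_
    by_cases e : dn A = 0
    · have hA' := (e4.down hA).2 e
      have hC' := (e4.up hC).2 (by omega)
      rw [e, add_zero]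
      have h3 := b2.ectx (n := 8) (.x :: A) []
        (by simpa [dn, dl, e] using b2.symm (e3.cmz (n := 8) ks (by norm_num) (by norm_num) hC'))
      refine b2.good_of (D' := .x :: ((A ++ C) ++ Z 8 ks)) (by simpa using h3.2) ?_
      exact brz b1 b2 c1 d2 h nn t w8 aut (b1.br_app.2 ⟨hA', hC'⟩) ks
    · have h3 := (e4.down hA).1
      have h4 := b1.dn_even A
      refine b2.good_rd (w8 (bnd_app _ _ _ (bnd_app _ _ _ (bnd_down A hA _ (le_refl _))
        (bnd_Z b1 (by omega) ks)) (bnd_up e4 C hC _ ?_)))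
      simp only [b1.dn_app, b1.z_dn]
      omega

/-- exactly one crosscap letter -/
theorem onex (b1 : SB1) (b2 : SB2) (nn : SN) {N : ℕ}
    (hp : ∀ W, Plain W → cr W ≤ N → Good 8 (.x :: W))
    {U : List Lt} (hU : Lt.x ∉ U) (hc : cr U ≤ N) : Good 8 (.x :: U) := by
  refine good_wlog b1 fun _ hd _ => ?_
  have hd0 : dn U = 0 := by simpa [dn, dl] using hd
  obtain ⟨W, hW, he | he⟩ := nn.nrm 8 hU
  · have h1 := b2.ectx (n := 8) [.x] [] (by simpa [dn, dl] using he)
    exact b2.good_of (D' := .x :: W) (by simpa using h1.2) (hp W hW (he.1 ▸ hc))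
  · have h1 := b2.ectx (n := 8) [.x] [] (by simpa [dn, dl] using he)
    have h2 : dn W = 0 := by
      have := he.2.1
      simp only [b1.dn_app, dn, dl] at this
      omega
    have h3 : cr W ≤ N := by
      have := he.1
      simp only [b1.cr_app, cr] at this
      omega
    refine b2.good_of (D' := (.x :: W) ++ [.r]) (by simpa using h1.2) (b2.good_rot ?_)
    have h4 := b2.ectx (n := 8) [] W (by simpa [dn] using nn.rx)
    have h5 : Good 8 ([.r] ++ .x :: W) :=
      b2.good_of (D' := .x :: W) (by simpa using h4.2) (hp W hW h3)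
    simpa [dn, dl, h2] using h5

theorem many (b1 : SB1) (b2 : SB2) (nn : SN) (du : SDU) {N : ℕ}
    (h1 : ∀ U, Lt.x ∉ U → cr U ≤ N → Good 8 (.x :: U)) (k : ℕ) :
    ∀ U, nx U ≤ k → cr U ≤ N → Good 8 (.x :: U) := by
  induction k with
  | zero =>
    intro U hk hc
    refine h1 U (fun hx => ?_) hc
    obtain ⟨A, B, rfl⟩ := List.append_of_mem hx
    simp only [nx_app, nx] at hk
    omega
  | succ k ih =>
    intro U hk hc
    by_cases hx : Lt.x ∈ U
    · obtain ⟨A, B, rfl⟩ := List.append_of_mem hx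
      simp only [nx_app, nx] at hk
      simp only [b1.cr_app, cr] at hc
      by_cases e : dc A % 2 = 0
      · exact du e (ih A (by omega) (by omega)) (ih B (by omega) (by omega))
      · refine good_wlog b1 fun hv _ _ => ?_
        have h2 : 8 + dn A = 8 := ((b1.val_app 8 A _).1 hv.2).2.1
        have h3 := b2.ectx (n := 8) (.x :: A) B
          (by simpa [dn, dl, show dn A = 0 by omega] using nn.txt 1)
        refine b2.good_of (D' := .x :: ((A ++ [.t 1]) ++ .x :: (.t (-1) :: B)))
          (by simpa using h3.2) (du ?_ (ih _ ?_ ?_) (ih _ ?_ ?_))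
        · simp only [b1.dc_app, dc]; omega
        · simp only [nx_app, nx]; omega
        · simp only [b1.cr_app, cr]; omega
        · simp only [nx]; omega
        · simp only [cr]; omega
    · exact h1 U hx hc

end XMaux

open XMaux in
theorem pXM (b1 : SB1) (b2 : SB2) (c1 : SC1) (d2 : SD2) (e3 : SE3) (e4 : SE4) (h : SH) (nn : SN)
    (t : ST) (du : SDU) (w8 : SW8) (aut : SAut) : SXM := by
  intro N hN n W hc hx
  obtain ⟨A, B, rfl⟩ := List.append_of_mem hx
  refine b2.good_rot (good_wlog b1 fun hv _ _ => ?_)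
  have h8 : n + dn A = 8 := hv.1
  rw [h8]
  refine many b1 b2 nn du (N := N) (fun U hU hU' => onex b1 b2 nn
    (fun W hW hW' => plain b1 b2 c1 d2 e3 e4 h nn t w8 aut hN hW hW') hU hU') _ (B ++ A)
    (le_refl _) ?_
  simp only [b1.cr_app, cr] at hc ⊢
  omega

end Pool.Agent.P.MP_5af56b_co.Kl
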