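import Pool.Agent.P.MP_5af56b_co.Tor.Main
import Pool.Agent.P.MP_5af56b_co.Kl.All
import Pool.Agent.P.MP_5af56b_co.Kl.Aut
import Pool.Agent.P.MP_5af56b_co.Kl.AutA
import Pool.Agent.P.MP_5af56b_co.Kl.B1
import Pool.Agent.P.MP_5af56b_co.Kl.B2
import Pool.Agent.P.MP_5af56b_co.Kl.B3
import Pool.Agent.P.MP_5af56b_co.Kl.C1
import Pool.Agent.P.MP_5af56b_co.Kl.C1b
import Pool.Agent.P.MP_5af56b_co.Kl.C2
import Pool.Agent.P.MP_5af56b_co.Kl.C3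
import Pool.Agent.P.MP_5af56b_co.Kl.D1
import Pool.Agent.P.MP_5af56b_co.Kl.D2
import Pool.Agent.P.MP_5af56b_co.Kl.DU
import Pool.Agent.P.MP_5af56b_co.Kl.E0
import Pool.Agent.P.MP_5af56b_co.Kl.E1
import Pool.Agent.P.MP_5af56b_co.Kl.E2
import Pool.Agent.P.MP_5af56b_co.Kl.E3
import Pool.Agent.P.MP_5af56b_co.Kl.E4
import Pool.Agent.P.MP_5af56b_co.Kl.Ev
import Pool.Agent.P.MP_5af56b_co.Kl.G1
import Pool.Agent.P.MP_5af56b_co.Kl.Gs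
import Pool.Agent.P.MP_5af56b_co.Kl.H
import Pool.Agent.P.MP_5af56b_co.Kl.KM
import Pool.Agent.P.MP_5af56b_co.Kl.KS
import Pool.Agent.P.MP_5af56b_co.Kl.KW
import Pool.Agent.P.MP_5af56b_co.Kl.Ka
import Pool.Agent.P.MP_5af56b_co.Kl.Kb
import Pool.Agent.P.MP_5af56b_co.Kl.M2
import Pool.Agent.P.MP_5af56b_co.Kl.N
import Pool.Agent.P.MP_5af56b_co.Kl.P
import Pool.Agent.P.MP_5af56b_co.Kl.RC
import Pool.Agent.P.MP_5af56b_co.Kl.ST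
import Pool.Agent.P.MP_5af56b_co.Kl.Ta
import Pool.Agent.P.MP_5af56b_co.Kl.Tb
import Pool.Agent.P.MP_5af56b_co.Kl.Tc
import Pool.Agent.P.MP_5af56b_co.Kl.Tr
import Pool.Agent.P.MP_5af56b_co.Kl.Un
import Pool.Agent.P.MP_5af56b_co.Kl.V
import Pool.Agent.P.MP_5af56b_co.Kl.W8
import Pool.Agent.P.MP_5af56b_co.Kl.XM

namespace Pool.Agent.P.MP_5af56b_co.Kl

theorem qCg : SCg := ⟨Tor.qCk.bad, Tor.qCk.rd⟩
theorem qB2 : SB2 := pB2 Tor.pA1 pB1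
theorem qC1 : SC1 := pC1 Tor.pA1 pB1 qB2
theorem qC3 : SC3 := pC3 Tor.pA1 pB1 qB2 qC1

theorem qAll : SAll := by
  have a1 := Tor.pA1
  have a2 := Tor.pA2 a1
  have b1 := pB1
  have b2 := qB2
  have b3 := pB3 a1 b1 b2
  have c1 := qC1
  have c1b := pC1b a1 b1 b2
  have c2 := pC2 a1 a2 b1 b2
  have c3 := qC3
  have p := pP
  have d1 := pD1 b1 b2 b3 c1 c2 p
  have d2 := pD2 b1 b2 b3 c1 c3 p d1
  have rc : SRC := pRC b1 b2 c3 p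
  have e0 := pE0 b1 b2 b3 c1 c2 p d1
  have e1 := pE1 b1 b2 c1 c1b p d1 e0
  have e2 : SE2 := pE2 b1 b2 c1 p d1 e0 e1
  have e3 := pE3 b1 b2 b3 c1 c1b p d1 d2 e0
  have e4 : SE4 := pE4 b1 b2 c1 e0 e2 e3
  have h : SH := pH b1 b2 c1 c1b c3 d2 e3
  have nn := pN a1 b1 b2
  have t := pST b1 b2 c1 (pCk b2 (pEv b1 nn) qCg)
  have kb := pKb b1 b2 c1 p d1 d2 rc e3 h nn (pKa b1 p)
  have v := pV b1 b2 c1
  have xm : SXM := pXM b1 b2 c1 d2 e3 e4 h nn t (pDU a1 b1 b2) (pW8 a1 b1)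
    (pAut a1 b1 b2 c1 d1 e3 nn (pAutA a1 a2 qCg))
  have km : SKM := pKM b1 b2 c1 p e3 nn t kb (pKS b1 b2 c1 c1b c3 e0 e3 nn) (pKW b1) (pUn p)
    (pG1 b1 b2 c1 p d1) v (pTc a1 b1 b2 (pTa b1 v) (pTb b1 v))
  exact pAll b1 b2 e3 e4 nn (pTr Tor.qAll) xm (pM2 a1 b1 b2 c1 p d1 kb t) km

theorem qRes (G : MG) (hK : Kleinian G) (hM : MinNonRed G) :
    ∃ H, (Tor.PetersenFamily H ∨ H = Tor.k55m) ∧ Iso G H :=
  pRes Tor.pA1 (Tor.pA2 Tor.pA1) pB1 qB2 (pJ Tor.pA1 pB1 qB2 qC3) (pGs Tor.pA1 pB1)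
    (Tor.pFin Tor.pA1) (Tor.pFam Tor.pA1 (Tor.pA2 Tor.pA1)) qAll G hK hM

end Pool.Agent.P.MP_5af56b_co.Kl
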