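import Pool.Agent.P.MP_5af56b_co.Kl.STa

namespace Pool.Agent.P.MP_5af56b_co.Kl

namespace STaux

theorem h0_6 : badW 6 (tgt 6 6 0)
    0xf1412ce0d0b08ca00c80400
    0x11100715130e0c090ac80100 = true := by
  decide +kernel

theorem h1_6 : badW 6 (tgt 6 5 1)
    0x121614ce0b0f09ca07c80400
    0x8130c171511100e0ac80100 = true := by
  decide +kernel

theorem h1_8 : badW 8 (tgt 8 5 1)
    0x161a18ce0f130dca09c80400
    0xc17101b191514120ec80100 = true := by
  decide +kernel

theorem h2_6 : badW 6 (tgt 6 4 2)
    0x161912ce0c100aca08c8040e0801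
    0x917071a181115130bc8010f0901 = true := by
  decide +kernel

theorem h2_8 : badW 8 (tgt 8 4 2)
    0x1c1f18ce10160eca0cc804120c01
    0xd1d09201e171b190fc801130901 = true := by
  decide +kernel

theorem h3_6 : badW 6 (tgt 6 3 3)
    0x7111d0f19130bca15c802171101
    0x1c0a1a1e1210160e0cc801181001 = true := by
  decide +kernel

theorem h3_8 : badW 8 (tgt 8 3 3)
    0x917250d21190fca1bc80215091f0902
    0xe240c262018221210c8011c0c160c02 = true := by
  decide +kernel

theorem h4_4 : badW 4 (tgt 4 0 4)
    0x12d0140c100a08ca06160600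
    0x11d0150d0f0b07ca05170600 = true := by
  decide +kernel

theorem h4_6 : badW 6 (tgt 6 0 4)
    0x8121a0c18100aca0ec802201a1c0c1e0e160e04
    0x211d191517090b1307c8011f1911090f0703 = true := by
  decide +kernel

theorem h4_8 : badW 8 (tgt 8 0 4)
    0x1e2a1c2012140c0e100a00281e261c2212160c1810240a06
    0x21091f190f0d0bca13c8022b09291f271f1b19250f170d150d1d1308 = true := by
  decide +kernel

theorem hx : badW 8 (.x :: Z 8 [0, 0])
    0x10d01b180e120cca0a1d0600
    0xfd01c190d170bca091e0600 = true := by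
  decide +kernel

end STaux

end Pool.Agent.P.MP_5af56b_co.Kl
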