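import Pool.Agent.P.MP_5af56b_co.Kl.STb
import Pool.Agent.P.MP_5af56b_co.Kl.STc
import Pool.Agent.P.MP_5af56b_co.Kl.STd

namespace Pool.Agent.P.MP_5af56b_co.Kl

namespace STaux

theorem t_mod (b2 : SB2) (c1 : SC1) {n : ℤ} (hn : 2 ≤ n) (s : ℤ) :
    Eqw n [.t s] [.t (s % n)] := by
  have h1 := c1.t1 n (n * (s / n)) (s % n)
  rw [Int.mul_ediv_add_emod] at h1
  have h2 := b2.ectx (n := n) [] [.t (s % n)] (by simpa [dn] using c1.t2 (s / n) hn)
  exact b2.trans (b2.symm h1) (by simpa using h2)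

theorem t_ctx (b2 : SB2) (c1 : SC1) {n : ℤ} (hn : 2 ≤ n) (s : ℤ) (A C : List Lt) (hA : dn A = 0) :
    Eqw n (A ++ .t s :: C) (A ++ .t (s % n) :: C) := by
  have h := b2.ectx (n := n) A C (by rw [hA, add_zero]; exact t_mod b2 c1 hn s)
  simpa [List.append_assoc] using h

theorem free_par (b1 : SB1) {n c : ℤ} {W : List Lt} {E : List (ℕ × ℕ)} (h : Free n c W E) :
    (c = 0 ∨ c = 1) ∧ dc W % 2 = 0 := by
  obtain ⟨⟨b, hb⟩, -⟩ := h
  have h1 : c = 0 ∨ c = 1 := (b1.okl hb).2.2.1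
  have h2 : c = (c + dc W) % 2 := b1.wc hb
  exact ⟨h1, by omega⟩

theorem bad_odd (b1 : SB1) {n : ℤ} {W : List Lt} (h : dc W % 2 = 1) : BadW n W := by
  intro c E hE
  have := (free_par b1 hE).2
  omega

theorem bad_eqw (b2 : SB2) {n : ℤ} {D D' : List Lt} (h : Eqw n D D') (h' : BadW n D') :
    BadW n D := b2.bad_of (b2.mn_of h.2) h'

theorem good_eqw {n c : ℤ} {D D' : List Lt} (h : Eqw n D D')
    (h' : ∀ E, Free n c D' E → GoodG (gr E)) {E : List (ℕ × ℕ)} (hE : Free n c D E) :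
    GoodG (gr E) := by
  obtain ⟨E', h1, h2⟩ := (h.2.2 c []).1 E (by simpa using hE)
  rcases h' E' (by simpa using h1) with h3 | h3
  · exact Or.inl (h2.1.2 h3)
  · exact Or.inr (h2.2.2 h3)

theorem wind_cases : ∀ ks : List ℕ, wind ks ≤ 3 → ks = [] ∨ ks = [0] ∨ ks = [1] ∨ ks = [0, 0] ∨
    ks = [2] ∨ ks = [0, 1] ∨ ks = [1, 0] ∨ ks = [0, 0, 0]
  | [], _ => by simp
  | [a], h => by
    simp only [wind, List.map_cons, List.map_nil, List.sum_cons, List.sum_nil] at h
    simp only [List.cons.injEq, and_true, reduceCtorEq, and_false, false_or, or_false]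
    omega
  | [a, b], h => by
    simp only [wind, List.map_cons, List.map_nil, List.sum_cons, List.sum_nil] at h
    simp only [List.cons.injEq, and_true, reduceCtorEq, and_false, false_or, or_false]
    omega
  | [a, b, c], h => by
    simp only [wind, List.map_cons, List.map_nil, List.sum_cons, List.sum_nil] at h
    simp only [List.cons.injEq, and_true, reduceCtorEq, and_false, false_or]
    omega
  | a :: b :: c :: d :: L, h => by
    simp only [wind, List.map_cons, List.sum_cons] at h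
    omega

theorem w4_br (c : ℤ) (l : List ℤ) : IsBr (w4 c l) := by
  intro g hg
  obtain ⟨i, -, rfl⟩ := List.mem_map.1 hg
  exact ⟨_, Or.inl rfl⟩

theorem w4_dc (c : ℤ) : ∀ l : List ℤ, dc (w4 c l) = 0
  | [] => rfl
  | _ :: l => w4_dc c l

theorem gm_all (ck : SCk) (c r : ℕ) (ks : List ℕ) (hc : c < 2) (hr : r < 4) (hk : wind ks ≤ 3)
    (hp : (r + wind ks) % 2 = 0) : GM c r ks := by
  rcases wind_cases ks hk with rfl | rfl | rfl | rfl | rfl | rfl | rfl | rfl
  · have h : r = 0 ∨ r = 2 := by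
      have e : wind [] = 0 := rfl
      omega
    have h' : c = 0 ∨ c = 1 := by omega
    rcases h with rfl | rfl <;> rcases h' with rfl | rfl
    exacts [blkM_spec ck m0_0_0, blkM_spec ck m1_0_0, blkM_spec ck m0_0_2,
      blkM_spec ck m1_0_2]
  · have h : r = 1 ∨ r = 3 := by
      have e : wind [0] = 1 := rfl
      omega
    have h' : c = 0 ∨ c = 1 := by omega
    rcases h with rfl | rfl <;> rcases h' with rfl | rfl
    exacts [blkM_spec ck m0_1_1, blkM_spec ck m1_1_1, blkM_spec ck m0_1_3,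
      blkM_spec ck m1_1_3]
  · have h : r = 0 ∨ r = 2 := by
      have e : wind [1] = 2 := rfl
      omega
    have h' : c = 0 ∨ c = 1 := by omega
    rcases h with rfl | rfl <;> rcases h' with rfl | rfl
    exacts [blkM_spec ck m0_2_0, blkM_spec ck m1_2_0, blkM_spec ck m0_2_2,
      blkM_spec ck m1_2_2]
  · have h : r = 0 ∨ r = 2 := by
      have e : wind [0, 0] = 2 := rfl
      omega
    have h' : c = 0 ∨ c = 1 := by omega
    rcases h with rfl | rfl <;> rcases h' with rfl | rfl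
    exacts [blkM_spec ck m0_3_0, blkM_spec ck m1_3_0, blkM_spec ck m0_3_2,
      blkM_spec ck m1_3_2]
  · have h : r = 1 ∨ r = 3 := by
      have e : wind [2] = 3 := rfl
      omega
    have h' : c = 0 ∨ c = 1 := by omega
    rcases h with rfl | rfl <;> rcases h' with rfl | rfl
    exacts [blkM_spec ck m0_4_1, blkM_spec ck m1_4_1, blkM_spec ck m0_4_3,
      blkM_spec ck m1_4_3]
  · have h : r = 1 ∨ r = 3 := by
      have e : wind [0, 1] = 3 := rfl
      omega
    have h' : c = 0 ∨ c = 1 := by omega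
    rcases h with rfl | rfl <;> rcases h' with rfl | rfl
    exacts [blkM_spec ck m0_5_1, blkM_spec ck m1_5_1, blkM_spec ck m0_5_3,
      blkM_spec ck m1_5_3]
  · have h : r = 1 ∨ r = 3 := by
      have e : wind [1, 0] = 3 := rfl
      omega
    have h' : c = 0 ∨ c = 1 := by omega
    rcases h with rfl | rfl <;> rcases h' with rfl | rfl
    exacts [blkM_spec ck m0_6_1, blkM_spec ck m1_6_1, blkM_spec ck m0_6_3,
      blkM_spec ck m1_6_3]
  · have h : r = 1 ∨ r = 3 := by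
      have e : wind [0, 0, 0] = 3 := rfl
      omega
    have h' : c = 0 ∨ c = 1 := by omega
    rcases h with rfl | rfl <;> rcases h' with rfl | rfl
    exacts [blkM_spec ck m0_7_1, blkM_spec ck m1_7_1, blkM_spec ck m0_7_3,
      blkM_spec ck m1_7_3]

theorem m2 (b1 : SB1) (b2 : SB2) (c1 : SC1) (ck : SCk) (c : ℤ) (l : List ℤ) (s : ℤ) (ks : List ℕ)
    (E : List (ℕ × ℕ)) (hl : l ∈ S4) (hk : wind ks ≤ 3)
    (hE : Free 4 c (w4 c l ++ .t s :: (Z 4 ks ++ [.r])) E) : GoodG (gr E) := by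
  obtain ⟨hc, hp⟩ := free_par b1 hE
  have e : dc (w4 c l ++ .t s :: (Z 4 ks ++ [.r])) = s + wind ks := by
    have e0 : dc [Lt.r] = 0 := rfl
    rw [b1.dc_app, w4_dc, dc, b1.dc_app, b1.z_dc, e0, zero_add, add_zero]
  rw [e] at hp
  obtain ⟨c', rfl⟩ : ∃ c' : ℕ, c = c' := ⟨c.toNat, by omega⟩
  obtain ⟨r, hr⟩ : ∃ r : ℕ, s % 4 = r := ⟨(s % 4).toNat, by omega⟩
  have h := t_ctx b2 c1 (n := 4) (by norm_num) s (w4 c' l) (Z 4 ks ++ [.r])
    (b1.br_dn (w4_br _ _))
  rw [hr] at h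
  exact good_eqw h (gm_all ck c' r ks (by omega) (by omega) hk (by omega) l hl) hE

end STaux

theorem pST (b1 : SB1) (b2 : SB2) (c1 : SC1) (ck : SCk) : ST where
  t0 := ck.badw 6 _ _ _ STaux.h0_6
  t1 := by
    rintro n (rfl | rfl)
    exacts [ck.badw 6 _ _ _ STaux.h1_6, ck.badw 8 _ _ _ STaux.h1_8]
  t2 := by
    rintro n (rfl | rfl)
    exacts [ck.badw 6 _ _ _ STaux.h2_6, ck.badw 8 _ _ _ STaux.h2_8]
  t3 := by
    rintro n (rfl | rfl)
    exacts [ck.badw 6 _ _ _ STaux.h3_6, ck.badw 8 _ _ _ STaux.h3_8]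
  t4 := by
    rintro n (rfl | rfl | rfl)
    exacts [ck.badw 4 _ _ _ STaux.h4_4, ck.badw 6 _ _ _ STaux.h4_6, ck.badw 8 _ _ _ STaux.h4_8]
  tx := ck.badw 8 _ _ _ STaux.hx
  m2 := STaux.m2 b1 b2 c1 ck

end Pool.Agent.P.MP_5af56b_co.Kl
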