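import Pool.Agent.P.MP_5af56b_co.Kl.Chk

namespace Pool.Agent.P.MP_5af56b_co.Kl

namespace STaux

theorem evb_app (S : ES) : ∀ A B : List Lt, evb S (A ++ B) = evb (evb S B) A
  | [], _ => rfl
  | g :: A, B => by rw [List.cons_append, evb, evb, evb_app S A B]

def esB (S T : ES) : Bool :=
  Nat.beq S.n T.n && Nat.beq S.c T.c && decide (S.cur = T.cur) && decide (S.top = T.top) &&
    Nat.beq S.nx T.nx && decide (S.E = T.E) && decide (S.ok = T.ok)

theorem esB_eq {S T : ES} (h : esB S T = true) : S = T := by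
  obtain ⟨a1, a2, a3, a4, a5, a6, a7⟩ := S
  obtain ⟨b1, b2, b3, b4, b5, b6, b7⟩ := T
  simp only [esB, Bool.and_eq_true, decide_eq_true_eq, Nat.beq_eq] at h
  obtain ⟨⟨⟨⟨⟨⟨h1, h2⟩, h3⟩, h4⟩, h5⟩, h6⟩, h7⟩ := h
  subst h1 h2 h3 h4 h5 h6 h7
  rfl

/-- the check `goodC` read off the final state -/
def goodS (c : ℕ) (S : ES) (C : ℕ) : Bool :=
  (S.ok && Nat.beq S.n 4 && Nat.beq S.c c && Nat.beq (4 % 2) 0 && Nat.ble c 1) &&
    bif Nat.beq (C % 2) 1 then badCk (C / 2) (cls (4 + 1) S).E else rdCk (C / 2) (cls (4 + 1) S).E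

theorem goodC_eq (c : ℕ) (W : List Lt) (C : ℕ) :
    goodC 4 c W C = goodS c (evb (es0 4 c) W) C := rfl

def allS (c : ℕ) (T : ES) : List (List ℤ) → List ℕ → Bool
  | [], _ => true
  | _ :: _, [] => false
  | l :: L, C :: Cs => goodS c (evb T (w4 c l)) C && allS c T L Cs

theorem allS_spec {c : ℕ} {T : ES} : ∀ {L : List (List ℤ)} {Cs : List ℕ}, allS c T L Cs = true →
    ∀ l ∈ L, ∃ C, goodS c (evb T (w4 c l)) C = true
  | [], _, _, l, hl => by simp at hl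
  | _ :: _, [], h, _, _ => by simp [allS] at h
  | l0 :: L, C :: Cs, h, l, hl => by
    rw [allS, Bool.and_eq_true] at h
    rcases List.mem_cons.1 hl with rfl | hl
    · exact ⟨C, h.1⟩
    · exact allS_spec h.2 l hl

def blkM (c r : ℕ) (ks : List ℕ) (T : ES) (Cs : List ℕ) : Bool :=
  esB (evb (es0 4 c) (.t r :: (Z 4 ks ++ [.r]))) T && allS c T S4 Cs

/-- all twenty-four words over a fixed tail -/
def GM (c r : ℕ) (ks : List ℕ) : Prop :=
  ∀ l ∈ S4, ∀ E, Free 4 c (w4 c l ++ .t r :: (Z 4 ks ++ [.r])) E → GoodG (gr E)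

theorem blkM_spec (ck : SCk) {c r : ℕ} {ks : List ℕ} {T : ES} {Cs : List ℕ}
    (h : blkM c r ks T Cs = true) : GM c r ks := by
  rw [blkM, Bool.and_eq_true] at h
  intro l hl E hE
  obtain ⟨C, hC⟩ := allS_spec h.2 l hl
  rw [← esB_eq h.1, ← evb_app, ← goodC_eq] at hC
  exact ck.good 4 c _ C hC E hE

end STaux

end Pool.Agent.P.MP_5af56b_co.Kl
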